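import Pool.Agent.TH970.Lit4

namespace Pool.Agent.TH970

open MeasureTheory ProbabilityTheory Set Filter Topology
open scoped ENNReal NNReal

set_option linter.unusedSectionVars false
set_option linter.unusedVariables false

variable {Ω : Type*} [MeasurableSpace Ω] {P : Measure Ω} [IsProbabilityMeasure P]
  {X : ℝ≥0 → Ω → ℝ} {x : ℕ → Ω → ℝ} {Y : ℕ → ℝ≥0 → Ω → ℝ}

/-- every Brownian motion has a version all of whose paths are continuous. -/
lemma exists_CBM (hX : IsBrownianReal X P) (hm : ∀ t, Measurable (X t)) :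
    ∃ X' : ℝ≥0 → Ω → ℝ, CBM P X' ∧ ∀ᵐ ω ∂P, path X ω = path X' ω := by
  classical
  have h1 : ∀ᵐ ω ∂P, Continuous (path X ω) ∧ X 0 ω = 0 := by
    filter_upwards [hX.cont, hX.toIsPreBrownianReal.eval_zero_ae_eq_zero] with ω h1 h2
    exact ⟨h1, h2⟩
  obtain ⟨N, hN1, hN2, hN3⟩ := exists_measurable_superset_of_null (ae_iff.mp h1)
  set X' : ℝ≥0 → Ω → ℝ := fun t ω => if ω ∈ N then 0 else X t ω with hX'
  have hgood : ∀ ω, ω ∉ N → Continuous (path X ω) ∧ X 0 ω = 0 := by
    intro ω hω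
    by_contra hcon
    exact hω (hN1 hcon)
  have hae : ∀ᵐ ω ∂P, ω ∉ N := by
    rw [ae_iff]
    simpa using hN3
  refine ⟨X', ⟨fun t => ?_, fun ω => ?_, fun ω => ?_, ?_⟩, ?_⟩
  · exact Measurable.ite hN2 measurable_const (hm t)
  · by_cases hω : ω ∈ N
    · have : path X' ω = fun _ => 0 := by
        ext s
        simp [path, hX', hω]
      rw [this]
      exact continuous_const
    · have : path X' ω = path X ω := by
        ext s
        simp [path, hX', hω]
      rw [this]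
      exact (hgood ω hω).1
  · by_cases hω : ω ∈ N
    · simp [hX', hω]
    · simp only [hX', hω, if_false]
      exact (hgood ω hω).2
  · refine hX.toIsPreBrownianReal.congr fun t => ?_
    filter_upwards [hae] with ω hω
    simp [hX', hω]
  · filter_upwards [hae] with ω hω
    ext s
    simp [path, hX', hω]

lemma no_hit_of_lt {a : ℝ} {t : ℝ≥0} {ω : Ω} (h : (t : ℝ≥0∞) < rangeHitTime a X x Y ω) :
    ∀ i, x i ω ∉ Hit (UL t) (VL t) a (path X ω) (path (Y i) ω) := by
  rintro i ⟨n, hn⟩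
  have h1 : rangeHitTime a X x Y ω ≤ ((VL t n : ℝ≥0) : ℝ≥0∞) := by
    unfold rangeHitTime
    refine iInf₂_le (VL t n) ?_
    refine ⟨X (UL t n) ω, ⟨UL t n, ?_, rfl⟩, ?_⟩
    · show UL t n ≤ VL t n
      unfold UL VL
      exact min_le_right _ _
    · unfold trapField
      rw [mem_iUnion]
      refine ⟨i, ?_⟩
      rw [Metric.mem_closedBall, Real.dist_eq, abs_sub_comm]
      exact hn.le
  have h2 : ((VL t n : ℝ≥0) : ℝ≥0∞) ≤ t := by
    have h3 : VL t n ≤ t := by
      unfold VL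
      exact min_le_right _ _
    exact_mod_cast h3
  exact absurd (h.trans_le (h1.trans h2)) (lt_irrefl _)

lemma lt_of_no_hit {a a' : ℝ} (haa : a < a') {t t' : ℝ≥0} (htt : t < t') {ω : Ω}
    (hXc : Continuous (path X ω)) (hYc : ∀ i, Continuous (path (Y i) ω))
    (h : ∀ i, x i ω ∉ Hit (UL t') (VL t') a' (path X ω) (path (Y i) ω)) :
    (t : ℝ≥0∞) < rangeHitTime a X x Y ω := by
  have h1 : (t' : ℝ≥0∞) ≤ rangeHitTime a X x Y ω := by
    unfold rangeHitTime
    refine le_iInf₂ fun s hs => ?_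
    by_contra hcon
    push Not at hcon
    have hst : s < t' := by exact_mod_cast hcon
    obtain ⟨v, ⟨u, hu, huv⟩, hv⟩ := hs
    unfold trapField at hv
    rw [mem_iUnion] at hv
    obtain ⟨i, hi⟩ := hv
    apply h i
    rw [Metric.mem_closedBall, Real.dist_eq] at hi
    have huv' : X u ω = v := huv
    rw [← huv', abs_sub_comm] at hi
    have hus : u ≤ s := hu
    set G : ℝ≥0 × ℝ≥0 → ℝ := fun z =>
      |x i ω + path (Y i) ω (min z.2 t') - path X ω (min z.1 (min z.2 t'))| with hG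
    have hYi := hYc i
    have hGc : Continuous G := by
      rw [hG]
      fun_prop
    have hopen : IsOpen {z : ℝ≥0 × ℝ≥0 | G z < a'} := isOpen_lt hGc continuous_const
    obtain ⟨n, hn⟩ := dense_pair.exists_mem_open hopen ⟨(u, s), by
      simp only [hG, Set.mem_ofPred_eq, min_eq_left hst.le, min_eq_left hus]
      exact lt_of_le_of_lt hi haa⟩
    exact ⟨n, hn⟩
  exact lt_of_lt_of_le (by exact_mod_cast htt) h1

lemma ae_cont_traps {lam : ℝ≥0} (hM : TrapModel P lam X x Y) :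
    ∀ᵐ ω ∂P, Continuous (path X ω) ∧ ∀ i, Continuous (path (Y i) ω) := by
  have h1 : ∀ᵐ ω ∂P, ∀ i, Continuous (path (Y i) ω) := ae_all_iff.mpr fun i => (hM.traps i).cont
  filter_upwards [hM.particle.cont, h1] with ω h2 h3
  exact ⟨h2, h3⟩

/-- evaluation of the mean volume -/
lemma mv_eq {X' : ℝ≥0 → Ω → ℝ} (hX' : CBM P X') (hXX : ∀ᵐ ω ∂P, path X ω = path X' ω) {t : ℝ≥0}
    {a : ℝ} (ha : 0 < a) {c : ℝ≥0 → ℝ} (hc : Continuous c) (hc0 : c 0 = 0) :
    mv P X (UL t) (VL t) a c = ENNReal.ofReal (2 * a) + hL P X' t c := by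
  unfold mv
  have h1 : ∫⁻ ω', volume (Hit (UL t) (VL t) a c (path X ω')) ∂P =
      ∫⁻ ω', (ENNReal.ofReal (2 * a) + (ENNReal.ofReal (DL t c (-path X' ω')) +
        ENNReal.ofReal (DL t (-c) (path X' ω')))) ∂P := by
    refine lintegral_congr_ae ?_
    filter_upwards [hXX] with ω' hω'
    rw [hω', vol_hit_L hc (hX'.cont ω') t ha]
    have h2 := DL_nonneg hc (hX'.cont ω').neg hc0 (by simp [hX'.path_zero ω']) t
    have h3 := DL_nonneg hc.neg (hX'.cont ω') (by simp [hc0]) (hX'.path_zero ω') t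
    rw [← ENNReal.ofReal_add h2 h3, ← ENNReal.ofReal_add (by linarith) (by linarith)]
    congr 1
    ring
  rw [h1, lintegral_add_left measurable_const, lintegral_const, measure_univ, mul_one]
  congr 1
  have hm1 : Measurable (fun y : ℝ≥0 → ℝ => ENNReal.ofReal (DL t c y)) :=
    ((measurable_DL t).comp (Measurable.prodMk (measurable_const (a := c))
      measurable_id)).ennreal_ofReal
  have hm2 : Measurable (fun ω' => ENNReal.ofReal (DL t c (-path X' ω'))) :=
    hm1.comp (hX'.mpath.neg)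
  rw [lintegral_add_left hm2]
  unfold hL PhiL
  congr 1
  exact lintegral_neg hX' hm1

/-- The survival probability in terms of the functional `hL`, grid version. -/
lemma survival_hL {lam : ℝ≥0} (hM : TrapModel P lam X x Y) {X' : ℝ≥0 → Ω → ℝ} (hX' : CBM P X')
    (hXX : ∀ᵐ ω ∂P, path X ω = path X' ω) {t : ℝ≥0} (ht : 0 < t) {a : ℝ} (ha : 0 < a)
    {A : Set (ℝ≥0 → ℝ)} (hA : MeasurableSet A) :
    P {ω | path X ω ∈ A ∧ ∀ i, x i ω ∉ Hit (UL t) (VL t) a (path X ω) (path (Y i) ω)} =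
      ex lam (ENNReal.ofReal (2 * a)) * WL P X' lam t A := by
  have hmv : ∀ᵐ ω ∂P, mv P X (UL t) (VL t) a (path X ω) =
      ENNReal.ofReal (2 * a) + hL P X' t (path X' ω) := by
    filter_upwards [hXX] with ω hω
    rw [hω]
    exact mv_eq hX' hXX ha (hX'.cont ω) (hX'.path_zero ω)
  have hfin : ∀ᵐ ω ∂P, mv P X (UL t) (VL t) a (path X ω) ≠ ∞ := by
    filter_upwards [hmv] with ω hω
    rw [hω]
    exact ENNReal.add_ne_top.mpr ⟨ENNReal.ofReal_ne_top, hL_ne_top hX' ht (hX'.cont ω)⟩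
  rw [survival_formula hM (UL t) (VL t) a hfin hA]
  have hc : ex lam (ENNReal.ofReal (2 * a)) ≠ ∞ :=
    ne_top_of_le_ne_top ENNReal.one_ne_top (ex_le_one _ _)
  unfold WL
  rw [← lintegral_const_mul' _ _ hc]
  have hAX : MeasurableSet {ω | path X ω ∈ A} := (measurable_path hM.measurable_particle) hA
  have hAX' : MeasurableSet {ω | path X' ω ∈ A} := hX'.mpath hA
  rw [← lintegral_indicator hAX, ← lintegral_indicator hAX']
  refine lintegral_congr_ae ?_
  filter_upwards [hXX, hmv] with ω h1 h2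
  by_cases h3 : path X ω ∈ A
  · have h4 : path X' ω ∈ A := h1 ▸ h3
    rw [indicator_of_mem (by exact h3), indicator_of_mem (by exact h4), h2,
      ex_add lam ENNReal.ofReal_ne_top (hL_ne_top hX' ht (hX'.cont ω))]
  · have h4 : path X' ω ∉ A := h1 ▸ h3
    rw [indicator_of_notMem (by exact h3), indicator_of_notMem (by exact h4)]

lemma survival_upper {lam : ℝ≥0} (hM : TrapModel P lam X x Y) {X' : ℝ≥0 → Ω → ℝ} (hX' : CBM P X')
    (hXX : ∀ᵐ ω ∂P, path X ω = path X' ω) {t : ℝ≥0} (ht : 0 < t) {a : ℝ} (ha : 0 < a)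
    {A : Set (ℝ≥0 → ℝ)} (hA : MeasurableSet A) :
    P ({ω | path X ω ∈ A} ∩ {ω | (t : ℝ≥0∞) < rangeHitTime a X x Y ω}) ≤ WL P X' lam t A := by
  calc P ({ω | path X ω ∈ A} ∩ {ω | (t : ℝ≥0∞) < rangeHitTime a X x Y ω})
      ≤ P {ω | path X ω ∈ A ∧ ∀ i, x i ω ∉ Hit (UL t) (VL t) a (path X ω) (path (Y i) ω)} := by
        refine measure_mono ?_
        rintro ω ⟨h1, h2⟩
        exact ⟨h1, no_hit_of_lt h2⟩
    _ = ex lam (ENNReal.ofReal (2 * a)) * WL P X' lam t A :=
        survival_hL hM hX' hXX ht ha hA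
    _ ≤ 1 * WL P X' lam t A := mul_le_mul' (ex_le_one _ _) le_rfl
    _ = _ := one_mul _

/-- the constant in the lower bound -/
noncomputable def Kc (P : Measure Ω) (X : ℝ≥0 → Ω → ℝ) (lam : ℝ≥0) (a : ℝ) : ℝ≥0∞ :=
  ex lam (ENNReal.ofReal (2 * (a + 1))) *
    (ex lam (ENNReal.ofReal 6) * P {ω | am (path X ω) 1 ≤ 1})

lemma Kc_pos (hX : CBM P X) (lam : ℝ≥0) (a : ℝ) : Kc P X lam a ≠ 0 := by
  unfold Kc
  refine mul_ne_zero (ex_pos _ _).ne' (mul_ne_zero (ex_pos _ _).ne' ?_)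
  have h1 := small_ball_lower hX 1 (r := 1) one_pos
  refine (lt_of_lt_of_le ?_ h1).ne'
  rw [ENNReal.ofReal_pos]
  exact Real.exp_pos _

lemma Kc_ne_top (lam : ℝ≥0) (a : ℝ) : Kc P X lam a ≠ ∞ := by
  unfold Kc
  refine ENNReal.mul_ne_top (ne_top_of_le_ne_top ENNReal.one_ne_top (ex_le_one _ _))
    (ENNReal.mul_ne_top (ne_top_of_le_ne_top ENNReal.one_ne_top (ex_le_one _ _))
      (measure_ne_top _ _))

lemma survival_lower {lam : ℝ≥0} (hM : TrapModel P lam X x Y) {X' : ℝ≥0 → Ω → ℝ} (hX' : CBM P X')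
    (hXX : ∀ᵐ ω ∂P, path X ω = path X' ω) {t : ℝ≥0} (ht : 0 < t) {a : ℝ} (ha : 0 < a) :
    Kc P X' lam a * WL P X' lam t univ ≤ P {ω | (t : ℝ≥0∞) < rangeHitTime a X x Y ω} := by
  have h1 := survival_hL hM hX' hXX (t := t + 1) (by positivity) (a := a + 1) (by linarith)
    (A := univ) MeasurableSet.univ
  have h2 := WL_extend hX' lam ht
  calc Kc P X' lam a * WL P X' lam t univ
      = ex lam (ENNReal.ofReal (2 * (a + 1))) *
        (ex lam (ENNReal.ofReal 6) * P {ω | am (path X' ω) 1 ≤ 1} * WL P X' lam t univ) := by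
        unfold Kc
        ring
    _ ≤ ex lam (ENNReal.ofReal (2 * (a + 1))) * WL P X' lam (t + 1) univ :=
        mul_le_mul' le_rfl h2
    _ = _ := h1.symm
    _ ≤ _ := by
        refine measure_mono_ae ?_
        filter_upwards [ae_cont_traps hM] with ω hω h3
        have h4 : ∀ i, x i ω ∉ Hit (UL (t + 1)) (VL (t + 1)) (a + 1) (path X ω) (path (Y i) ω) :=
          h3.2
        exact lt_of_no_hit (lt_add_one a) (lt_add_one t) hω.1 hω.2 h4

/-- The displacement in terms of the absolute maximum. -/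
lemma disp_eq {w : ℝ≥0 → ℝ} (hw : Continuous w) (t : ℝ≥0) :
    max (sSup (w '' Set.Iic t)) (-sInf (w '' Set.Iic t)) = am w t := by
  have hne : (w '' Set.Iic t).Nonempty := ⟨w 0, 0, Set.mem_Iic.mpr zero_le, rfl⟩
  have hcpt : IsCompact (Set.Iic t) := by
    have : Set.Iic t = Icc 0 t := by ext s; simp
    rw [this]
    exact isCompact_Icc
  have hK := hcpt.image hw
  apply le_antisymm
  · apply max_le
    · refine csSup_le hne ?_
      rintro _ ⟨s, hs, rfl⟩
      exact (le_abs_self _).trans (le_am hw hs)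
    · rw [neg_le]
      refine le_csInf hne ?_
      rintro _ ⟨s, hs, rfl⟩
      have := (abs_le.mp (le_am hw hs)).1
      exact this
  · refine am_le fun s hs => ?_
    rw [abs_le]
    have h1 : w s ≤ sSup (w '' Set.Iic t) := le_csSup hK.bddAbove ⟨s, hs, rfl⟩
    have h2 : sInf (w '' Set.Iic t) ≤ w s := csInf_le hK.bddBelow ⟨s, hs, rfl⟩
    constructor
    · have := le_max_right (sSup (w '' Set.Iic t)) (-sInf (w '' Set.Iic t))
      linarith
    · exact h1.trans (le_max_left _ _)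

/-- Large displacements: the conditional probability tends to zero. -/
lemma ratio_large {lam : ℝ≥0} (hlam : 0 < lam) (hM : TrapModel P lam X x Y) {a : ℝ} (ha : 0 < a)
    {α : ℝ} (hα : 1 / 3 < α) (hα2 : α < 1 / 2) {c : ℝ} (hc : 0 < c) :
    Tendsto (fun t : ℝ≥0 => P ({ω | c * (t:ℝ) ^ α ≤ disp X t ω} ∩
      {ω | (t : ℝ≥0∞) < rangeHitTime a X x Y ω}) /
      P {ω | (t : ℝ≥0∞) < rangeHitTime a X x Y ω}) atTop (𝓝 0) := by
  obtain ⟨X', hX', hXX⟩ := exists_CBM hM.particle hM.measurable_particle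
  have h1 := Neg_main hX' hlam hα hα2 c hc
  have h2 := ENNReal.Tendsto.const_mul (a := (Kc P X' lam a)⁻¹) h1
    (Or.inr (ENNReal.inv_ne_top.mpr (Kc_pos hX' lam a)))
  rw [mul_zero] at h2
  refine tendsto_of_tendsto_of_tendsto_of_le_of_le' tendsto_const_nhds h2
    (Eventually.of_forall fun _ => zero_le) ?_
  filter_upwards [eventually_gt_atTop 0] with t ht
  have hA : MeasurableSet {w : ℝ≥0 → ℝ | c * (t:ℝ) ^ α ≤ am w t} :=
    measurableSet_le measurable_const (measurable_am t)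
  have h3 : P ({ω | c * (t:ℝ) ^ α ≤ disp X t ω} ∩
      {ω | (t : ℝ≥0∞) < rangeHitTime a X x Y ω}) ≤
      WL P X' lam t {w | c * (t:ℝ) ^ α ≤ am w t} := by
    refine le_trans (measure_mono_ae ?_) (survival_upper hM hX' hXX ht ha hA)
    filter_upwards [hM.particle.cont] with ω hω h4
    refine ⟨?_, h4.2⟩
    have h5 : c * (t:ℝ) ^ α ≤ disp X t ω := h4.1
    have h6 : disp X t ω = am (path X ω) t := disp_eq (w := path X ω) hω t
    show c * (t:ℝ) ^ α ≤ am (path X ω) t
    rwa [← h6]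
  have h4 := survival_lower hM hX' hXX ht ha
  calc _ ≤ WL P X' lam t {w | c * (t:ℝ) ^ α ≤ am w t} / (Kc P X' lam a * WL P X' lam t univ) :=
        ENNReal.div_le_div h3 h4
    _ = _ := by
        rw [div_eq_mul_inv, ENNReal.mul_inv (Or.inl (Kc_pos hX' lam a))
          (Or.inl (Kc_ne_top lam a)), div_eq_mul_inv]
        ring

/-- Small displacements: the conditional probability tends to zero. -/
lemma ratio_small {lam : ℝ≥0} (hM : TrapModel P lam X x Y) {a : ℝ} (ha : 0 < a)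
    {α : ℝ} (hα0 : 0 < α) (hα : α < 1 / 3) {c : ℝ} (hc : 0 < c) :
    Tendsto (fun t : ℝ≥0 => P ({ω | disp X t ω < c * (t:ℝ) ^ α} ∩
      {ω | (t : ℝ≥0∞) < rangeHitTime a X x Y ω}) /
      P {ω | (t : ℝ≥0∞) < rangeHitTime a X x Y ω}) atTop (𝓝 0) := by
  obtain ⟨X', hX', hXX⟩ := exists_CBM hM.particle hM.measurable_particle
  have h1 := Small_main hX' (lam := lam) hα0 hα hc
  have h2 := ENNReal.Tendsto.const_mul (a := (Kc P X' lam a)⁻¹) h1
    (Or.inr (ENNReal.inv_ne_top.mpr (Kc_pos hX' lam a)))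
  rw [mul_zero] at h2
  refine tendsto_of_tendsto_of_tendsto_of_le_of_le' tendsto_const_nhds h2
    (Eventually.of_forall fun _ => zero_le) ?_
  filter_upwards [eventually_gt_atTop 0] with t ht
  have hA : MeasurableSet {w : ℝ≥0 → ℝ | am w t ≤ c * (t:ℝ) ^ α} :=
    measurableSet_am_le t _
  have h3 : P ({ω | disp X t ω < c * (t:ℝ) ^ α} ∩
      {ω | (t : ℝ≥0∞) < rangeHitTime a X x Y ω}) ≤
      WL P X' lam t {w | am w t ≤ c * (t:ℝ) ^ α} := by
    refine le_trans (measure_mono_ae ?_) (survival_upper hM hX' hXX ht ha hA)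
    filter_upwards [hM.particle.cont] with ω hω h4
    refine ⟨?_, h4.2⟩
    have h5 : disp X t ω < c * (t:ℝ) ^ α := h4.1
    have h6 : disp X t ω = am (path X ω) t := disp_eq (w := path X ω) hω t
    show am (path X ω) t ≤ c * (t:ℝ) ^ α
    rw [← h6]
    exact h5.le
  have h4 := survival_lower hM hX' hXX ht ha
  calc _ ≤ WL P X' lam t {w | am w t ≤ c * (t:ℝ) ^ α} / (Kc P X' lam a * WL P X' lam t univ) :=
        ENNReal.div_le_div h3 h4
    _ = _ := by
        rw [div_eq_mul_inv, ENNReal.mul_inv (Or.inl (Kc_pos hX' lam a))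
          (Or.inl (Kc_ne_top lam a)), div_eq_mul_inv]
        ring

lemma survival_pos {lam : ℝ≥0} (hM : TrapModel P lam X x Y) {a : ℝ} (ha : 0 < a) {t : ℝ≥0}
    (ht : 0 < t) : P {ω | (t : ℝ≥0∞) < rangeHitTime a X x Y ω} ≠ 0 := by
  obtain ⟨X', hX', hXX⟩ := exists_CBM hM.particle hM.measurable_particle
  have h4 := survival_lower hM hX' hXX ht ha
  intro h0
  rw [h0] at h4
  exact mul_ne_zero (Kc_pos hX' lam a) (WL_univ_pos lam t hX') (le_antisymm h4 zero_le)

end Pool.Agent.TH970
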