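import Pool.Agent.TH970.Fin3
import Pool.Agent.TH970.LitModel

namespace Pool.Agent.TH970

open MeasureTheory ProbabilityTheory Set Filter Topology
open scoped ENNReal NNReal

set_option linter.unusedSectionVars false
set_option linter.unusedVariables false

/-- dense times of `[0,t]` -/
noncomputable def TD (t : ℝ≥0) (n : ℕ) : ℝ≥0 := min (dq n) t

lemma mx_eq_TD (w : ℝ≥0 → ℝ) (t : ℝ≥0) : mx w 0 t = ⨆ n, w (TD t n) := by
  unfold mx TD
  simp

lemma vol_hit_P {c y : ℝ≥0 → ℝ} (hc : Continuous c) (hy : Continuous y) (t : ℝ≥0) {a : ℝ}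
    (ha : 0 < a) : volume (Hit (TD t) (TD t) a c y) =
      ENNReal.ofReal (2 * a + mx (c + -y) 0 t + mx (-c + y) 0 t) := by
  have := connected_nnreal
  set G : ℝ≥0 → ℝ := fun s => c (min s t) - y (min s t) with hG
  have hGc : Continuous G := by
    rw [hG]
    fun_prop
  have hcpt : IsCompact (range G) := by
    have h1 : range G = (fun s => c s - y s) '' Icc 0 t := by
      ext v
      constructor
      · rintro ⟨s, rfl⟩
        exact ⟨min s t, ⟨zero_le, min_le_right _ _⟩, rfl⟩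
      · rintro ⟨s, ⟨_, hs⟩, rfl⟩
        refine ⟨s, ?_⟩
        simp only [hG]
        rw [min_eq_left hs]
    rw [h1]
    exact isCompact_Icc.image (hc.sub hy)
  have h1 : Hit (TD t) (TD t) a c y = {z | ∃ n, |z - G (dq n)| < a} := by
    ext z
    constructor
    · rintro ⟨n, hn⟩
      refine ⟨n, ?_⟩
      simp only [hG]
      have e : z - (c (min (dq n) t) - y (min (dq n) t)) =
        z + y (TD t n) - c (TD t n) := by unfold TD; ring
      rw [e]
      exact hn
    · rintro ⟨n, hn⟩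
      refine ⟨n, ?_⟩
      simp only [hG] at hn
      have e : z - (c (min (dq n) t) - y (min (dq n) t)) =
        z + y (TD t n) - c (TD t n) := by unfold TD; ring
      rw [e] at hn
      exact hn
  rw [h1, vol_thick dense_dq hGc hcpt ha, mx_eq_TD, mx_eq_TD]
  have e1 : ∀ n, G (dq n) = (c + -y) (TD t n) := fun n => by
    simp only [hG, TD, Pi.add_apply, Pi.neg_apply]
    ring
  have e2 : ∀ n, -G (dq n) = (-c + y) (TD t n) := fun n => by
    simp only [hG, TD, Pi.add_apply, Pi.neg_apply]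
    ring
  simp_rw [e1]
  have e3 : ∀ n, -(c + -y) (TD t n) = (-c + y) (TD t n) := fun n => by
    simp only [Pi.add_apply, Pi.neg_apply]
    ring
  simp_rw [e3]

variable {Ω : Type*} [MeasurableSpace Ω] {P : Measure Ω} [IsProbabilityMeasure P]
  {X : ℝ≥0 → Ω → ℝ} {x : ℕ → Ω → ℝ} {Y : ℕ → ℝ≥0 → Ω → ℝ}

lemma no_hit_of_ltP {a : ℝ} {t : ℝ≥0} {ω : Ω} (h : (t : ℝ≥0∞) < hitTime a X x Y ω) :
    ∀ i, x i ω ∉ Hit (TD t) (TD t) a (path X ω) (path (Y i) ω) := by
  rintro i ⟨n, hn⟩
  have h1 : hitTime a X x Y ω ≤ ((TD t n : ℝ≥0) : ℝ≥0∞) := by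
    unfold hitTime
    refine iInf₂_le (TD t n) ?_
    unfold trapField
    rw [mem_iUnion]
    refine ⟨i, ?_⟩
    rw [Metric.mem_closedBall, Real.dist_eq, abs_sub_comm]
    exact hn.le
  have h2 : ((TD t n : ℝ≥0) : ℝ≥0∞) ≤ t := by
    have h3 : TD t n ≤ t := by
      unfold TD
      exact min_le_right _ _
    exact_mod_cast h3
  exact absurd (h.trans_le (h1.trans h2)) (lt_irrefl _)

lemma lt_of_no_hitP {a a' : ℝ} (haa : a < a') {t t' : ℝ≥0} (htt : t < t') {ω : Ω}
    (hXc : Continuous (path X ω)) (hYc : ∀ i, Continuous (path (Y i) ω))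
    (h : ∀ i, x i ω ∉ Hit (TD t') (TD t') a' (path X ω) (path (Y i) ω)) :
    (t : ℝ≥0∞) < hitTime a X x Y ω := by
  have h1 : (t' : ℝ≥0∞) ≤ hitTime a X x Y ω := by
    unfold hitTime
    refine le_iInf₂ fun s hs => ?_
    by_contra hcon
    push Not at hcon
    have hst : s < t' := by exact_mod_cast hcon
    unfold trapField at hs
    rw [mem_iUnion] at hs
    obtain ⟨i, hi⟩ := hs
    apply h i
    rw [Metric.mem_closedBall, Real.dist_eq, abs_sub_comm] at hi
    set G : ℝ≥0 → ℝ := fun z =>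
      |x i ω + path (Y i) ω (min z t') - path X ω (min z t')| with hG
    have hYi := hYc i
    have hGc : Continuous G := by
      rw [hG]
      fun_prop
    have hopen : IsOpen {z : ℝ≥0 | G z < a'} := isOpen_lt hGc continuous_const
    obtain ⟨n, hn⟩ := dense_dq.exists_mem_open hopen ⟨s, by
      simp only [hG, Set.mem_ofPred_eq, min_eq_left hst.le]
      exact lt_of_le_of_lt hi haa⟩
    exact ⟨n, hn⟩
  exact lt_of_lt_of_le (by exact_mod_cast htt) h1

/-- evaluation of the mean volume -/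
lemma mv_eqP {X' : ℝ≥0 → Ω → ℝ} (hX' : CBM P X') (hXX : ∀ᵐ ω ∂P, path X ω = path X' ω) {t : ℝ≥0}
    {a : ℝ} (ha : 0 < a) {c : ℝ≥0 → ℝ} (hc : Continuous c) (hc0 : c 0 = 0) :
    mv P X (TD t) (TD t) a c = ENNReal.ofReal (2 * a) + HC P X' t c := by
  unfold mv
  have h1 : ∫⁻ ω', volume (Hit (TD t) (TD t) a c (path X ω')) ∂P =
      ∫⁻ ω', (ENNReal.ofReal (2 * a) + (ENNReal.ofReal (mx (c + -path X' ω') 0 t) +
        ENNReal.ofReal (mx (-c + path X' ω') 0 t))) ∂P := by
    refine lintegral_congr_ae ?_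
    filter_upwards [hXX] with ω' hω'
    rw [hω', vol_hit_P hc (hX'.cont ω') t ha]
    have h2 : 0 ≤ mx (c + -path X' ω') 0 t := by
      have := le_mx (w := c + -path X' ω') (hc.add (hX'.cont ω').neg) (a := 0) (b := t) (s := 0)
        le_rfl zero_le
      simpa [hc0, hX'.path_zero ω'] using this
    have h3 := mx_add_nonneg hX' hc.neg (by simp [hc0]) t ω'
    rw [← ENNReal.ofReal_add h2 h3, ← ENNReal.ofReal_add (by linarith) (by linarith)]
    congr 1
    ring
  rw [h1, lintegral_add_left measurable_const, lintegral_const, measure_univ, mul_one]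
  congr 1
  have hm1 : Measurable (fun y : ℝ≥0 → ℝ => ENNReal.ofReal (mx (c + y) 0 t)) :=
    ((measurable_mx 0 t).comp (measurable_const.add measurable_id)).ennreal_ofReal
  have hm2 : Measurable (fun ω' => ENNReal.ofReal (mx (c + -path X' ω') 0 t)) :=
    hm1.comp (hX'.mpath.neg)
  rw [lintegral_add_left hm2]
  unfold HC PhiC
  congr 1
  exact lintegral_neg hX' hm1

/-- The survival probability in terms of the functional `HC`. -/
lemma survival_HC {lam : ℝ≥0} (hM : TrapModel P lam X x Y) {X' : ℝ≥0 → Ω → ℝ} (hX' : CBM P X')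
    (hXX : ∀ᵐ ω ∂P, path X ω = path X' ω) {t : ℝ≥0} (ht : 0 < t) {a : ℝ} (ha : 0 < a)
    {A : Set (ℝ≥0 → ℝ)} (hA : MeasurableSet A) :
    P {ω | path X ω ∈ A ∧ ∀ i, x i ω ∉ Hit (TD t) (TD t) a (path X ω) (path (Y i) ω)} =
      ex lam (ENNReal.ofReal (2 * a)) * WC P X' lam t A := by
  have hmv : ∀ᵐ ω ∂P, mv P X (TD t) (TD t) a (path X ω) =
      ENNReal.ofReal (2 * a) + HC P X' t (path X' ω) := by
    filter_upwards [hXX] with ω hω
    rw [hω]
    exact mv_eqP hX' hXX ha (hX'.cont ω) (hX'.path_zero ω)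
  have hfin : ∀ᵐ ω ∂P, mv P X (TD t) (TD t) a (path X ω) ≠ ∞ := by
    filter_upwards [hmv] with ω hω
    rw [hω]
    exact ENNReal.add_ne_top.mpr ⟨ENNReal.ofReal_ne_top, HC_ne_top hX' ht (hX'.cont ω)⟩
  rw [survival_formula hM (TD t) (TD t) a hfin hA]
  have hc : ex lam (ENNReal.ofReal (2 * a)) ≠ ∞ :=
    ne_top_of_le_ne_top ENNReal.one_ne_top (ex_le_one _ _)
  unfold WC
  rw [← lintegral_const_mul' _ _ hc]
  have hAX : MeasurableSet {ω | path X ω ∈ A} := (measurable_path hM.measurable_particle) hA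
  have hAX' : MeasurableSet {ω | path X' ω ∈ A} := hX'.mpath hA
  rw [← lintegral_indicator hAX, ← lintegral_indicator hAX']
  refine lintegral_congr_ae ?_
  filter_upwards [hXX, hmv] with ω h1 h2
  by_cases h3 : path X ω ∈ A
  · have h4 : path X' ω ∈ A := h1 ▸ h3
    rw [indicator_of_mem (by exact h3), indicator_of_mem (by exact h4), h2,
      ex_add lam ENNReal.ofReal_ne_top (HC_ne_top hX' ht (hX'.cont ω))]
  · have h4 : path X' ω ∉ A := h1 ▸ h3
    rw [indicator_of_notMem (by exact h3), indicator_of_notMem (by exact h4)]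

lemma survival_upperP {lam : ℝ≥0} (hM : TrapModel P lam X x Y) {X' : ℝ≥0 → Ω → ℝ}
    (hX' : CBM P X') (hXX : ∀ᵐ ω ∂P, path X ω = path X' ω) {t : ℝ≥0} (ht : 0 < t) {a : ℝ}
    (ha : 0 < a) {A : Set (ℝ≥0 → ℝ)} (hA : MeasurableSet A) :
    P ({ω | path X ω ∈ A} ∩ {ω | (t : ℝ≥0∞) < hitTime a X x Y ω}) ≤ WC P X' lam t A := by
  calc P ({ω | path X ω ∈ A} ∩ {ω | (t : ℝ≥0∞) < hitTime a X x Y ω})
      ≤ P {ω | path X ω ∈ A ∧ ∀ i, x i ω ∉ Hit (TD t) (TD t) a (path X ω) (path (Y i) ω)} := by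
        refine measure_mono ?_
        rintro ω ⟨h1, h2⟩
        exact ⟨h1, no_hit_of_ltP h2⟩
    _ = ex lam (ENNReal.ofReal (2 * a)) * WC P X' lam t A :=
        survival_HC hM hX' hXX ht ha hA
    _ ≤ 1 * WC P X' lam t A := mul_le_mul' (ex_le_one _ _) le_rfl
    _ = _ := one_mul _

lemma PhiC_extend (hX : CBM P X) {w z : ℝ≥0 → ℝ} {b : ℝ≥0} (hw : Continuous w)
    (hz : Continuous z) (hz0 : z 0 = 0) (hzr : am z 1 ≤ 1) :
    PhiC P X (b + 1) (cat b w z) ≤ PhiC P X b w + ENNReal.ofReal 3 := by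
  unfold PhiC
  have hsh := hX.shift b
  have hdet : ∀ ω, mx (cat b w z + path X ω) 0 (b + 1) ≤ mx (w + path X ω) 0 b +
      (1 + mx (path (fun s ω => X (b + s) ω - X b ω) ω) 0 1) := by
    intro ω
    have hy2 := hsh.cont ω
    have h0 : 0 ≤ mx (path (fun s ω => X (b + s) ω - X b ω) ω) 0 1 := by
      have := le_mx hy2 (a := 0) (b := 1) (s := 0) le_rfl zero_le
      rwa [hsh.path_zero] at this
    have hwy : Continuous (w + path X ω) := hw.add (hX.cont ω)
    refine mx_le zero_le fun s _ hst => ?_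
    simp only [Pi.add_apply]
    rcases le_total s b with h1 | h1
    · rw [cat_left hz0 h1]
      have := le_mx hwy (a := 0) (b := b) (s := s) zero_le h1
      simp only [Pi.add_apply] at this
      linarith
    · rw [cat_right h1]
      have hsb : s - b ≤ 1 := tsub_le_iff_left.mpr hst
      have h2 := le_mx hy2 (a := 0) (b := 1) (s := s - b) zero_le hsb
      have h3 : path (fun s ω => X (b + s) ω - X b ω) ω (s - b) =
          path X ω s - path X ω b := by
        simp only [path]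
        rw [add_tsub_cancel_of_le h1]
      rw [h3] at h2
      have h4 := le_mx hwy (a := 0) (b := b) (s := b) zero_le le_rfl
      simp only [Pi.add_apply] at h4
      have h5 := (abs_le.mp ((le_am hz hsb).trans hzr)).2
      linarith
  calc ∫⁻ ω, ENNReal.ofReal (mx (cat b w z + path X ω) 0 (b + 1)) ∂P
      ≤ ∫⁻ ω, (ENNReal.ofReal (mx (w + path X ω) 0 b) + (ENNReal.ofReal 1 +
          ENNReal.ofReal (mx (path (fun s ω => X (b + s) ω - X b ω) ω) 0 1))) ∂P := by
        refine lintegral_mono fun ω => ?_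
        refine (ENNReal.ofReal_le_ofReal (hdet ω)).trans ?_
        refine ENNReal.ofReal_add_le.trans (add_le_add_right ?_ _)
        exact ENNReal.ofReal_add_le
    _ = ∫⁻ ω, ENNReal.ofReal (mx (w + path X ω) 0 b) ∂P + (ENNReal.ofReal 1 +
          ∫⁻ ω, ENNReal.ofReal (mx (path (fun s ω => X (b + s) ω - X b ω) ω) 0 1) ∂P) := by
        rw [lintegral_add_left (measurable_mx_add hX w b).ennreal_ofReal,
          lintegral_add_left measurable_const, lintegral_const, measure_univ, mul_one]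
    _ ≤ ∫⁻ ω, ENNReal.ofReal (mx (w + path X ω) 0 b) ∂P +
          (ENNReal.ofReal 1 + ENNReal.ofReal 2) := by
        gcongr
        refine (lintegral_mx hsh one_pos).trans (ENNReal.ofReal_le_ofReal ?_)
        simp
    _ = _ := by
        rw [← ENNReal.ofReal_add (by norm_num) (by norm_num)]
        norm_num

lemma WC_extend (hX : CBM P X) (lam : ℝ≥0) {b : ℝ≥0} (hb : 0 < b) :
    ex lam (ENNReal.ofReal 6) * P {ω | am (path X ω) 1 ≤ 1} * WC P X lam b univ ≤
      WC P X lam (b + 1) univ := by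
  have hm3 : MeasurableSet {ω | am (path X ω) 1 ≤ 1} :=
    hX.mpath (measurableSet_am_le 1 1)
  have e1 : WC P X lam (b + 1) univ =
      ∫⁻ ω, ∫⁻ ω', ex lam (HC P X (b + 1) (cat b (path X ω) (path X ω'))) ∂P ∂P := by
    have h := lintegral_cat hX b (F := fun w => ex lam (HC P X (b + 1) w))
      ((measurable_ex lam).comp (measurable_HC hX (b + 1)))
    rw [h]
    unfold WC
    simp
  have e2 : WC P X lam b univ = ∫⁻ ω, ex lam (HC P X b (path X ω)) ∂P := by
    unfold WC
    simp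
  have hc : ex lam (ENNReal.ofReal 6) ≠ ∞ := ne_top_of_le_ne_top ENNReal.one_ne_top (ex_le_one _ _)
  rw [e1, e2, ← lintegral_const_mul' _ _ (ENNReal.mul_ne_top hc (measure_ne_top _ _))]
  refine lintegral_mono fun ω => ?_
  have hft := HC_ne_top hX hb (hX.cont ω)
  calc ex lam (ENNReal.ofReal 6) * P {ω | am (path X ω) 1 ≤ 1} * ex lam (HC P X b (path X ω))
      = ∫⁻ ω' in {ω | am (path X ω) 1 ≤ 1},
          (ex lam (HC P X b (path X ω)) * ex lam (ENNReal.ofReal 6)) ∂P := by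
        rw [setLIntegral_const]
        ring
    _ ≤ ∫⁻ ω' in {ω | am (path X ω) 1 ≤ 1},
          ex lam (HC P X (b + 1) (cat b (path X ω) (path X ω'))) ∂P := by
        refine setLIntegral_mono' hm3 fun ω' hω' => ?_
        rw [← ex_add lam hft ENNReal.ofReal_ne_top]
        refine ex_anti lam (ENNReal.add_ne_top.mpr ⟨hft, ENNReal.ofReal_ne_top⟩) ?_
        have h1 := PhiC_extend hX (b := b) (hX.cont ω) (hX.cont ω') (hX.path_zero ω') hω'
        have h2 := PhiC_extend hX (b := b) (hX.cont ω).neg (hX.cont ω').neg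
          (by simp [hX.path_zero ω']) (by rw [am_neg]; exact hω')
        unfold HC
        rw [neg_cat]
        calc _ ≤ _ := add_le_add h1 h2
          _ = _ := by
            rw [add_add_add_comm, ← ENNReal.ofReal_add (by norm_num) (by norm_num)]
            norm_num
    _ ≤ _ := setLIntegral_le_lintegral _ _

lemma survival_lowerP {lam : ℝ≥0} (hM : TrapModel P lam X x Y) {X' : ℝ≥0 → Ω → ℝ}
    (hX' : CBM P X') (hXX : ∀ᵐ ω ∂P, path X ω = path X' ω) {t : ℝ≥0} (ht : 0 < t) {a : ℝ}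
    (ha : 0 < a) :
    Kc P X' lam a * WC P X' lam t univ ≤ P {ω | (t : ℝ≥0∞) < hitTime a X x Y ω} := by
  have h1 := survival_HC hM hX' hXX (t := t + 1) (by positivity) (a := a + 1) (by linarith)
    (A := univ) MeasurableSet.univ
  have h2 := WC_extend hX' lam ht
  calc Kc P X' lam a * WC P X' lam t univ
      = ex lam (ENNReal.ofReal (2 * (a + 1))) *
        (ex lam (ENNReal.ofReal 6) * P {ω | am (path X' ω) 1 ≤ 1} * WC P X' lam t univ) := by
        unfold Kc
        ring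
    _ ≤ ex lam (ENNReal.ofReal (2 * (a + 1))) * WC P X' lam (t + 1) univ :=
        mul_le_mul' le_rfl h2
    _ = _ := h1.symm
    _ ≤ _ := by
        refine measure_mono_ae ?_
        filter_upwards [ae_cont_traps hM] with ω hω h3
        have h4 : ∀ i, x i ω ∉ Hit (TD (t + 1)) (TD (t + 1)) (a + 1) (path X ω)
          (path (Y i) ω) := h3.2
        exact lt_of_no_hitP (lt_add_one a) (lt_add_one t) hω.1 hω.2 h4

/-- Large displacements: the conditional probability tends to zero. -/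
lemma ratio_largeP {lam : ℝ≥0} (hlam : 0 < lam) (hM : TrapModel P lam X x Y) {a : ℝ} (ha : 0 < a)
    {α : ℝ} (hα : 1 / 3 < α) {c : ℝ} (hc : 0 < c) :
    Tendsto (fun t : ℝ≥0 => P ({ω | c * (t:ℝ) ^ α ≤ disp X t ω} ∩
      {ω | (t : ℝ≥0∞) < hitTime a X x Y ω}) /
      P {ω | (t : ℝ≥0∞) < hitTime a X x Y ω}) atTop (𝓝 0) := by
  obtain ⟨X', hX', hXX⟩ := exists_CBM hM.particle hM.measurable_particle
  have h1 := Large_mainC hX' hlam hα hc
  have h2 := ENNReal.Tendsto.const_mul (a := (Kc P X' lam a)⁻¹) h1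
    (Or.inr (ENNReal.inv_ne_top.mpr (Kc_pos hX' lam a)))
  rw [mul_zero] at h2
  refine tendsto_of_tendsto_of_tendsto_of_le_of_le' tendsto_const_nhds h2
    (Eventually.of_forall fun _ => zero_le) ?_
  filter_upwards [eventually_gt_atTop 0] with t ht
  have hA : MeasurableSet {w : ℝ≥0 → ℝ | c * (t:ℝ) ^ α ≤ am w t} :=
    measurableSet_le measurable_const (measurable_am t)
  have h3 : P ({ω | c * (t:ℝ) ^ α ≤ disp X t ω} ∩
      {ω | (t : ℝ≥0∞) < hitTime a X x Y ω}) ≤
      WC P X' lam t {w | c * (t:ℝ) ^ α ≤ am w t} := by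
    refine le_trans (measure_mono_ae ?_) (survival_upperP hM hX' hXX ht ha hA)
    filter_upwards [hM.particle.cont] with ω hω h4
    refine ⟨?_, h4.2⟩
    have h5 : c * (t:ℝ) ^ α ≤ disp X t ω := h4.1
    have h6 : disp X t ω = am (path X ω) t := disp_eq (w := path X ω) hω t
    show c * (t:ℝ) ^ α ≤ am (path X ω) t
    rwa [← h6]
  have h4 := survival_lowerP hM hX' hXX ht ha
  calc _ ≤ WC P X' lam t {w | c * (t:ℝ) ^ α ≤ am w t} / (Kc P X' lam a * WC P X' lam t univ) :=
        ENNReal.div_le_div h3 h4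
    _ = _ := by
        rw [div_eq_mul_inv, ENNReal.mul_inv (Or.inl (Kc_pos hX' lam a))
          (Or.inl (Kc_ne_top lam a)), div_eq_mul_inv]
        ring

/-- Small displacements: the conditional probability tends to zero. -/
lemma ratio_smallP {lam : ℝ≥0} (hM : TrapModel P lam X x Y) {a : ℝ} (ha : 0 < a)
    {α : ℝ} (hα0 : 0 < α) (hα : α < 1 / 3) {c : ℝ} (hc : 0 < c) :
    Tendsto (fun t : ℝ≥0 => P ({ω | disp X t ω < c * (t:ℝ) ^ α} ∩
      {ω | (t : ℝ≥0∞) < hitTime a X x Y ω}) /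
      P {ω | (t : ℝ≥0∞) < hitTime a X x Y ω}) atTop (𝓝 0) := by
  obtain ⟨X', hX', hXX⟩ := exists_CBM hM.particle hM.measurable_particle
  have h1 := Small_mainC hX' (lam := lam) hα0 hα hc
  have h2 := ENNReal.Tendsto.const_mul (a := (Kc P X' lam a)⁻¹) h1
    (Or.inr (ENNReal.inv_ne_top.mpr (Kc_pos hX' lam a)))
  rw [mul_zero] at h2
  refine tendsto_of_tendsto_of_tendsto_of_le_of_le' tendsto_const_nhds h2
    (Eventually.of_forall fun _ => zero_le) ?_
  filter_upwards [eventually_gt_atTop 0] with t ht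
  have hA : MeasurableSet {w : ℝ≥0 → ℝ | am w t ≤ c * (t:ℝ) ^ α} :=
    measurableSet_am_le t _
  have h3 : P ({ω | disp X t ω < c * (t:ℝ) ^ α} ∩
      {ω | (t : ℝ≥0∞) < hitTime a X x Y ω}) ≤
      WC P X' lam t {w | am w t ≤ c * (t:ℝ) ^ α} := by
    refine le_trans (measure_mono_ae ?_) (survival_upperP hM hX' hXX ht ha hA)
    filter_upwards [hM.particle.cont] with ω hω h4
    refine ⟨?_, h4.2⟩
    have h5 : disp X t ω < c * (t:ℝ) ^ α := h4.1
    have h6 : disp X t ω = am (path X ω) t := disp_eq (w := path X ω) hω t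
    show am (path X ω) t ≤ c * (t:ℝ) ^ α
    rw [← h6]
    exact h5.le
  have h4 := survival_lowerP hM hX' hXX ht ha
  calc _ ≤ WC P X' lam t {w | am w t ≤ c * (t:ℝ) ^ α} / (Kc P X' lam a * WC P X' lam t univ) :=
        ENNReal.div_le_div h3 h4
    _ = _ := by
        rw [div_eq_mul_inv, ENNReal.mul_inv (Or.inl (Kc_pos hX' lam a))
          (Or.inl (Kc_ne_top lam a)), div_eq_mul_inv]
        ring

lemma survival_posP {lam : ℝ≥0} (hM : TrapModel P lam X x Y) {a : ℝ} (ha : 0 < a) {t : ℝ≥0}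
    (ht : 0 < t) : P {ω | (t : ℝ≥0∞) < hitTime a X x Y ω} ≠ 0 := by
  obtain ⟨X', hX', hXX⟩ := exists_CBM hM.particle hM.measurable_particle
  have h4 := survival_lowerP hM hX' hXX ht ha
  intro h0
  rw [h0] at h4
  exact mul_ne_zero (Kc_pos hX' lam a) (WC_univ_pos lam t hX') (le_antisymm h4 zero_le)

end Pool.Agent.TH970
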