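import Pool.Agent.TH970.Defs

namespace Pool.Agent.TH970

open MeasureTheory ProbabilityTheory Set Filter Topology
open scoped ENNReal NNReal

set_option linter.unusedSectionVars false

variable {Ω : Type*} [MeasurableSpace Ω]

/-- computation of `α*` from the two bounds -/
lemma alphaStar_eq {P : Measure Ω} [IsProbabilityMeasure P] {X : ℝ≥0 → Ω → ℝ} {T : Ω → ℝ≥0∞}
    (hpos : ∀ t : ℝ≥0, 0 < t → P {ω | (t : ℝ≥0∞) < T ω} ≠ 0)
    (hlarge : ∀ α : ℝ, 1 / 3 < α → α < 1 / 2 → ∀ c : ℝ, 0 < c →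
      Tendsto (fun t : ℝ≥0 => P ({ω | c * (t:ℝ) ^ α ≤ disp X t ω} ∩
        {ω | (t : ℝ≥0∞) < T ω}) / P {ω | (t : ℝ≥0∞) < T ω}) atTop (𝓝 0))
    (hsmall : ∀ α : ℝ, 0 < α → α < 1 / 3 → ∀ c : ℝ, 0 < c →
      Tendsto (fun t : ℝ≥0 => P ({ω | disp X t ω < c * (t:ℝ) ^ α} ∩
        {ω | (t : ℝ≥0∞) < T ω}) / P {ω | (t : ℝ≥0∞) < T ω}) atTop (𝓝 0)) :
    alphaStar P X T = 1 / 3 := by
  unfold alphaStar
  set S := {α : ℝ | 0 < α ∧ ∃ c : ℝ, 0 < c ∧ Tendsto (fun t : ℝ≥0 =>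
    P ({ω | disp X t ω < c * (t : ℝ) ^ α} ∩ {ω | (t : ℝ≥0∞) < T ω}) /
      P {ω | (t : ℝ≥0∞) < T ω}) atTop (𝓝 1)} with hS
  have h1 : ∀ α : ℝ, 1 / 3 < α → α < 1 / 2 → α ∈ S := by
    intro α hα hα2
    refine ⟨by linarith, 1, one_pos, ?_⟩
    have h2 := hlarge α hα hα2 1 one_pos
    have h3 := ENNReal.Tendsto.sub (tendsto_const_nhds (x := (1:ℝ≥0∞)) (f := atTop (α := ℝ≥0))) h2
      (Or.inl ENNReal.one_ne_top)
    rw [tsub_zero] at h3
    refine tendsto_of_tendsto_of_tendsto_of_le_of_le' h3 tendsto_const_nhds ?_ ?_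
    · filter_upwards [eventually_gt_atTop 0] with t ht
      rw [tsub_le_iff_right]
      have hne := hpos t ht
      have hnt : P {ω | (t : ℝ≥0∞) < T ω} ≠ ∞ := measure_ne_top _ _
      calc (1:ℝ≥0∞) = P {ω | (t : ℝ≥0∞) < T ω} / P {ω | (t : ℝ≥0∞) < T ω} :=
            (ENNReal.div_self hne hnt).symm
        _ ≤ (P ({ω | disp X t ω < 1 * (t : ℝ) ^ α} ∩ {ω | (t : ℝ≥0∞) < T ω}) +
            P ({ω | 1 * (t:ℝ) ^ α ≤ disp X t ω} ∩ {ω | (t : ℝ≥0∞) < T ω})) /
            P {ω | (t : ℝ≥0∞) < T ω} := by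
            gcongr
            refine le_trans (measure_mono ?_) (measure_union_le _ _)
            intro ω hω
            rcases lt_or_ge (disp X t ω) (1 * (t : ℝ) ^ α) with h | h
            · exact Or.inl ⟨h, hω⟩
            · exact Or.inr ⟨h, hω⟩
        _ = _ := ENNReal.add_div
    · filter_upwards with t
      refine le_trans (ENNReal.div_le_div_right (measure_mono inter_subset_right) _) ?_
      exact ENNReal.div_self_le_one
  have h2 : ∀ α ∈ S, 1 / 3 ≤ α := by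
    rintro α ⟨hα0, c, hc, hT⟩
    by_contra hcon
    push Not at hcon
    have h3 := hsmall α hα0 hcon c hc
    exact zero_ne_one (tendsto_nhds_unique h3 hT)
  have hbdd : BddBelow S := ⟨1 / 3, fun α hα => h2 α hα⟩
  apply le_antisymm
  · refine le_of_forall_pos_le_add fun ε hε => ?_
    refine (csInf_le hbdd (h1 (1 / 3 + min ε (1 / 12)) ?_ ?_)).trans ?_
    · have : 0 < min ε (1 / 12) := by positivity
      linarith
    · have : min ε (1 / 12) ≤ 1 / 12 := min_le_right _ _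
      linarith
    · have : min ε (1 / 12) ≤ ε := min_le_left _ _
      linarith
  · exact le_csInf ⟨5 / 12, h1 _ (by norm_num) (by norm_num)⟩ h2

end Pool.Agent.TH970
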