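import Mathlib

namespace Pool.Agent.TH970

open Filter Topology Set
open scoped NNReal ENNReal

lemma tendsto_pow_diff {A B C p q : ℝ} (hA : 0 < A) (hp : 0 < p) (hpq : q < p) :
    Tendsto (fun x : ℝ => -(A * x ^ p) + B * x ^ q + C) atTop atBot := by
  have h1 : Tendsto (fun x : ℝ => x ^ p * (-A + B * x ^ (-(p - q)))) atTop atBot := by
    have h2 : Tendsto (fun x : ℝ => -A + B * x ^ (-(p - q))) atTop (𝓝 (-A + B * 0)) :=
      tendsto_const_nhds.add ((tendsto_rpow_neg_atTop (by linarith)).const_mul B)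
    rw [mul_zero, add_zero] at h2
    exact (tendsto_rpow_atTop hp).atTop_mul_neg (by linarith) h2
  have h3 : Tendsto (fun x : ℝ => x ^ p * (-A + B * x ^ (-(p - q))) + C) atTop atBot :=
    tendsto_atBot_add_const_right _ _ h1
  refine h3.congr' ?_
  filter_upwards [eventually_gt_atTop 0] with x hx
  have h4 : x ^ q = x ^ p * x ^ (-(p - q)) := by
    rw [← Real.rpow_add hx]
    congr 1
    ring
  rw [h4]
  ring

lemma tendsto_pow_diff_nn {A B C p q : ℝ} (hA : 0 < A) (hp : 0 < p) (hpq : q < p) :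
    Tendsto (fun t : ℝ≥0 => -(A * (t:ℝ) ^ p) + B * (t:ℝ) ^ q + C) atTop atBot :=
  (tendsto_pow_diff (B := B) (C := C) hA hp hpq).comp (NNReal.tendsto_coe_atTop.mpr tendsto_id)

lemma ev_rpow_le {c p : ℝ} (hp : p < 0) (hc : 0 < c) : ∀ᶠ t : ℝ≥0 in atTop, (t:ℝ) ^ p ≤ c := by
  have h1 : Tendsto (fun x : ℝ => x ^ (-(-p))) atTop (𝓝 0) := tendsto_rpow_neg_atTop (by linarith)
  rw [neg_neg] at h1
  have h2 : Tendsto (fun t : ℝ≥0 => (t:ℝ) ^ p) atTop (𝓝 0) :=
    h1.comp (NNReal.tendsto_coe_atTop.mpr tendsto_id)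
  exact h2.eventually_le_const hc

lemma tendsto_ofReal_exp {F : ℝ≥0 → ℝ} (hF : Tendsto F atTop atBot) :
    Tendsto (fun t => ENNReal.ofReal (Real.exp (F t))) atTop (𝓝 0) := by
  have h1 := Real.tendsto_exp_atBot.comp hF
  have h2 := ENNReal.tendsto_ofReal h1
  rwa [ENNReal.ofReal_zero] at h2

end Pool.Agent.TH970
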