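import Pool.Agent.TH970.Reflect

namespace Pool.Agent.TH970

open MeasureTheory ProbabilityTheory Set Filter Topology
open scoped ENNReal NNReal

set_option linter.unusedSectionVars false
set_option linter.unusedVariables false

lemma sqrt_two_pi_lower : (2:ℝ) ≤ Real.sqrt (2 * Real.pi) := by
  apply Real.le_sqrt_of_sq_le
  have := Real.pi_gt_three
  norm_num
  linarith

lemma sqrt_two_pi_upper : Real.sqrt (2 * Real.pi) ≤ 3 := by
  rw [Real.sqrt_le_left (by norm_num)]
  have := Real.pi_lt_four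
  linarith

lemma gauss_Icc_le {v : ℝ≥0} (hv : 0 < v) {a b : ℝ} (hab : a ≤ b) :
    gaussianReal 0 v (Icc a b) ≤ ENNReal.ofReal ((b - a) / (2 * Real.sqrt v)) := by
  have hv' : (0:ℝ) < v := hv
  have hs : 0 < Real.sqrt v := Real.sqrt_pos.mpr hv'
  rw [gaussianReal_apply _ hv.ne']
  calc ∫⁻ x in Icc a b, gaussianPDF 0 v x
      ≤ ∫⁻ x in Icc a b, ENNReal.ofReal (1 / (2 * Real.sqrt v)) := by
        apply lintegral_mono
        intro x
        unfold gaussianPDF
        apply ENNReal.ofReal_le_ofReal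
        unfold gaussianPDFReal
        have h1 : 2 * Real.sqrt v ≤ Real.sqrt (2 * Real.pi * v) := by
          rw [Real.sqrt_mul (by positivity)]
          exact mul_le_mul_of_nonneg_right sqrt_two_pi_lower hs.le
        have h2 : Real.exp (-(x - 0) ^ 2 / (2 * v)) ≤ 1 := by
          apply Real.exp_le_one_iff.mpr
          have : 0 ≤ (x - 0)^2 := sq_nonneg _
          apply div_nonpos_of_nonpos_of_nonneg (by linarith) (by positivity)
        have h3 : (Real.sqrt (2 * Real.pi * v))⁻¹ ≤ 1 / (2 * Real.sqrt v) := by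
          rw [inv_eq_one_div]
          exact one_div_le_one_div_of_le (by positivity) h1
        calc _ ≤ (1 / (2 * Real.sqrt v)) * 1 := by
              apply mul_le_mul h3 h2 (Real.exp_pos _).le (by positivity)
          _ = 1 / (2 * Real.sqrt v) := by ring
    _ = ENNReal.ofReal ((b - a) / (2 * Real.sqrt v)) := by
        rw [lintegral_const, Measure.restrict_apply MeasurableSet.univ, univ_inter,
          Real.volume_Icc, ← ENNReal.ofReal_mul (by positivity)]
        congr 1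
        ring

lemma gauss_Icc_ge {v : ℝ≥0} (hv : 0 < v) {a b : ℝ} (hab : a ≤ b) {M : ℝ} (hM : 0 ≤ M)
    (ha : -(M * Real.sqrt v) ≤ a) (hb : b ≤ M * Real.sqrt v) :
    ENNReal.ofReal ((b - a) * Real.exp (-(M ^ 2 / 2)) / (3 * Real.sqrt v)) ≤
      gaussianReal 0 v (Icc a b) := by
  have hv' : (0:ℝ) < v := hv
  have hs : 0 < Real.sqrt v := Real.sqrt_pos.mpr hv'
  rw [gaussianReal_apply _ hv.ne']
  calc ENNReal.ofReal ((b - a) * Real.exp (-(M ^ 2 / 2)) / (3 * Real.sqrt v))
      = ∫⁻ x in Icc a b, ENNReal.ofReal (Real.exp (-(M ^ 2 / 2)) / (3 * Real.sqrt v)) := by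
        rw [lintegral_const, Measure.restrict_apply MeasurableSet.univ, univ_inter,
          Real.volume_Icc, ← ENNReal.ofReal_mul (by positivity)]
        congr 1
        ring
    _ ≤ ∫⁻ x in Icc a b, gaussianPDF 0 v x := by
        apply setLIntegral_mono' measurableSet_Icc
        intro x hx
        unfold gaussianPDF
        apply ENNReal.ofReal_le_ofReal
        unfold gaussianPDFReal
        have h1 : Real.sqrt (2 * Real.pi * v) ≤ 3 * Real.sqrt v := by
          rw [Real.sqrt_mul (by positivity)]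
          exact mul_le_mul_of_nonneg_right sqrt_two_pi_upper hs.le
        have hx2 : x ^ 2 ≤ M ^ 2 * v := by
          have h4 : |x| ≤ M * Real.sqrt v := by
            rw [abs_le]
            exact ⟨ha.trans hx.1, hx.2.trans hb⟩
          calc x ^ 2 = |x| ^ 2 := (sq_abs x).symm
            _ ≤ (M * Real.sqrt v) ^ 2 := by gcongr
            _ = M ^ 2 * v := by rw [mul_pow, Real.sq_sqrt hv'.le]
        have h2 : Real.exp (-(M ^ 2 / 2)) ≤ Real.exp (-(x - 0) ^ 2 / (2 * v)) := by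
          apply Real.exp_le_exp.mpr
          rw [sub_zero, neg_div, neg_le_neg_iff, div_le_iff₀ (by positivity)]
          linarith
        have h3 : 1 / (3 * Real.sqrt v) ≤ (Real.sqrt (2 * Real.pi * v))⁻¹ := by
          rw [inv_eq_one_div]
          refine one_div_le_one_div_of_le ?_ h1
          exact Real.sqrt_pos.mpr (by positivity)
        calc Real.exp (-(M ^ 2 / 2)) / (3 * Real.sqrt v)
            = (1 / (3 * Real.sqrt v)) * Real.exp (-(M ^ 2 / 2)) := by ring
          _ ≤ _ := mul_le_mul h3 h2 (Real.exp_pos _).le (by positivity)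

variable {Ω : Type*} [MeasurableSpace Ω] {P : Measure Ω} [IsProbabilityMeasure P]
  {X : ℝ≥0 → Ω → ℝ}

lemma prob_eval (hX : CBM P X) (t : ℝ≥0) {S : Set ℝ} (hS : MeasurableSet S) :
    P {ω | X t ω ∈ S} = gaussianReal 0 t S := by
  rw [← (hX.pre.hasLaw_eval t).map_eq, Measure.map_apply (hX.meas t) hS]
  rfl

lemma abs_le_upper (hX : CBM P X) {t : ℝ≥0} (ht : 0 < t) {x : ℝ} (hx : 0 ≤ x) :
    P {ω | |X t ω| ≤ x} ≤ ENNReal.ofReal (x / Real.sqrt t) := by
  have h1 : {ω | |X t ω| ≤ x} = {ω | X t ω ∈ Icc (-x) x} := by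
    ext ω; simp [abs_le]
  rw [h1, prob_eval hX t measurableSet_Icc]
  refine (gauss_Icc_le ht (by linarith)).trans (ENNReal.ofReal_le_ofReal ?_)
  have hs : 0 < Real.sqrt t := Real.sqrt_pos.mpr ht
  have : (x - -x) / (2 * Real.sqrt t) = x / Real.sqrt t := by
    field_simp
    ring
  rw [this]

/-- a window estimate -/
lemma window_upper (hX : CBM P X) {t : ℝ≥0} (ht : 0 < t) {a b : ℝ} (hab : a ≤ b) :
    P {ω | X t ω ∈ Icc a b} ≤ ENNReal.ofReal ((b - a) / (2 * Real.sqrt t)) := by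
  rw [prob_eval hX t measurableSet_Icc]
  exact gauss_Icc_le ht hab

lemma exp_neg_half : (1:ℝ) / 2 ≤ Real.exp (-(1 ^ 2 / 2)) := by
  have := Real.add_one_le_exp (-((1:ℝ) ^ 2 / 2))
  norm_num at this ⊢
  linarith

lemma abs_le_lower (hX : CBM P X) {t : ℝ≥0} (ht : 0 < t) {x : ℝ} (hx : 0 ≤ x) :
    ENNReal.ofReal (min 1 (x / Real.sqrt t) / 3) ≤ P {ω | |X t ω| ≤ x} := by
  have hs : 0 < Real.sqrt t := Real.sqrt_pos.mpr ht
  set y : ℝ := min (Real.sqrt t) x with hy
  have hy0 : 0 ≤ y := le_min hs.le hx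
  have hyx : y ≤ x := min_le_right _ _
  have hyt : y ≤ Real.sqrt t := min_le_left _ _
  have h1 : {ω | X t ω ∈ Icc (-y) y} ⊆ {ω | |X t ω| ≤ x} := by
    intro ω hω
    simp only [Set.mem_ofPred_eq, mem_Icc] at hω ⊢
    rw [abs_le]
    exact ⟨by linarith, by linarith⟩
  refine le_trans ?_ (measure_mono h1)
  rw [prob_eval hX t measurableSet_Icc]
  refine le_trans (ENNReal.ofReal_le_ofReal ?_) (gauss_Icc_ge (M := 1) ht (by linarith)
    (by norm_num) (by linarith) (by linarith))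
  have h2 : min 1 (x / Real.sqrt t) = y / Real.sqrt t := by
    rw [hy, ← min_div_div_right hs.le, div_self hs.ne']
  rw [h2]
  have h3 := exp_neg_half
  have h4 : y / Real.sqrt t / 3 = (y - -y) * (1/2) / (3 * Real.sqrt t) := by
    field_simp
    ring
  rw [h4]
  apply div_le_div_of_nonneg_right _ (by positivity)
  exact mul_le_mul_of_nonneg_left h3 (by linarith)

lemma gt_lower (hX : CBM P X) {t : ℝ≥0} (ht : 0 < t) :
    ENNReal.ofReal (1 / 24) ≤ P {ω | Real.sqrt t ≤ X t ω} := by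
  have hs : 0 < Real.sqrt t := Real.sqrt_pos.mpr ht
  have h1 : {ω | X t ω ∈ Icc (Real.sqrt t) (2 * Real.sqrt t)} ⊆ {ω | Real.sqrt t ≤ X t ω} := by
    intro ω hω
    exact hω.1
  refine le_trans ?_ (measure_mono h1)
  rw [prob_eval hX t measurableSet_Icc]
  refine le_trans (ENNReal.ofReal_le_ofReal ?_) (gauss_Icc_ge (M := 2) ht (by linarith)
    (by norm_num) (by linarith) (by linarith))
  have h3 : (1:ℝ) / 8 ≤ Real.exp (-(2 ^ 2 / 2)) := by
    have h5 : Real.exp 1 < 2.8 := Real.exp_one_lt_d9.trans (by norm_num)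
    have h6 : Real.exp 2 ≤ 8 := by
      have : Real.exp 2 = Real.exp 1 * Real.exp 1 := by rw [← Real.exp_add]; norm_num
      rw [this]
      nlinarith [Real.exp_pos 1]
    rw [show (-((2:ℝ) ^ 2 / 2)) = -2 by norm_num, Real.exp_neg, one_div]
    exact inv_anti₀ (Real.exp_pos _) h6
  have h4 : (1:ℝ) / 24 = (2 * Real.sqrt t - Real.sqrt t) * (1 / 8) / (3 * Real.sqrt t) := by
    field_simp
    ring
  rw [h4]
  apply div_le_div_of_nonneg_right _ (by positivity)
  exact mul_le_mul_of_nonneg_left h3 (by linarith)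

/-- probability that the maximum is small: lower bound -/
lemma mx_lower (hX : CBM P X) {T : ℝ≥0} (hT : 0 < T) {x : ℝ} (hx : 0 ≤ x) :
    ENNReal.ofReal (min 1 (x / Real.sqrt T) / 3) ≤ P {ω | mx (path X ω) 0 T ≤ x} := by
  rw [mx_law hX hT hx]
  exact abs_le_lower hX hT hx

/-- probability that the maximum is small: upper bound -/
lemma mx_upper (hX : CBM P X) {T : ℝ≥0} (hT : 0 < T) {x : ℝ} (hx : 0 ≤ x) :
    P {ω | mx (path X ω) 0 T ≤ x} ≤ ENNReal.ofReal (x / Real.sqrt T) := by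
  rw [mx_law hX hT hx]
  exact abs_le_upper hX hT hx

lemma integrable_sq (hX : CBM P X) (t : ℝ≥0) : Integrable (fun ω => (X t ω) ^ 2) P :=
  ((hX.pre.isGaussianProcess.hasGaussianLaw_eval t).memLp_two).integrable_sq

lemma integral_sq (hX : CBM P X) (t : ℝ≥0) : ∫ ω, (X t ω) ^ 2 ∂P = t := by
  have h1 := (hX.pre.hasLaw_eval t).variance_eq
  rw [variance_id_gaussianReal, variance_eq_sub
    ((hX.pre.isGaussianProcess.hasGaussianLaw_eval t).memLp_two)] at h1
  rw [hX.pre.integral_eval t] at h1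
  simpa using h1

lemma lintegral_sq (hX : CBM P X) (t : ℝ≥0) : ∫⁻ ω, ENNReal.ofReal ((X t ω) ^ 2) ∂P = t := by
  rw [← ofReal_integral_eq_lintegral_ofReal (integrable_sq hX t)
    (ae_of_all _ fun ω => sq_nonneg _), integral_sq hX t]
  exact ENNReal.ofReal_coe_nnreal

/-- Chebyshev bound -/
lemma cheb (hX : CBM P X) (t : ℝ≥0) {x : ℝ} (hx : 0 < x) :
    P {ω | x ≤ |X t ω|} ≤ ENNReal.ofReal (t / x ^ 2) := by
  have h1 : P {ω | x ≤ |X t ω|} ≤ P {ω | ENNReal.ofReal (x ^ 2) ≤ ENNReal.ofReal ((X t ω) ^ 2)} := by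
    refine measure_mono fun ω hω => ?_
    simp only [Set.mem_ofPred_eq] at hω ⊢
    apply ENNReal.ofReal_le_ofReal
    rw [← sq_abs (X t ω)]
    gcongr
  refine h1.trans ?_
  have hx2 : ENNReal.ofReal (x ^ 2) ≠ 0 := by
    rw [ne_eq, ENNReal.ofReal_eq_zero, not_le]
    positivity
  have h2 := meas_ge_le_lintegral_div (μ := P) (f := fun ω => ENNReal.ofReal ((X t ω) ^ 2))
    (((hX.meas t).pow_const 2).ennreal_ofReal.aemeasurable) hx2 ENNReal.ofReal_ne_top
  refine h2.trans ?_
  rw [lintegral_sq hX t, ENNReal.ofReal_div_of_pos (by positivity), ENNReal.ofReal_coe_nnreal]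

end Pool.Agent.TH970
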