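import Pool.Agent.TH970.Ball

namespace Pool.Agent.TH970

open MeasureTheory ProbabilityTheory Set Filter Topology
open scoped ENNReal NNReal

set_option linter.unusedSectionVars false
set_option linter.unusedVariables false

variable {Ω : Type*} [MeasurableSpace Ω] {P : Measure Ω} [IsProbabilityMeasure P]
  {X : ℝ≥0 → Ω → ℝ}

lemma ofReal_half : ENNReal.ofReal (1 / 2) = 1 / 2 := by
  rw [ENNReal.ofReal_div_of_pos (by norm_num)]; simp

lemma ofReal_quarter : ENNReal.ofReal (1 / 4) = 1 / 4 := by
  rw [ENNReal.ofReal_div_of_pos (by norm_num)]; simp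

/-- The event that `x + w` stays in `[-r, r]` up to time `T`. -/
def Tube (x r : ℝ) (T : ℝ≥0) : Set (ℝ≥0 → ℝ) := {w | am (fun s => x + w s) T ≤ r}

lemma measurableSet_Tube (x r : ℝ) (T : ℝ≥0) : MeasurableSet (Tube x r T) := by
  have h1 : Measurable (fun w : ℝ≥0 → ℝ => (fun s => x + w s)) := by fun_prop
  exact measurableSet_le ((measurable_am T).comp h1) measurable_const

lemma mem_Tube {w : ℝ≥0 → ℝ} (hw : Continuous w) {x r : ℝ} {T : ℝ≥0} :
    w ∈ Tube x r T ↔ ∀ s ≤ T, |x + w s| ≤ r :=
  am_le_iff (w := fun s => x + w s) (continuous_const.add hw)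

lemma tube_block (hX : CBM P X) {τ : ℝ≥0} (hτ : 0 < τ) {r : ℝ} (hr : 0 < r)
    (h : 16 * (τ:ℝ) ≤ r ^ 2) :
    1 / 2 ≤ P {ω | path X ω ∈ Tube 0 (r / 2) τ} := by
  have hm : MeasurableSet {ω | path X ω ∈ Tube 0 (r / 2) τ} := hX.mpath (measurableSet_Tube _ _ _)
  have h1 : P {ω | path X ω ∈ Tube 0 (r / 2) τ}ᶜ ≤ 1 / 2 := by
    have h2 : {ω | path X ω ∈ Tube 0 (r / 2) τ}ᶜ ⊆
        {ω | r / 2 < mx (path X ω) 0 τ} ∪ {ω | -path X ω ∈ {w | r / 2 < mx w 0 τ}} := by
      intro ω hω
      simp only [mem_compl_iff, Set.mem_ofPred_eq] at hω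
      rw [mem_Tube (hX.cont ω)] at hω
      push Not at hω
      obtain ⟨s, hs, h3⟩ := hω
      rw [zero_add, lt_abs] at h3
      rcases h3 with h3 | h3
      · left
        exact (lt_mx_iff (hX.cont ω)).mpr ⟨s, hs, h3⟩
      · right
        exact (lt_mx_iff (hX.cont ω).neg).mpr ⟨s, hs, h3⟩
    refine (measure_mono h2).trans ((measure_union_le _ _).trans ?_)
    rw [prob_neg hX (S := {w | r / 2 < mx w 0 τ}) (measurableSet_lt measurable_const
      (measurable_mx 0 τ))]
    have h3 : P {ω | r / 2 < mx (path X ω) 0 τ} ≤ P {ω | r / 2 ≤ |X τ ω|} := by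
      rw [reflection hX hτ (by linarith), two_mul]
      nth_rewrite 2 [gt_symm hX]
      rw [← measure_union]
      · refine measure_mono ?_
        rintro ω (h | h)
        · have h' : r / 2 < X τ ω := h
          show r / 2 ≤ |X τ ω|
          exact le_abs.mpr (Or.inl h'.le)
        · have h' : X τ ω < -(r / 2) := h
          show r / 2 ≤ |X τ ω|
          exact le_abs.mpr (Or.inr (by linarith))
      · rw [Set.disjoint_left]
        intro ω h1 h2
        simp only [Set.mem_ofPred_eq] at h1 h2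
        linarith
      · exact measurableSet_lt (hX.meas τ) measurable_const
    have h4 : P {ω | r / 2 ≤ |X τ ω|} ≤ ENNReal.ofReal (1 / 4) := by
      refine (cheb hX τ (by linarith)).trans (ENNReal.ofReal_le_ofReal ?_)
      rw [div_le_iff₀ (by positivity)]
      linarith
    calc P {ω | r / 2 < mx (path X ω) 0 τ} + P {ω | path X ω ∈ {w | r / 2 < mx w 0 τ}}
        ≤ ENNReal.ofReal (1 / 4) + ENNReal.ofReal (1 / 4) :=
          add_le_add (h3.trans h4) (h3.trans h4)
      _ = 1 / 2 := by
          rw [← ENNReal.ofReal_add (by norm_num) (by norm_num), ← ofReal_half]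
          norm_num
  rw [prob_compl_eq_one_sub hm] at h1
  have h5 := tsub_le_iff_right.mp h1
  by_contra h6
  push Not at h6
  have h7 : (1:ℝ≥0∞) < 1 := by
    calc (1:ℝ≥0∞) ≤ 1 / 2 + P {ω | path X ω ∈ Tube 0 (r / 2) τ} := h5
      _ < 1 / 2 + 1 / 2 := by
        refine ENNReal.add_lt_add_left ?_ h6
        simp
      _ = 1 := ENNReal.add_halves 1
  exact lt_irrefl _ h7

lemma tube_block_sign (hX : CBM P X) {τ : ℝ≥0} (hτ : 0 < τ) {r : ℝ} (hr : 0 < r)
    (h : 16 * (τ:ℝ) ≤ r ^ 2) :
    1 / 4 ≤ P {ω | path X ω ∈ Tube 0 (r / 2) τ ∧ X τ ω ≤ 0} ∧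
    1 / 4 ≤ P {ω | path X ω ∈ Tube 0 (r / 2) τ ∧ 0 ≤ X τ ω} := by
  set A := {ω | path X ω ∈ Tube 0 (r / 2) τ ∧ X τ ω ≤ 0} with hA
  set B := {ω | path X ω ∈ Tube 0 (r / 2) τ ∧ 0 ≤ X τ ω} with hB
  have h1 : P A = P B := by
    have h2 : MeasurableSet {w : ℝ≥0 → ℝ | w ∈ Tube 0 (r / 2) τ ∧ w τ ≤ 0} :=
      (measurableSet_Tube _ _ _).inter (measurableSet_le (measurable_pi_apply _) measurable_const)
    have h3 := prob_neg hX h2
    have h4 : {ω | -path X ω ∈ {w : ℝ≥0 → ℝ | w ∈ Tube 0 (r / 2) τ ∧ w τ ≤ 0}} = B := by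
      ext ω
      simp only [hB, Set.mem_ofPred_eq]
      rw [mem_Tube (hX.cont ω), mem_Tube (hX.cont ω).neg]
      simp only [zero_add, Pi.neg_apply, abs_neg, path]
      constructor
      · rintro ⟨h5, h6⟩
        exact ⟨h5, by linarith⟩
      · rintro ⟨h5, h6⟩
        exact ⟨h5, by linarith⟩
    rw [h4] at h3
    exact h3.symm
  have h2 : (1:ℝ≥0∞) / 2 ≤ P A + P B := by
    refine (tube_block hX hτ hr h).trans ?_
    refine le_trans (measure_mono ?_) (measure_union_le A B)
    intro ω hω
    rcases le_total (X τ ω) 0 with h3 | h3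
    · exact Or.inl ⟨hω, h3⟩
    · exact Or.inr ⟨hω, h3⟩
  have h3 : (1:ℝ≥0∞) / 4 ≤ P B := by
    rw [h1, ← two_mul] at h2
    have h5 : (1:ℝ≥0∞) / 2 = 2 * (1 / 4) := by
      have h6 : (1:ℝ≥0∞) / 2 = ENNReal.ofReal (1/2) := by
        rw [ENNReal.ofReal_div_of_pos (by norm_num)]; simp
      have h7 : (1:ℝ≥0∞) / 4 = ENNReal.ofReal (1/4) := by
        rw [ENNReal.ofReal_div_of_pos (by norm_num)]; simp
      rw [h6, h7, show (2:ℝ≥0∞) = ENNReal.ofReal 2 by simp, ← ENNReal.ofReal_mul (by norm_num)]
      norm_num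
    rw [h5] at h2
    exact (ENNReal.mul_le_mul_iff_right (by norm_num) (by norm_num)).mp h2
  exact ⟨h1 ▸ h3, h3⟩

/-- Small ball lower bound, by blocks. -/
lemma tube_lower (hX : CBM P X) {τ : ℝ≥0} (hτ : 0 < τ) {r : ℝ} (hr : 0 < r)
    (h : 16 * (τ:ℝ) ≤ r ^ 2) (n : ℕ) : ∀ x : ℝ, |x| ≤ r / 2 →
    (1 / 4) ^ n ≤ P {ω | path X ω ∈ Tube x r (n * τ)} := by
  induction n with
  | zero =>
    intro x hx
    rw [pow_zero]
    have : {ω | path X ω ∈ Tube x r ((0:ℕ) * τ)} = univ := by
      ext ω
      simp only [Set.mem_ofPred_eq, mem_univ, iff_true]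
      rw [mem_Tube (hX.cont ω)]
      intro s hs
      rw [Nat.cast_zero, zero_mul] at hs
      have hs0 : s = 0 := le_antisymm hs zero_le
      rw [hs0, hX.path_zero, add_zero]
      linarith
    rw [this, measure_univ]
  | succ n ih =>
    intro x hx
    have key : ∀ S : Set Ω, MeasurableSet S → 1 / 4 ≤ P S →
        (∀ ω ∈ S, path X ω ∈ Tube 0 (r / 2) τ ∧ |x + X τ ω| ≤ r / 2) →
        (1 / 4) ^ (n + 1) ≤ P {ω | path X ω ∈ Tube x r (((n + 1 : ℕ) : ℝ≥0) * τ)} := by
      intro S hS hPS hall
      rw [← prob_cat hX τ (measurableSet_Tube x r _)]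
      calc ((1:ℝ≥0∞) / 4) ^ (n + 1) = (1 / 4) ^ n * (1 / 4) := pow_succ _ _
        _ ≤ (1 / 4) ^ n * P S := by gcongr
        _ = ∫⁻ ω in S, (1 / 4) ^ n ∂P := by rw [setLIntegral_const]
        _ ≤ ∫⁻ ω in S, P {ω' | cat τ (path X ω) (path X ω') ∈
              Tube x r (((n + 1 : ℕ) : ℝ≥0) * τ)} ∂P := by
            refine setLIntegral_mono' hS fun ω hω => ?_
            obtain ⟨h1, h2⟩ := hall ω hω
            rw [mem_Tube (hX.cont ω)] at h1
            refine (ih (x + X τ ω) h2).trans (measure_mono ?_)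
            intro ω' hω'
            simp only [Set.mem_ofPred_eq] at hω' ⊢
            rw [mem_Tube (hX.cont ω')] at hω'
            rw [mem_Tube (continuous_cat (hX.cont ω) (hX.cont ω'))]
            intro s hs
            rcases le_total s τ with hsτ | hsτ
            · rw [cat_left (hX.path_zero ω') hsτ]
              have h3 := h1 s hsτ
              rw [zero_add] at h3
              calc |x + path X ω s| ≤ |x| + |path X ω s| := abs_add_le _ _
                _ ≤ r := by linarith
            · rw [cat_right hsτ, ← add_assoc]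
              refine hω' (s - τ) ?_
              rw [tsub_le_iff_right]
              refine hs.trans_eq ?_
              push_cast
              ring
        _ ≤ _ := setLIntegral_le_lintegral _ _
    obtain ⟨hA, hB⟩ := tube_block_sign hX hτ hr h
    have hm := hX.mpath (measurableSet_Tube 0 (r / 2) τ)
    rcases le_total 0 x with hx0 | hx0
    · refine key _ (hm.inter (measurableSet_le (hX.meas τ) measurable_const)) hA ?_
      rintro ω ⟨h1, h2⟩
      refine ⟨h1, ?_⟩
      simp only [Set.mem_ofPred_eq] at h2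
      have h1' : path X ω ∈ Tube 0 (r / 2) τ := h1
      rw [mem_Tube (hX.cont ω)] at h1'
      have h3 := h1' τ le_rfl
      rw [zero_add] at h3
      have h4 := (abs_le.mp h3).1
      have h5 := (abs_le.mp hx).2
      have h6 : -(r / 2) ≤ X τ ω := h4
      have h7 : X τ ω ≤ 0 := h2
      rw [abs_le]
      constructor <;> linarith
    · refine key _ (hm.inter (measurableSet_le measurable_const (hX.meas τ))) hB ?_
      rintro ω ⟨h1, h2⟩
      refine ⟨h1, ?_⟩
      have h1' : path X ω ∈ Tube 0 (r / 2) τ := h1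
      rw [mem_Tube (hX.cont ω)] at h1'
      have h3 := h1' τ le_rfl
      rw [zero_add] at h3
      have h4 := (abs_le.mp h3).2
      have h5 := (abs_le.mp hx).1
      have h6 : X τ ω ≤ (r / 2) := h4
      have h7 : 0 ≤ X τ ω := h2
      rw [abs_le]
      constructor <;> linarith

/-- Small ball lower bound. -/
lemma small_ball_lower (hX : CBM P X) (T : ℝ≥0) {r : ℝ} (hr : 0 < r) :
    ENNReal.ofReal (Real.exp (-(32 * T / r ^ 2 + 2))) ≤ P {ω | am (path X ω) T ≤ r} := by
  have hτ : 0 < Real.toNNReal (r ^ 2 / 16) := by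
    rw [Real.toNNReal_pos]
    positivity
  set τ : ℝ≥0 := Real.toNNReal (r ^ 2 / 16) with hτd
  have hτr : (τ : ℝ) = r ^ 2 / 16 := by
    rw [hτd, Real.coe_toNNReal _ (by positivity)]
  set n : ℕ := ⌈(T:ℝ) / τ⌉₊ with hn
  have hτ' : (0:ℝ) < τ := hτ
  have hn1 : (T:ℝ) / τ ≤ n := Nat.le_ceil _
  have hn2 : (n:ℝ) < T / τ + 1 := Nat.ceil_lt_add_one (by positivity)
  have h1 := tube_lower hX hτ hr (by rw [hτr]; linarith) n 0 (by simp; linarith)
  have hTn : T ≤ n * τ := by
    rw [div_le_iff₀ hτ'] at hn1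
    exact_mod_cast hn1
  calc ENNReal.ofReal (Real.exp (-(32 * T / r ^ 2 + 2)))
      ≤ ENNReal.ofReal ((1 / 4) ^ n) := by
        apply ENNReal.ofReal_le_ofReal
        have h2 : Real.exp (-2) ≤ 1 / 4 := by
          have h5 : 2.7 < Real.exp 1 := lt_trans (by norm_num) Real.exp_one_gt_d9
          have h6 : 4 ≤ Real.exp 2 := by
            have : Real.exp 2 = Real.exp 1 * Real.exp 1 := by rw [← Real.exp_add]; norm_num
            rw [this]
            nlinarith [Real.exp_pos 1]
          rw [Real.exp_neg, one_div]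
          exact inv_anti₀ (by norm_num) h6
        calc Real.exp (-(32 * T / r ^ 2 + 2)) ≤ Real.exp (n * (-2)) := by
              apply Real.exp_le_exp.mpr
              have : (T:ℝ) / τ = 16 * T / r ^ 2 := by
                rw [hτr]
                field_simp
              rw [this] at hn2
              have h3 : 32 * (T:ℝ) / r ^ 2 = 2 * (16 * T / r ^ 2) := by ring
              rw [h3]
              linarith
          _ = Real.exp (-2) ^ n := Real.exp_nat_mul _ _
          _ ≤ (1 / 4) ^ n := by gcongr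
    _ = (1 / 4) ^ n := by
        rw [ENNReal.ofReal_pow (by norm_num), ENNReal.ofReal_div_of_pos (by norm_num)]
        simp
    _ ≤ _ := h1
    _ ≤ _ := by
        refine measure_mono fun ω hω => ?_
        simp only [Set.mem_ofPred_eq] at hω ⊢
        rw [mem_Tube (hX.cont ω)] at hω
        rw [am_le_iff (hX.cont ω)]
        intro s hs
        have := hω s (hs.trans hTn)
        rwa [zero_add] at this

/-- Small ball upper bound, by blocks. -/
lemma tube_upper (hX : CBM P X) {τ : ℝ≥0} (hτ : 0 < τ) {r : ℝ} (hr : 0 < r)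
    (h : 16 * r ^ 2 ≤ τ) (n : ℕ) : ∀ x : ℝ,
    P {ω | path X ω ∈ Tube x r (n * τ)} ≤ (1 / 2) ^ n := by
  induction n with
  | zero =>
    intro x
    rw [pow_zero]
    exact prob_le_one
  | succ n ih =>
    intro x
    by_cases hx : |x| ≤ r
    · rw [← prob_cat hX τ (measurableSet_Tube x r _)]
      calc ∫⁻ ω, P {ω' | cat τ (path X ω) (path X ω') ∈
              Tube x r (((n + 1 : ℕ) : ℝ≥0) * τ)} ∂P
          ≤ ∫⁻ ω, {ω | |X τ ω| ≤ 2 * r}.indicator (fun _ => (1 / 2 : ℝ≥0∞) ^ n) ω ∂P := by
            refine lintegral_mono fun ω => ?_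
            by_cases hω : |X τ ω| ≤ 2 * r
            · rw [indicator_of_mem (by exact hω)]
              refine le_trans (measure_mono ?_) (ih (x + X τ ω))
              intro ω' hω'
              simp only [Set.mem_ofPred_eq] at hω' ⊢
              rw [mem_Tube (continuous_cat (hX.cont ω) (hX.cont ω'))] at hω'
              rw [mem_Tube (hX.cont ω')]
              intro s hs
              have := hω' (τ + s) (by push_cast; rw [add_mul, one_mul, add_comm]; gcongr)
              rw [cat_add, ← add_assoc] at this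
              exact this
            · have : {ω' | cat τ (path X ω) (path X ω') ∈
                  Tube x r (((n + 1 : ℕ) : ℝ≥0) * τ)} = ∅ := by
                ext ω'
                simp only [Set.mem_ofPred_eq, mem_empty_iff_false, iff_false]
                intro h1
                rw [mem_Tube (continuous_cat (hX.cont ω) (hX.cont ω'))] at h1
                apply hω
                have h2 := h1 τ (by push_cast; rw [add_mul, one_mul]; exact le_add_self)
                rw [cat_left (hX.path_zero ω') le_rfl] at h2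
                calc |X τ ω| = |(x + path X ω τ) + (-x)| := by congr 1; simp [path]
                  _ ≤ |x + path X ω τ| + |-x| := abs_add_le _ _
                  _ ≤ 2 * r := by rw [abs_neg]; linarith
              rw [this, measure_empty]
              exact zero_le
        _ = (1 / 2 : ℝ≥0∞) ^ n * P {ω | |X τ ω| ≤ 2 * r} :=
            lintegral_indicator_const (measurableSet_le (hX.meas τ).abs measurable_const) _
        _ ≤ (1 / 2 : ℝ≥0∞) ^ n * (1 / 2) := by
            gcongr
            refine (abs_le_upper hX hτ (by linarith)).trans ?_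
            have h3 : ENNReal.ofReal (1/2) = 1/2 := by
              rw [ENNReal.ofReal_div_of_pos (by norm_num)]; simp
            rw [← h3]
            apply ENNReal.ofReal_le_ofReal
            have h4 : 4 * r ≤ Real.sqrt τ := by
              apply Real.le_sqrt_of_sq_le
              linarith
            rw [div_le_iff₀ (by linarith)]
            linarith
        _ = (1 / 2) ^ (n + 1) := (pow_succ _ _).symm
    · have : {ω | path X ω ∈ Tube x r (((n + 1 : ℕ) : ℝ≥0) * τ)} = ∅ := by
        ext ω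
        simp only [Set.mem_ofPred_eq, mem_empty_iff_false, iff_false]
        intro h1
        rw [mem_Tube (hX.cont ω)] at h1
        apply hx
        have h2 := h1 0 zero_le
        rwa [hX.path_zero, add_zero] at h2
      rw [this, measure_empty]
      exact zero_le

/-- Small ball upper bound. -/
lemma small_ball_upper (hX : CBM P X) (T : ℝ≥0) {r : ℝ} (hr : 0 < r) :
    P {ω | am (path X ω) T ≤ r} ≤ ENNReal.ofReal (Real.exp (-(T / (32 * r ^ 2) - 1))) := by
  have hτ : 0 < Real.toNNReal (16 * r ^ 2) := by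
    rw [Real.toNNReal_pos]
    positivity
  set τ : ℝ≥0 := Real.toNNReal (16 * r ^ 2) with hτd
  have hτr : (τ : ℝ) = 16 * r ^ 2 := by
    rw [hτd, Real.coe_toNNReal _ (by positivity)]
  set n : ℕ := ⌊(T:ℝ) / τ⌋₊ with hn
  have hτ' : (0:ℝ) < τ := hτ
  have hn1 : (n:ℝ) ≤ T / τ := Nat.floor_le (by positivity)
  have hn2 : (T:ℝ) / τ < n + 1 := Nat.lt_floor_add_one _
  have h1 := tube_upper hX hτ hr (by rw [hτr]) n 0
  have hTn : n * τ ≤ T := by
    rw [le_div_iff₀ hτ'] at hn1
    exact_mod_cast hn1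
  calc P {ω | am (path X ω) T ≤ r} ≤ P {ω | path X ω ∈ Tube 0 r (n * τ)} := by
        refine measure_mono fun ω hω => ?_
        simp only [Set.mem_ofPred_eq] at hω ⊢
        rw [mem_Tube (hX.cont ω)]
        rw [am_le_iff (hX.cont ω)] at hω
        intro s hs
        rw [zero_add]
        exact hω s (hs.trans hTn)
    _ ≤ (1 / 2) ^ n := h1
    _ = ENNReal.ofReal ((1 / 2) ^ n) := by
        rw [ENNReal.ofReal_pow (by norm_num), ENNReal.ofReal_div_of_pos (by norm_num)]
        simp
    _ ≤ _ := by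
        apply ENNReal.ofReal_le_ofReal
        have h2 : (1:ℝ) / 2 ≤ Real.exp (-(1/2)) := by
          have := Real.add_one_le_exp (-((1:ℝ) / 2))
          linarith
        calc ((1:ℝ) / 2) ^ n ≤ Real.exp (-(1/2)) ^ n := by gcongr
          _ = Real.exp (n * (-(1/2))) := (Real.exp_nat_mul _ _).symm
          _ ≤ _ := by
            apply Real.exp_le_exp.mpr
            have : (T:ℝ) / (32 * r ^ 2) = (T / τ) / 2 := by
              rw [hτr]
              field_simp
              ring
            rw [this]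
            linarith

/-- The mean of the maximum. -/
lemma lintegral_mx (hX : CBM P X) {T : ℝ≥0} (hT : 0 < T) :
    ∫⁻ ω, ENNReal.ofReal (mx (path X ω) 0 T) ∂P ≤ ENNReal.ofReal (2 * Real.sqrt T) := by
  have hs : 0 < Real.sqrt T := Real.sqrt_pos.mpr hT
  have hm : Measurable (fun ω => mx (path X ω) 0 T) := (measurable_mx 0 T).comp hX.mpath
  have h0 : ∀ ω, 0 ≤ mx (path X ω) 0 T := by
    intro ω
    have := le_mx (hX.cont ω) (a := 0) (b := T) (s := 0) le_rfl zero_le
    rwa [hX.path_zero] at this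
  rw [lintegral_eq_lintegral_meas_lt P (ae_of_all _ h0) hm.aemeasurable]
  have h1 : ∫⁻ t in Ioi 0, P {ω | t < mx (path X ω) 0 T} ≤
      2 * ∫⁻ t in Ioi 0, P {ω | t < max (X T ω) 0} := by
    rw [← lintegral_const_mul' _ _ (by norm_num)]
    refine setLIntegral_mono' measurableSet_Ioi fun t ht => ?_
    refine (levy hX hT t).trans (mul_le_mul_right (measure_mono ?_) 2)
    intro ω hω
    have hω' : t < X T ω := hω
    exact lt_of_lt_of_le hω' (le_max_left _ _)
  refine h1.trans ?_
  have h5 := lintegral_eq_lintegral_meas_lt P (f := fun ω => max (X T ω) 0)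
    (ae_of_all _ fun ω => le_max_right _ _) ((hX.meas T).max measurable_const).aemeasurable
  rw [← h5]
  have h2 : ∫⁻ ω, ENNReal.ofReal (max (X T ω) 0) ∂P ≤
      ∫⁻ ω, (ENNReal.ofReal (1 / (2 * Real.sqrt T)) * ENNReal.ofReal ((X T ω) ^ 2) +
        ENNReal.ofReal (Real.sqrt T / 2)) ∂P := by
    refine lintegral_mono fun ω => ?_
    rw [← ENNReal.ofReal_mul (by positivity), ← ENNReal.ofReal_add (by positivity) (by positivity)]
    apply ENNReal.ofReal_le_ofReal
    apply max_le _ (by positivity)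
    have h3 : 1 / (2 * Real.sqrt T) * (X T ω) ^ 2 + Real.sqrt T / 2 - X T ω =
        (X T ω - Real.sqrt T) ^ 2 / (2 * Real.sqrt T) := by
      field_simp
      ring
    have h4 : 0 ≤ (X T ω - Real.sqrt T) ^ 2 / (2 * Real.sqrt T) := by positivity
    linarith
  have h3 : ∫⁻ ω, (ENNReal.ofReal (1 / (2 * Real.sqrt T)) * ENNReal.ofReal ((X T ω) ^ 2) +
        ENNReal.ofReal (Real.sqrt T / 2)) ∂P = ENNReal.ofReal (Real.sqrt T) := by
    rw [lintegral_add_right _ measurable_const, lintegral_const_mul _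
      ((hX.meas T).pow_const 2).ennreal_ofReal, lintegral_sq hX T, lintegral_const, measure_univ,
      mul_one, ← ENNReal.ofReal_coe_nnreal (p := T), ← ENNReal.ofReal_mul (by positivity),
      ← ENNReal.ofReal_add (by positivity) (by positivity)]
    congr 1
    have h4 : (T:ℝ) = Real.sqrt T * Real.sqrt T := (Real.mul_self_sqrt T.2).symm
    nth_rewrite 2 [h4]
    field_simp
    ring
  calc 2 * ∫⁻ ω, ENNReal.ofReal (max (X T ω) 0) ∂P
      ≤ 2 * ENNReal.ofReal (Real.sqrt T) := by
        gcongr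
        exact h2.trans h3.le
    _ = ENNReal.ofReal (2 * Real.sqrt T) := by
        rw [ENNReal.ofReal_mul (by norm_num)]
        simp

end Pool.Agent.TH970
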