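import Pool.Agent.TH970.Tool4

namespace Pool.Agent.TH970

open MeasureTheory ProbabilityTheory Set Filter Topology
open scoped ENNReal NNReal

set_option linter.unusedSectionVars false
set_option linter.unusedVariables false

variable {Ω : Type*} [MeasurableSpace Ω] {P : Measure Ω} [IsProbabilityMeasure P]
  {X : ℝ≥0 → Ω → ℝ}

/-- The event that the maximum over the block is competitive. -/
def CompF (K : ℝ) (b1 b2 t : ℝ≥0) : Set (ℝ≥0 → ℝ) :=
  {y | mx y 0 b1 < mx y b1 b2 + K ∧ mx y b2 t < mx y b1 b2 + K}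

lemma measurableSet_CompF (K : ℝ) (b1 b2 t : ℝ≥0) : MeasurableSet (CompF K b1 b2 t) :=
  (measurableSet_lt (measurable_mx 0 b1) ((measurable_mx b1 b2).add_const K)).inter
    (measurableSet_lt (measurable_mx b2 t) ((measurable_mx b1 b2).add_const K))

lemma am_ge_abs_mx {w : ℝ≥0 → ℝ} (hw : Continuous w) (ℓ : ℝ≥0) : |mx w 0 ℓ| ≤ am w ℓ := by
  obtain ⟨s, _, hs, h⟩ := exists_mx hw (zero_le (a := ℓ))
  rw [h]
  exact le_am hw hs

lemma measurable_cat_comp {b : ℝ≥0} (w : ℝ≥0 → ℝ) :
    Measurable (fun z : ℝ≥0 → ℝ => cat b w z) :=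
  measurable_pi_iff.mpr fun s => measurable_const.add (measurable_pi_apply (s - b))

/-- two successive Markov properties -/
lemma lintegral_cat2 (hX : CBM P X) (b ℓ : ℝ≥0) {F : (ℝ≥0 → ℝ) → ℝ≥0∞} (hF : Measurable F) :
    ∫⁻ ω, ∫⁻ ω', ∫⁻ ω'', F (cat b (path X ω) (cat ℓ (path X ω') (path X ω''))) ∂P ∂P ∂P =
      ∫⁻ ω, F (path X ω) ∂P := by
  rw [← lintegral_cat hX b hF]
  refine lintegral_congr fun ω => ?_
  have h1 : Measurable (fun z : ℝ≥0 → ℝ => F (cat b (path X ω) z)) :=
    hF.comp (measurable_cat_comp _)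
  exact lintegral_cat hX ℓ h1

lemma prob_CompF (hX : CBM P X) {h K : ℝ} (hh : 0 < h) (hK : h ≤ K) {b1 b2 t : ℝ≥0}
    (h12 : b1 ≤ b2) (h2t : b2 ≤ t) :
    P {ω | path X ω ∈ CompF K b1 b2 t} ≤ ENNReal.ofReal (4 * (32 * (b2 - b1 : ℝ≥0) + 2 * K ^ 2) /
      h ^ 2 * (pih h b1 * pih h (t - b2))) := by
  have hK0 : 0 < K := lt_of_lt_of_le hh hK
  set ℓ := b2 - b1 with hℓ
  set R := t - b2 with hR
  have hq1 := pih_pos hh b1
  have hq2 := pih_pos hh R
  -- pointwise description
  set F : (ℝ≥0 → ℝ) → ℝ≥0∞ := (CompF K b1 b2 t).indicator (fun _ => 1) with hF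
  have hFm : Measurable F := measurable_const.indicator (measurableSet_CompF K b1 b2 t)
  have e0 : P {ω | path X ω ∈ CompF K b1 b2 t} = ∫⁻ ω, F (path X ω) ∂P :=
    (lintegral_ind hX.mpath (measurableSet_CompF K b1 b2 t)).symm
  rw [e0, ← lintegral_cat2 hX b1 ℓ hFm]
  set xx : Ω → ℝ := fun ω' => 2 * am (path X ω') ℓ + K with hxx
  have hxxm : Measurable xx := (((measurable_am ℓ).comp hX.mpath).const_mul 2).add_const K
  have hxh : ∀ ω', h ≤ xx ω' := fun ω' => by
    have := am_nonneg (hX.cont ω') ℓ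
    simp only [hxx]
    linarith
  set E1 : Set (Ω × Ω) := {q | mx (path X q.1) 0 b1 - X b1 q.1 ≤ xx q.2} with hE1
  have hE1m : MeasurableSet E1 := by
    refine measurableSet_le ?_ ?_
    · exact (((measurable_mx 0 b1).comp hX.mpath).sub (hX.meas b1)).comp measurable_fst
    · exact hxxm.comp measurable_snd
  have hpihm : Measurable (fun x : ℝ => pih x R) := by
    unfold pih
    exact measurable_id.div (measurable_id.add_const _)
  calc ∫⁻ ω, ∫⁻ ω', ∫⁻ ω'', F (cat b1 (path X ω) (cat ℓ (path X ω') (path X ω''))) ∂P ∂P ∂P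
      ≤ ∫⁻ ω, ∫⁻ ω', E1.indicator (fun q => ENNReal.ofReal (2 * pih (xx q.2) R)) (ω, ω') ∂P ∂P := by
        refine lintegral_mono fun ω => lintegral_mono fun ω' => ?_
        have hsub : ∀ ω'', cat b1 (path X ω) (cat ℓ (path X ω') (path X ω'')) ∈
            CompF K b1 b2 t → (ω, ω') ∈ E1 ∧ mx (path X ω'') 0 R ≤ xx ω' := by
          intro ω'' hω''
          obtain ⟨h1, h2⟩ := hω''
          have hz0 : cat ℓ (path X ω') (path X ω'') 0 = 0 := by
            rw [cat_left (hX.path_zero ω'') zero_le, hX.path_zero]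
          have hzc := continuous_cat (b := ℓ) (hX.cont ω') (hX.cont ω'')
          have e1 : mx (cat b1 (path X ω) (cat ℓ (path X ω') (path X ω''))) b1 b2 =
              path X ω b1 + mx (path X ω') 0 ℓ := by
            rw [mx_cat_right (hX.cont ω) hzc h12, ← hℓ, mx_cat_le (hX.path_zero ω'') zero_le le_rfl]
          have e2 : mx (cat b1 (path X ω) (cat ℓ (path X ω') (path X ω''))) b2 t =
              path X ω b1 + (path X ω' ℓ + mx (path X ω'') 0 R) := by
            rw [mx_cat_ge (hX.cont ω) hzc h12 h2t, ← hℓ]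
            have hle : ℓ ≤ t - b1 := tsub_le_tsub_right h2t b1
            rw [mx_cat_right (hX.cont ω') (hX.cont ω'') hle]
            have e3 : t - b1 - ℓ = R := by
              rw [hℓ, hR, tsub_tsub, add_tsub_cancel_of_le h12]
            rw [e3]
          rw [mx_cat_left hz0, e1] at h1
          rw [e1, e2] at h2
          have a1 := (abs_le.mp (am_ge_abs_mx (hX.cont ω') ℓ))
          have a2 := (abs_le.mp (le_am (hX.cont ω') (le_refl ℓ)))
          have a3 := am_nonneg (hX.cont ω') ℓ
          refine ⟨?_, ?_⟩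
          · show mx (path X ω) 0 b1 - X b1 ω ≤ xx ω'
            simp only [hxx]
            simp only [path] at h1 a1 a2 a3 ⊢
            linarith [a1.2]
          · simp only [hxx]
            linarith [a1.2, a2.1]
        by_cases hq : (ω, ω') ∈ E1
        · rw [indicator_of_mem hq]
          have hcm : Measurable (fun ω'' => cat b1 (path X ω) (cat ℓ (path X ω') (path X ω''))) :=
            (measurable_cat_comp _).comp (measurable_cat_right hX ℓ _)
          rw [hF, lintegral_ind hcm (measurableSet_CompF K b1 b2 t)]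
          refine le_trans (measure_mono fun ω'' hω'' => (hsub ω'' hω'').2) ?_
          refine (mx_upper' hX R (x := xx ω') (lt_of_lt_of_le hh (hxh ω'))).trans
            (ENNReal.ofReal_le_ofReal (le_of_eq ?_))
          unfold pih
          ring
        · have : ∀ ω'', F (cat b1 (path X ω) (cat ℓ (path X ω') (path X ω''))) = 0 := by
            intro ω''
            rw [hF, indicator_of_notMem]
            intro h1
            exact hq (hsub ω'' h1).1
          simp [this]
    _ = ∫⁻ ω', ∫⁻ ω, E1.indicator (fun q => ENNReal.ofReal (2 * pih (xx q.2) R)) (ω, ω') ∂P ∂P := by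
        rw [lintegral_lintegral_swap]
        have hm : Measurable (fun q : Ω × Ω => ENNReal.ofReal (2 * pih (xx q.2) R)) :=
          ((hpihm.comp (hxxm.comp measurable_snd)).const_mul 2).ennreal_ofReal
        exact (hm.indicator hE1m).aemeasurable
    _ ≤ ∫⁻ ω', ENNReal.ofReal (2 * pih (xx ω') R) * ENNReal.ofReal (2 * pih (xx ω') b1) ∂P := by
        refine lintegral_mono fun ω' => ?_
        have e1 : ∀ ω, E1.indicator (fun q => ENNReal.ofReal (2 * pih (xx q.2) R)) (ω, ω') =
            {ω | mx (path X ω) 0 b1 - X b1 ω ≤ xx ω'}.indicator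
              (fun _ => ENNReal.ofReal (2 * pih (xx ω') R)) ω := fun ω => rfl
        simp_rw [e1]
        have hm2 : MeasurableSet {ω | mx (path X ω) 0 b1 - X b1 ω ≤ xx ω'} :=
          measurableSet_le (((measurable_mx 0 b1).comp hX.mpath).sub (hX.meas b1)) measurable_const
        rw [lintegral_indicator_const hm2, end_law hX]
        gcongr
        refine (mx_upper' hX b1 (x := xx ω') (lt_of_lt_of_le hh (hxh ω'))).trans
          (ENNReal.ofReal_le_ofReal (le_of_eq ?_))
        unfold pih
        ring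
    _ ≤ ∫⁻ ω', ENNReal.ofReal (4 / h ^ 2 * (pih h b1 * pih h R)) *
          (ENNReal.ofReal (8 * (am (path X ω') ℓ) ^ 2) + ENNReal.ofReal (2 * K ^ 2)) ∂P := by
        refine lintegral_mono fun ω' => ?_
        have hx0 : 0 < xx ω' := lt_of_lt_of_le hh (hxh ω')
        have g1 := pih_scale hh (hxh ω') R
        have g2 := pih_scale hh (hxh ω') b1
        have g3 := pih_pos hx0 R
        have g4 := pih_pos hx0 b1
        have g5 := am_nonneg (hX.cont ω') ℓ
        rw [← ENNReal.ofReal_mul (by positivity), ← ENNReal.ofReal_add (by positivity)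
          (by positivity), ← ENNReal.ofReal_mul (by positivity)]
        apply ENNReal.ofReal_le_ofReal
        calc 2 * pih (xx ω') R * (2 * pih (xx ω') b1)
            ≤ 2 * (xx ω' / h * pih h R) * (2 * (xx ω' / h * pih h b1)) := by gcongr
          _ = 4 / h ^ 2 * (pih h b1 * pih h R) * (xx ω') ^ 2 := by
              field_simp
              norm_num
          _ ≤ 4 / h ^ 2 * (pih h b1 * pih h R) * (8 * (am (path X ω') ℓ) ^ 2 + 2 * K ^ 2) := by
              gcongr
              simp only [hxx]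
              nlinarith [sq_nonneg (2 * am (path X ω') ℓ - K)]
    _ = ENNReal.ofReal (4 / h ^ 2 * (pih h b1 * pih h R)) *
          (∫⁻ ω', ENNReal.ofReal (8 * (am (path X ω') ℓ) ^ 2) ∂P + ENNReal.ofReal (2 * K ^ 2)) := by
        rw [lintegral_const_mul' _ _ ENNReal.ofReal_ne_top, lintegral_add_right _ measurable_const,
          lintegral_const, measure_univ, mul_one]
    _ ≤ ENNReal.ofReal (4 / h ^ 2 * (pih h b1 * pih h R)) *
          (ENNReal.ofReal (32 * ℓ) + ENNReal.ofReal (2 * K ^ 2)) := by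
        gcongr
        have e2 : ∀ ω', ENNReal.ofReal (8 * (am (path X ω') ℓ) ^ 2) =
            ENNReal.ofReal 8 * ENNReal.ofReal ((am (path X ω') ℓ) ^ 2) := fun ω' =>
          ENNReal.ofReal_mul (by norm_num)
        simp_rw [e2]
        rw [lintegral_const_mul' _ _ ENNReal.ofReal_ne_top]
        refine (mul_le_mul_right (lintegral_am_sq hX ℓ) _).trans (le_of_eq ?_)
        rw [← ENNReal.ofReal_mul (by norm_num)]
        congr 1
        ring
    _ = _ := by
        rw [← ENNReal.ofReal_add (by positivity) (by positivity),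
          ← ENNReal.ofReal_mul (by positivity)]
        congr 1
        ring

end Pool.Agent.TH970
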