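import Pool.Agent.TH970.PLg

namespace Pool.Agent.TH970

open MeasureTheory ProbabilityTheory Set Filter Topology
open scoped ENNReal NNReal

set_option linter.unusedSectionVars false
set_option linter.unusedVariables false

/-- dyadic grid of `[0, t]` -/
noncomputable def Gr (t : ℝ≥0) (m : ℕ) : Finset ℝ≥0 :=
  (Finset.range (2 ^ m + 1)).image (fun k : ℕ => (k : ℝ≥0) * (t / 2 ^ m))

lemma mem_Gr {t : ℝ≥0} {m : ℕ} {s : ℝ≥0} :
    s ∈ Gr t m ↔ ∃ k : ℕ, k ≤ 2 ^ m ∧ s = (k : ℝ≥0) * (t / 2 ^ m) := by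
  unfold Gr
  simp only [Finset.mem_image, Finset.mem_range, Nat.lt_succ_iff]
  constructor
  · rintro ⟨k, hk, rfl⟩
    exact ⟨k, hk, rfl⟩
  · rintro ⟨k, hk, rfl⟩
    exact ⟨k, hk, rfl⟩

lemma Gr_mono (t : ℝ≥0) {m m' : ℕ} (h : m ≤ m') : Gr t m ⊆ Gr t m' := by
  intro s hs
  rw [mem_Gr] at hs ⊢
  obtain ⟨k, hk, rfl⟩ := hs
  obtain ⟨j, rfl⟩ := Nat.exists_eq_add_of_le h
  refine ⟨k * 2 ^ j, ?_, ?_⟩
  · rw [pow_add]
    exact Nat.mul_le_mul_right _ hk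
  · push_cast
    rw [pow_add]
    field_simp

lemma zero_mem_Gr (t : ℝ≥0) (m : ℕ) : (0 : ℝ≥0) ∈ Gr t m :=
  mem_Gr.mpr ⟨0, Nat.zero_le _, by simp⟩

lemma top_mem_Gr (t : ℝ≥0) (m : ℕ) : t ∈ Gr t m :=
  mem_Gr.mpr ⟨2 ^ m, le_rfl, by push_cast; field_simp⟩

lemma le_of_mem_Gr {t : ℝ≥0} {m : ℕ} {s : ℝ≥0} (h : s ∈ Gr t m) : s ≤ t := by
  obtain ⟨k, hk, rfl⟩ := mem_Gr.mp h
  calc (k : ℝ≥0) * (t / 2 ^ m) ≤ (2 ^ m : ℕ) * (t / 2 ^ m) := by gcongr
    _ = t := by push_cast; field_simp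

lemma Gr_nonempty (t : ℝ≥0) (m : ℕ) : (Gr t m).Nonempty := ⟨0, zero_mem_Gr t m⟩

/-- maximum over a finite set of times -/
noncomputable def fmx (S : Finset ℝ≥0) (w : ℝ≥0 → ℝ) : ℝ := ⨆ s : S, w s

lemma le_fmx {S : Finset ℝ≥0} {w : ℝ≥0 → ℝ} {s : ℝ≥0} (hs : s ∈ S) : w s ≤ fmx S w :=
  le_ciSup (f := fun s : S => w s) (Set.finite_range _).bddAbove ⟨s, hs⟩

lemma fmx_le {S : Finset ℝ≥0} (hS : S.Nonempty) {w : ℝ≥0 → ℝ} {c : ℝ} (h : ∀ s ∈ S, w s ≤ c) :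
    fmx S w ≤ c := by
  have : Nonempty S := hS.to_subtype
  exact ciSup_le fun s => h s.1 s.2

lemma exists_fmx {S : Finset ℝ≥0} (hS : S.Nonempty) (w : ℝ≥0 → ℝ) : ∃ s ∈ S, fmx S w = w s := by
  obtain ⟨s, hs, h⟩ := S.exists_max_image w hS
  exact ⟨s, hs, le_antisymm (fmx_le hS h) (le_fmx hs)⟩

lemma measurable_fmx (S : Finset ℝ≥0) : Measurable (fmx S) := by
  unfold fmx
  exact Measurable.iSup fun s => measurable_pi_apply _

lemma fmx_mono {S S' : Finset ℝ≥0} (hS : S.Nonempty) (h : S ⊆ S') (w : ℝ≥0 → ℝ) :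
    fmx S w ≤ fmx S' w := fmx_le hS fun s hs => le_fmx (h hs)

lemma fmx_congr {S : Finset ℝ≥0} {w w' : ℝ≥0 → ℝ} (h : ∀ s ∈ S, w s = w' s) :
    fmx S w = fmx S w' := by
  unfold fmx
  congr 1
  ext s
  exact h s.1 s.2

lemma fmx_le_mx {w : ℝ≥0 → ℝ} (hw : Continuous w) (t : ℝ≥0) (m : ℕ) :
    fmx (Gr t m) w ≤ mx w 0 t :=
  fmx_le (Gr_nonempty t m) fun s hs => le_mx hw zero_le (le_of_mem_Gr hs)

lemma tendsto_fmx {w : ℝ≥0 → ℝ} (hw : Continuous w) {t : ℝ≥0} (ht : 0 < t) :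
    Tendsto (fun m => fmx (Gr t m) w) atTop (𝓝 (mx w 0 t)) := by
  have hmono : Monotone (fun m => fmx (Gr t m) w) := fun m m' h =>
    fmx_mono (Gr_nonempty t m) (Gr_mono t h) w
  refine tendsto_order.mpr ⟨fun x hx => ?_, fun x hx => ?_⟩
  · obtain ⟨s, _, hs, h1⟩ := exists_mx hw (zero_le (a := t))
    rw [h1] at hx
    obtain ⟨N, hN⟩ := exists_grid hw ht hs hx
    filter_upwards [eventually_ge_atTop (N + 1)] with m hm
    have h2 : m ≤ 2 ^ m - 1 := by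
      have := Nat.lt_two_pow_self (n := m)
      omega
    have h3 : N ≤ 2 ^ m - 1 := by omega
    have h4 : 2 ^ m - 1 + 1 = 2 ^ m := Nat.sub_add_cancel Nat.one_le_two_pow
    have h5 := hN (2 ^ m - 1) h3
    rw [h4] at h5
    obtain ⟨k, hk, hxk⟩ := h5
    refine lt_of_lt_of_le hxk (le_fmx (mem_Gr.mpr ⟨k, hk, ?_⟩))
    push_cast
    rfl
  · filter_upwards with m
    exact lt_of_le_of_lt (fmx_le_mx hw t m) hx

variable {Ω : Type*} [MeasurableSpace Ω] {P : Measure Ω} [IsProbabilityMeasure P]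
  {X : ℝ≥0 → Ω → ℝ}

/-- grid version of the functional, one sided -/
noncomputable def PhiS (P : Measure Ω) (X : ℝ≥0 → Ω → ℝ) (S : Finset ℝ≥0) (w : ℝ≥0 → ℝ) : ℝ≥0∞ :=
  ∫⁻ ω, ENNReal.ofReal (fmx S (w + path X ω)) ∂P

/-- continuous version of the functional, one sided -/
noncomputable def PhiC (P : Measure Ω) (X : ℝ≥0 → Ω → ℝ) (t : ℝ≥0) (w : ℝ≥0 → ℝ) : ℝ≥0∞ :=
  ∫⁻ ω, ENNReal.ofReal (mx (w + path X ω) 0 t) ∂P

/-- grid version of the functional -/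
noncomputable def HS (P : Measure Ω) (X : ℝ≥0 → Ω → ℝ) (S : Finset ℝ≥0) (w : ℝ≥0 → ℝ) : ℝ≥0∞ :=
  PhiS P X S w + PhiS P X S (-w)

/-- continuous version of the functional -/
noncomputable def HC (P : Measure Ω) (X : ℝ≥0 → Ω → ℝ) (t : ℝ≥0) (w : ℝ≥0 → ℝ) : ℝ≥0∞ :=
  PhiC P X t w + PhiC P X t (-w)

lemma measurable_add_path (hX : CBM P X) :
    Measurable (fun q : (ℝ≥0 → ℝ) × Ω => q.1 + path X q.2) :=
  measurable_fst.add (hX.mpath.comp measurable_snd)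

lemma measurable_add_path' (hX : CBM P X) (w : ℝ≥0 → ℝ) :
    Measurable (fun ω => w + path X ω) :=
  measurable_const.add hX.mpath

lemma measurable_PhiS (hX : CBM P X) (S : Finset ℝ≥0) : Measurable (PhiS P X S) := by
  unfold PhiS
  have h1 : Measurable (fun q : (ℝ≥0 → ℝ) × Ω => ENNReal.ofReal (fmx S (q.1 + path X q.2))) :=
    ((measurable_fmx S).comp (measurable_add_path hX)).ennreal_ofReal
  exact h1.lintegral_prod_right'

lemma measurable_PhiC (hX : CBM P X) (t : ℝ≥0) : Measurable (PhiC P X t) := by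
  unfold PhiC
  have h1 : Measurable (fun q : (ℝ≥0 → ℝ) × Ω => ENNReal.ofReal (mx (q.1 + path X q.2) 0 t)) :=
    ((measurable_mx 0 t).comp (measurable_add_path hX)).ennreal_ofReal
  exact h1.lintegral_prod_right'

lemma measurable_HS (hX : CBM P X) (S : Finset ℝ≥0) : Measurable (HS P X S) :=
  (measurable_PhiS hX S).add ((measurable_PhiS hX S).comp measurable_neg)

lemma measurable_HC (hX : CBM P X) (t : ℝ≥0) : Measurable (HC P X t) :=
  (measurable_PhiC hX t).add ((measurable_PhiC hX t).comp measurable_neg)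

lemma PhiS_congr {S : Finset ℝ≥0} {w w' : ℝ≥0 → ℝ} (h : ∀ s ∈ S, w s = w' s) :
    PhiS P X S w = PhiS P X S w' := by
  unfold PhiS
  refine lintegral_congr fun ω => ?_
  rw [fmx_congr (w' := w' + path X ω)]
  intro s hs
  simp [h s hs]

lemma HS_congr {S : Finset ℝ≥0} {w w' : ℝ≥0 → ℝ} (h : ∀ s ∈ S, w s = w' s) :
    HS P X S w = HS P X S w' := by
  unfold HS
  rw [PhiS_congr h, PhiS_congr (w := -w) (w' := -w')]
  intro s hs
  simp [h s hs]

lemma HS_neg (S : Finset ℝ≥0) (w : ℝ≥0 → ℝ) : HS P X S (-w) = HS P X S w := by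
  unfold HS
  rw [neg_neg, add_comm]

lemma HC_neg (t : ℝ≥0) (w : ℝ≥0 → ℝ) : HC P X t (-w) = HC P X t w := by
  unfold HC
  rw [neg_neg, add_comm]

lemma mx_add_le {w y : ℝ≥0 → ℝ} (hw : Continuous w) (hy : Continuous y) (t : ℝ≥0) :
    mx (w + y) 0 t ≤ am w t + mx y 0 t := by
  refine mx_le zero_le fun s _ hs => ?_
  have h1 := (abs_le.mp (le_am hw hs)).2
  have h2 := le_mx hy zero_le hs
  simp only [Pi.add_apply]
  linarith

lemma PhiC_ne_top (hX : CBM P X) {t : ℝ≥0} (ht : 0 < t) {w : ℝ≥0 → ℝ} (hw : Continuous w) :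
    PhiC P X t w ≠ ∞ := by
  have h1 : PhiC P X t w ≤ ∫⁻ ω, (ENNReal.ofReal (am w t) +
      ENNReal.ofReal (mx (path X ω) 0 t)) ∂P := by
    refine lintegral_mono fun ω => ?_
    exact (ENNReal.ofReal_le_ofReal (mx_add_le hw (hX.cont ω) t)).trans ENNReal.ofReal_add_le
  refine ne_top_of_le_ne_top ?_ h1
  rw [lintegral_add_left measurable_const, lintegral_const, measure_univ, mul_one]
  exact ENNReal.add_ne_top.mpr ⟨ENNReal.ofReal_ne_top,
    ne_top_of_le_ne_top ENNReal.ofReal_ne_top (lintegral_mx hX ht)⟩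

lemma HC_ne_top (hX : CBM P X) {t : ℝ≥0} (ht : 0 < t) {w : ℝ≥0 → ℝ} (hw : Continuous w) :
    HC P X t w ≠ ∞ :=
  ENNReal.add_ne_top.mpr ⟨PhiC_ne_top hX ht hw, PhiC_ne_top hX ht hw.neg⟩

/-- bound for the grid maximum of an arbitrary function -/
lemma PhiS_ne_top (hX : CBM P X) {t : ℝ≥0} (ht : 0 < t) (m : ℕ) (w : ℝ≥0 → ℝ) :
    PhiS P X (Gr t m) w ≠ ∞ := by
  have h1 : PhiS P X (Gr t m) w ≤ ∫⁻ ω, (ENNReal.ofReal (fmx (Gr t m) w) +
      ENNReal.ofReal (mx (path X ω) 0 t)) ∂P := by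
    refine lintegral_mono fun ω => ?_
    refine (ENNReal.ofReal_le_ofReal ?_).trans ENNReal.ofReal_add_le
    refine fmx_le (Gr_nonempty t m) fun s hs => ?_
    have h2 := le_fmx (w := w) hs
    have h3 := le_mx (hX.cont ω) (zero_le (a := s)) (le_of_mem_Gr hs)
    simp only [Pi.add_apply]
    linarith
  refine ne_top_of_le_ne_top ?_ h1
  rw [lintegral_add_left measurable_const, lintegral_const, measure_univ, mul_one]
  exact ENNReal.add_ne_top.mpr ⟨ENNReal.ofReal_ne_top,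
    ne_top_of_le_ne_top ENNReal.ofReal_ne_top (lintegral_mx hX ht)⟩

lemma HS_ne_top (hX : CBM P X) {t : ℝ≥0} (ht : 0 < t) (m : ℕ) (w : ℝ≥0 → ℝ) :
    HS P X (Gr t m) w ≠ ∞ :=
  ENNReal.add_ne_top.mpr ⟨PhiS_ne_top hX ht m w, PhiS_ne_top hX ht m (-w)⟩

lemma PhiS_le_PhiC (hX : CBM P X) (t : ℝ≥0) (m : ℕ) {w : ℝ≥0 → ℝ} (hw : Continuous w) :
    PhiS P X (Gr t m) w ≤ PhiC P X t w := by
  unfold PhiS PhiC
  exact lintegral_mono fun ω => ENNReal.ofReal_le_ofReal (fmx_le_mx (hw.add (hX.cont ω)) t m)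

lemma HS_le_HC (hX : CBM P X) (t : ℝ≥0) (m : ℕ) {w : ℝ≥0 → ℝ} (hw : Continuous w) :
    HS P X (Gr t m) w ≤ HC P X t w :=
  add_le_add (PhiS_le_PhiC hX t m hw) (PhiS_le_PhiC hX t m hw.neg)

lemma tendsto_PhiS (hX : CBM P X) {t : ℝ≥0} (ht : 0 < t) {w : ℝ≥0 → ℝ} (hw : Continuous w) :
    Tendsto (fun m => PhiS P X (Gr t m) w) atTop (𝓝 (PhiC P X t w)) := by
  unfold PhiS PhiC
  refine lintegral_tendsto_of_tendsto_of_monotone (fun m => ?_) ?_ ?_
  · exact ((measurable_fmx _).comp (measurable_add_path' hX w)).ennreal_ofReal.aemeasurable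
  · refine ae_of_all _ fun ω m m' h => ?_
    exact ENNReal.ofReal_le_ofReal (fmx_mono (Gr_nonempty t m) (Gr_mono t h) _)
  · refine ae_of_all _ fun ω => ?_
    exact ENNReal.tendsto_ofReal (tendsto_fmx (hw.add (hX.cont ω)) ht)

lemma tendsto_HS (hX : CBM P X) {t : ℝ≥0} (ht : 0 < t) {w : ℝ≥0 → ℝ} (hw : Continuous w) :
    Tendsto (fun m => HS P X (Gr t m) w) atTop (𝓝 (HC P X t w)) :=
  (tendsto_PhiS hX ht hw).add (tendsto_PhiS hX ht hw.neg)

lemma tendsto_ex {lam : ℝ≥0} {u : ℕ → ℝ≥0∞} {v : ℝ≥0∞} (hv : v ≠ ∞)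
    (h : Tendsto u atTop (𝓝 v)) : Tendsto (fun m => ex lam (u m)) atTop (𝓝 (ex lam v)) := by
  unfold ex
  have h3 := (ENNReal.tendsto_toReal hv).comp h
  have h4 := (h3.const_mul (lam : ℝ)).neg
  exact ENNReal.tendsto_ofReal ((Real.continuous_exp.tendsto _).comp h4)

lemma tendsto_ex_HS (hX : CBM P X) {lam t : ℝ≥0} (ht : 0 < t) {w : ℝ≥0 → ℝ} (hw : Continuous w) :
    Tendsto (fun m => ex lam (HS P X (Gr t m) w)) atTop (𝓝 (ex lam (HC P X t w))) :=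
  tendsto_ex (HC_ne_top hX ht hw) (tendsto_HS hX ht hw)

/-- weight of a set of paths -/
noncomputable def WC (P : Measure Ω) (X : ℝ≥0 → Ω → ℝ) (lam t : ℝ≥0) (S : Set (ℝ≥0 → ℝ)) :
    ℝ≥0∞ := ∫⁻ ω in {ω | path X ω ∈ S}, ex lam (HC P X t (path X ω)) ∂P

lemma WC_eq (hX : CBM P X) (lam t : ℝ≥0) {S : Set (ℝ≥0 → ℝ)} (hS : MeasurableSet S) :
    WC P X lam t S = ∫⁻ ω, S.indicator (fun w => ex lam (HC P X t w)) (path X ω) ∂P := by
  unfold WC
  have hS' : MeasurableSet {ω | path X ω ∈ S} := hX.mpath hS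
  rw [← lintegral_indicator hS']
  rfl

lemma WC_ne_top (lam t : ℝ≥0) (S : Set (ℝ≥0 → ℝ)) : WC P X lam t S ≠ ∞ := by
  unfold WC
  refine ne_top_of_le_ne_top (b := 1) ENNReal.one_ne_top ?_
  calc ∫⁻ ω in {ω | path X ω ∈ S}, ex lam (HC P X t (path X ω)) ∂P
      ≤ ∫⁻ ω in {ω | path X ω ∈ S}, 1 ∂P := lintegral_mono fun ω => ex_le_one _ _
    _ = P {ω | path X ω ∈ S} := setLIntegral_one _
    _ ≤ 1 := prob_le_one

lemma WC_univ_pos (lam t : ℝ≥0) (hX : CBM P X) : WC P X lam t univ ≠ 0 := by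
  unfold WC
  simp only [mem_univ]
  intro h0
  have hm : Measurable (fun ω => ex lam (HC P X t (path X ω))) :=
    (measurable_ex lam).comp ((measurable_HC hX t).comp hX.mpath)
  have hset : {ω : Ω | True} = univ := by ext; simp
  rw [hset, Measure.restrict_univ, lintegral_eq_zero_iff hm] at h0
  have h1 : ∀ᵐ ω ∂P, False := by
    filter_upwards [h0] with ω hω
    exact (ex_pos lam _).ne' hω
  have h2 := h1.exists
  obtain ⟨_, h3⟩ := h2
  exact h3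

lemma WC_mono (lam t : ℝ≥0) {S S' : Set (ℝ≥0 → ℝ)} (h : S ⊆ S') :
    WC P X lam t S ≤ WC P X lam t S' := by
  unfold WC
  refine lintegral_mono' (Measure.restrict_mono ?_ le_rfl) le_rfl
  intro ω hω
  exact h hω

lemma WC_union (lam t : ℝ≥0) (S S' : Set (ℝ≥0 → ℝ)) :
    WC P X lam t (S ∪ S') ≤ WC P X lam t S + WC P X lam t S' := by
  unfold WC
  have h1 : {ω | path X ω ∈ S ∪ S'} = {ω | path X ω ∈ S} ∪ {ω | path X ω ∈ S'} := rfl
  rw [h1]
  exact lintegral_union_le _ _ _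

lemma WC_mono' (lam t : ℝ≥0) {S S' : Set (ℝ≥0 → ℝ)} (h : ∀ ω, path X ω ∈ S → path X ω ∈ S') :
    WC P X lam t S ≤ WC P X lam t S' := by
  unfold WC
  exact lintegral_mono' (Measure.restrict_mono h le_rfl) le_rfl

/-- grid convexity -/
lemma fmx_mid {S : Finset ℝ≥0} (hS : S.Nonempty) (f g y : ℝ≥0 → ℝ) :
    2 * fmx S (mid f g + y) ≤ fmx S (f + y) + fmx S (g + y) := by
  obtain ⟨s, hs, h⟩ := exists_fmx hS (mid f g + y)
  rw [h]
  have h1 := le_fmx (w := f + y) hs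
  have h2 := le_fmx (w := g + y) hs
  simp only [Pi.add_apply, mid] at h1 h2 ⊢
  linarith

lemma PhiS_mid (hX : CBM P X) {S : Finset ℝ≥0} (hS : S.Nonempty) (f g : ℝ≥0 → ℝ) :
    2 * PhiS P X S (mid f g) ≤ PhiS P X S f + PhiS P X S g := by
  unfold PhiS
  have hm : Measurable (fun ω => ENNReal.ofReal (fmx S (f + path X ω))) :=
    ((measurable_fmx S).comp (measurable_add_path' hX f)).ennreal_ofReal
  rw [← lintegral_const_mul' _ _ (by norm_num), ← lintegral_add_left hm]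
  refine lintegral_mono fun ω => ?_
  have h1 := fmx_mid hS f g (path X ω)
  calc 2 * ENNReal.ofReal (fmx S (mid f g + path X ω))
      = ENNReal.ofReal (2 * fmx S (mid f g + path X ω)) := by
        rw [ENNReal.ofReal_mul (by norm_num)]; simp
    _ ≤ ENNReal.ofReal (fmx S (f + path X ω) + fmx S (g + path X ω)) :=
        ENNReal.ofReal_le_ofReal h1
    _ ≤ _ := ENNReal.ofReal_add_le

lemma mid_neg (f g : ℝ≥0 → ℝ) : -mid f g = mid (-f) (-g) := by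
  ext s
  simp only [mid, Pi.neg_apply]
  ring

/-- second difference lower bound from a pointwise gain on a set -/
lemma PhiS_gain (hX : CBM P X) {S : Finset ℝ≥0} (hS : S.Nonempty) (h0S : (0:ℝ≥0) ∈ S)
    {f g : ℝ≥0 → ℝ} (hf0 : f 0 = 0) (hg0 : g 0 = 0) {G : Ω → ℝ≥0∞} (hG : Measurable G)
    (h : ∀ ω, 2 * ENNReal.ofReal (fmx S (mid f g + path X ω)) + G ω ≤
      ENNReal.ofReal (fmx S (f + path X ω) + fmx S (g + path X ω))) :
    2 * PhiS P X S (mid f g) + ∫⁻ ω, G ω ∂P ≤ PhiS P X S f + PhiS P X S g := by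
  unfold PhiS
  have hm : Measurable (fun ω => ENNReal.ofReal (fmx S (f + path X ω))) :=
    ((measurable_fmx S).comp (measurable_add_path' hX f)).ennreal_ofReal
  rw [← lintegral_const_mul' _ _ (by norm_num), ← lintegral_add_left hm,
    ← lintegral_add_right _ hG]
  refine lintegral_mono fun ω => (h ω).trans ?_
  exact ENNReal.ofReal_add_le

lemma HS_gain (hX : CBM P X) {S : Finset ℝ≥0} (hS : S.Nonempty) {f g : ℝ≥0 → ℝ} {c : ℝ≥0∞}
    (h : 2 * PhiS P X S (mid f g) + c ≤ PhiS P X S f + PhiS P X S g) :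
    2 * HS P X S (mid f g) + c ≤ HS P X S f + HS P X S g := by
  unfold HS
  have h1 := PhiS_mid hX hS (-f) (-g)
  rw [mid_neg]
  calc 2 * (PhiS P X S (mid f g) + PhiS P X S (mid (-f) (-g))) + c
      = (2 * PhiS P X S (mid f g) + c) + 2 * PhiS P X S (mid (-f) (-g)) := by ring
    _ ≤ (PhiS P X S f + PhiS P X S g) + (PhiS P X S (-f) + PhiS P X S (-g)) := add_le_add h h1
    _ = _ := by ring

end Pool.Agent.TH970
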