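import Pool.Agent.TH970.Blk1
import Pool.Agent.TH970.Std1

namespace Pool.Agent.TH970

open MeasureTheory ProbabilityTheory Set Filter Topology
open scoped ENNReal NNReal

set_option linter.unusedSectionVars false
set_option linter.unusedVariables false

variable {Ω : Type*} [MeasurableSpace Ω] {P : Measure Ω} [IsProbabilityMeasure P]
  {X : ℝ≥0 → Ω → ℝ}

lemma continuous_incr {y : ℝ≥0 → ℝ} (hy : Continuous y) (b : ℝ≥0) : Continuous (incr b y) := by
  unfold incr
  fun_prop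

/-- deterministic gain of the block step -/
lemma block_det {a h ρ : ℝ} (ha : 0 ≤ a) (hh : 0 ≤ h) {b1 p0 p1 b2 t : ℝ≥0}
    (h1 : b1 ≤ p0) (h2 : p0 ≤ p1) (h3 : p1 ≤ b2) (h4 : b2 ≤ t) {y : ℝ≥0 → ℝ}
    (hy : Continuous y) (hE : y ∈ GoodE a h b1 p0 p1 (b2 - p1) t) {S : Finset ℝ≥0}
    (hSt : ∀ s ∈ S, s ≤ t) {f g : ℝ≥0 → ℝ} (hf : ∀ s ∈ S, |f s| ≤ h) (hg : ∀ s ∈ S, |g s| ≤ h)
    {m0 : ℝ} (hm : ∀ s ∈ S, b1 ≤ s → s ≤ b2 → f s + g s = 2 * m0) {p q : ℝ≥0}
    (hp : p ∈ S) (hp0 : p0 ≤ p) (hp1 : p ≤ p1) (hq : q ∈ S) (hq0 : p0 ≤ q) (hq1 : q ≤ p1)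
    (hpq : 2 * m0 + ρ ≤ f p + g q) :
    2 * fmx S (mid f g + y) + (ρ - 6 * a) ≤ fmx S (f + y) + fmx S (g + y) := by
  obtain ⟨hL, hC, hR⟩ := hE
  have hc : ∀ s, p0 ≤ s → s ≤ p1 → |y s - y p0| ≤ a := by
    intro s hs0 hs1
    have := le_am (continuous_incr hy p0) (s := s - p0) (b := p1 - p0) (tsub_le_tsub_right hs1 p0)
    have e : incr p0 y (s - p0) = y s - y p0 := by
      unfold incr
      rw [add_tsub_cancel_of_le hs0]
    rw [e] at this
    exact this.trans hC
  have hm0 : |m0| ≤ h := by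
    have e1 := hm p hp (h1.trans hp0) (hp1.trans h3)
    have e2 := abs_le.mp (hf p hp)
    have e3 := abs_le.mp (hg p hp)
    rw [abs_le]
    constructor <;> linarith
  have hm0' := abs_le.mp hm0
  have key : ∀ s ∈ S, (mid f g + y) s ≤ m0 + y p0 + 2 * a := by
    intro s hs
    simp only [Pi.add_apply, mid]
    have hst := hSt s hs
    have e2 := abs_le.mp (hf s hs)
    have e3 := abs_le.mp (hg s hs)
    rcases lt_or_ge s p0 with hs0 | hs0
    · -- left part
      rcases hL with hL | ⟨hL1, hL2, hL3⟩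
      · rw [hL] at hs0
        exact absurd hs0 (not_lt.mpr zero_le)
      · rcases lt_or_ge s b1 with hs1 | hs1
        · have := le_mx hy (a := 0) (b := b1) (s := s) zero_le hs1.le
          linarith
        · have := le_mx hy (a := b1) (b := p0) (s := s) hs1 hs0.le
          have e1 := hm s hs hs1 (hs0.le.trans (h2.trans h3))
          linarith
    · rcases le_or_gt s p1 with hs1 | hs1
      · have e1 := hm s hs (h1.trans hs0) (hs1.trans h3)
        have e4 := abs_le.mp (hc s hs0 hs1)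
        linarith
      · have ep1 := abs_le.mp (hc p1 h2 le_rfl)
        have hz := continuous_incr hy p1
        have es : incr p1 y (s - p1) = y s - y p1 := by
          unfold incr
          rw [add_tsub_cancel_of_le hs1.le]
        rcases hR with hR | ⟨hR1, hR2, hR3⟩
        · have : t ≤ p1 := tsub_eq_zero_iff_le.mp hR
          exact absurd (hst.trans this) (not_le.mpr hs1)
        · rcases le_or_gt s b2 with hs2 | hs2
          · have := le_mx hz (a := 0) (b := b2 - p1) (s := s - p1) zero_le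
              (tsub_le_tsub_right hs2 p1)
            rw [es] at this
            have e1 := hm s hs (h1.trans hs0) hs2
            linarith
          · have := le_mx hz (a := b2 - p1) (b := t - p1) (s := s - p1)
              (tsub_le_tsub_right hs2.le p1) (tsub_le_tsub_right hst p1)
            rw [es] at this
            linarith
  have hne : S.Nonempty := ⟨p, hp⟩
  have k1 := fmx_le hne key
  have k2 := le_fmx (w := f + y) hp
  have k3 := le_fmx (w := g + y) hq
  simp only [Pi.add_apply] at k2 k3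
  have c1 := abs_le.mp (hc p hp0 hp1)
  have c2 := abs_le.mp (hc q hq0 hq1)
  linarith

/-- gain of the block step for the functional -/
lemma block_PhiS (hX : CBM P X) {a h ρ : ℝ} (ha : 0 ≤ a) (hh : 0 ≤ h) (hρ : 6 * a ≤ ρ)
    {b1 p0 p1 b2 t : ℝ≥0}
    (h1 : b1 ≤ p0) (h2 : p0 ≤ p1) (h3 : p1 ≤ b2) (h4 : b2 ≤ t) {S : Finset ℝ≥0}
    (h0S : (0:ℝ≥0) ∈ S)
    (hSt : ∀ s ∈ S, s ≤ t) {f g : ℝ≥0 → ℝ} (hf0 : f 0 = 0) (hg0 : g 0 = 0)
    (hf : ∀ s ∈ S, |f s| ≤ h) (hg : ∀ s ∈ S, |g s| ≤ h)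
    {m0 : ℝ} (hm : ∀ s ∈ S, b1 ≤ s → s ≤ b2 → f s + g s = 2 * m0) {p q : ℝ≥0}
    (hp : p ∈ S) (hp0 : p0 ≤ p) (hp1 : p ≤ p1) (hq : q ∈ S) (hq0 : p0 ≤ q) (hq1 : q ≤ p1)
    (hpq : 2 * m0 + ρ ≤ f p + g q) :
    2 * HS P X S (mid f g) + ENNReal.ofReal (ρ - 6 * a) *
      P {ω | path X ω ∈ GoodE a h b1 p0 p1 (b2 - p1) t} ≤ HS P X S f + HS P X S g := by
  classical
  have hne : S.Nonempty := ⟨0, h0S⟩
  apply HS_gain hX hne
  set E := GoodE a h b1 p0 p1 (b2 - p1) t with hE
  have hEm : MeasurableSet {ω | path X ω ∈ E} := hX.mpath (measurableSet_GoodE _ _ _ _ _ _ _)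
  have hG : Measurable ({ω | path X ω ∈ E}.indicator (fun _ => ENNReal.ofReal (ρ - 6 * a))) :=
    measurable_const.indicator hEm
  have key := PhiS_gain hX hne h0S hf0 hg0 hG ?_
  · rwa [lintegral_indicator_const hEm] at key
  · intro ω
    have hz : 0 ≤ fmx S (mid f g + path X ω) := by
      have := le_fmx (w := mid f g + path X ω) h0S
      simp only [Pi.add_apply, mid, hf0, hg0, hX.path_zero] at this
      linarith
    have e2 : 2 * ENNReal.ofReal (fmx S (mid f g + path X ω)) =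
        ENNReal.ofReal (2 * fmx S (mid f g + path X ω)) := by
      rw [ENNReal.ofReal_mul (by norm_num)]; simp
    rw [e2]
    by_cases hω : ω ∈ {ω | path X ω ∈ E}
    · rw [indicator_of_mem hω, ← ENNReal.ofReal_add (by linarith) (by linarith)]
      apply ENNReal.ofReal_le_ofReal
      exact block_det ha hh h1 h2 h3 h4 (hX.cont ω) hω hSt hf hg hm hp hp0 hp1 hq hq0 hq1 hpq
    · rw [indicator_of_notMem hω, add_zero]
      exact ENNReal.ofReal_le_ofReal (fmx_mid hne f g (path X ω))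

end Pool.Agent.TH970
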