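import Pool.Agent.TH970.Blk2

namespace Pool.Agent.TH970

open MeasureTheory ProbabilityTheory Set Filter Topology
open scoped ENNReal NNReal

set_option linter.unusedSectionVars false
set_option linter.unusedVariables false

variable {Ω : Type*} [MeasurableSpace Ω] {P : Measure Ω} [IsProbabilityMeasure P]
  {X : ℝ≥0 → Ω → ℝ}

/-- the grid constraint -/
def GB (h : ℝ) (S : Finset ℝ≥0) : Set (ℝ≥0 → ℝ) := {f | ∀ s ∈ S, |f s| ≤ h}

lemma measurableSet_GB (h : ℝ) (S : Finset ℝ≥0) : MeasurableSet (GB h S) := by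
  have : GB h S = ⋂ s ∈ S, {f : ℝ≥0 → ℝ | |f s| ≤ h} := by ext f; simp [GB]
  rw [this]
  exact Finset.measurableSet_biInter S fun s _ => measurableSet_le (by fun_prop) measurable_const

/-- weight with the grid constraint -/
noncomputable def KM (P : Measure Ω) (X : ℝ≥0 → Ω → ℝ) (lam : ℝ≥0) (h : ℝ) (t : ℝ≥0) (M : ℕ)
    (f : ℝ≥0 → ℝ) : ℝ≥0∞ :=
  (GB h (Gr t M)).indicator (fun f => ex lam (HS P X (Gr t M) f)) f

/-- weight with the continuous constraint -/
noncomputable def KC (P : Measure Ω) (X : ℝ≥0 → Ω → ℝ) (lam : ℝ≥0) (h : ℝ) (t : ℝ≥0)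
    (f : ℝ≥0 → ℝ) : ℝ≥0∞ :=
  {f : ℝ≥0 → ℝ | am f t ≤ h}.indicator (fun f => ex lam (HC P X t f)) f

lemma measurable_KM (hX : CBM P X) (lam : ℝ≥0) (h : ℝ) (t : ℝ≥0) (M : ℕ) :
    Measurable (KM P X lam h t M) :=
  ((measurable_ex lam).comp (measurable_HS hX _)).indicator (measurableSet_GB h _)

lemma measurable_KC (hX : CBM P X) (lam : ℝ≥0) (h : ℝ) (t : ℝ≥0) :
    Measurable (KC P X lam h t) :=
  ((measurable_ex lam).comp (measurable_HC hX _)).indicator (measurableSet_am_le t h)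

lemma KM_le_one (lam : ℝ≥0) (h : ℝ) (t : ℝ≥0) (M : ℕ) (f : ℝ≥0 → ℝ) :
    KM P X lam h t M f ≤ 1 := by
  unfold KM
  by_cases hf : f ∈ GB h (Gr t M)
  · rw [indicator_of_mem hf]; exact ex_le_one _ _
  · rw [indicator_of_notMem hf]; exact zero_le

lemma KC_le_one (lam : ℝ≥0) (h : ℝ) (t : ℝ≥0) (f : ℝ≥0 → ℝ) :
    KC P X lam h t f ≤ 1 := by
  unfold KC
  by_cases hf : f ∈ {f : ℝ≥0 → ℝ | am f t ≤ h}
  · rw [indicator_of_mem hf]; exact ex_le_one _ _
  · rw [indicator_of_notMem hf]; exact zero_le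

lemma KM_congr {lam : ℝ≥0} {h : ℝ} {t : ℝ≥0} {M : ℕ} {f f' : ℝ≥0 → ℝ}
    (hff : ∀ s ∈ Gr t M, f s = f' s) : KM P X lam h t M f = KM P X lam h t M f' := by
  unfold KM
  have e : HS P X (Gr t M) f = HS P X (Gr t M) f' := HS_congr hff
  by_cases hf : f ∈ GB h (Gr t M)
  · have hf' : f' ∈ GB h (Gr t M) := fun s hs => by rw [← hff s hs]; exact hf s hs
    rw [indicator_of_mem hf, indicator_of_mem hf', e]
  · have hf' : f' ∉ GB h (Gr t M) := fun h' => hf fun s hs => by rw [hff s hs]; exact h' s hs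
    rw [indicator_of_notMem hf, indicator_of_notMem hf']

lemma KM_neg (lam : ℝ≥0) (h : ℝ) (t : ℝ≥0) (M : ℕ) (f : ℝ≥0 → ℝ) :
    KM P X lam h t M (-f) = KM P X lam h t M f := by
  unfold KM
  by_cases hf : f ∈ GB h (Gr t M)
  · have hf' : -f ∈ GB h (Gr t M) := fun s hs => by
      simp only [Pi.neg_apply, abs_neg]; exact hf s hs
    rw [indicator_of_mem hf, indicator_of_mem hf', HS_neg]
  · have hf' : -f ∉ GB h (Gr t M) := fun h' => hf fun s hs => by
      have := h' s hs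
      simpa only [Pi.neg_apply, abs_neg] using this
    rw [indicator_of_notMem hf, indicator_of_notMem hf']

lemma tendsto_KM (hX : CBM P X) (lam : ℝ≥0) (h : ℝ) {t : ℝ≥0} (ht : 0 < t) {f : ℝ≥0 → ℝ}
    (hf : Continuous f) :
    Tendsto (fun M => KM P X lam h t M f) atTop (𝓝 (KC P X lam h t f)) := by
  by_cases hc : am f t ≤ h
  · have e1 : KC P X lam h t f = ex lam (HC P X t f) := indicator_of_mem (s := {f : ℝ≥0 → ℝ | am f t ≤ h}) hc _
    have e2 : ∀ M, KM P X lam h t M f = ex lam (HS P X (Gr t M) f) := fun M => by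
      have : f ∈ GB h (Gr t M) := fun s hs => (le_am hf (le_of_mem_Gr hs)).trans hc
      exact indicator_of_mem this _
    rw [e1]
    simp_rw [e2]
    exact tendsto_ex_HS hX ht hf
  · have e1 : KC P X lam h t f = 0 := indicator_of_notMem (s := {f : ℝ≥0 → ℝ | am f t ≤ h}) hc _
    rw [e1]
    push Not at hc
    have h1 := tendsto_fmx (w := fun s => |f s|) hf.abs ht
    have h2 : ∀ᶠ M in atTop, h < fmx (Gr t M) (fun s => |f s|) := h1.eventually_const_lt hc
    refine (tendsto_congr' ?_).mpr tendsto_const_nhds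
    filter_upwards [h2] with M hM
    have : f ∉ GB h (Gr t M) := fun h' => by
      have := fmx_le (Gr_nonempty t M) (w := fun s => |f s|) (c := h) h'
      linarith
    exact indicator_of_notMem this _

lemma min_mem_Gr {t : ℝ≥0} {M : ℕ} {s b : ℝ≥0} (hs : s ∈ Gr t M) (hb : b ∈ Gr t M) :
    min s b ∈ Gr t M := by
  rcases min_choice s b with h | h <;> rw [h] <;> assumption

lemma sub_mem_Gr {t : ℝ≥0} {M : ℕ} {s b : ℝ≥0} (hs : s ∈ Gr t M) (hb : b ∈ Gr t M) :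
    s - b ∈ Gr t M := by
  obtain ⟨k, hk, rfl⟩ := mem_Gr.mp hs
  obtain ⟨k', hk', rfl⟩ := mem_Gr.mp hb
  refine mem_Gr.mpr ⟨k - k', by omega, ?_⟩
  rw [← tsub_mul, Nat.cast_tsub]

/-- the discretised Brownian path on the grid -/
noncomputable def ZD (X : ℝ≥0 → Ω → ℝ) (t : ℝ≥0) (M : ℕ) (ω : Ω) : ℝ≥0 → ℝ :=
  Dd (t / 2 ^ M) (2 ^ M) (path X ω)

lemma measurable_ZD (hX : CBM P X) (t : ℝ≥0) (M : ℕ) : Measurable (ZD X t M) :=
  (measurable_Dd _ _).comp hX.mpath

lemma ZD_grid (hX : CBM P X) {t : ℝ≥0} (ht : 0 < t) {M : ℕ} {s : ℝ≥0} (hs : s ∈ Gr t M) (ω : Ω) :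
    ZD X t M ω s = path X ω s := by
  obtain ⟨k, hk, rfl⟩ := mem_Gr.mp hs
  exact Dd_grid _ (by positivity) _ _ (hX.path_zero ω) k hk

lemma mid_cat2 (b ℓ : ℝ≥0) (u v u' v' w : ℝ≥0 → ℝ) :
    mid (cat b u (cat ℓ w v)) (cat b u' (cat ℓ (-w) v')) =
      cat b (mid u u') (cat ℓ 0 (mid v v')) := by
  ext s
  simp only [mid, cat, Pi.neg_apply, Pi.zero_apply]
  ring

lemma measurable_cat2 (b ℓ : ℝ≥0) (w : ℝ≥0 → ℝ) :
    Measurable (fun q : (ℝ≥0 → ℝ) × (ℝ≥0 → ℝ) => cat b q.1 (cat ℓ w q.2)) := by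
  refine measurable_pi_iff.mpr fun s => ?_
  unfold cat
  fun_prop

/-- the block functional (grid version) -/
noncomputable def PsM (P : Measure Ω) (X : ℝ≥0 → Ω → ℝ) (lam : ℝ≥0) (h : ℝ) (t : ℝ≥0) (M : ℕ)
    (b ℓ : ℝ≥0) (w : ℝ≥0 → ℝ) : ℝ≥0∞ :=
  ∫⁻ ω, ∫⁻ ω', KM P X lam h t M (cat b (path X ω) (cat ℓ w (path X ω'))) ∂P ∂P

/-- the block functional (continuous version) -/
noncomputable def PsC (P : Measure Ω) (X : ℝ≥0 → Ω → ℝ) (lam : ℝ≥0) (h : ℝ) (t : ℝ≥0)
    (b ℓ : ℝ≥0) (w : ℝ≥0 → ℝ) : ℝ≥0∞ :=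
  ∫⁻ ω, ∫⁻ ω', KC P X lam h t (cat b (path X ω) (cat ℓ w (path X ω'))) ∂P ∂P

lemma tendsto_PsM (hX : CBM P X) (lam : ℝ≥0) (h : ℝ) {t : ℝ≥0} (ht : 0 < t) (b ℓ : ℝ≥0)
    {w : ℝ≥0 → ℝ} (hw : Continuous w) :
    Tendsto (fun M => PsM P X lam h t M b ℓ w) atTop (𝓝 (PsC P X lam h t b ℓ w)) := by
  unfold PsM PsC
  have hm2 : ∀ F : (ℝ≥0 → ℝ) → ℝ≥0∞, Measurable F →
      Measurable (fun q : Ω × Ω => F (cat b (path X q.1) (cat ℓ w (path X q.2)))) := fun F hF =>
    hF.comp ((measurable_cat2 b ℓ w).comp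
      ((hX.mpath.comp measurable_fst).prodMk (hX.mpath.comp measurable_snd)))
  refine tendsto_lintegral_of_dominated_convergence (fun _ => 1) (fun M => ?_) (fun M => ?_) ?_ ?_
  · exact (hm2 _ (measurable_KM hX lam h t M)).lintegral_prod_right'
  · refine Eventually.of_forall fun ω => ?_
    calc _ ≤ ∫⁻ ω' : Ω, 1 ∂P := lintegral_mono fun ω' => KM_le_one _ _ _ _ _
      _ = 1 := by simp
  · simp
  · refine Eventually.of_forall fun ω => ?_
    refine tendsto_lintegral_of_dominated_convergence (fun _ => 1) (fun M => ?_) (fun M => ?_) ?_ ?_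
    · exact (hm2 _ (measurable_KM hX lam h t M)).comp measurable_prodMk_left
    · exact Eventually.of_forall fun ω' => KM_le_one _ _ _ _ _
    · simp
    · refine Eventually.of_forall fun ω' => ?_
      exact tendsto_KM hX lam h ht
        (continuous_cat (hX.cont ω) (continuous_cat hw (hX.cont ω')))

lemma PsM_neg (hX : CBM P X) (lam : ℝ≥0) (h : ℝ) (t : ℝ≥0) (M : ℕ) (b ℓ : ℝ≥0)
    (w : ℝ≥0 → ℝ) : PsM P X lam h t M b ℓ (-w) = PsM P X lam h t M b ℓ w := by
  unfold PsM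
  have hKM := measurable_KM hX lam h t M
  have h1 : ∀ ω ω', KM P X lam h t M (cat b (path X ω) (cat ℓ (-w) (path X ω'))) =
      KM P X lam h t M (cat b (-path X ω) (cat ℓ w (-path X ω'))) := fun ω ω' => by
    rw [← KM_neg, neg_cat, neg_cat, neg_neg]
  simp_rw [h1]
  have h2 : ∀ u : ℝ≥0 → ℝ, ∫⁻ ω', KM P X lam h t M (cat b u (cat ℓ w (-path X ω'))) ∂P =
      ∫⁻ ω', KM P X lam h t M (cat b u (cat ℓ w (path X ω'))) ∂P := fun u =>
    lintegral_neg hX (F := fun v => KM P X lam h t M (cat b u (cat ℓ w v)))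
      (hKM.comp ((measurable_cat2 b ℓ w).comp (measurable_const.prodMk measurable_id)))
  simp_rw [h2]
  have h3 : Measurable (fun u : ℝ≥0 → ℝ =>
      ∫⁻ ω', KM P X lam h t M (cat b u (cat ℓ w (path X ω'))) ∂P) := by
    have h4 : Measurable (fun q : (ℝ≥0 → ℝ) × Ω =>
        KM P X lam h t M (cat b q.1 (cat ℓ w (path X q.2)))) :=
      hKM.comp ((measurable_cat2 b ℓ w).comp
        (measurable_fst.prodMk (hX.mpath.comp measurable_snd)))
    exact h4.lintegral_prod_right'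
  exact lintegral_neg hX h3

/-- Prekopa-Leindler for the block -/
theorem PL_block (hX : CBM P X) (lam : ℝ≥0) {t : ℝ≥0} (ht : 0 < t) {M : ℕ} {b1 ℓ : ℝ≥0}
    (hb1 : b1 ∈ Gr t M) (hℓ : ℓ ∈ Gr t M) {h : ℝ} {w : ℝ≥0 → ℝ} {c : ℝ} (hc : 0 ≤ c)
    (hg : ∀ f g : ℝ≥0 → ℝ, f 0 = 0 → g 0 = 0 → f ∈ GB h (Gr t M) → g ∈ GB h (Gr t M) →
      (∀ s, b1 ≤ s → s ≤ b1 + ℓ → f s = f b1 + w (s - b1)) →
      (∀ s, b1 ≤ s → s ≤ b1 + ℓ → g s = g b1 - w (s - b1)) →
      2 * HS P X (Gr t M) (mid f g) + ENNReal.ofReal c ≤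
        HS P X (Gr t M) f + HS P X (Gr t M) g) (hw0 : w 0 = 0) :
    PsM P X lam h t M b1 ℓ w ≤
      ENNReal.ofReal (Real.exp (-(lam * c / 2))) * PsM P X lam h t M b1 ℓ 0 := by
  classical
  have hδ : 0 < t / 2 ^ M := by positivity
  set S := Gr t M with hS
  set N : Set ((ℝ≥0 → ℝ) × (ℝ≥0 → ℝ)) := {q | q.1 0 = 0 ∧ q.2 0 = 0} with hN
  have hNm : MeasurableSet N := by
    refine MeasurableSet.inter ?_ ?_
    · exact measurableSet_eq_fun (by fun_prop) measurable_const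
    · exact measurableSet_eq_fun (by fun_prop) measurable_const
  set FF : (ℝ≥0 → ℝ) → (ℝ≥0 → ℝ) × (ℝ≥0 → ℝ) → ℝ≥0∞ := fun w =>
    N.indicator (fun q => KM P X lam h t M (cat b1 q.1 (cat ℓ w q.2))) with hFF
  have hFFm : ∀ w, Measurable (FF w) := fun w =>
    ((measurable_KM hX lam h t M).comp (measurable_cat2 b1 ℓ w)).indicator hNm
  set E : ℝ≥0∞ := ENNReal.ofReal (Real.exp (-(lam * c / 2))) with hE
  -- replacement by the discretised path
  have hrep : ∀ w' : ℝ≥0 → ℝ, PsM P X lam h t M b1 ℓ w' =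
      ∫⁻ ω, ∫⁻ ω', FF w' (ZD X t M ω, ZD X t M ω') ∂P ∂P := by
    intro w'
    unfold PsM
    refine lintegral_congr fun ω => lintegral_congr fun ω' => ?_
    have hmem : (ZD X t M ω, ZD X t M ω') ∈ N := by
      refine ⟨?_, ?_⟩
      · show ZD X t M ω 0 = 0
        rw [ZD_grid hX ht (zero_mem_Gr t M), hX.path_zero]
      · show ZD X t M ω' 0 = 0
        rw [ZD_grid hX ht (zero_mem_Gr t M), hX.path_zero]
    simp only [hFF]
    rw [indicator_of_mem hmem]
    refine KM_congr fun s hs => ?_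
    unfold cat
    simp only []
    rw [ZD_grid hX ht (min_mem_Gr hs hb1), ZD_grid hX ht (sub_mem_Gr (sub_mem_Gr hs hb1) hℓ)]
  have hPL : ∀ u v u' v', FF w (u, v) * FF (-w) (u', v') ≤
      (E * FF 0 (mid u u', mid v v')) ^ 2 := by
    intro u v u' v'
    by_cases hq : (u, v) ∈ N
    swap
    · have : FF w (u, v) = 0 := indicator_of_notMem hq _
      rw [this, zero_mul]; exact zero_le
    by_cases hq' : (u', v') ∈ N
    swap
    · have : FF (-w) (u', v') = 0 := indicator_of_notMem hq' _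
      rw [this, mul_zero]; exact zero_le
    obtain ⟨hu0, hv0⟩ := hq
    obtain ⟨hu0', hv0'⟩ := hq'
    simp only at hu0 hv0 hu0' hv0'
    have hqm : (mid u u', mid v v') ∈ N := by
      refine ⟨?_, ?_⟩
      · simp only [mid, hu0, hu0']; norm_num
      · simp only [mid, hv0, hv0']; norm_num
    have e1 : FF w (u, v) = KM P X lam h t M (cat b1 u (cat ℓ w v)) :=
      indicator_of_mem (s := N) ⟨hu0, hv0⟩ _
    have e2 : FF (-w) (u', v') = KM P X lam h t M (cat b1 u' (cat ℓ (-w) v')) :=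
      indicator_of_mem (s := N) ⟨hu0', hv0'⟩ _
    have e3 : FF 0 (mid u u', mid v v') =
        KM P X lam h t M (cat b1 (mid u u') (cat ℓ 0 (mid v v'))) := indicator_of_mem hqm _
    rw [e1, e2, e3, ← mid_cat2]
    set f := cat b1 u (cat ℓ w v) with hf
    set g := cat b1 u' (cat ℓ (-w) v') with hgg
    by_cases hfG : f ∈ GB h S
    swap
    · have : KM P X lam h t M f = 0 := indicator_of_notMem hfG _
      rw [this, zero_mul]; exact zero_le
    by_cases hgG : g ∈ GB h S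
    swap
    · have : KM P X lam h t M g = 0 := indicator_of_notMem hgG _
      rw [this, mul_zero]; exact zero_le
    have hmG : mid f g ∈ GB h S := fun s hs => by
      have a1 := abs_le.mp (hfG s hs)
      have a2 := abs_le.mp (hgG s hs)
      simp only [mid]
      rw [abs_le]
      constructor <;> linarith
    have e4 : KM P X lam h t M f = ex lam (HS P X S f) := indicator_of_mem hfG _
    have e5 : KM P X lam h t M g = ex lam (HS P X S g) := indicator_of_mem hgG _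
    have e6 : KM P X lam h t M (mid f g) = ex lam (HS P X S (mid f g)) := indicator_of_mem hmG _
    rw [e4, e5, e6]
    have z0 : cat ℓ w v 0 = 0 := by simp [cat, hw0, hv0]
    have z0' : cat ℓ (-w) v' 0 = 0 := by simp [cat, hw0, hv0']
    have hf0 : f 0 = 0 := by
      simp only [hf]
      rw [cat_left z0 zero_le, hu0]
    have hg0 : g 0 = 0 := by
      simp only [hgg]
      rw [cat_left z0' zero_le, hu0']
    have hfb : f b1 = u b1 := by simp only [hf]; rw [cat_left z0 le_rfl]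
    have hgb : g b1 = u' b1 := by simp only [hgg]; rw [cat_left z0' le_rfl]
    have hfw : ∀ s, b1 ≤ s → s ≤ b1 + ℓ → f s = f b1 + w (s - b1) := by
      intro s hs1 hs2
      rw [hfb]
      simp only [hf]
      rw [cat_right hs1, cat_left hv0 (tsub_le_iff_left.mpr hs2)]
    have hgw : ∀ s, b1 ≤ s → s ≤ b1 + ℓ → g s = g b1 - w (s - b1) := by
      intro s hs1 hs2
      rw [hgb]
      simp only [hgg]
      rw [cat_right hs1, cat_left hv0' (tsub_le_iff_left.mpr hs2)]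
      simp only [Pi.neg_apply]
      ring
    have key := hg f g hf0 hg0 hfG hgG hfw hgw
    have t1 := HS_ne_top hX ht M f
    have t2 := HS_ne_top hX ht M g
    have t3 := HS_ne_top hX ht M (mid f g)
    rw [← ex_add lam t1 t2]
    refine (ex_anti lam (ENNReal.add_ne_top.mpr ⟨t1, t2⟩) key).trans (le_of_eq ?_)
    rw [two_mul, ex_add lam (ENNReal.add_ne_top.mpr ⟨t3, t3⟩) ENNReal.ofReal_ne_top,
      ex_add lam t3 t3, ex_ofReal lam hc]
    have e7 : ENNReal.ofReal (Real.exp (-(lam * c))) = E * E := by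
      rw [hE, ← ENNReal.ofReal_mul (Real.exp_pos _).le, ← Real.exp_add]
      congr 2
      ring
    rw [e7]
    ring
  have h1 := PLp_prod (PLp_Dd hX hδ (2 ^ M)) (PLp_Dd hX hδ (2 ^ M)) (measurable_ZD hX t M)
    (FF w) (FF (-w)) (fun q => E * FF 0 q) (hFFm w) (hFFm (-w)) ((hFFm 0).const_mul E) hPL
  have h2 : PsM P X lam h t M b1 ℓ w * PsM P X lam h t M b1 ℓ (-w) ≤
      (E * PsM P X lam h t M b1 ℓ 0) ^ 2 := by
    rw [hrep w, hrep (-w), hrep 0]
    refine h1.trans (le_of_eq ?_)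
    congr 1
    rw [← lintegral_const_mul' _ _ ENNReal.ofReal_ne_top]
    refine lintegral_congr fun ω => ?_
    rw [← lintegral_const_mul' _ _ ENNReal.ofReal_ne_top]
    rfl
  rw [PsM_neg hX, ← pow_two] at h2
  exact (ENNReal.pow_le_pow_left_iff two_ne_zero).mp h2

end Pool.Agent.TH970
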