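import Pool.Agent.TH970.Blk3

namespace Pool.Agent.TH970

open MeasureTheory ProbabilityTheory Set Filter Topology
open scoped ENNReal NNReal

set_option linter.unusedSectionVars false
set_option linter.unusedVariables false

variable {Ω : Type*} [MeasurableSpace Ω] {P : Measure Ω} [IsProbabilityMeasure P]
  {X : ℝ≥0 → Ω → ℝ}

lemma exists_Gr_near {t : ℝ≥0} (ht : 0 < t) {p0 : ℝ≥0} {M0 : ℕ} (h0 : p0 ∈ Gr t M0)
    {w : ℝ≥0 → ℝ} (hw : Continuous w) {s : ℝ≥0} (h1 : p0 ≤ s) (hs : s ≤ t) {x : ℝ}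
    (hx : x < w s) : ∀ᶠ M in atTop, ∃ s' ∈ Gr t M, p0 ≤ s' ∧ s' ≤ s ∧ x < w s' := by
  set sM : ℕ → ℝ≥0 := fun M => (⌊s / (t / 2 ^ M)⌋₊ : ℝ≥0) * (t / 2 ^ M) with hsM
  have hδ : ∀ M : ℕ, 0 < t / 2 ^ M := fun M => by positivity
  have hle : ∀ M, sM M ≤ s := fun M => by
    calc sM M ≤ s / (t / 2 ^ M) * (t / 2 ^ M) := by
          simp only [hsM]
          gcongr
          exact Nat.floor_le zero_le
      _ = s := div_mul_cancel₀ _ (hδ M).ne'
  have hge : ∀ M, s - t / 2 ^ M ≤ sM M := fun M => by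
    rw [tsub_le_iff_right]
    calc s = s / (t / 2 ^ M) * (t / 2 ^ M) := (div_mul_cancel₀ _ (hδ M).ne').symm
      _ ≤ ((⌊s / (t / 2 ^ M)⌋₊ : ℝ≥0) + 1) * (t / 2 ^ M) := by
          gcongr
          exact (Nat.lt_floor_add_one _).le
      _ = _ := by simp only [hsM]; ring
  have hlim : Tendsto sM atTop (𝓝 s) := by
    have h2 : Tendsto (fun M : ℕ => t / 2 ^ M) atTop (𝓝 0) := by
      have h3 : Tendsto (fun M : ℕ => t * ((1:ℝ≥0) / 2) ^ M) atTop (𝓝 (t * 0)) := by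
        have h5 : Tendsto (fun M : ℕ => ((1:ℝ≥0) / 2) ^ M) atTop (𝓝 0) :=
          NNReal.tendsto_pow_atTop_nhds_zero_of_lt_one (NNReal.half_lt_self one_ne_zero)
        exact h5.const_mul t
      rw [mul_zero] at h3
      refine h3.congr fun M => ?_
      rw [one_div, inv_pow, div_eq_mul_inv]
    have h4 : Tendsto (fun M : ℕ => s - t / 2 ^ M) atTop (𝓝 (s - 0)) := tendsto_const_nhds.sub h2
    rw [tsub_zero] at h4
    exact tendsto_of_tendsto_of_tendsto_of_le_of_le h4 tendsto_const_nhds hge hle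
  have hw' : Tendsto (fun M => w (sM M)) atTop (𝓝 (w s)) := (hw.tendsto s).comp hlim
  filter_upwards [hw'.eventually_const_lt hx, eventually_ge_atTop M0] with M hM hM0
  refine ⟨sM M, mem_Gr.mpr ⟨⌊s / (t / 2 ^ M)⌋₊, ?_, rfl⟩, ?_, hle M, hM⟩
  · have : s / (t / 2 ^ M) ≤ ((2 ^ M : ℕ) : ℝ≥0) := by
      rw [div_le_iff₀ (hδ M)]
      push_cast
      rw [mul_div_cancel₀ _ (by positivity)]
      exact hs
    calc ⌊s / (t / 2 ^ M)⌋₊ ≤ ⌊((2 ^ M : ℕ) : ℝ≥0)⌋₊ := Nat.floor_mono this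
      _ = 2 ^ M := Nat.floor_natCast _
  · obtain ⟨k, hk, hk2⟩ := mem_Gr.mp (Gr_mono t hM0 h0)
    rw [hk2]
    simp only [hsM]
    gcongr
    apply Nat.le_floor
    rw [le_div_iff₀ (hδ M), ← hk2]
    exact h1

/-- The block functional is small for oscillating blocks. -/
lemma block_PsC (hX : CBM P X) (lam : ℝ≥0) {t : ℝ≥0} (ht : 0 < t) {a h ρ pE : ℝ} (ha : 0 ≤ a)
    (hh : 0 ≤ h) (hρ : 6 * a ≤ ρ) (hpE : 0 ≤ pE) {b1 p0 p1 b2 : ℝ≥0} {M0 : ℕ}
    (hb1 : b1 ∈ Gr t M0) (hp0 : p0 ∈ Gr t M0) (hb2 : b2 ∈ Gr t M0)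
    (h1 : b1 ≤ p0) (h2 : p0 ≤ p1) (h3 : p1 ≤ b2)
    (hE : ENNReal.ofReal pE ≤ P {ω | path X ω ∈ GoodE a h b1 p0 p1 (b2 - p1) t})
    {w : ℝ≥0 → ℝ} (hw : Continuous w) (hw0 : w 0 = 0)
    (hosc : ρ < mx w (p0 - b1) (p1 - b1) + mx (-w) (p0 - b1) (p1 - b1)) :
    PsC P X lam h t b1 (b2 - b1) w ≤
      ENNReal.ofReal (Real.exp (-(lam * ((ρ - 6 * a) * pE) / 2))) *
        PsC P X lam h t b1 (b2 - b1) 0 := by
  have h4 : b2 ≤ t := le_of_mem_Gr hb2
  have h12 : b1 ≤ b2 := h1.trans (h2.trans h3)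
  obtain ⟨s1, hs1a, hs1b, e1⟩ := exists_mx hw (tsub_le_tsub_right h2 b1)
  obtain ⟨s2, hs2a, hs2b, e2⟩ := exists_mx hw.neg (tsub_le_tsub_right h2 b1)
  rw [e1, e2] at hosc
  set e := w s1 + (-w) s2 - ρ with he
  have he0 : 0 < e := by linarith
  have hwc : Continuous (fun s : ℝ≥0 => w (s - b1)) := by fun_prop
  have k1 : ∀ᶠ M in atTop, ∃ s' ∈ Gr t M, p0 ≤ s' ∧ s' ≤ b1 + s1 ∧
      w s1 - e / 2 < w (s' - b1) := by
    refine exists_Gr_near ht hp0 hwc (s := b1 + s1) ?_ ?_ ?_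
    · exact tsub_le_iff_left.mp hs1a
    · calc b1 + s1 ≤ b1 + (p1 - b1) := by gcongr
        _ = p1 := add_tsub_cancel_of_le (h1.trans h2)
        _ ≤ t := h3.trans h4
    · simp only [add_tsub_cancel_left]
      linarith
  have k2 : ∀ᶠ M in atTop, ∃ s' ∈ Gr t M, p0 ≤ s' ∧ s' ≤ b1 + s2 ∧
      (-w) s2 - e / 2 < -w (s' - b1) := by
    refine exists_Gr_near ht hp0 hwc.neg (s := b1 + s2) ?_ ?_ ?_
    · exact tsub_le_iff_left.mp hs2a
    · calc b1 + s2 ≤ b1 + (p1 - b1) := by gcongr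
        _ = p1 := add_tsub_cancel_of_le (h1.trans h2)
        _ ≤ t := h3.trans h4
    · simp only [add_tsub_cancel_left, Pi.neg_apply]
      linarith
  have hT := tendsto_PsM hX lam h ht b1 (b2 - b1) hw
  have hT0 := tendsto_PsM hX lam h ht b1 (b2 - b1) (w := 0) continuous_const
  refine le_of_tendsto_of_tendsto hT (ENNReal.Tendsto.const_mul hT0
    (Or.inr ENNReal.ofReal_ne_top)) ?_
  filter_upwards [k1, k2, eventually_ge_atTop M0] with M hM1 hM2 hM0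
  obtain ⟨p, hpG, hpp0, hpp1, hpw⟩ := hM1
  obtain ⟨q, hqG, hqp0, hqp1, hqw⟩ := hM2
  have hadd : ∀ s, s ≤ p1 - b1 → b1 + s ≤ p1 := fun s hs => by
    calc b1 + s ≤ b1 + (p1 - b1) := by gcongr
      _ = p1 := add_tsub_cancel_of_le (h1.trans h2)
  have hp1' : p ≤ p1 := hpp1.trans (hadd s1 hs1b)
  have hq1' : q ≤ p1 := hqp1.trans (hadd s2 hs2b)
  refine PL_block hX lam ht (Gr_mono t hM0 hb1)
    (sub_mem_Gr (Gr_mono t hM0 hb2) (Gr_mono t hM0 hb1)) (by nlinarith) ?_ hw0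
  intro f g hf0 hg0 hf hg hfw hgw
  have hBend : b1 + (b2 - b1) = b2 := add_tsub_cancel_of_le h12
  rw [hBend] at hfw hgw
  have hsum : ∀ s ∈ Gr t M, b1 ≤ s → s ≤ b2 → f s + g s = 2 * ((f b1 + g b1) / 2) := by
    intro s _ hs1 hs2
    rw [hfw s hs1 hs2, hgw s hs1 hs2]
    ring
  have hpq : 2 * ((f b1 + g b1) / 2) + ρ ≤ f p + g q := by
    rw [hfw p (h1.trans hpp0) (hp1'.trans h3), hgw q (h1.trans hqp0) (hq1'.trans h3)]
    linarith
  refine le_trans ?_ (block_PhiS hX ha hh hρ h1 h2 h3 h4 (zero_mem_Gr t M)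
    (fun s hs => le_of_mem_Gr hs) hf0 hg0 hf hg hsum hpG hpp0 hp1' hqG hqp0 hq1' hpq)
  gcongr
  rw [ENNReal.ofReal_mul (by linarith)]
  gcongr

lemma lintegral_cat2_swap (hX : CBM P X) (b ℓ : ℝ≥0) {F : (ℝ≥0 → ℝ) → ℝ≥0∞}
    (hF : Measurable F) :
    ∫⁻ ω', ∫⁻ ω, ∫⁻ ω'', F (cat b (path X ω) (cat ℓ (path X ω') (path X ω''))) ∂P ∂P ∂P =
      ∫⁻ ω, F (path X ω) ∂P := by
  rw [← lintegral_cat2 hX b ℓ hF]
  rw [lintegral_lintegral_swap]
  have h0 : Measurable (fun q : (Ω × Ω) × Ω =>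
      F (cat b (path X q.1.2) (cat ℓ (path X q.1.1) (path X q.2)))) := by
    refine hF.comp ?_
    have h1 : Measurable (fun q : ((ℝ≥0 → ℝ) × (ℝ≥0 → ℝ)) × (ℝ≥0 → ℝ) =>
        cat b q.1.2 (cat ℓ q.1.1 q.2)) := by
      refine measurable_pi_iff.mpr fun s => ?_
      unfold cat
      fun_prop
    exact h1.comp (((hX.mpath.comp (measurable_fst.comp measurable_fst)).prodMk
      (hX.mpath.comp (measurable_snd.comp measurable_fst))).prodMk
      (hX.mpath.comp measurable_snd))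
  exact h0.lintegral_prod_right'.aemeasurable

lemma neg_path_mx_cat {b ℓ p0 p1 : ℝ≥0} {u w v : ℝ≥0 → ℝ} (hu : Continuous u)
    (hw : Continuous w) (hv : Continuous v) (hv0 : v 0 = 0) (h1 : b ≤ p0) (h2 : p0 ≤ p1)
    (h3 : p1 - b ≤ ℓ) : mx (cat b u (cat ℓ w v)) p0 p1 = u b + mx w (p0 - b) (p1 - b) := by
  rw [mx_cat_ge hu (continuous_cat hw hv) h1 h2, mx_cat_le hv0 (tsub_le_tsub_right h2 b) h3]

/-- weight of paths oscillating in the block -/
lemma WC_block (hX : CBM P X) (lam : ℝ≥0) {t : ℝ≥0} (ht : 0 < t) {a h ρ pE : ℝ} (ha : 0 ≤ a)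
    (hh : 0 ≤ h) (hρ : 6 * a ≤ ρ) (hpE : 0 ≤ pE) {b1 p0 p1 b2 : ℝ≥0} {M0 : ℕ}
    (hb1 : b1 ∈ Gr t M0) (hp0 : p0 ∈ Gr t M0) (hb2 : b2 ∈ Gr t M0)
    (h1 : b1 ≤ p0) (h2 : p0 ≤ p1) (h3 : p1 ≤ b2)
    (hE : ENNReal.ofReal pE ≤ P {ω | path X ω ∈ GoodE a h b1 p0 p1 (b2 - p1) t}) :
    WC P X lam t {f | am f t ≤ h ∧ ρ < mx f p0 p1 + mx (-f) p0 p1} ≤
      ENNReal.ofReal (Real.exp (-(lam * ((ρ - 6 * a) * pE) / 2))) *
        PsC P X lam h t b1 (b2 - b1) 0 := by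
  classical
  set O : Set (ℝ≥0 → ℝ) := {f | ρ < mx f p0 p1 + mx (-f) p0 p1} with hO
  have hOm : MeasurableSet O := by
    refine measurableSet_lt measurable_const ((measurable_mx p0 p1).add ?_)
    exact (measurable_mx p0 p1).comp measurable_neg
  have hSm : MeasurableSet {f : ℝ≥0 → ℝ | am f t ≤ h ∧ ρ < mx f p0 p1 + mx (-f) p0 p1} :=
    (measurableSet_am_le t h).inter hOm
  rw [WC_eq hX lam t hSm]
  have hFm : Measurable (O.indicator (KC P X lam h t)) := (measurable_KC hX lam h t).indicator hOm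
  have e1 : ∀ f : ℝ≥0 → ℝ, {f : ℝ≥0 → ℝ | am f t ≤ h ∧ ρ < mx f p0 p1 + mx (-f) p0 p1}.indicator
      (fun w => ex lam (HC P X t w)) f = O.indicator (KC P X lam h t) f := by
    intro f
    have hk : KC P X lam h t =
        {f : ℝ≥0 → ℝ | am f t ≤ h}.indicator (fun f => ex lam (HC P X t f)) := rfl
    rw [hk, indicator_indicator, inter_comm]
    rfl
  simp_rw [e1]
  rw [← lintegral_cat2_swap hX b1 (b2 - b1) hFm]
  calc ∫⁻ ω', ∫⁻ ω, ∫⁻ ω'', O.indicator (KC P X lam h t)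
        (cat b1 (path X ω) (cat (b2 - b1) (path X ω') (path X ω''))) ∂P ∂P ∂P
      ≤ ∫⁻ ω' : Ω, ENNReal.ofReal (Real.exp (-(lam * ((ρ - 6 * a) * pE) / 2))) *
        PsC P X lam h t b1 (b2 - b1) 0 ∂P := by
        refine lintegral_mono fun ω' => ?_
        have hmem : ∀ ω ω'', (cat b1 (path X ω) (cat (b2 - b1) (path X ω') (path X ω''))) ∈ O ↔
            ρ < mx (path X ω') (p0 - b1) (p1 - b1) + mx (-path X ω') (p0 - b1) (p1 - b1) := by
          intro ω ω''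
          have e2 := neg_path_mx_cat (hX.cont ω) (hX.cont ω') (hX.cont ω'') (hX.path_zero ω'')
            h1 h2 (tsub_le_tsub_right h3 b1)
          have e3 := neg_path_mx_cat (hX.cont ω).neg (hX.cont ω').neg (hX.cont ω'').neg
            (by simp [hX.path_zero]) h1 h2 (tsub_le_tsub_right h3 b1)
          have e4 : (cat b1 (path X ω) (cat (b2 - b1) (path X ω') (path X ω''))) ∈ O ↔
            ρ < mx (cat b1 (path X ω) (cat (b2 - b1) (path X ω') (path X ω''))) p0 p1 +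
              mx (-(cat b1 (path X ω) (cat (b2 - b1) (path X ω') (path X ω'')))) p0 p1 := Iff.rfl
          rw [e4, neg_cat, neg_cat, e2, e3]
          have : (-path X ω) b1 = -(path X ω b1) := rfl
          rw [this]
          constructor
          · intro h; linarith
          · intro h; linarith
        by_cases ho : ρ < mx (path X ω') (p0 - b1) (p1 - b1) +
            mx (-path X ω') (p0 - b1) (p1 - b1)
        · have e5 : ∀ ω ω'', O.indicator (KC P X lam h t)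
              (cat b1 (path X ω) (cat (b2 - b1) (path X ω') (path X ω''))) =
              KC P X lam h t (cat b1 (path X ω) (cat (b2 - b1) (path X ω') (path X ω''))) :=
            fun ω ω'' => indicator_of_mem ((hmem ω ω'').mpr ho) _
          simp_rw [e5]
          exact block_PsC hX lam ht ha hh hρ hpE hb1 hp0 hb2 h1 h2 h3 hE (hX.cont ω')
            (hX.path_zero ω') ho
        · have e5 : ∀ ω ω'', O.indicator (KC P X lam h t)
              (cat b1 (path X ω) (cat (b2 - b1) (path X ω') (path X ω''))) = 0 :=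
            fun ω ω'' => indicator_of_notMem (fun h => ho ((hmem ω ω'').mp h)) _
          simp_rw [e5]
          simp
    _ = _ := by rw [lintegral_const, measure_univ, mul_one]

end Pool.Agent.TH970
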