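import Pool.Agent.TH970.Blk4

namespace Pool.Agent.TH970

open MeasureTheory ProbabilityTheory Set Filter Topology
open scoped ENNReal NNReal

set_option linter.unusedSectionVars false
set_option linter.unusedVariables false

variable {Ω : Type*} [MeasurableSpace Ω] {P : Measure Ω} [IsProbabilityMeasure P]
  {X : ℝ≥0 → Ω → ℝ}

lemma cost_det {h r : ℝ} (hh : 0 ≤ h) (hr : 0 ≤ r) {b1 b2 t : ℝ≥0} (h12 : b1 ≤ b2) (h2t : b2 ≤ t)
    {f0 f1 y : ℝ≥0 → ℝ} (hf0c : Continuous f0) (hf1c : Continuous f1) (hy : Continuous y)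
    (hf0 : ∀ s ≤ t, |f0 s| ≤ h) (hA : ∀ s, s ≤ b1 → f1 s = f0 s)
    (hB : ∀ s, b1 ≤ s → s ≤ b2 → f1 s ≤ f0 s + r)
    (hC : ∀ s, b2 ≤ s → s ≤ t → f1 s ≤ f0 s + 1) :
    mx (f1 + y) 0 t ≤ mx (f0 + y) 0 t +
      (1 + (CompF (2 * h + r) b1 b2 t).indicator (fun _ => r) y) := by
  classical
  have hI : 0 ≤ (CompF (2 * h + r) b1 b2 t).indicator (fun _ => r) y :=
    indicator_nonneg (fun _ _ => hr) y
  have hy0 : Continuous (f0 + y) := hf0c.add hy
  refine mx_le zero_le fun s _ hst => ?_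
  simp only [Pi.add_apply]
  have hle : ∀ s' ≤ t, f0 s' + y s' ≤ mx (f0 + y) 0 t := fun s' hs' => by
    have := le_mx hy0 (a := 0) (s := s') zero_le hs'
    simpa only [Pi.add_apply] using this
  rcases le_or_gt s b1 with hs1 | hs1
  · rw [hA s hs1]
    have := hle s hst
    linarith
  · rcases le_or_gt b2 s with hs2 | hs2
    · have h1 := hC s hs2 hst
      have := hle s hst
      linarith
    · have h1 := hB s hs1.le hs2.le
      by_cases hy' : y ∈ CompF (2 * h + r) b1 b2 t
      · rw [indicator_of_mem hy']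
        have := hle s hst
        linarith
      · have h3 : y s ≤ mx y b1 b2 := le_mx hy hs1.le hs2.le
        have h4 := abs_le.mp (hf0 s hst)
        have h5 : ¬ (mx y 0 b1 < mx y b1 b2 + (2 * h + r) ∧
          mx y b2 t < mx y b1 b2 + (2 * h + r)) := hy'
        rw [not_and_or] at h5
        rcases h5 with h5 | h5
        · obtain ⟨s0, _, hs0, e⟩ := exists_mx hy (zero_le (a := b1))
          have h6 := hle s0 (hs0.trans (h12.trans h2t))
          have h7 := abs_le.mp (hf0 s0 (hs0.trans (h12.trans h2t)))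
          rw [e] at h5
          linarith
        · obtain ⟨s0, _, hs0, e⟩ := exists_mx hy h2t
          have h6 := hle s0 hs0
          have h7 := abs_le.mp (hf0 s0 hs0)
          rw [e] at h5
          linarith

lemma PhiC_cost (hX : CBM P X) {h r : ℝ} (hh : 0 ≤ h) (hr : 0 ≤ r) {b1 b2 t : ℝ≥0}
    (h12 : b1 ≤ b2) (h2t : b2 ≤ t)
    {f0 f1 : ℝ≥0 → ℝ} (hf0c : Continuous f0) (hf1c : Continuous f1)
    (hf0 : ∀ s ≤ t, |f0 s| ≤ h) (hA : ∀ s, s ≤ b1 → f1 s = f0 s)
    (hB : ∀ s, b1 ≤ s → s ≤ b2 → f1 s ≤ f0 s + r)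
    (hC : ∀ s, b2 ≤ s → s ≤ t → f1 s ≤ f0 s + 1) :
    PhiC P X t f1 ≤ PhiC P X t f0 + (1 + ENNReal.ofReal r *
      P {ω | path X ω ∈ CompF (2 * h + r) b1 b2 t}) := by
  classical
  unfold PhiC
  set S := {ω | path X ω ∈ CompF (2 * h + r) b1 b2 t} with hS
  have hSm : MeasurableSet S := hX.mpath (measurableSet_CompF _ _ _ _)
  calc ∫⁻ ω, ENNReal.ofReal (mx (f1 + path X ω) 0 t) ∂P
      ≤ ∫⁻ ω, (ENNReal.ofReal (mx (f0 + path X ω) 0 t) +
          (1 + S.indicator (fun _ => ENNReal.ofReal r) ω)) ∂P := by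
        refine lintegral_mono fun ω => ?_
        have h1 := cost_det hh hr h12 h2t hf0c hf1c (hX.cont ω) hf0 hA hB hC
        refine (ENNReal.ofReal_le_ofReal h1).trans ?_
        refine ENNReal.ofReal_add_le.trans ?_
        gcongr
        refine ENNReal.ofReal_add_le.trans ?_
        rw [ENNReal.ofReal_one]
        gcongr
        by_cases hω : ω ∈ S
        · have : path X ω ∈ CompF (2 * h + r) b1 b2 t := hω
          rw [indicator_of_mem hω, indicator_of_mem this]
        · have : path X ω ∉ CompF (2 * h + r) b1 b2 t := hω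
          rw [indicator_of_notMem hω, indicator_of_notMem this, ENNReal.ofReal_zero]
    _ = _ := by
        have hm1 : Measurable (fun ω => 1 + S.indicator (fun _ => ENNReal.ofReal r) ω) :=
          (measurable_const.indicator hSm).const_add 1
        rw [lintegral_add_right _ hm1,
          lintegral_add_left measurable_const, lintegral_const, measure_univ,
          lintegral_indicator_const hSm, mul_one]

lemma HC_cost (hX : CBM P X) {h r : ℝ} (hh : 0 ≤ h) (hr : 0 ≤ r) {b1 b2 t : ℝ≥0}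
    (h12 : b1 ≤ b2) (h2t : b2 ≤ t) {u v w : ℝ≥0 → ℝ} (hu : Continuous u) (hv : Continuous v)
    (hw : Continuous w) (hv0 : v 0 = 0) (hw0 : w 0 = 0)
    (hf0 : am (cat b1 u (cat (b2 - b1) 0 v)) t ≤ h) (hwr : am w (b2 - b1) ≤ r)
    (hw1 : |w (b2 - b1)| ≤ 1) :
    HC P X t (cat b1 u (cat (b2 - b1) w v)) ≤ HC P X t (cat b1 u (cat (b2 - b1) 0 v)) +
      2 * (1 + ENNReal.ofReal r * P {ω | path X ω ∈ CompF (2 * h + r) b1 b2 t}) := by
  set ℓ := b2 - b1 with hℓ
  have key : ∀ u v w : ℝ≥0 → ℝ, Continuous u → Continuous v → Continuous w → v 0 = 0 → w 0 = 0 →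
      am (cat b1 u (cat ℓ 0 v)) t ≤ h → am w ℓ ≤ r → |w ℓ| ≤ 1 →
      PhiC P X t (cat b1 u (cat ℓ w v)) ≤ PhiC P X t (cat b1 u (cat ℓ 0 v)) +
      (1 + ENNReal.ofReal r * P {ω | path X ω ∈ CompF (2 * h + r) b1 b2 t}) := by
    intro u v w hu hv hw hv0 hw0 hf0 hwr hw1
    have hc0 : Continuous (cat b1 u (cat ℓ 0 v)) :=
      continuous_cat hu (continuous_cat continuous_const hv)
    have hc1 : Continuous (cat b1 u (cat ℓ w v)) :=
      continuous_cat hu (continuous_cat hw hv)
    have z0 : cat ℓ w v 0 = 0 := by simp [cat, hw0, hv0]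
    have z0' : cat ℓ 0 v 0 = 0 := by simp [cat, hv0]
    refine PhiC_cost hX hh hr h12 h2t hc0 hc1 (fun s hs => (le_am hc0 hs).trans hf0) ?_ ?_ ?_
    · intro s hs
      rw [cat_left z0 hs, cat_left z0' hs]
    · intro s hs1 hs2
      have hs3 : s - b1 ≤ ℓ := tsub_le_tsub_right hs2 b1
      rw [cat_right hs1, cat_right hs1, cat_left hv0 hs3, cat_left hv0 hs3]
      have := abs_le.mp ((le_am hw hs3).trans hwr)
      simp only [Pi.zero_apply]
      linarith
    · intro s hs1 hs2
      have hs0 : b1 ≤ s := h12.trans hs1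
      have hs3 : ℓ ≤ s - b1 := tsub_le_tsub_right hs1 b1
      rw [cat_right hs0, cat_right hs0, cat_right hs3, cat_right hs3]
      have := abs_le.mp hw1
      simp only [Pi.zero_apply]
      linarith
  unfold HC
  have k1 := key u v w hu hv hw hv0 hw0 hf0 hwr hw1
  have k2 := key (-u) (-v) (-w) hu.neg hv.neg hw.neg (by simp [hv0]) (by simp [hw0])
    (by
      have e : cat b1 (-u) (cat ℓ 0 (-v)) = -cat b1 u (cat ℓ 0 v) := by
        rw [neg_cat, neg_cat, neg_zero]
      rw [e, am_neg]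
      exact hf0)
    (by rw [am_neg]; exact hwr) (by simpa using hw1)
  rw [neg_cat, neg_cat, neg_cat, neg_cat, neg_zero]
  calc PhiC P X t (cat b1 u (cat ℓ w v)) + PhiC P X t (cat b1 (-u) (cat ℓ (-w) (-v)))
      ≤ _ := add_le_add k1 k2
    _ = _ := by ring

/-- replacing the flat block by a small tube costs little -/
lemma WC_cost (hX : CBM P X) (lam : ℝ≥0) {t : ℝ≥0} (ht : 0 < t) {h r pc k : ℝ}
    (hh : 0 ≤ h) (hr : 0 ≤ r) (hpc : 0 ≤ pc) {b1 b2 : ℝ≥0} (h12 : b1 ≤ b2) (h2t : b2 ≤ t)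
    (hC : P {ω | path X ω ∈ CompF (2 * h + r) b1 b2 t} ≤ ENNReal.ofReal pc)
    (hk : 2 * (1 + r * pc) ≤ k) :
    ENNReal.ofReal (Real.exp (-(lam * k))) *
      P {ω | am (path X ω) (b2 - b1) ≤ r ∧ |X (b2 - b1) ω| ≤ 1} *
      PsC P X lam h t b1 (b2 - b1) 0 ≤ WC P X lam t univ := by
  classical
  have hk0 : 0 ≤ k := le_trans (by positivity) hk
  have e0 : WC P X lam t univ = ∫⁻ ω, ex lam (HC P X t (path X ω)) ∂P := by
    rw [WC_eq hX lam t MeasurableSet.univ]
    simp only [indicator_univ]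
  rw [e0, ← lintegral_cat2_swap hX b1 (b2 - b1)
    (F := fun f => ex lam (HC P X t f)) ((measurable_ex lam).comp (measurable_HC hX t))]
  set ℓ := b2 - b1 with hℓ
  set S : Set Ω := {ω | am (path X ω) ℓ ≤ r ∧ |X ℓ ω| ≤ 1} with hS
  have hSm : MeasurableSet S :=
    (measurableSet_le ((measurable_am ℓ).comp hX.mpath) measurable_const).inter
      (measurableSet_le (hX.meas ℓ).abs measurable_const)
  calc ENNReal.ofReal (Real.exp (-(lam * k))) * P S * PsC P X lam h t b1 ℓ 0
      = ∫⁻ ω' in S, ENNReal.ofReal (Real.exp (-(lam * k))) * PsC P X lam h t b1 ℓ 0 ∂P := by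
        rw [setLIntegral_const]
        ring
    _ ≤ ∫⁻ ω' in S, ∫⁻ ω, ∫⁻ ω'', ex lam (HC P X t (cat b1 (path X ω)
          (cat ℓ (path X ω') (path X ω'')))) ∂P ∂P ∂P := by
        refine setLIntegral_mono' hSm fun ω' hω' => ?_
        unfold PsC
        rw [← lintegral_const_mul' _ _ ENNReal.ofReal_ne_top]
        refine lintegral_mono fun ω => ?_
        rw [← lintegral_const_mul' _ _ ENNReal.ofReal_ne_top]
        refine lintegral_mono fun ω'' => ?_
        unfold KC
        by_cases hf : (cat b1 (path X ω) (cat ℓ 0 (path X ω''))) ∈ {f : ℝ≥0 → ℝ | am f t ≤ h}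
        · rw [indicator_of_mem hf]
          have h1 := HC_cost hX hh hr h12 h2t (hX.cont ω) (hX.cont ω'') (hX.cont ω')
            (hX.path_zero ω'') (hX.path_zero ω') hf hω'.1 hω'.2
          have hc0 : Continuous (cat b1 (path X ω) (cat ℓ 0 (path X ω''))) :=
            continuous_cat (hX.cont ω) (continuous_cat continuous_const (hX.cont ω''))
          have h2 : HC P X t (cat b1 (path X ω) (cat ℓ (path X ω') (path X ω''))) ≤
              HC P X t (cat b1 (path X ω) (cat ℓ 0 (path X ω''))) + ENNReal.ofReal k := by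
            refine h1.trans ?_
            gcongr
            calc 2 * (1 + ENNReal.ofReal r * P {ω | path X ω ∈ CompF (2 * h + r) b1 b2 t})
                ≤ 2 * (1 + ENNReal.ofReal r * ENNReal.ofReal pc) := by gcongr
              _ = ENNReal.ofReal (2 * (1 + r * pc)) := by
                  rw [ENNReal.ofReal_mul (by norm_num), ENNReal.ofReal_add (by norm_num)
                    (by positivity), ENNReal.ofReal_mul hr]
                  simp
              _ ≤ ENNReal.ofReal k := ENNReal.ofReal_le_ofReal hk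
          have hfin := HC_ne_top hX ht hc0
          have h3 := ex_anti lam (ENNReal.add_ne_top.mpr ⟨hfin, ENNReal.ofReal_ne_top⟩) h2
          refine le_trans (le_of_eq ?_) h3
          rw [ex_add lam hfin ENNReal.ofReal_ne_top, ex_ofReal lam hk0, mul_comm]
        · rw [indicator_of_notMem hf, mul_zero]
          exact zero_le
    _ ≤ _ := setLIntegral_le_lintegral _ _

end Pool.Agent.TH970
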