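import Pool.Agent.TH970.Blk5

namespace Pool.Agent.TH970

open MeasureTheory ProbabilityTheory Set Filter Topology
open scoped ENNReal NNReal

set_option linter.unusedSectionVars false
set_option linter.unusedVariables false

variable {Ω : Type*} [MeasurableSpace Ω] {P : Measure Ω} [IsProbabilityMeasure P]
  {X : ℝ≥0 → Ω → ℝ}

/-- constant of the good event -/
noncomputable def cE : ℝ := (1 / 250560) ^ 2 * Real.exp (-(32 * 800 * 240 ^ 2 + 2))

/-- constant of the competition event -/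
def cF : ℝ := 307272

/-- ratio of the tube radius -/
noncomputable def kap : ℝ := cE / (320 * cF)

/-- constant in the exponential gain -/
noncomputable def c1 : ℝ := cE / 640

/-- constant in the entropic cost -/
noncomputable def C1 : ℝ := 2 * (153600 / kap ^ 2 + 2)

lemma cE_pos : 0 < cE := by unfold cE; positivity

lemma cF_pos : 0 < cF := by unfold cF; norm_num

lemma kap_pos : 0 < kap := div_pos cE_pos (mul_pos (by norm_num) cF_pos)

lemma cE_le_one : cE ≤ 1 := by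
  unfold cE
  have h1 : Real.exp (-(32 * 800 * 240 ^ 2 + 2)) ≤ 1 := Real.exp_le_one_iff.mpr (by norm_num)
  exact mul_le_one₀ (by norm_num) (Real.exp_pos _).le h1

lemma kap_le_one : kap ≤ 1 := by
  unfold kap cF
  rw [div_le_one (by norm_num)]
  have := cE_le_one
  linarith

lemma c1_pos : 0 < c1 := div_pos cE_pos (by norm_num)

lemma C1_pos : 0 < C1 := by
  have := kap_pos
  unfold C1
  positivity

lemma kap_mul : kap * cF = cE / 320 := by
  unfold kap
  have := cF_pos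
  field_simp

lemma c1_eq : c1 = cE / 640 := rfl

lemma num_fin {x1 x2 x3 y r h : ℝ} (hr : 0 < r) (hrh : r ≤ h) (hx : x1 ≤ y + x2 + x3) :
    Real.exp x1 ≤ (h + 1) * Real.exp y * (Real.exp x2 * (Real.exp x3 / (r + 1))) := by
  have h1 : Real.exp x1 ≤ Real.exp y * Real.exp x2 * Real.exp x3 := by
    rw [← Real.exp_add, ← Real.exp_add]
    exact Real.exp_le_exp.mpr hx
  have h2 : 1 ≤ (h + 1) / (r + 1) := by
    rw [one_le_div (by linarith)]
    linarith
  calc Real.exp x1 ≤ (Real.exp y * Real.exp x2 * Real.exp x3) * 1 := by rw [mul_one]; exact h1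
    _ ≤ (Real.exp y * Real.exp x2 * Real.exp x3) * ((h + 1) / (r + 1)) := by
        gcongr
    _ = _ := by ring

lemma pih_ge {h : ℝ} (hh : 0 < h) {T t : ℝ≥0} (hTt : T ≤ t) (hht : h ≤ Real.sqrt t) :
    h / (2 * Real.sqrt t) ≤ pih h T := by
  unfold pih
  have h1 : Real.sqrt T ≤ Real.sqrt t := Real.sqrt_le_sqrt (by exact_mod_cast hTt)
  have h2 : 0 ≤ Real.sqrt T := Real.sqrt_nonneg _
  exact div_le_div_of_nonneg_left hh.le (by linarith) (by linarith)

/-- paths oscillating in one cell have small weight -/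
theorem cell_bound (hX : CBM P X) (lam : ℝ≥0) {t : ℝ≥0} (ht : 0 < t) {h : ℝ} (hh : 0 < h)
    (hht : h ≤ Real.sqrt t) {m0 k : ℕ} (hk : k < 2 ^ m0)
    (hτ1 : 400 * h ^ 2 ≤ ((t / 2 ^ m0 : ℝ≥0) : ℝ)) (hτ2 : ((t / 2 ^ m0 : ℝ≥0) : ℝ) ≤ 800 * h ^ 2) :
    WC P X lam t {f | am f t ≤ h ∧ h / 20 < mx f (k * (t / 2 ^ m0)) ((k + 1 : ℕ) * (t / 2 ^ m0)) +
        mx (-f) (k * (t / 2 ^ m0)) ((k + 1 : ℕ) * (t / 2 ^ m0))} ≤
      ENNReal.ofReal ((h + 1) * Real.exp (-(lam * (c1 * h ^ 3 / t)) + 2 * lam + C1)) *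
        WC P X lam t univ := by
  set τ : ℝ≥0 := t / 2 ^ m0 with hτ
  have hτ0 : 0 < τ := by positivity
  set p0 : ℝ≥0 := k * τ with hp0
  set p1 : ℝ≥0 := (k + 1 : ℕ) * τ with hp1
  set b1 : ℝ≥0 := ((k - 1 : ℕ) : ℝ≥0) * τ with hb1
  set b2 : ℝ≥0 := ((min (k + 2) (2 ^ m0) : ℕ) : ℝ≥0) * τ with hb2
  have m1 : b1 ∈ Gr t m0 := mem_Gr.mpr ⟨k - 1, by omega, rfl⟩
  have m2 : p0 ∈ Gr t m0 := mem_Gr.mpr ⟨k, hk.le, rfl⟩
  have m3 : b2 ∈ Gr t m0 := mem_Gr.mpr ⟨min (k + 2) (2 ^ m0), min_le_right _ _, rfl⟩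
  have m4 : p1 ∈ Gr t m0 := mem_Gr.mpr ⟨k + 1, hk, rfl⟩
  have h1 : b1 ≤ p0 := by
    simp only [hb1, hp0]
    gcongr
    omega
  have h2 : p0 ≤ p1 := by
    simp only [hp0, hp1]
    gcongr
    omega
  have h3 : p1 ≤ b2 := by
    simp only [hp1, hb2]
    gcongr
    omega
  have h4 : b2 ≤ t := le_of_mem_Gr m3
  have hpt : p1 ≤ t := h3.trans h4
  have h12 : b1 ≤ b2 := h1.trans (h2.trans h3)
  have hp10 : p1 - p0 = τ := by
    rw [hp1, hp0, ← tsub_mul]
    push_cast
    rw [add_tsub_cancel_left, one_mul]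
  have hcL : (b1 = 0 ∧ p0 = 0) ∨ b1 + τ = p0 := by
    rcases Nat.eq_zero_or_pos k with h0 | h0
    · left
      simp [hb1, hp0, h0]
    · right
      simp only [hb1, hp0]
      have : ((k : ℕ) : ℝ≥0) = ((k - 1 : ℕ) : ℝ≥0) + 1 := by
        have h5 : k = (k - 1) + 1 := by omega
        conv_lhs => rw [h5]
        push_cast
        rfl
      rw [this]
      ring
  have hcR : (b2 - p1 = 0 ∧ t - p1 = 0) ∨ (b2 - p1 = τ ∧ τ ≤ t - p1) := by
    rcases Nat.eq_or_lt_of_le (Nat.succ_le_of_lt hk) with h0 | h0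
    · left
      have e : p1 = t := by
        simp only [hp1, hτ]
        have : ((k + 1 : ℕ) : ℝ≥0) = 2 ^ m0 := by
          rw [← Nat.cast_two, ← Nat.cast_pow]
          congr 1
        rw [this, mul_div_cancel₀ _ (by positivity)]
      rw [e]
      exact ⟨tsub_eq_zero_of_le h4, tsub_self t⟩
    · right
      have e : min (k + 2) (2 ^ m0) = k + 2 := min_eq_left (by omega)
      have e2 : b2 - p1 = τ := by
        simp only [hb2, hp1, e]
        rw [← tsub_mul, ← Nat.cast_tsub]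
        have : k + 2 - (k + 1) = 1 := by omega
        rw [this]
        simp
      refine ⟨e2, ?_⟩
      rw [← e2]
      exact tsub_le_tsub_right h4 p1
  have hs0 : 0 < Real.sqrt τ := Real.sqrt_pos.mpr (by exact_mod_cast hτ0)
  have hs1 : 20 * h ≤ Real.sqrt τ := by
    apply Real.le_sqrt_of_sq_le
    nlinarith
  have hs2 : Real.sqrt τ ≤ 29 * h := by
    rw [Real.sqrt_le_left (by positivity)]
    nlinarith
  set a : ℝ := h / 240 with ha
  have ha0 : 0 < a := by positivity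
  have h6 : 6 * (a + 3 * h) ≤ Real.sqrt τ := by
    simp only [ha]
    linarith
  set Q : ℝ := pih h b1 * pih h (t - b2) with hQ
  have q1 := pih_pos hh b1
  have q2 := pih_pos hh (t - b2)
  have hQ0 : 0 < Q := mul_pos q1 q2
  have hst : 0 < Real.sqrt t := lt_of_lt_of_le hh hht
  have hQ1 : h ^ 2 / (4 * t) ≤ Q := by
    have g1 := pih_ge hh (h12.trans h4) hht
    have g2 := pih_ge hh (T := t - b2) tsub_le_self hht
    have e : h ^ 2 / (4 * (t:ℝ)) = h / (2 * Real.sqrt t) * (h / (2 * Real.sqrt t)) := by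
      rw [div_mul_div_comm]
      congr 1
      · ring
      · have := Real.mul_self_sqrt (x := (t:ℝ)) t.2
        nlinarith
    rw [e, hQ]
    exact mul_le_mul g1 g2 (by positivity) q1.le
  have hτ2' : (τ:ℝ) ≤ 800 * h ^ 2 := hτ2
  -- good event
  have hE : ENNReal.ofReal (cE * Q) ≤ P {ω | path X ω ∈ GoodE a h b1 p0 p1 (b2 - p1) t} := by
    refine le_trans (ENNReal.ofReal_le_ofReal ?_) (prob_GoodE hX hτ0 ha0 hh h6 hcL h2 hpt hcR)
    rw [hp10, tsub_tsub, add_tsub_cancel_of_le h3]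
    have g1 : 1 / 250560 ≤ a / (36 * Real.sqrt τ) := by
      rw [div_le_div_iff₀ (by norm_num) (by positivity)]
      simp only [ha]
      nlinarith
    have g2 : Real.exp (-(32 * 800 * 240 ^ 2 + 2)) ≤ Real.exp (-(32 * (τ:ℝ) / a ^ 2 + 2)) := by
      apply Real.exp_le_exp.mpr
      have : 32 * (τ:ℝ) / a ^ 2 ≤ 32 * 800 * 240 ^ 2 := by
        rw [div_le_iff₀ (by positivity)]
        simp only [ha]
        rw [div_pow]
        field_simp
        nlinarith
      linarith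
    unfold cE
    have g3 : (1 / 250560 : ℝ) ^ 2 ≤ (a / (36 * Real.sqrt τ)) ^ 2 := by gcongr
    have g4 : 0 < Real.exp (-(32 * (τ:ℝ) / a ^ 2 + 2)) := Real.exp_pos _
    exact mul_le_mul_of_nonneg_right (mul_le_mul g3 g2 (Real.exp_pos _).le (by positivity)) hQ0.le
  have hA := WC_block hX lam ht ha0.le hh.le (ρ := h / 20) (by simp only [ha]; linarith)
    (pE := cE * Q) (mul_nonneg cE_pos.le hQ0.le) m1 m2 m3 h1 h2 h3 hE
  -- cost
  set r : ℝ := kap * h with hr
  have hr0 : 0 < r := mul_pos kap_pos hh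
  have hrh : r ≤ h := by
    have := kap_le_one
    simp only [hr]
    nlinarith
  have hℓ : ((b2 - b1 : ℝ≥0) : ℝ) ≤ 2400 * h ^ 2 := by
    have e : b2 ≤ b1 + 3 * τ := by
      have e3 : b1 + 3 * τ = ((k - 1 + 3 : ℕ) : ℝ≥0) * τ := by
        simp only [hb1]; push_cast; ring
      rw [e3]
      simp only [hb2]
      gcongr
      omega
    have e2 : b2 - b1 ≤ 3 * τ := tsub_le_iff_left.mpr e
    have e4 : ((b2 - b1 : ℝ≥0) : ℝ) ≤ ((3 * τ : ℝ≥0) : ℝ) := by exact_mod_cast e2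
    push_cast at e4
    linarith
  have hC : P {ω | path X ω ∈ CompF (2 * h + r) b1 b2 t} ≤ ENNReal.ofReal (cF * Q) := by
    refine (prob_CompF hX hh (K := 2 * h + r) (by linarith) h12 h4).trans
      (ENNReal.ofReal_le_ofReal ?_)
    rw [← hQ]
    gcongr
    rw [div_le_iff₀ (by positivity)]
    unfold cF
    nlinarith
  have hB := WC_cost hX lam ht hh.le hr0.le (pc := cF * Q) (mul_nonneg cF_pos.le hQ0.le)
    h12 h4 hC (k := 2 * (1 + r * (cF * Q))) le_rfl
  -- tube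
  set ℓ : ℝ≥0 := b2 - b1 with hℓd
  have hT := tube_end_lower hX (ℓ / 2) hr0
  rw [add_halves] at hT
  set Pt := P {ω | am (path X ω) ℓ ≤ r ∧ |X ℓ ω| ≤ 1} with hPt
  set e3 : ℝ := Real.exp (-(2 * (32 * (ℓ / 2 : ℝ≥0) / (r / 2) ^ 2 + 2))) / (r + 1) with he3
  have he3p : 0 < e3 := by positivity
  set e1 : ℝ := Real.exp (-(lam * ((h / 20 - 6 * a) * (cE * Q)) / 2)) with he1
  set e2 : ℝ := Real.exp (-(lam * (2 * (1 + r * (cF * Q))))) with he2
  have he2p : 0 < e2 := Real.exp_pos _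
  set PC := PsC P X lam h t b1 ℓ 0 with hPC
  have hfin : ENNReal.ofReal (e2 * e3) * PC ≤ WC P X lam t univ := by
    rw [ENNReal.ofReal_mul he2p.le]
    refine le_trans ?_ hB
    gcongr
  have hsplit : ENNReal.ofReal e1 * PC =
      ENNReal.ofReal (e1 / (e2 * e3)) * (ENNReal.ofReal (e2 * e3) * PC) := by
    rw [← mul_assoc, ← ENNReal.ofReal_mul (by positivity), div_mul_cancel₀ _ (by positivity)]
  refine hA.trans ?_
  rw [hsplit]
  refine mul_le_mul' (ENNReal.ofReal_le_ofReal ?_) hfin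
  rw [div_le_iff₀ (by positivity), he3, he2, he1]
  refine num_fin hr0 hrh ?_
  have k1 : 2 * (32 * ((ℓ / 2 : ℝ≥0) : ℝ) / (r / 2) ^ 2 + 2) ≤ C1 := by
    unfold C1
    have : 32 * ((ℓ / 2 : ℝ≥0) : ℝ) / (r / 2) ^ 2 ≤ 153600 / kap ^ 2 := by
      have hkp := kap_pos
      push_cast
      rw [div_le_div_iff₀ (by positivity) (by positivity)]
      simp only [hr]
      have : 0 < kap ^ 2 := by positivity
      nlinarith
    linarith
  have k3 : lam * (c1 * h ^ 3 / t) + lam * (2 * (r * (cF * Q))) ≤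
      lam * ((h / 20 - 6 * a) * (cE * Q)) / 2 := by
    have e4 : (lam:ℝ) * (2 * (r * (cF * Q))) = lam * (h * cE * Q / 160) := by
      simp only [hr]
      calc (lam:ℝ) * (2 * (kap * h * (cF * Q))) = lam * (2 * ((kap * cF) * (h * Q))) := by ring
        _ = _ := by rw [kap_mul]; ring
    have e6 : (h / 20 - 6 * a) = h / 40 := by simp only [ha]; ring
    rw [e4, e6]
    have e7 : c1 * h ^ 3 / t ≤ h * cE * Q / 160 := by
      have e8 : c1 * h ^ 3 / (t:ℝ) = h * cE / 160 * (h ^ 2 / (4 * t)) := by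
        rw [c1_eq]
        field_simp
        ring
      rw [e8]
      have e10 : 0 ≤ h * cE / 160 := by
        have := cE_pos
        positivity
      calc h * cE / 160 * (h ^ 2 / (4 * t)) ≤ h * cE / 160 * Q :=
            mul_le_mul_of_nonneg_left hQ1 e10
        _ = _ := by ring
    have e9 : (lam:ℝ) * (c1 * h ^ 3 / t) ≤ lam * (h * cE * Q / 160) :=
      mul_le_mul_of_nonneg_left e7 lam.2
    linarith
  linarith

end Pool.Agent.TH970
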