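import Mathlib

namespace Pool.Agent.TH970

open MeasureTheory ProbabilityTheory Set Filter Topology
open scoped ENNReal NNReal

variable {Ω : Type*} [MeasurableSpace Ω]

/-- The number of points `x i ω` in the set `A`. -/
noncomputable def count (x : ℕ → Ω → ℝ) (A : Set ℝ) (ω : Ω) : ℝ≥0∞ :=
  ∑' i, A.indicator (fun _ => (1 : ℝ≥0∞)) (x i ω)

/-- The sequence of random points `x 0, x 1, …` is an enumeration of a Poisson point process on
`ℝ` with intensity `lam` times Lebesgue measure: the number of points in a Borel set `A` of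
finite length is Poisson with mean `lam * |A|`, and the numbers of points in finitely many
disjoint such sets are independent. -/
structure IsPoissonProcess (P : Measure Ω) (lam : ℝ≥0) (x : ℕ → Ω → ℝ) : Prop where
  measurable : ∀ i, Measurable (x i)
  law : ∀ A, MeasurableSet A → volume A ≠ ∞ → P.map (count x A) =
    (poissonMeasure (lam * (volume A).toNNReal)).map (fun n : ℕ => (n : ℝ≥0∞))
  indep : ∀ (ι : Type) [Finite ι] (A : ι → Set ℝ),
    (∀ i, MeasurableSet (A i)) → (∀ i, volume (A i) ≠ ∞) →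
    Pairwise (Function.onFun Disjoint A) → iIndepFun (fun i => count x (A i)) P

/-- The moving trap model: under `P`, the particle `X` is a standard Brownian motion on `ℝ`, `x` is
a Poisson point process of intensity `lam`, the motions `Y i` of the traps are independent standard
Brownian motions, independent of the points `x`, and `X` is independent of the traps `(x, Y)`. -/
structure TrapModel (P : Measure Ω) (lam : ℝ≥0) (X : ℝ≥0 → Ω → ℝ)
    (x : ℕ → Ω → ℝ) (Y : ℕ → ℝ≥0 → Ω → ℝ) : Prop where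
  measurable_particle : ∀ t, Measurable (X t)
  particle : IsBrownianReal X P
  points : IsPoissonProcess P lam x
  measurable_traps : ∀ i t, Measurable (Y i t)
  traps : ∀ i, IsBrownianReal (Y i) P
  indep_traps : iIndepFun (fun i ω t => Y i t ω) P
  indep_points_traps : IndepFun (fun ω i => x i ω) (fun ω i t => Y i t ω) P
  indep_particle : IndepFun (fun ω t => X t ω) (fun ω => (fun i => x i ω, fun i t => Y i t ω)) P

/-- The trap field `K_s`, the union of the closed balls of radius `a` around the traps at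
time `s`. -/
def trapField (a : ℝ) (x : ℕ → Ω → ℝ) (Y : ℕ → ℝ≥0 → Ω → ℝ) (s : ℝ≥0) (ω : Ω) : Set ℝ :=
  ⋃ i, Metric.closedBall (x i ω + Y i s ω) a

/-- The maximal displacement of the particle up to time `t`, that is
`max (sup_{s ≤ t} X_s) (- inf_{s ≤ t} X_s)`. -/
noncomputable def disp (X : ℝ≥0 → Ω → ℝ) (t : ℝ≥0) (ω : Ω) : ℝ :=
  max (sSup ((fun s => X s ω) '' Set.Iic t)) (-sInf ((fun s => X s ω) '' Set.Iic t))

/-- The hitting time `T = inf {s ≥ 0 : R_s(X) ∩ K_s ≠ ∅}` of the trap field by the range of the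
particle, where `R_s(X) = {X_u : 0 ≤ u ≤ s}`; it is infinite if there is no such `s`. -/
noncomputable def rangeHitTime (a : ℝ) (X : ℝ≥0 → Ω → ℝ) (x : ℕ → Ω → ℝ)
    (Y : ℕ → ℝ≥0 → Ω → ℝ) (ω : Ω) : ℝ≥0∞ :=
  ⨅ s : ℝ≥0, ⨅ _ : (((fun u => X u ω) '' Set.Iic s) ∩ trapField a x Y s ω).Nonempty, (s : ℝ≥0∞)

/-- The hitting time `inf {s ≥ 0 : X_s ∈ K_s}` of the trap field by the particle; it is infinite
if there is no such `s`. -/
noncomputable def hitTime (a : ℝ) (X : ℝ≥0 → Ω → ℝ) (x : ℕ → Ω → ℝ)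
    (Y : ℕ → ℝ≥0 → Ω → ℝ) (ω : Ω) : ℝ≥0∞ :=
  ⨅ s : ℝ≥0, ⨅ _ : X s ω ∈ trapField a x Y s ω, (s : ℝ≥0∞)

/-- The exponent `α*`, the infimum of the `α > 0` such that for some `c > 0` the conditional
probability of the event that the maximal displacement up to time `t` is less than `c t ^ α`,
given that `T > t`, tends to `1` as `t → ∞`. -/
noncomputable def alphaStar (P : Measure Ω) (X : ℝ≥0 → Ω → ℝ) (T : Ω → ℝ≥0∞) : ℝ :=
  sInf {α : ℝ | 0 < α ∧ ∃ c : ℝ, 0 < c ∧ Tendsto (fun t : ℝ≥0 =>
    P ({ω | disp X t ω < c * (t : ℝ) ^ α} ∩ {ω | (t : ℝ≥0∞) < T ω}) /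
      P {ω | (t : ℝ≥0∞) < T ω}) atTop (𝓝 1)}

end Pool.Agent.TH970
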