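import Pool.Agent.TH970.Vol

namespace Pool.Agent.TH970

open MeasureTheory ProbabilityTheory Set Filter Topology
open scoped ENNReal NNReal

set_option linter.unusedSectionVars false
set_option linter.unusedVariables false

variable {Ω : Type*} [MeasurableSpace Ω] {P : Measure Ω} [IsProbabilityMeasure P]
  {X : ℝ≥0 → Ω → ℝ}

/-- the path frozen at time `b` -/
def fz (b : ℝ≥0) (w : ℝ≥0 → ℝ) : ℝ≥0 → ℝ := fun s => w (min s b)

lemma continuous_fz {b : ℝ≥0} {w : ℝ≥0 → ℝ} (hw : Continuous w) : Continuous (fz b w) :=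
  hw.comp (continuous_id.min continuous_const)

lemma measurable_fz (b : ℝ≥0) : Measurable (fz b) := by
  unfold fz
  fun_prop

lemma neg_fz (b : ℝ≥0) (w : ℝ≥0 → ℝ) : -fz b w = fz b (-w) := rfl

lemma neg_cat (b : ℝ≥0) (w z : ℝ≥0 → ℝ) : -cat b w z = cat b (-w) (-z) := by
  ext s
  simp only [cat, Pi.neg_apply]
  ring

lemma mx_end {w : ℝ≥0 → ℝ} (hw : Continuous w) (b : ℝ≥0) :
    mx (-rev b w) 0 b = mx w 0 b - w b := by
  have hr : Continuous (-rev b w) := by
    unfold rev
    have h1 : Continuous fun s : ℝ≥0 => w (max s b) := hw.comp (continuous_id.max continuous_const)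
    have h2 : Continuous fun s : ℝ≥0 => w (b - s) := hw.comp (continuous_const.sub continuous_id)
    exact (h1.sub h2).neg
  apply le_antisymm
  · refine mx_le zero_le fun s _ h2 => ?_
    simp only [Pi.neg_apply, rev, max_eq_right h2]
    have := le_mx hw (zero_le (a := b - s)) (b := b) tsub_le_self
    linarith
  · rw [sub_le_iff_le_add]
    refine mx_le zero_le fun s _ h2 => ?_
    have h3 := le_mx hr (zero_le (a := b - s)) (b := b) tsub_le_self
    simp only [Pi.neg_apply, rev, max_eq_right (tsub_le_self (a := b) (b := s))] at h3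
    rw [tsub_tsub_cancel_of_le h2] at h3
    linarith

/-- The law of the maximum minus the end value. -/
lemma end_law (hX : CBM P X) (b : ℝ≥0) (x : ℝ) :
    P {ω | mx (path X ω) 0 b - X b ω ≤ x} = P {ω | mx (path X ω) 0 b ≤ x} := by
  have hm : Measurable (fun w : ℝ≥0 → ℝ => mx (-w) 0 b) :=
    (measurable_mx 0 b).comp measurable_neg
  have h1 := prob_rev hX b (S := {w | mx (-w) 0 b ≤ x}) (measurableSet_le hm measurable_const)
  have h2 := prob_neg hX (S := {w | mx w 0 b ≤ x}) (measurableSet_le (measurable_mx 0 b)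
    measurable_const)
  have h3 : {ω | rev b (path X ω) ∈ {w | mx (-w) 0 b ≤ x}} =
      {ω | mx (path X ω) 0 b - X b ω ≤ x} := by
    ext ω
    simp only [Set.mem_ofPred_eq]
    rw [mx_end (hX.cont ω)]
    rfl
  rw [h3] at h1
  exact h1.trans h2

lemma mx_cat_left {b : ℝ≥0} {w z : ℝ≥0 → ℝ} (hz : z 0 = 0) : mx (cat b w z) 0 b = mx w 0 b := by
  unfold mx
  congr 1
  ext n
  rw [cat_left hz (max_le zero_le (min_le_right _ _))]

lemma mx_cat_right {b t : ℝ≥0} {w z : ℝ≥0 → ℝ} (hw : Continuous w) (hz : Continuous z)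
    (hbt : b ≤ t) : mx (cat b w z) b t = w b + mx z 0 (t - b) := by
  apply le_antisymm
  · refine mx_le hbt fun s h1 h2 => ?_
    rw [cat_right h1]
    have := le_mx hz (zero_le (a := s - b)) (b := t - b) (tsub_le_tsub_right h2 b)
    linarith
  · obtain ⟨s, _, h2, h3⟩ := exists_mx hz (zero_le (a := t - b))
    rw [h3, ← cat_add (b := b)]
    refine le_mx (continuous_cat hw hz) le_self_add ?_
    calc b + s ≤ b + (t - b) := by gcongr
      _ = t := add_tsub_cancel_of_le hbt

/-- The maximum is attained late with not too small probability. -/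
lemma late_max (hX : CBM P X) {b t : ℝ≥0} (hbt : b ≤ t) (ht : 0 < t) :
    ENNReal.ofReal (Real.sqrt (t - b : ℝ≥0) / Real.sqrt t / 72) ≤
      P {ω | mx (path X ω) 0 b ≤ mx (path X ω) b t} := by
  have hst : 0 < Real.sqrt t := Real.sqrt_pos.mpr ht
  rcases eq_or_lt_of_le hbt with h | h
  · rw [← h, tsub_self]
    simp
  have hδ : 0 < t - b := tsub_pos_of_lt h
  have hsδ : 0 < Real.sqrt (t - b : ℝ≥0) := Real.sqrt_pos.mpr hδ
  have hδt : Real.sqrt (t - b : ℝ≥0) ≤ Real.sqrt t := by
    apply Real.sqrt_le_sqrt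
    exact_mod_cast tsub_le_self
  rcases eq_or_ne b 0 with hb | hb
  · have : {ω | mx (path X ω) 0 b ≤ mx (path X ω) b t} = univ := by
      ext ω
      simp only [Set.mem_ofPred_eq, mem_univ, iff_true]
      rw [hb]
      exact mx_mono (hX.cont ω) le_rfl zero_le
    rw [this, measure_univ, ← ENNReal.ofReal_one]
    apply ENNReal.ofReal_le_ofReal
    have : Real.sqrt (t - b : ℝ≥0) / Real.sqrt t ≤ 1 := (div_le_one hst).mpr hδt
    linarith
  have hb0 : 0 < b := pos_iff_ne_zero.mpr hb
  have hsb : 0 < Real.sqrt b := Real.sqrt_pos.mpr hb0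
  have hS : MeasurableSet {w : ℝ≥0 → ℝ | mx w 0 b ≤ mx w b t} :=
    measurableSet_le (measurable_mx 0 b) (measurable_mx b t)
  have h1 := prob_cat hX b hS
  have h2 : {ω | path X ω ∈ {w : ℝ≥0 → ℝ | mx w 0 b ≤ mx w b t}} =
      {ω | mx (path X ω) 0 b ≤ mx (path X ω) b t} := rfl
  rw [← h2, ← h1]
  set A : Set Ω := {ω | mx (path X ω) 0 b - X b ω ≤ Real.sqrt (t - b : ℝ≥0)} with hA
  set B : Set Ω := {ω | Real.sqrt (t - b : ℝ≥0) ≤ X (t - b) ω} with hB
  have hAm : MeasurableSet A := by
    have : Measurable (fun ω => mx (path X ω) 0 b - X b ω) :=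
      ((measurable_mx 0 b).comp hX.mpath).sub (hX.meas b)
    exact measurableSet_le this measurable_const
  have hPA : ENNReal.ofReal (Real.sqrt (t - b : ℝ≥0) / Real.sqrt t / 3) ≤ P A := by
    rw [hA, end_law hX]
    refine le_trans (ENNReal.ofReal_le_ofReal ?_) (mx_lower hX hb0 hsδ.le)
    have h3 : Real.sqrt (t - b : ℝ≥0) / Real.sqrt t ≤
        min 1 (Real.sqrt (t - b : ℝ≥0) / Real.sqrt b) := by
      refine le_min ((div_le_one hst).mpr hδt) ?_
      have : Real.sqrt b ≤ Real.sqrt t := Real.sqrt_le_sqrt (by exact_mod_cast hbt)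
      exact div_le_div_of_nonneg_left hsδ.le hsb this
    linarith
  have hPB : ENNReal.ofReal (1 / 24) ≤ P B := gt_lower hX hδ
  calc ENNReal.ofReal (Real.sqrt (t - b : ℝ≥0) / Real.sqrt t / 72)
      = ENNReal.ofReal (1 / 24) * ENNReal.ofReal (Real.sqrt (t - b : ℝ≥0) / Real.sqrt t / 3) := by
        rw [← ENNReal.ofReal_mul (by norm_num)]
        congr 1
        ring
    _ ≤ P B * P A := mul_le_mul' hPB hPA
    _ = ∫⁻ ω in A, P B ∂P := by rw [setLIntegral_const]
    _ ≤ ∫⁻ ω in A, P {ω' | cat b (path X ω) (path X ω') ∈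
          {w : ℝ≥0 → ℝ | mx w 0 b ≤ mx w b t}} ∂P := by
        refine setLIntegral_mono' hAm fun ω hω => measure_mono fun ω' hω' => ?_
        simp only [Set.mem_ofPred_eq]
        rw [mx_cat_left (hX.path_zero ω')]
        have h3 : mx (path X ω) 0 b - X b ω ≤ Real.sqrt (t - b : ℝ≥0) := hω
        have h4 : Real.sqrt (t - b : ℝ≥0) ≤ X (t - b) ω' := hω'
        have h5 := le_mx (continuous_cat (b := b) (hX.cont ω) (hX.cont ω')) hbt le_rfl
        rw [cat_right hbt] at h5
        simp only [path] at h5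
        have h6 : mx (path X ω) 0 b - X b ω ≤ Real.sqrt (t - b : ℝ≥0) := hω
        linarith
    _ ≤ _ := setLIntegral_le_lintegral _ _

/-- The end value is close to the maximum with not too small probability. -/
lemma end_max (hX : CBM P X) {t : ℝ≥0} (ht : 0 < t) {x : ℝ} (hx : 0 ≤ x) :
    ENNReal.ofReal (min 1 (x / Real.sqrt t) / 3) ≤ P {ω | mx (path X ω) 0 t - X t ω ≤ x} := by
  rw [end_law hX]
  exact mx_lower hX ht hx

/-- The maximum is attained late with small probability. -/
lemma late_upper (hX : CBM P X) {b t : ℝ≥0} (hbt : b ≤ t) (ht : 0 < t) {K : ℝ} (hK : 0 ≤ K) :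
    P {ω | mx (path X ω) 0 b < mx (path X ω) b t + K} ≤
      ENNReal.ofReal (2 * (2 * Real.sqrt (t - b : ℝ≥0) + K) / Real.sqrt t) := by
  have hst : 0 < Real.sqrt t := Real.sqrt_pos.mpr ht
  rcases le_total t (2 * (t - b)) with h | h
  · refine prob_le_one.trans ?_
    rw [← ENNReal.ofReal_one]
    apply ENNReal.ofReal_le_ofReal
    rw [le_div_iff₀ hst, one_mul]
    have h1 : Real.sqrt t ≤ Real.sqrt (4 * (t - b : ℝ≥0)) := by
      apply Real.sqrt_le_sqrt
      have : (t:ℝ) ≤ 2 * (t - b : ℝ≥0) := by exact_mod_cast h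
      have h3 : (0:ℝ) ≤ (t - b : ℝ≥0) := NNReal.coe_nonneg _
      linarith
    rw [Real.sqrt_mul (by norm_num), show (4:ℝ) = 2 ^ 2 by norm_num,
      Real.sqrt_sq (by norm_num)] at h1
    have h2 := Real.sqrt_nonneg ((t - b : ℝ≥0) : ℝ)
    linarith
  · have hb2 : t ≤ 4 * b := by
      have h1 : (2:ℝ) * (t - b : ℝ≥0) ≤ t := by exact_mod_cast h
      rw [NNReal.coe_sub hbt] at h1
      have h2 : (t:ℝ) ≤ 4 * b := by
        have := b.2
        linarith [NNReal.coe_nonneg b]
      exact_mod_cast h2
    have hb0 : 0 < b := by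
      by_contra hcon
      have : b = 0 := by simpa using hcon
      rw [this, mul_zero] at hb2
      exact absurd (lt_of_lt_of_le ht hb2) (lt_irrefl _)
    have hsb : 0 < Real.sqrt b := Real.sqrt_pos.mpr hb0
    have hsb2 : Real.sqrt t ≤ 2 * Real.sqrt b := by
      have h1 : Real.sqrt t ≤ Real.sqrt (4 * b) := Real.sqrt_le_sqrt (by exact_mod_cast hb2)
      rwa [Real.sqrt_mul (by norm_num), show (4:ℝ) = 2 ^ 2 by norm_num,
        Real.sqrt_sq (by norm_num)] at h1
    have hS : MeasurableSet {w : ℝ≥0 → ℝ | mx w 0 b < mx w b t + K} :=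
      measurableSet_lt (measurable_mx 0 b) ((measurable_mx b t).add_const K)
    have h1 := prob_cat hX b hS
    have h2 : {ω | path X ω ∈ {w : ℝ≥0 → ℝ | mx w 0 b < mx w b t + K}} =
        {ω | mx (path X ω) 0 b < mx (path X ω) b t + K} := rfl
    rw [← h2, ← h1]
    -- swap the order of integration
    have hEm : MeasurableSet {q : Ω × Ω | mx (path X q.1) 0 b - X b q.1 <
        mx (path X q.2) 0 (t - b) + K} := by
      refine measurableSet_lt ?_ ?_
      · exact (((measurable_mx 0 b).comp hX.mpath).sub (hX.meas b)).comp measurable_fst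
      · exact (((measurable_mx 0 (t - b)).comp hX.mpath).add_const K).comp measurable_snd
    have h3 : ∀ ω, {ω' | cat b (path X ω) (path X ω') ∈
        {w : ℝ≥0 → ℝ | mx w 0 b < mx w b t + K}} =
        Prod.mk ω ⁻¹' {q : Ω × Ω | mx (path X q.1) 0 b - X b q.1 <
          mx (path X q.2) 0 (t - b) + K} := by
      intro ω
      ext ω'
      simp only [Set.mem_ofPred_eq, mem_preimage]
      rw [mx_cat_left (hX.path_zero ω'), mx_cat_right (hX.cont ω) (hX.cont ω') hbt]
      simp only [path]
      constructor <;> intro h <;> linarith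
    simp_rw [h3]
    rw [← Measure.prod_apply hEm, Measure.prod_apply_symm hEm]
    calc ∫⁻ ω', P ((fun ω => (ω, ω')) ⁻¹' {q : Ω × Ω | mx (path X q.1) 0 b - X b q.1 <
          mx (path X q.2) 0 (t - b) + K}) ∂P
        ≤ ∫⁻ ω', ENNReal.ofReal ((mx (path X ω') 0 (t - b) + K) / Real.sqrt b) ∂P := by
          refine lintegral_mono fun ω' => ?_
          have h0 : 0 ≤ mx (path X ω') 0 (t - b) := by
            have := le_mx (hX.cont ω') (a := 0) (b := t - b) (s := 0) le_rfl zero_le
            rwa [hX.path_zero] at this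
          have h7 := mx_upper hX hb0 (x := mx (path X ω') 0 (t - b) + K) (by linarith)
          rw [← end_law hX] at h7
          refine le_trans (measure_mono ?_) h7
          intro ω hω
          have h8 : mx (path X ω) 0 b - X b ω < mx (path X ω') 0 (t - b) + K := hω
          exact h8.le
      _ = ENNReal.ofReal (1 / Real.sqrt b) *
            ∫⁻ ω', (ENNReal.ofReal (mx (path X ω') 0 (t - b)) + ENNReal.ofReal K) ∂P := by
          have hmm : Measurable (fun ω' => ENNReal.ofReal (mx (path X ω') 0 (t - b)) +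
              ENNReal.ofReal K) :=
            (((measurable_mx 0 (t - b)).comp hX.mpath).ennreal_ofReal).add_const _
          rw [← lintegral_const_mul _ hmm]
          refine lintegral_congr fun ω' => ?_
          have h0 : 0 ≤ mx (path X ω') 0 (t - b) := by
            have := le_mx (hX.cont ω') (a := 0) (b := t - b) (s := 0) le_rfl zero_le
            rwa [hX.path_zero] at this
          rw [← ENNReal.ofReal_add h0 hK, ← ENNReal.ofReal_mul (by positivity)]
          congr 1
          ring
      _ ≤ ENNReal.ofReal (1 / Real.sqrt b) *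
            (ENNReal.ofReal (2 * Real.sqrt (t - b : ℝ≥0)) + ENNReal.ofReal K) := by
          gcongr
          rw [lintegral_add_right _ measurable_const, lintegral_const, measure_univ, mul_one]
          gcongr
          rcases eq_or_ne (t - b) 0 with h4 | h4
          · rw [h4]
            have : ∀ ω', ENNReal.ofReal (mx (path X ω') 0 0) = 0 := by
              intro ω'
              rw [ENNReal.ofReal_eq_zero]
              refine mx_le le_rfl fun s _ hs => ?_
              have : s = 0 := le_antisymm hs zero_le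
              rw [this, hX.path_zero]
            simp [this]
          · exact lintegral_mx hX (pos_iff_ne_zero.mpr h4)
      _ = ENNReal.ofReal ((2 * Real.sqrt (t - b : ℝ≥0) + K) / Real.sqrt b) := by
          rw [← ENNReal.ofReal_add (by positivity) hK, ← ENNReal.ofReal_mul (by positivity)]
          congr 1
          ring
      _ ≤ _ := by
          apply ENNReal.ofReal_le_ofReal
          rw [div_le_div_iff₀ hsb hst]
          have h5 : 0 ≤ 2 * Real.sqrt (t - b : ℝ≥0) + K := by positivity
          nlinarith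

end Pool.Agent.TH970
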