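import Pool.Agent.TH970.Slow9

namespace Pool.Agent.TH970

open MeasureTheory ProbabilityTheory Set Filter Topology
open scoped ENNReal NNReal

set_option linter.unusedSectionVars false
set_option linter.unusedVariables false

variable {Ω : Type*} [MeasurableSpace Ω] {P : Measure Ω} [IsProbabilityMeasure P]
  {X : ℝ≥0 → Ω → ℝ}

lemma measurable_mx_add (hX : CBM P X) (f : ℝ≥0 → ℝ) (t : ℝ≥0) :
    Measurable (fun ω => mx (f + path X ω) 0 t) :=
  (measurable_mx 0 t).comp (measurable_add_path' hX f)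

lemma mx_add_nonneg (hX : CBM P X) {f : ℝ≥0 → ℝ} (hf : Continuous f) (hf0 : f 0 = 0) (t : ℝ≥0)
    (ω : Ω) : 0 ≤ mx (f + path X ω) 0 t := by
  have := le_mx (w := f + path X ω) (hf.add (hX.cont ω)) (a := 0) (b := t) (s := 0) le_rfl zero_le
  simpa only [Pi.add_apply, hf0, hX.path_zero, add_zero] using this

/-- second difference at zero -/
lemma HC_gain (hX : CBM P X) {t : ℝ≥0} {f : ℝ≥0 → ℝ} (hf : Continuous f) (hf0 : f 0 = 0)
    {G : Ω → ℝ≥0∞} (hG : Measurable G)
    (h : ∀ ω, ENNReal.ofReal (2 * mx (path X ω) 0 t) + G ω ≤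
      ENNReal.ofReal (mx (f + path X ω) 0 t + mx (-f + path X ω) 0 t)) :
    HC P X t 0 + ∫⁻ ω, G ω ∂P ≤ HC P X t f := by
  unfold HC PhiC
  rw [neg_zero, ← lintegral_add_left (measurable_mx_add hX 0 t).ennreal_ofReal,
    ← lintegral_add_right _ hG,
    ← lintegral_add_left (measurable_mx_add hX f t).ennreal_ofReal]
  refine lintegral_mono fun ω => ?_
  have h0 := mx_add_nonneg hX (f := 0) continuous_const rfl t ω
  have h1 := mx_add_nonneg hX hf hf0 t ω
  have h2 := mx_add_nonneg hX hf.neg (by simp [hf0]) t ω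
  rw [← ENNReal.ofReal_add h0 h0, ← ENNReal.ofReal_add h1 h2]
  refine le_trans (le_of_eq ?_) (h ω)
  rw [zero_add, two_mul]

lemma two_mx_le {f y : ℝ≥0 → ℝ} (hf : Continuous f) (hy : Continuous y) (t : ℝ≥0) :
    2 * mx y 0 t ≤ mx (f + y) 0 t + mx (-f + y) 0 t := by
  obtain ⟨s, _, hs, e⟩ := exists_mx hy (zero_le (a := t))
  have h1 := le_mx (w := f + y) (hf.add hy) (a := 0) (b := t) (s := s) zero_le hs
  have h2 := le_mx (w := -f + y) (hf.neg.add hy) (a := 0) (b := t) (s := s) zero_le hs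
  simp only [Pi.add_apply, Pi.neg_apply] at h1 h2
  rw [e]
  linarith

lemma HC_zero_le (hX : CBM P X) {t : ℝ≥0} {f : ℝ≥0 → ℝ} (hf : Continuous f) (hf0 : f 0 = 0) :
    HC P X t 0 ≤ HC P X t f := by
  have h1 := HC_gain hX (t := t) hf hf0 (G := fun _ => 0) measurable_const (fun ω => by
    rw [add_zero]
    exact ENNReal.ofReal_le_ofReal (two_mx_le hf (hX.cont ω) t))
  simpa using h1

/-- large displacements are expensive -/
lemma HC_crude (hX : CBM P X) {t : ℝ≥0} {f : ℝ≥0 → ℝ} (hf : Continuous f) (hf0 : f 0 = 0)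
    {R : ℝ} (hR : 0 < R) (h : R ≤ am f t) :
    HC P X t 0 + ENNReal.ofReal (R / 4 * Real.exp (-(32 * t / (R / 4) ^ 2 + 2))) ≤
      HC P X t f := by
  classical
  set S : Set Ω := {ω | am (path X ω) t ≤ R / 4} with hS
  have hSm : MeasurableSet S := hX.mpath (measurableSet_am_le t (R / 4))
  have h1 := HC_gain hX (t := t) hf hf0 (G := S.indicator (fun _ => ENNReal.ofReal (R / 4)))
    (measurable_const.indicator hSm) (fun ω => by
      by_cases hω : ω ∈ S
      · rw [indicator_of_mem hω]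
        have hmx := mx_add_nonneg hX (f := 0) continuous_const rfl t ω
        rw [zero_add] at hmx
        rw [← ENNReal.ofReal_add (by linarith) (by linarith)]
        apply ENNReal.ofReal_le_ofReal
        obtain ⟨s, _, hs, e⟩ := exists_mx (w := fun s => |f s|) hf.abs (zero_le (a := t))
        have e' : am f t = |f s| := e
        rw [e'] at h
        have h2 := le_mx (w := f + path X ω) (hf.add (hX.cont ω)) (a := 0) (b := t) (s := s)
          zero_le hs
        have h3 := le_mx (w := -f + path X ω) (hf.neg.add (hX.cont ω)) (a := 0) (b := t) (s := s)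
          zero_le hs
        simp only [Pi.add_apply, Pi.neg_apply] at h2 h3
        have h4 := mx_add_nonneg hX hf hf0 t ω
        have h5 := mx_add_nonneg hX hf.neg (by simp [hf0]) t ω
        have h6 : am (path X ω) t ≤ R / 4 := hω
        have h7 := abs_le.mp ((le_am (hX.cont ω) hs).trans h6)
        have h8 := (mx_le_am (hX.cont ω) t).trans h6
        rcases le_abs.mp h with h9 | h9
        · linarith
        · linarith
      · rw [indicator_of_notMem hω, add_zero]
        exact ENNReal.ofReal_le_ofReal (two_mx_le hf (hX.cont ω) t))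
  refine le_trans (add_le_add le_rfl ?_) h1
  rw [lintegral_indicator_const hSm, ENNReal.ofReal_mul (by positivity)]
  gcongr
  exact small_ball_lower hX t (by positivity)

lemma HC_le (hX : CBM P X) {t : ℝ≥0} {f : ℝ≥0 → ℝ} (hf : Continuous f) {r : ℝ} (hr : 0 ≤ r)
    (h : am f t ≤ r) : HC P X t f ≤ HC P X t 0 + ENNReal.ofReal (2 * r) := by
  have key : ∀ f : ℝ≥0 → ℝ, Continuous f → am f t ≤ r →
      PhiC P X t f ≤ PhiC P X t 0 + ENNReal.ofReal r := by
    intro f hf h
    unfold PhiC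
    calc ∫⁻ ω, ENNReal.ofReal (mx (f + path X ω) 0 t) ∂P
        ≤ ∫⁻ ω, (ENNReal.ofReal (mx (0 + path X ω) 0 t) + ENNReal.ofReal r) ∂P := by
          refine lintegral_mono fun ω => ?_
          refine le_trans (ENNReal.ofReal_le_ofReal ?_) ENNReal.ofReal_add_le
          rw [zero_add]
          have := mx_add_le hf (hX.cont ω) t
          linarith
      _ = _ := by rw [lintegral_add_right _ measurable_const, lintegral_const, measure_univ,
          mul_one]
  have h1 := key f hf h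
  have h2 := key (-f) hf.neg (by rw [am_neg]; exact h)
  unfold HC
  rw [neg_zero]
  have e : ENNReal.ofReal (2 * r) = ENNReal.ofReal r + ENNReal.ofReal r := by
    rw [two_mul, ENNReal.ofReal_add hr hr]
  rw [e]
  calc _ ≤ (PhiC P X t 0 + ENNReal.ofReal r) + (PhiC P X t 0 + ENNReal.ofReal r) :=
        add_le_add h1 h2
    _ = _ := by ring

/-- paths with small displacement have small weight -/
lemma WC_small (hX : CBM P X) (lam : ℝ≥0) {t : ℝ≥0} (ht : 0 < t) {ρ : ℝ} (hρ : 0 < ρ) :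
    WC P X lam t {w | am w t ≤ ρ} ≤
      ENNReal.ofReal (Real.exp (-(t / (32 * ρ ^ 2) - 1))) * ex lam (HC P X t 0) := by
  unfold WC
  calc ∫⁻ ω in {ω | path X ω ∈ {w : ℝ≥0 → ℝ | am w t ≤ ρ}}, ex lam (HC P X t (path X ω)) ∂P
      ≤ ∫⁻ ω in {ω | path X ω ∈ {w : ℝ≥0 → ℝ | am w t ≤ ρ}}, ex lam (HC P X t 0) ∂P := by
        refine lintegral_mono fun ω => ?_
        exact ex_anti lam (HC_ne_top hX ht (hX.cont ω)) (HC_zero_le hX (hX.cont ω) (hX.path_zero ω))
    _ = ex lam (HC P X t 0) * P {ω | am (path X ω) t ≤ ρ} := setLIntegral_const _ _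
    _ ≤ ex lam (HC P X t 0) * ENNReal.ofReal (Real.exp (-(t / (32 * ρ ^ 2) - 1))) := by
        gcongr
        exact small_ball_upper hX t hρ
    _ = _ := mul_comm _ _

lemma WC_univ_lower (hX : CBM P X) (lam : ℝ≥0) {t : ℝ≥0} (ht : 0 < t) {r : ℝ} (hr : 0 < r) :
    ENNReal.ofReal (Real.exp (-(lam * (2 * r) + (32 * t / r ^ 2 + 2)))) *
      ex lam (HC P X t 0) ≤ WC P X lam t univ := by
  have hm : MeasurableSet {ω | am (path X ω) t ≤ r} := hX.mpath (measurableSet_am_le t r)
  have h1 : ex lam (HC P X t 0) * ENNReal.ofReal (Real.exp (-(lam * (2 * r)))) *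
      P {ω | am (path X ω) t ≤ r} ≤ WC P X lam t univ := by
    rw [← setLIntegral_const]
    refine le_trans ?_ (WC_mono lam t (subset_univ {w : ℝ≥0 → ℝ | am w t ≤ r}))
    unfold WC
    refine setLIntegral_mono' hm fun ω hω => ?_
    have h0 : HC P X t 0 ≠ ∞ := HC_ne_top hX ht continuous_const
    rw [← ex_ofReal lam (by positivity), ← ex_add lam h0 ENNReal.ofReal_ne_top]
    exact ex_anti lam (ENNReal.add_ne_top.mpr ⟨h0, ENNReal.ofReal_ne_top⟩)
      (HC_le hX (hX.cont ω) hr.le hω)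
  refine le_trans ?_ h1
  have h2 := small_ball_lower hX t hr
  calc ENNReal.ofReal (Real.exp (-(lam * (2 * r) + (32 * t / r ^ 2 + 2)))) * ex lam (HC P X t 0)
      = ex lam (HC P X t 0) * ENNReal.ofReal (Real.exp (-(lam * (2 * r)))) *
        ENNReal.ofReal (Real.exp (-(32 * t / r ^ 2 + 2))) := by
        rw [mul_assoc, ← ENNReal.ofReal_mul (Real.exp_pos _).le, ← Real.exp_add, mul_comm]
        congr 3
        ring
    _ ≤ _ := by gcongr

lemma WC_crude (hX : CBM P X) (lam : ℝ≥0) {t : ℝ≥0} (ht : 0 < t) {R : ℝ} (hR : 0 < R) :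
    WC P X lam t {w | R ≤ am w t} ≤
      ENNReal.ofReal (Real.exp (-(lam * (R / 4 * Real.exp (-(32 * t / (R / 4) ^ 2 + 2)))))) *
        ex lam (HC P X t 0) := by
  set g : ℝ := R / 4 * Real.exp (-(32 * t / (R / 4) ^ 2 + 2)) with hg
  have hg0 : 0 ≤ g := by positivity
  have hmm : MeasurableSet {w : ℝ≥0 → ℝ | R ≤ am w t} :=
    measurableSet_le measurable_const (measurable_am t)
  have hm : MeasurableSet {ω | path X ω ∈ {w : ℝ≥0 → ℝ | R ≤ am w t}} := hX.mpath hmm
  unfold WC
  calc ∫⁻ ω in {ω | path X ω ∈ {w : ℝ≥0 → ℝ | R ≤ am w t}}, ex lam (HC P X t (path X ω)) ∂P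
      ≤ ∫⁻ ω in {ω | path X ω ∈ {w : ℝ≥0 → ℝ | R ≤ am w t}},
          ENNReal.ofReal (Real.exp (-(lam * g))) * ex lam (HC P X t 0) ∂P := by
        refine setLIntegral_mono' hm fun ω hω => ?_
        have h1 := HC_crude hX (hX.cont ω) (hX.path_zero ω) hR hω
        have h0 : HC P X t 0 ≠ ∞ := HC_ne_top hX ht continuous_const
        refine (ex_anti lam (HC_ne_top hX ht (hX.cont ω)) h1).trans (le_of_eq ?_)
        rw [ex_add lam h0 ENNReal.ofReal_ne_top, ex_ofReal lam hg0, mul_comm]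
    _ ≤ ∫⁻ ω, ENNReal.ofReal (Real.exp (-(lam * g))) * ex lam (HC P X t 0) ∂P :=
        setLIntegral_le_lintegral _ _
    _ = _ := by rw [lintegral_const, measure_univ, mul_one]

end Pool.Agent.TH970
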