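import Pool.Agent.TH970.Fin1

namespace Pool.Agent.TH970

open MeasureTheory ProbabilityTheory Set Filter Topology
open scoped ENNReal NNReal

set_option linter.unusedSectionVars false
set_option linter.unusedVariables false

variable {Ω : Type*} [MeasurableSpace Ω] {P : Measure Ω} [IsProbabilityMeasure P]
  {X : ℝ≥0 → Ω → ℝ}

lemma WC_empty (lam t : ℝ≥0) : WC P X lam t ∅ = 0 := by
  unfold WC
  have : {ω | path X ω ∈ (∅ : Set (ℝ≥0 → ℝ))} = ∅ := by ext ω; simp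
  rw [this, Measure.restrict_empty, lintegral_zero_measure]

lemma WC_biUnion (lam t : ℝ≥0) {ι : Type*} (F : Finset ι) (A : ι → Set (ℝ≥0 → ℝ)) :
    WC P X lam t (⋃ i ∈ F, A i) ≤ ∑ i ∈ F, WC P X lam t (A i) := by
  classical
  induction F using Finset.induction_on with
  | empty => simp [WC_empty]
  | insert i F hi ih =>
    rw [Finset.sum_insert hi, Finset.set_biUnion_insert]
    exact (WC_union lam t _ _).trans (add_le_add le_rfl ih)

/-- oscillation event of a cell -/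
def OscE (m0 k : ℕ) (h : ℝ) (t : ℝ≥0) : Set (ℝ≥0 → ℝ) :=
  {f | am f t ≤ h ∧ h / 20 < mx f (k * (t / 2 ^ m0)) ((k + 1 : ℕ) * (t / 2 ^ m0)) +
        mx (-f) (k * (t / 2 ^ m0)) ((k + 1 : ℕ) * (t / 2 ^ m0))}

/-- two sided slow displacement event -/
def SP2 (m0 k k' : ℕ) (h : ℝ) (t : ℝ≥0) : Set (ℝ≥0 → ℝ) :=
  SPc m0 k k' h t ∪ {f | -f ∈ SPc m0 k k' h t}

lemma Reg_neg {m0 : ℕ} {ρ : ℝ} {t : ℝ≥0} {f : ℝ≥0 → ℝ} (h : f ∈ Reg m0 ρ t) :
    -f ∈ Reg m0 ρ t := by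
  intro i hi
  have := h i hi
  rw [neg_neg]
  linarith

lemma mem_SP2 {m0 k k' : ℕ} {h : ℝ} {t : ℝ≥0} {f : ℝ≥0 → ℝ} (h1 : am f t ≤ h)
    (h2 : f ∈ Reg m0 (h / 20) t)
    (h3 : 7 * h / 20 ≤ |f (k' * (t / 2 ^ m0)) - f (k * (t / 2 ^ m0))|) : f ∈ SP2 m0 k k' h t := by
  rcases le_abs.mp h3 with h4 | h4
  · exact Or.inl ⟨h1, h2, h4⟩
  · refine Or.inr ⟨by rw [am_neg]; exact h1, Reg_neg h2, ?_⟩
    simp only [Pi.neg_apply]
    linarith

lemma cover {t : ℝ≥0} (ht : 0 < t) {m0 : ℕ} {h : ℝ} (hh : 0 < h) {f : ℝ≥0 → ℝ}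
    (hf : Continuous f) (hf0 : f 0 = 0) (h1 : am f t ≤ h) (h2 : 3 * h / 4 < am f t) :
    (∃ k, k < 2 ^ m0 ∧ f ∈ OscE m0 k h t) ∨
    (∃ k k' : ℕ, k ≤ 2 ^ m0 ∧ k' ≤ 2 ^ m0 ∧
      t ≤ 2 * ((k' : ℝ≥0) * (t / 2 ^ m0) - k * (t / 2 ^ m0)) ∧ f ∈ SP2 m0 k k' h t) := by
  by_cases hR : f ∈ Reg m0 (h / 20) t
  swap
  · left
    have : ∃ i : ℕ, i < 2 ^ m0 ∧ h / 20 < mx f (i * (t / 2 ^ m0)) ((i + 1 : ℕ) * (t / 2 ^ m0)) +
        mx (-f) (i * (t / 2 ^ m0)) ((i + 1 : ℕ) * (t / 2 ^ m0)) := by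
      by_contra hcon
      push Not at hcon
      exact hR fun i hi => hcon i hi
    obtain ⟨i, hi, h3⟩ := this
    exact ⟨i, hi, h1, h3⟩
  right
  set τ := t / 2 ^ m0 with hτ
  have hτ0 : 0 < τ := by positivity
  have ht' : t = ((2 ^ m0 : ℕ) : ℝ≥0) * τ := by rw [hτ]; push_cast; field_simp
  obtain ⟨s, _, hs, e⟩ := exists_mx (w := fun s => |f s|) hf.abs (zero_le (a := t))
  have e' : am f t = |f s| := e
  rw [e'] at h2
  -- the grid time
  obtain ⟨i, hi, hfi⟩ : ∃ i : ℕ, i ≤ 2 ^ m0 ∧ 7 * h / 10 ≤ |f ((i : ℝ≥0) * τ)| := by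
    set i := ⌊s / τ⌋₊ with hi
    have h3 : (i : ℝ≥0) * τ ≤ s := by
      calc (i : ℝ≥0) * τ ≤ s / τ * τ := by
            gcongr
            exact Nat.floor_le zero_le
        _ = s := div_mul_cancel₀ _ hτ0.ne'
    have h4 : s ≤ ((i + 1 : ℕ) : ℝ≥0) * τ := by
      calc s = s / τ * τ := (div_mul_cancel₀ _ hτ0.ne').symm
        _ ≤ ((i + 1 : ℕ) : ℝ≥0) * τ := by
          gcongr
          push_cast
          exact (Nat.lt_floor_add_one _).le
    have h5 : i ≤ 2 ^ m0 := by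
      by_contra hcon
      push Not at hcon
      have : t < (i : ℝ≥0) * τ := by
        conv_lhs => rw [ht']
        gcongr
      exact absurd (h3.trans hs) (not_le.mpr this)
    refine ⟨i, h5, ?_⟩
    rcases Nat.eq_or_lt_of_le h5 with h6 | h6
    · have : s = (i : ℝ≥0) * τ := by
        apply le_antisymm _ h3
        rw [h6, ← ht']
        exact hs
      rw [← this]
      linarith
    · have h7 := osc_cell hf (hR i h6) h3 h4 le_rfl (h3.trans h4)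
      have h8 := abs_sub_abs_le_abs_sub (f s) (f ((i : ℝ≥0) * τ))
      linarith
  have e0 : f (((0 : ℕ) : ℝ≥0) * τ) = 0 := by simp [hf0]
  by_cases hc : t ≤ 2 * ((i : ℝ≥0) * τ)
  · refine ⟨0, i, Nat.zero_le _, hi, ?_, mem_SP2 h1 hR ?_⟩
    · simpa using hc
    · rw [e0, sub_zero]
      linarith
  · push Not at hc
    by_cases h9 : 7 * h / 20 ≤ |f (((2 ^ m0 : ℕ) : ℝ≥0) * τ) - f ((i : ℝ≥0) * τ)|
    · refine ⟨i, 2 ^ m0, hi, le_rfl, ?_, mem_SP2 h1 hR h9⟩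
      rw [← ht', mul_tsub]
      have h10 : t + 2 * ((i : ℝ≥0) * τ) ≤ 2 * t := by
        calc t + 2 * ((i : ℝ≥0) * τ) ≤ t + t := by gcongr
          _ = 2 * t := (two_mul t).symm
      exact le_tsub_of_add_le_right h10
    · refine ⟨0, 2 ^ m0, Nat.zero_le _, le_rfl, ?_, mem_SP2 h1 hR ?_⟩
      · rw [← ht']
        simp only [Nat.cast_zero, zero_mul, tsub_zero]
        calc t = 1 * t := (one_mul t).symm
          _ ≤ 2 * t := by gcongr; norm_num
      · push Not at h9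
        rw [e0, sub_zero]
        have h11 := abs_sub_abs_le_abs_sub (f ((i : ℝ≥0) * τ)) (f (((2 ^ m0 : ℕ) : ℝ≥0) * τ))
        rw [abs_sub_comm] at h11
        linarith

/-- one step of the bootstrap -/
theorem step_bound (hX : CBM P X) (lam : ℝ≥0) {t : ℝ≥0} (ht : 0 < t) {h : ℝ} (hh : 0 < h)
    (hht : 120 * h ≤ Real.sqrt t) {N : ℝ} (hN : t / (400 * h ^ 2) ≤ N) :
    WC P X lam t {f | am f t ≤ h ∧ 3 * h / 4 < am f t} ≤
      ENNReal.ofReal (N * ((h + 1) * Real.exp (-(lam * (c1 * h ^ 3 / t)) + 2 * lam + C1)) +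
        2 * (N + 1) ^ 2 * Real.exp (-(lam * (c2 * h ^ 3 / t)))) * WC P X lam t univ := by
  classical
  have ht0 : (0:ℝ) < t := by exact_mod_cast ht
  have hst := Real.sq_sqrt (x := (t:ℝ)) t.2
  have hx : (36:ℝ) ≤ t / (400 * h ^ 2) := by
    rw [le_div_iff₀ (by positivity), ← hst]
    have : (120 * h) ^ 2 ≤ Real.sqrt t ^ 2 := by gcongr
    nlinarith
  obtain ⟨m0, hm1, hm2⟩ := exists_nat_pow_near (x := (t:ℝ) / (400 * h ^ 2)) (y := 2)
    (by linarith) (by norm_num)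
  have hm0 : 5 ≤ m0 := by
    by_contra hcon
    push Not at hcon
    have h1 : (2:ℝ) ^ (m0 + 1) ≤ 2 ^ 5 := pow_le_pow_right₀ (by norm_num) (by omega)
    have h2 : (2:ℝ) ^ 5 = 32 := by norm_num
    linarith
  have hp0 : (0:ℝ) < 2 ^ m0 := by positivity
  have hτc : ((t / 2 ^ m0 : ℝ≥0) : ℝ) = (t:ℝ) / 2 ^ m0 := by push_cast; ring
  have hτ1 : 400 * h ^ 2 ≤ ((t / 2 ^ m0 : ℝ≥0) : ℝ) := by
    rw [hτc, le_div_iff₀ hp0]
    rw [le_div_iff₀ (by positivity)] at hm1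
    linarith
  have hτ2 : ((t / 2 ^ m0 : ℝ≥0) : ℝ) ≤ 800 * h ^ 2 := by
    rw [hτc, div_le_iff₀ hp0]
    rw [div_lt_iff₀ (by positivity), pow_succ] at hm2
    nlinarith
  have hht' : h ≤ Real.sqrt t := by linarith
  set τ := t / 2 ^ m0 with hτ
  set F1 := Finset.range (2 ^ m0) with hF1
  set F2 := ((Finset.range (2 ^ m0 + 1)) ×ˢ (Finset.range (2 ^ m0 + 1))).filter
    (fun z : ℕ × ℕ => t ≤ 2 * ((z.2 : ℝ≥0) * τ - z.1 * τ)) with hF2
  set W := WC P X lam t univ with hW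
  set B1 : ℝ := (h + 1) * Real.exp (-(lam * (c1 * h ^ 3 / t)) + 2 * lam + C1) with hB1
  set B2 : ℝ := Real.exp (-(lam * (c2 * h ^ 3 / t))) with hB2
  have hB10 : 0 ≤ B1 := by positivity
  have hB20 : 0 ≤ B2 := by positivity
  have s1 : WC P X lam t {f | am f t ≤ h ∧ 3 * h / 4 < am f t} ≤
      WC P X lam t ((⋃ k ∈ F1, OscE m0 k h t) ∪ (⋃ z ∈ F2, SP2 m0 z.1 z.2 h t)) := by
    refine WC_mono' lam t fun ω hω => ?_
    rcases cover ht (m0 := m0) hh (hX.cont ω) (hX.path_zero ω) hω.1 hω.2 with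
      ⟨k, hk, h3⟩ | ⟨k, k', hk, hk', h3, h4⟩
    · left
      exact mem_biUnion (Finset.mem_coe.mpr (Finset.mem_range.mpr hk)) h3
    · right
      have hz : ((k, k') : ℕ × ℕ) ∈ F2 := by
        rw [hF2, Finset.mem_filter, Finset.mem_product]
        exact ⟨⟨Finset.mem_range.mpr (by omega), Finset.mem_range.mpr (by omega)⟩, h3⟩
      exact mem_biUnion (Finset.mem_coe.mpr hz) h4
  have s2 : WC P X lam t (⋃ k ∈ F1, OscE m0 k h t) ≤
      ENNReal.ofReal (2 ^ m0 * B1) * W := by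
    refine (WC_biUnion lam t F1 _).trans ?_
    have h3 : ∀ k ∈ F1, WC P X lam t (OscE m0 k h t) ≤ ENNReal.ofReal B1 * W := fun k hk =>
      cell_bound hX lam ht hh hht' (Finset.mem_range.mp hk) hτ1 hτ2
    refine (Finset.sum_le_card_nsmul F1 _ _ h3).trans (le_of_eq ?_)
    have e1 : ENNReal.ofReal (2 ^ m0 * B1) = ENNReal.ofReal (2 ^ m0) * ENNReal.ofReal B1 :=
      ENNReal.ofReal_mul (by positivity)
    have e2 : ENNReal.ofReal ((2:ℝ) ^ m0) = ((2 ^ m0 : ℕ) : ℝ≥0∞) := by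
      have : (2:ℝ) ^ m0 = ((2 ^ m0 : ℕ) : ℝ) := by push_cast; ring
      rw [this, ENNReal.ofReal_natCast]
    rw [hF1, Finset.card_range, nsmul_eq_mul, ← mul_assoc, e1, e2]
  have s3 : WC P X lam t (⋃ z ∈ F2, SP2 m0 z.1 z.2 h t) ≤
      ENNReal.ofReal ((2 ^ m0 + 1) ^ 2 * (2 * B2)) * W := by
    refine (WC_biUnion lam t F2 _).trans ?_
    have h3 : ∀ z ∈ F2, WC P X lam t (SP2 m0 z.1 z.2 h t) ≤ ENNReal.ofReal (2 * B2) * W := by
      intro z hz
      rw [hF2, Finset.mem_filter, Finset.mem_product] at hz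
      have h4 := slow_bound hX lam ht hh (k := z.1) (k' := z.2) hm0
        (by have := Finset.mem_range.mp hz.1.2; omega) hz.2 hτ1
      refine (WC_union lam t _ _).trans ?_
      rw [WC_neg hX lam t (measurableSet_SPc m0 z.1 z.2 h t)]
      refine (add_le_add h4 h4).trans (le_of_eq ?_)
      rw [← add_mul, ← ENNReal.ofReal_add hB20 hB20, ← two_mul]
    refine (Finset.sum_le_card_nsmul F2 _ _ h3).trans ?_
    rw [nsmul_eq_mul, ← mul_assoc]
    refine mul_le_mul' ?_ le_rfl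
    have e1 : ENNReal.ofReal ((2 ^ m0 + 1) ^ 2 * (2 * B2)) =
        ENNReal.ofReal ((2 ^ m0 + 1) ^ 2) * ENNReal.ofReal (2 * B2) :=
      ENNReal.ofReal_mul (by positivity)
    rw [e1]
    refine mul_le_mul' ?_ le_rfl
    have hcard : F2.card ≤ (2 ^ m0 + 1) ^ 2 := by
      refine (Finset.card_filter_le _ _).trans (le_of_eq ?_)
      rw [Finset.card_product, Finset.card_range, pow_two]
    calc (F2.card : ℝ≥0∞) ≤ (((2 ^ m0 + 1) ^ 2 : ℕ) : ℝ≥0∞) := by exact_mod_cast hcard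
      _ = ENNReal.ofReal ((2 ^ m0 + 1) ^ 2) := by
          have : ((2:ℝ) ^ m0 + 1) ^ 2 = (((2 ^ m0 + 1) ^ 2 : ℕ) : ℝ) := by push_cast; ring
          rw [this, ENNReal.ofReal_natCast]
  refine s1.trans ((WC_union lam t _ _).trans ((add_le_add s2 s3).trans ?_))
  rw [← add_mul, ← ENNReal.ofReal_add (by positivity) (by positivity)]
  refine mul_le_mul' (ENNReal.ofReal_le_ofReal ?_) le_rfl
  have hmN : (2:ℝ) ^ m0 ≤ N := hm1.trans hN
  have h5 : ((2:ℝ) ^ m0 + 1) ^ 2 ≤ (N + 1) ^ 2 := by gcongr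
  calc 2 ^ m0 * B1 + (2 ^ m0 + 1) ^ 2 * (2 * B2) ≤ N * B1 + (N + 1) ^ 2 * (2 * B2) := by gcongr
    _ = _ := by ring

/-- iteration of the bootstrap -/
lemma iter (lam t : ℝ≥0) {h0 x : ℝ} (hh0 : 0 < h0) {B : ℝ≥0∞}
    (hB : ∀ h, x ≤ h → h ≤ h0 → WC P X lam t {f | am f t ≤ h ∧ 3 * h / 4 < am f t} ≤ B) (n : ℕ) :
    WC P X lam t {f | am f t ≤ h0 ∧ max ((3 / 4) ^ n * h0) x < am f t} ≤ n * B := by
  induction n with
  | zero =>
    have : {f : ℝ≥0 → ℝ | am f t ≤ h0 ∧ max ((3 / 4) ^ 0 * h0) x < am f t} = ∅ := by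
      ext f
      simp only [Set.mem_ofPred_eq, mem_empty_iff_false, iff_false, not_and, not_lt]
      intro h
      rw [pow_zero, one_mul]
      exact h.trans (le_max_left _ _)
    rw [this, WC_empty]
    exact zero_le
  | succ n ih =>
    set hn := (3 / 4) ^ n * h0 with hhn
    have hn1 : hn ≤ h0 := by
      have : ((3:ℝ) / 4) ^ n ≤ 1 := pow_le_one₀ (by norm_num) (by norm_num)
      calc hn ≤ 1 * h0 := by rw [hhn]; gcongr
        _ = h0 := one_mul _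
    by_cases hx : x ≤ hn
    · have h1 := hB hn hx hn1
      have hsub : {f : ℝ≥0 → ℝ | am f t ≤ h0 ∧ max ((3 / 4) ^ (n + 1) * h0) x < am f t} ⊆
          {f | am f t ≤ h0 ∧ max hn x < am f t} ∪ {f | am f t ≤ hn ∧ 3 * hn / 4 < am f t} := by
        intro f hf
        obtain ⟨a1, a2⟩ := hf
        by_cases h2 : am f t ≤ hn
        · right
          refine ⟨h2, lt_of_le_of_lt ?_ a2⟩
          refine le_trans (le_of_eq ?_) (le_max_left _ _)
          rw [hhn, pow_succ]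
          ring
        · left
          push Not at h2
          exact ⟨a1, max_lt h2 (lt_of_le_of_lt (le_max_right _ _) a2)⟩
      refine (WC_mono lam t hsub).trans ((WC_union lam t _ _).trans ((add_le_add ih h1).trans ?_))
      push_cast
      rw [add_mul, one_mul]
    · push Not at hx
      have hsub : {f : ℝ≥0 → ℝ | am f t ≤ h0 ∧ max ((3 / 4) ^ (n + 1) * h0) x < am f t} ⊆
          {f | am f t ≤ h0 ∧ max hn x < am f t} := by
        intro f hf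
        obtain ⟨a1, a2⟩ := hf
        refine ⟨a1, max_lt ?_ (lt_of_le_of_lt (le_max_right _ _) a2)⟩
        exact hx.trans (lt_of_le_of_lt (le_max_right _ _) a2)
      refine (WC_mono lam t hsub).trans (ih.trans ?_)
      gcongr
      exact_mod_cast Nat.le_succ n

end Pool.Agent.TH970
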