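import Pool.Agent.TH970.Fin2
import Pool.Agent.TH970.Asym

namespace Pool.Agent.TH970

open MeasureTheory ProbabilityTheory Set Filter Topology
open scoped ENNReal NNReal

set_option linter.unusedSectionVars false
set_option linter.unusedVariables false

variable {Ω : Type*} [MeasurableSpace Ω] {P : Measure Ω} [IsProbabilityMeasure P]
  {X : ℝ≥0 → Ω → ℝ}

lemma cube_root_cube {t : ℝ} (ht : 0 < t) : t = (t ^ ((1:ℝ) / 3)) ^ 3 := by
  rw [← Real.rpow_natCast, ← Real.rpow_mul ht.le]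
  norm_num

/-- the total weight is not too small -/
lemma WC_univ_lower' (hX : CBM P X) (lam : ℝ≥0) {t : ℝ≥0} (ht : 0 < t) :
    ENNReal.ofReal (Real.exp (-(lam * (2 * (t:ℝ) ^ ((1:ℝ) / 3)) +
      (32 * (t:ℝ) ^ ((1:ℝ) / 3) + 2)))) * ex lam (HC P X t 0) ≤ WC P X lam t univ := by
  have ht0 : (0:ℝ) < t := by exact_mod_cast ht
  set r : ℝ := (t:ℝ) ^ ((1:ℝ) / 3) with hr
  have hr0 : 0 < r := by positivity
  have h1 := WC_univ_lower hX lam ht hr0
  have h6 : 32 * (t:ℝ) / r ^ 2 = 32 * r := by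
    have h7 : (t:ℝ) = r ^ 3 := cube_root_cube ht0
    rw [h7]
    field_simp
  rw [h6] at h1
  exact h1

/-- Lower bound: displacements below `t ^ (1/3)` have negligible weight. -/
theorem Small_mainC (hX : CBM P X) {lam : ℝ≥0} {α : ℝ} (hα0 : 0 < α) (hα : α < 1 / 3)
    {c : ℝ} (hc : 0 < c) : Tendsto (fun t : ℝ≥0 =>
      WC P X lam t {w | am w t ≤ c * (t:ℝ) ^ α} / WC P X lam t univ) atTop (𝓝 0) := by
  have hF := tendsto_pow_diff_nn (A := 1 / (32 * c ^ 2)) (B := 2 * lam + 32) (C := 3)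
    (p := 1 - 2 * α) (q := 1 / 3) (by positivity) (by linarith) (by linarith)
  refine tendsto_of_tendsto_of_tendsto_of_le_of_le' tendsto_const_nhds (tendsto_ofReal_exp hF)
    (Eventually.of_forall fun _ => zero_le) ?_
  filter_upwards [eventually_ge_atTop 1] with t ht
  have ht1 : (1:ℝ) ≤ t := by exact_mod_cast ht
  have ht0 : (0:ℝ) < t := by linarith
  have ht0' : 0 < t := lt_of_lt_of_le one_pos ht
  have hρ : 0 < c * (t:ℝ) ^ α := by positivity
  have h1 := WC_small hX lam ht0' hρ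
  have h2 := WC_univ_lower' hX lam ht0'
  rw [ENNReal.div_le_iff (WC_univ_pos lam t hX) (WC_ne_top lam t _)]
  refine h1.trans ?_
  refine le_trans ?_ (mul_le_mul' le_rfl h2)
  rw [← mul_assoc, ← ENNReal.ofReal_mul (Real.exp_pos _).le, ← Real.exp_add]
  refine mul_le_mul' (ENNReal.ofReal_le_ofReal (Real.exp_le_exp.mpr ?_)) le_rfl
  have h3 : (t:ℝ) / (32 * (c * (t:ℝ) ^ α) ^ 2) = 1 / (32 * c ^ 2) * (t:ℝ) ^ (1 - 2 * α) := by
    have h4 : (t:ℝ) ^ (1 - 2 * α) = t / ((t:ℝ) ^ α) ^ 2 := by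
      rw [← Real.rpow_natCast ((t:ℝ) ^ α), ← Real.rpow_mul ht0.le, Real.rpow_sub ht0,
        Real.rpow_one]
      congr 2
      push_cast
      ring
    rw [h4]
    field_simp
  rw [h3]
  apply le_of_eq
  ring

/-- the crude part: displacements of diffusive order -/
lemma crude_tendsto (hX : CBM P X) {lam : ℝ≥0} (hlam : 0 < lam) : Tendsto (fun t : ℝ≥0 =>
      WC P X lam t {w | Real.sqrt t / 120 ≤ am w t} / WC P X lam t univ) atTop (𝓝 0) := by
  have hl0 : (0:ℝ) < lam := by exact_mod_cast hlam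
  have hF := tendsto_pow_diff_nn (A := lam / 480 * Real.exp (-7372802)) (B := 2 * lam + 32) (C := 2)
    (p := 1 / 2) (q := 1 / 3) (by positivity) (by norm_num) (by norm_num)
  refine tendsto_of_tendsto_of_tendsto_of_le_of_le' tendsto_const_nhds (tendsto_ofReal_exp hF)
    (Eventually.of_forall fun _ => zero_le) ?_
  filter_upwards [eventually_ge_atTop 1] with t ht
  have ht1 : (1:ℝ) ≤ t := by exact_mod_cast ht
  have ht0 : (0:ℝ) < t := by linarith
  have ht0' : 0 < t := lt_of_lt_of_le one_pos ht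
  have hs0 : 0 < Real.sqrt t := Real.sqrt_pos.mpr ht0
  have h1 := WC_crude hX lam ht0' (R := Real.sqrt t / 120) (by positivity)
  have h2 := WC_univ_lower' hX lam ht0'
  rw [ENNReal.div_le_iff (WC_univ_pos lam t hX) (WC_ne_top lam t _)]
  refine h1.trans ?_
  refine le_trans ?_ (mul_le_mul' le_rfl h2)
  rw [← mul_assoc (ENNReal.ofReal _) (ENNReal.ofReal _) _,
    ← ENNReal.ofReal_mul (Real.exp_pos _).le, ← Real.exp_add]
  refine mul_le_mul' (ENNReal.ofReal_le_ofReal (Real.exp_le_exp.mpr ?_)) le_rfl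
  have e1 : 32 * (t:ℝ) / (Real.sqrt t / 120 / 4) ^ 2 + 2 = 7372802 := by
    have hst := Real.sq_sqrt (x := (t:ℝ)) t.2
    rw [div_pow, div_pow, hst]
    field_simp
    norm_num
  rw [e1]
  have e2 : Real.sqrt t = (t:ℝ) ^ ((1:ℝ) / 2) := Real.sqrt_eq_rpow _
  rw [e2]
  apply le_of_eq
  ring

lemma tendsto_pow_exp {a p : ℝ} (ha : 0 < a) (hp : 0 < p) :
    Tendsto (fun t : ℝ≥0 => (t:ℝ) ^ (3:ℝ) * Real.exp (-(a * (t:ℝ) ^ p))) atTop (𝓝 0) := by
  have h1 := tendsto_rpow_mul_exp_neg_mul_atTop_nhds_zero (3 / p) a ha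
  have h2 : Tendsto (fun t : ℝ≥0 => (t:ℝ) ^ p) atTop atTop :=
    (tendsto_rpow_atTop hp).comp (NNReal.tendsto_coe_atTop.mpr tendsto_id)
  refine (h1.comp h2).congr fun t => ?_
  simp only [Function.comp]
  rw [← Real.rpow_mul (NNReal.coe_nonneg t), mul_div_cancel₀ _ hp.ne', neg_mul]

/-- Upper bound: displacements above `t ^ α`, `α > 1/3`, have negligible weight. -/
theorem Large_mainC (hX : CBM P X) {lam : ℝ≥0} (hlam : 0 < lam) {α : ℝ} (hα : 1 / 3 < α)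
    {c : ℝ} (hc : 0 < c) : Tendsto (fun t : ℝ≥0 =>
      WC P X lam t {w | c * (t:ℝ) ^ α ≤ am w t} / WC P X lam t univ) atTop (𝓝 0) := by
  have hl0 : (0:ℝ) < lam := by exact_mod_cast hlam
  have hp : 0 < 3 * α - 1 := by linarith
  have hc1 := c1_pos
  have hc2 := c2_pos
  set a1 : ℝ := lam * (c1 * (c / 2) ^ 3) with ha1
  set a2 : ℝ := lam * (c2 * (c / 2) ^ 3) with ha2
  have ha10 : 0 < a1 := by positivity
  have ha20 : 0 < a2 := by positivity
  set K : ℝ := Real.exp (2 * lam + C1) with hK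
  have hcrude := crude_tendsto hX hlam
  have hlim : Tendsto (fun t : ℝ≥0 => 4 * K * ((t:ℝ) ^ (3:ℝ) * Real.exp (-(a1 * (t:ℝ) ^ (3 * α - 1)))) +
      16 * ((t:ℝ) ^ (3:ℝ) * Real.exp (-(a2 * (t:ℝ) ^ (3 * α - 1))))) atTop (𝓝 0) := by
    have h1 := ((tendsto_pow_exp ha10 hp).const_mul (4 * K)).add
      ((tendsto_pow_exp ha20 hp).const_mul 16)
    simpa using h1
  have hlim' := (hcrude.add (ENNReal.tendsto_ofReal hlim))
  rw [ENNReal.ofReal_zero, add_zero] at hlim'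
  refine tendsto_of_tendsto_of_tendsto_of_le_of_le' tendsto_const_nhds hlim'
    (Eventually.of_forall fun _ => zero_le) ?_
  have hx1 : ∀ᶠ t : ℝ≥0 in atTop, 1 / 20 ≤ c / 2 * (t:ℝ) ^ α := by
    have h2 : Tendsto (fun t : ℝ≥0 => c / 2 * (t:ℝ) ^ α) atTop atTop :=
      ((tendsto_rpow_atTop (by linarith : 0 < α)).comp
        (NNReal.tendsto_coe_atTop.mpr tendsto_id)).const_mul_atTop (by positivity)
    exact h2.eventually_ge_atTop _
  filter_upwards [eventually_ge_atTop 1, hx1] with t ht hx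
  have ht1 : (1:ℝ) ≤ t := by exact_mod_cast ht
  have ht0 : (0:ℝ) < t := by linarith
  have ht0' : 0 < t := lt_of_lt_of_le one_pos ht
  have hs0 : 0 < Real.sqrt t := Real.sqrt_pos.mpr ht0
  have hs1 : 1 ≤ Real.sqrt t := by
    rw [← Real.sqrt_one]; exact Real.sqrt_le_sqrt ht1
  have hst := Real.sq_sqrt (x := (t:ℝ)) t.2
  have hsx : Real.sqrt t ≤ t := by nlinarith
  set x := c / 2 * (t:ℝ) ^ α with hxd
  have hx0 : 0 < x := by positivity
  set W := WC P X lam t univ with hW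
  have hW0 : W ≠ 0 := WC_univ_pos lam t hX
  have hWt : W ≠ ∞ := WC_ne_top lam t _
  set b : ℝ := t * ((Real.sqrt t + 1) * Real.exp (-(lam * (c1 * x ^ 3 / t)) + 2 * lam + C1)) +
    2 * (t + 1) ^ 2 * Real.exp (-(lam * (c2 * x ^ 3 / t))) with hb
  have hB : ∀ h, x ≤ h → h ≤ Real.sqrt t / 120 →
      WC P X lam t {f | am f t ≤ h ∧ 3 * h / 4 < am f t} ≤ ENNReal.ofReal b * W := by
    intro h h1 h2
    have hh : 0 < h := lt_of_lt_of_le hx0 h1
    have hN : (t:ℝ) / (400 * h ^ 2) ≤ t := by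
      rw [div_le_iff₀ (by positivity)]
      have : (1 / 20) ^ 2 ≤ h ^ 2 := by
        have : 1 / 20 ≤ h := hx.trans h1
        gcongr
      nlinarith
    refine (step_bound hX lam ht0' hh (by linarith) hN).trans ?_
    refine mul_le_mul' (ENNReal.ofReal_le_ofReal ?_) le_rfl
    have h3 : x ^ 3 ≤ h ^ 3 := by gcongr
    have h4 : c1 * x ^ 3 / t ≤ c1 * h ^ 3 / t := by gcongr
    have h5 : c2 * x ^ 3 / t ≤ c2 * h ^ 3 / t := by gcongr
    have h6 : (lam:ℝ) * (c1 * x ^ 3 / t) ≤ lam * (c1 * h ^ 3 / t) := by gcongr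
    have h7 : (lam:ℝ) * (c2 * x ^ 3 / t) ≤ lam * (c2 * h ^ 3 / t) := by gcongr
    have h8 : h + 1 ≤ Real.sqrt t + 1 := by linarith
    rw [hb]
    have g1 : Real.exp (-(lam * (c1 * h ^ 3 / t)) + 2 * lam + C1) ≤
        Real.exp (-(lam * (c1 * x ^ 3 / t)) + 2 * lam + C1) := by
      apply Real.exp_le_exp.mpr; linarith
    have g2 : Real.exp (-(lam * (c2 * h ^ 3 / t))) ≤ Real.exp (-(lam * (c2 * x ^ 3 / t))) := by
      apply Real.exp_le_exp.mpr; linarith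
    gcongr
  set n := ⌈(t:ℝ)⌉₊ with hn
  have hn1 : (t:ℝ) ≤ n := Nat.le_ceil _
  have hn2 : (n:ℝ) ≤ t + 1 := (Nat.ceil_lt_add_one ht0.le).le
  have hit := iter (P := P) (X := X) lam t (h0 := Real.sqrt t / 120) (x := x) (by positivity) hB n
  have hmax : (3 / 4) ^ n * (Real.sqrt t / 120) ≤ x := by
    have h1 : 1 + (n:ℝ) * (1 / 3) ≤ (1 + 1 / 3) ^ n :=
      one_add_mul_le_pow (by norm_num) n
    have h2 : ((3:ℝ) / 4) ^ n * (1 + 1 / 3) ^ n = 1 := by
      rw [← mul_pow]; norm_num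
    have h3 : 0 < ((3:ℝ) / 4) ^ n := by positivity
    have h4 : ((3:ℝ) / 4) ^ n * (t / 3) ≤ 1 := by
      calc ((3:ℝ) / 4) ^ n * (t / 3) ≤ ((3:ℝ) / 4) ^ n * (1 + 1 / 3) ^ n := by
            refine mul_le_mul_of_nonneg_left ?_ h3.le
            linarith
        _ = 1 := h2
    have h5 : ((3:ℝ) / 4) ^ n * (Real.sqrt t / 120) ≤ 1 / 40 := by
      calc ((3:ℝ) / 4) ^ n * (Real.sqrt t / 120) ≤ ((3:ℝ) / 4) ^ n * (t / 120) := by gcongr
        _ = (((3:ℝ) / 4) ^ n * (t / 3)) / 40 := by ring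
        _ ≤ 1 / 40 := by gcongr
    linarith
  rw [max_eq_right hmax] at hit
  have hsub : {w : ℝ≥0 → ℝ | c * (t:ℝ) ^ α ≤ am w t} ⊆ {w | Real.sqrt t / 120 ≤ am w t} ∪
      {f | am f t ≤ Real.sqrt t / 120 ∧ x < am f t} := by
    intro f hf
    have hf' : c * (t:ℝ) ^ α ≤ am f t := hf
    by_cases h1 : Real.sqrt t / 120 ≤ am f t
    · exact Or.inl h1
    · push Not at h1
      refine Or.inr ⟨h1.le, ?_⟩
      have : 0 < c / 2 * (t:ℝ) ^ α := hx0
      have e : c * (t:ℝ) ^ α = 2 * x := by rw [hxd]; ring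
      linarith
  have htot := (WC_mono (P := P) (X := X) lam t hsub).trans
    ((WC_union lam t _ _).trans (add_le_add le_rfl hit))
  have hbb : (n:ℝ) * b ≤ 4 * K * ((t:ℝ) ^ (3:ℝ) * Real.exp (-(a1 * (t:ℝ) ^ (3 * α - 1)))) +
      16 * ((t:ℝ) ^ (3:ℝ) * Real.exp (-(a2 * (t:ℝ) ^ (3 * α - 1)))) := by
    have hx3 : x ^ 3 / t = (c / 2) ^ 3 * (t:ℝ) ^ (3 * α - 1) := by
      have h4 : (t:ℝ) ^ (3 * α - 1) = ((t:ℝ) ^ α) ^ 3 / t := by
        rw [← Real.rpow_natCast ((t:ℝ) ^ α), ← Real.rpow_mul ht0.le, Real.rpow_sub ht0,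
          Real.rpow_one]
        congr 2
        push_cast
        ring
      rw [h4, hxd]
      ring
    have e1 : (lam:ℝ) * (c1 * x ^ 3 / t) = a1 * (t:ℝ) ^ (3 * α - 1) := by
      rw [mul_div_assoc, hx3, ha1]; ring
    have e2 : (lam:ℝ) * (c2 * x ^ 3 / t) = a2 * (t:ℝ) ^ (3 * α - 1) := by
      rw [mul_div_assoc, hx3, ha2]; ring
    have e3 : (t:ℝ) ^ (3:ℝ) = (t:ℝ) ^ 3 := by
      rw [← Real.rpow_natCast]; norm_num
    have e4 : Real.exp (-(a1 * (t:ℝ) ^ (3 * α - 1)) + 2 * lam + C1) =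
        K * Real.exp (-(a1 * (t:ℝ) ^ (3 * α - 1))) := by
      rw [hK, ← Real.exp_add]; congr 1; ring
    rw [hb, e1, e2, e3, e4]
    set E1 := Real.exp (-(a1 * (t:ℝ) ^ (3 * α - 1))) with hE1
    set E2 := Real.exp (-(a2 * (t:ℝ) ^ (3 * α - 1))) with hE2
    have hE1p : 0 < E1 := Real.exp_pos _
    have hE2p : 0 < E2 := Real.exp_pos _
    have hKp : 0 < K := Real.exp_pos _
    calc (n:ℝ) * (t * ((Real.sqrt t + 1) * (K * E1)) + 2 * (t + 1) ^ 2 * E2)
        ≤ (2 * t) * (t * ((t + t) * (K * E1)) + 2 * (t + t) ^ 2 * E2) := by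
          have : (n:ℝ) ≤ 2 * t := by linarith
          gcongr
      _ = 4 * K * ((t:ℝ) ^ 3 * E1) + 16 * ((t:ℝ) ^ 3 * E2) := by ring
  rw [ENNReal.div_le_iff hW0 hWt, add_mul, ENNReal.div_mul_cancel hW0 hWt]
  refine htot.trans (add_le_add le_rfl ?_)
  rw [← mul_assoc]
  refine mul_le_mul' ?_ le_rfl
  rw [← ENNReal.ofReal_natCast, ← ENNReal.ofReal_mul (by positivity)]
  exact ENNReal.ofReal_le_ofReal hbb

end Pool.Agent.TH970
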