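import Pool.Agent.TH970.Laplace

namespace Pool.Agent.TH970

open MeasureTheory ProbabilityTheory Set Filter Topology
open scoped ENNReal NNReal

set_option linter.unusedSectionVars false

/-- the path of a process -/
def path {Ω : Type*} (X : ℝ≥0 → Ω → ℝ) (ω : Ω) : ℝ≥0 → ℝ := fun t => X t ω

lemma measurable_path {Ω : Type*} [MeasurableSpace Ω] {X : ℝ≥0 → Ω → ℝ}
    (hX : ∀ t, Measurable (X t)) : Measurable (path X) := measurable_pi_iff.mpr hX

/-- uniqueness of the law of Brownian motion on the path space -/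
lemma law_unique {Ω Ω' : Type*} [MeasurableSpace Ω] [MeasurableSpace Ω'] {P : Measure Ω}
    {P' : Measure Ω'} {X : ℝ≥0 → Ω → ℝ} {X' : ℝ≥0 → Ω' → ℝ} (hX : IsPreBrownianReal X P)
    (hX' : IsPreBrownianReal X' P') (hm : ∀ t, Measurable (X t)) (hm' : ∀ t, Measurable (X' t)) :
    P.map (path X) = P'.map (path X') := by
  have h1 := isProjectiveLimit_map (X := X) (P := P) (measurable_path hm).aemeasurable
  have h2 := isProjectiveLimit_map (X := X') (P := P') (measurable_path hm').aemeasurable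
  have h3 : (fun I : Finset ℝ≥0 => P.map (fun ω ↦ I.restrict (X · ω))) =
      (fun I : Finset ℝ≥0 => P'.map (fun ω ↦ I.restrict (X' · ω))) := by
    ext1 I
    rw [(hX.hasLaw I).map_eq, (hX'.hasLaw I).map_eq]
  rw [h3] at h1
  have : IsProbabilityMeasure P := hX.isGaussianProcess.isProbabilityMeasure
  have : IsProbabilityMeasure P' := hX'.isGaussianProcess.isProbabilityMeasure
  exact h1.unique h2

section

variable {ι : Type} [Countable ι]

/-- the starting points for which a trap moving along `y` meets the particle moving along `c`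
at one of the pairs of times `(U n, V n)`. -/
def Hit (U V : ι → ℝ≥0) (a : ℝ) (c y : ℝ≥0 → ℝ) : Set ℝ := {z | ∃ n, |z + y (V n) - c (U n)| < a}

lemma measurableSet_hit (U V : ι → ℝ≥0) (a : ℝ) : MeasurableSet
    {q : ((ℝ≥0 → ℝ) × ℝ) × (ℝ≥0 → ℝ) | q.1.2 ∈ Hit U V a q.1.1 q.2} := by
  have : {q : ((ℝ≥0 → ℝ) × ℝ) × (ℝ≥0 → ℝ) | q.1.2 ∈ Hit U V a q.1.1 q.2} =
      ⋃ n, {q | |q.1.2 + q.2 (V n) - q.1.1 (U n)| < a} := by
    ext q; simp [Hit]
  rw [this]
  refine MeasurableSet.iUnion fun n => ?_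
  refine measurableSet_lt ?_ measurable_const
  have h1 : Measurable (fun q : ((ℝ≥0 → ℝ) × ℝ) × (ℝ≥0 → ℝ) =>
      q.1.2 + q.2 (V n) - q.1.1 (U n)) := by fun_prop
  exact h1.abs

/-- the hitting probability of a trap started at `z`. -/
noncomputable def hp (ν : Measure (ℝ≥0 → ℝ)) (U V : ι → ℝ≥0) (a : ℝ)
    (c : ℝ≥0 → ℝ) (z : ℝ) : ℝ≥0∞ := ν {y | z ∈ Hit U V a c y}

lemma measurable_hp (ν : Measure (ℝ≥0 → ℝ)) [IsProbabilityMeasure ν] (U V : ι → ℝ≥0) (a : ℝ) :
    Measurable (fun q : (ℝ≥0 → ℝ) × ℝ => hp ν U V a q.1 q.2) :=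
  measurable_measure_prodMk_left (measurableSet_hit U V a)

lemma lintegral_hp (ν : Measure (ℝ≥0 → ℝ)) [IsProbabilityMeasure ν] (U V : ι → ℝ≥0) (a : ℝ)
    (c : ℝ≥0 → ℝ) : ∫⁻ z, hp ν U V a c z = ∫⁻ y, volume (Hit U V a c y) ∂ν := by
  set D : Set (ℝ × (ℝ≥0 → ℝ)) := {q | q.1 ∈ Hit U V a c q.2} with hD
  have hDm : MeasurableSet D := by
    have h1 : Measurable (fun q : ℝ × (ℝ≥0 → ℝ) => ((c, q.1), q.2)) :=
      (measurable_const.prodMk measurable_fst).prodMk measurable_snd
    exact h1 (measurableSet_hit U V a)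
  have h1 := Measure.prod_apply (μ := (volume : Measure ℝ)) (ν := ν) hDm
  have h2 := Measure.prod_apply_symm (μ := (volume : Measure ℝ)) (ν := ν) hDm
  have h3 : ∫⁻ z, hp ν U V a c z = (volume.prod ν) D := h1.symm
  rw [h3, h2]
  rfl

lemma measurable_volume_hit (U V : ι → ℝ≥0) (a : ℝ) :
    Measurable (fun q : (ℝ≥0 → ℝ) × (ℝ≥0 → ℝ) => volume (Hit U V a q.1 q.2)) := by
  have h1 : MeasurableSet {q : ((ℝ≥0 → ℝ) × (ℝ≥0 → ℝ)) × ℝ | q.2 ∈ Hit U V a q.1.1 q.1.2} := by
    have h2 : Measurable (fun q : ((ℝ≥0 → ℝ) × (ℝ≥0 → ℝ)) × ℝ => ((q.1.1, q.2), q.1.2)) := by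
      fun_prop
    exact h2 (measurableSet_hit U V a)
  exact measurable_measure_prodMk_left h1

/-- the survival set on the path space. -/
def Surv (U V : ι → ℝ≥0) (a : ℝ) : Set ((ℝ≥0 → ℝ) × ((ℕ → ℝ) × (ℕ → ℝ≥0 → ℝ))) :=
  {q | ∀ i, q.2.1 i ∉ Hit U V a q.1 (q.2.2 i)}

lemma measurableSet_surv (U V : ι → ℝ≥0) (a : ℝ) : MeasurableSet (Surv U V a) := by
  have : Surv U V a = ⋂ i, ((fun q : (ℝ≥0 → ℝ) × ((ℕ → ℝ) × (ℕ → ℝ≥0 → ℝ)) =>
      ((q.1, q.2.1 i), q.2.2 i)) ⁻¹'
    {q : ((ℝ≥0 → ℝ) × ℝ) × (ℝ≥0 → ℝ) | q.1.2 ∈ Hit U V a q.1.1 q.2})ᶜ := by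
    ext q; simp [Surv]
  rw [this]
  refine MeasurableSet.iInter fun i => MeasurableSet.compl ?_
  refine (measurableSet_hit U V a).preimage ?_
  exact (measurable_fst.prodMk ((measurable_pi_apply i).comp
    (measurable_fst.comp measurable_snd))).prodMk
    ((measurable_pi_apply i).comp (measurable_snd.comp measurable_snd))

lemma surv_section (ν : Measure (ℝ≥0 → ℝ)) [IsProbabilityMeasure ν] (U V : ι → ℝ≥0)
    (a : ℝ) (c : ℝ≥0 → ℝ) (z : ℕ → ℝ) :
    (Measure.infinitePi (fun _ : ℕ => ν)) (Prod.mk z ⁻¹' (Prod.mk c ⁻¹' (Surv U V a))) =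
      ⨅ m : ℕ, ∏ i ∈ Finset.range m, (1 - hp ν U V a c (z i)) := by
  have hB : ∀ i, MeasurableSet {y : ℝ≥0 → ℝ | z i ∈ Hit U V a c y} := fun i =>
    measurable_prodMk_left (x := (c, z i)) (measurableSet_hit U V a)
  set S : ℕ → Set (ℕ → ℝ≥0 → ℝ) := fun m => Set.pi (Finset.range m : Set ℕ)
      (fun i => {y : ℝ≥0 → ℝ | z i ∈ Hit U V a c y}ᶜ) with hS
  have h1 : Prod.mk z ⁻¹' (Prod.mk c ⁻¹' (Surv U V a)) = ⋂ m, S m := by
    ext y
    simp only [hS, Surv, mem_preimage, Set.mem_ofPred_eq, mem_iInter, Set.mem_pi, mem_compl_iff,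
      Finset.coe_range, mem_Iio]
    constructor
    · intro h m i _
      exact h i
    · intro h i
      exact h (i + 1) i (Nat.lt_succ_self i)
  have hSm : ∀ m, MeasurableSet (S m) := fun m =>
    MeasurableSet.pi (Finset.countable_toSet _) (fun i _ => (hB i).compl)
  have hanti : Antitone S := by
    intro m m' hm y hy i hi
    refine hy i ?_
    simp only [Finset.coe_range, mem_Iio] at hi ⊢
    omega
  rw [h1, hanti.measure_iInter (fun m => (hSm m).nullMeasurableSet) ⟨0, measure_ne_top _ _⟩]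
  refine iInf_congr fun m => ?_
  rw [hS, Measure.infinitePi_pi _ (fun i _ => (hB i).compl)]
  refine Finset.prod_congr rfl fun i _ => ?_
  rw [prob_compl_eq_one_sub (hB i)]
  rfl

variable {Ω : Type*} [MeasurableSpace Ω] {P : Measure Ω} [IsProbabilityMeasure P]
  {X : ℝ≥0 → Ω → ℝ} {x : ℕ → Ω → ℝ} {Y : ℕ → ℝ≥0 → Ω → ℝ}

/-- the mean volume of the set of bad starting points. -/
noncomputable def mv (P : Measure Ω) (X : ℝ≥0 → Ω → ℝ) (U V : ι → ℝ≥0) (a : ℝ)
    (c : ℝ≥0 → ℝ) : ℝ≥0∞ := ∫⁻ ω', volume (Hit U V a c (path X ω')) ∂P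

lemma measurable_mv (hX : ∀ t, Measurable (X t)) (U V : ι → ℝ≥0) (a : ℝ) :
    Measurable (mv P X U V a) := by
  unfold mv
  have h1 : Measurable (fun q : (ℝ≥0 → ℝ) × Ω => volume (Hit U V a q.1 (path X q.2))) :=
    (measurable_volume_hit U V a).comp (measurable_fst.prodMk
      ((measurable_path hX).comp measurable_snd))
  exact h1.lintegral_prod_right'

lemma section_eq {lam : ℝ≥0} (hx : IsPoissonProcess P lam x) (hXm : ∀ t, Measurable (X t))
    (U V : ι → ℝ≥0) (a : ℝ) (c : ℝ≥0 → ℝ) (hc : mv P X U V a c ≠ ∞) :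
    ∫⁻ z, (Measure.infinitePi (fun _ : ℕ => P.map (path X)))
        (Prod.mk z ⁻¹' (Prod.mk c ⁻¹' (Surv U V a))) ∂(P.map (fun ω i => x i ω)) =
      ex lam (mv P X U V a c) := by
  have hνp : IsProbabilityMeasure (P.map (path X)) :=
    Measure.isProbabilityMeasure_map (measurable_path hXm).aemeasurable
  have hxm : Measurable (fun ω i => x i ω) := measurable_pi_iff.mpr hx.measurable
  have hV : ∫⁻ z, hp (P.map (path X)) U V a c z = mv P X U V a c := by
    rw [lintegral_hp, mv, lintegral_map _ (measurable_path hXm)]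
    exact (measurable_volume_hit U V a).comp (measurable_const.prodMk measurable_id)
  simp_rw [surv_section]
  have hpm : Measurable (hp (P.map (path X)) U V a c) :=
    (measurable_hp (P.map (path X)) U V a).comp (measurable_const.prodMk measurable_id)
  have hm2 : Measurable (fun z : ℕ → ℝ =>
      ⨅ m : ℕ, ∏ i ∈ Finset.range m, (1 - hp (P.map (path X)) U V a c (z i))) := by
    refine Measurable.iInf fun m => ?_
    refine Finset.measurable_fun_prod _ fun i _ => ?_
    exact measurable_const.sub (hpm.comp (measurable_pi_apply i))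
  rw [lintegral_map hm2 hxm, ppp_laplace hx hpm (fun z => prob_le_one) (by rw [hV]; exact hc), hV]

/-- the joint law of the particle and the traps. -/
lemma joint_law {lam : ℝ≥0} (hM : TrapModel P lam X x Y) :
    P.map (fun ω => (path X ω, (fun i => x i ω, fun i => path (Y i) ω))) =
      (P.map (path X)).prod ((P.map (fun ω i => x i ω)).prod
        (Measure.infinitePi (fun _ : ℕ => P.map (path X)))) := by
  have hgX := measurable_path hM.measurable_particle
  have hgY : ∀ i, Measurable (path (Y i)) := fun i => measurable_path (hM.measurable_traps i)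
  have hxm : Measurable (fun ω i => x i ω) := measurable_pi_iff.mpr hM.points.measurable
  have hYm : Measurable (fun ω i => path (Y i) ω) := measurable_pi_iff.mpr hgY
  have hYlaw : P.map (fun ω i => path (Y i) ω) =
      Measure.infinitePi (fun _ : ℕ => P.map (path X)) := by
    have h2 : iIndepFun (fun i => path (Y i)) P := hM.indep_traps
    rw [h2.map_fun_eq_infinitePi_map hgY]
    congr 1
    ext1 i
    exact law_unique (hM.traps i).toIsPreBrownianReal hM.particle.toIsPreBrownianReal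
      (hM.measurable_traps i) hM.measurable_particle
  have hxY : P.map (fun ω => (fun i => x i ω, fun i => path (Y i) ω)) =
      (P.map (fun ω i => x i ω)).prod (Measure.infinitePi (fun _ : ℕ => P.map (path X))) := by
    have h2 : IndepFun (fun ω i => x i ω) (fun ω i => path (Y i) ω) P := hM.indep_points_traps
    rw [(indepFun_iff_map_prod_eq_prod_map_map hxm.aemeasurable hYm.aemeasurable).mp h2, hYlaw]
  have h2 : IndepFun (path X) (fun ω => (fun i => x i ω, fun i => path (Y i) ω)) P :=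
    hM.indep_particle
  rw [(indepFun_iff_map_prod_eq_prod_map_map hgX.aemeasurable
    (hxm.prodMk hYm).aemeasurable).mp h2, hxY]

/-- **The survival formula.** -/
lemma survival_formula {lam : ℝ≥0} (hM : TrapModel P lam X x Y) (U V : ι → ℝ≥0) (a : ℝ)
    (hfin : ∀ᵐ ω ∂P, mv P X U V a (path X ω) ≠ ∞) {A : Set (ℝ≥0 → ℝ)} (hA : MeasurableSet A) :
    P {ω | path X ω ∈ A ∧ ∀ i, x i ω ∉ Hit U V a (path X ω) (path (Y i) ω)} =
      ∫⁻ ω in {ω | path X ω ∈ A}, ex lam (mv P X U V a (path X ω)) ∂P := by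
  have hgX := measurable_path hM.measurable_particle
  have hgY : ∀ i, Measurable (path (Y i)) := fun i => measurable_path (hM.measurable_traps i)
  have hνp : IsProbabilityMeasure (P.map (path X)) :=
    Measure.isProbabilityMeasure_map hgX.aemeasurable
  have hxm : Measurable (fun ω i => x i ω) := measurable_pi_iff.mpr hM.points.measurable
  have hYm : Measurable (fun ω i => path (Y i) ω) := measurable_pi_iff.mpr hgY
  have hxp : IsProbabilityMeasure (P.map (fun ω i => x i ω)) :=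
    Measure.isProbabilityMeasure_map hxm.aemeasurable
  have hSm := measurableSet_surv U V a
  have hgm : Measurable (fun ω => (path X ω, (fun i => x i ω, fun i => path (Y i) ω))) :=
    hgX.prodMk (hxm.prodMk hYm)
  set S' : Set ((ℝ≥0 → ℝ) × ((ℕ → ℝ) × (ℕ → ℝ≥0 → ℝ))) := (Prod.fst ⁻¹' A) ∩ Surv U V a with hS'
  have hSm' : MeasurableSet S' := (hA.preimage measurable_fst).inter hSm
  have h1 : {ω | path X ω ∈ A ∧ ∀ i, x i ω ∉ Hit U V a (path X ω) (path (Y i) ω)} =
      (fun ω => (path X ω, (fun i => x i ω, fun i => path (Y i) ω))) ⁻¹' S' := rfl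
  rw [h1, ← Measure.map_apply hgm hSm', joint_law hM, Measure.prod_apply hSm',
    lintegral_map (measurable_measure_prodMk_left hSm') hgX]
  have hA' : MeasurableSet {ω | path X ω ∈ A} := hA.preimage hgX
  rw [← lintegral_indicator hA']
  refine lintegral_congr_ae ?_
  filter_upwards [hfin] with ω hω
  have hSc : MeasurableSet (Prod.mk (path X ω) ⁻¹' S') := measurable_prodMk_left hSm'
  by_cases h2 : path X ω ∈ A
  · rw [indicator_of_mem (by exact h2)]
    have h3 : Prod.mk (path X ω) ⁻¹' S' = Prod.mk (path X ω) ⁻¹' (Surv U V a) := by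
      ext q
      simp [hS', h2]
    have hSc' : MeasurableSet (Prod.mk (path X ω) ⁻¹' (Surv U V a)) := measurable_prodMk_left hSm
    rw [h3, Measure.prod_apply hSc']
    exact section_eq hM.points hM.measurable_particle U V a (path X ω) hω
  · rw [indicator_of_notMem (by exact h2)]
    have h3 : Prod.mk (path X ω) ⁻¹' S' = ∅ := by
      ext q
      simp [hS', h2]
    rw [h3, measure_empty]

end

end Pool.Agent.TH970
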