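import Pool.Agent.TH970.Ends

namespace Pool.Agent.TH970

open MeasureTheory ProbabilityTheory Set Filter Topology
open scoped ENNReal NNReal

set_option linter.unusedSectionVars false
set_option linter.unusedVariables false

section
variable {w y z : ℝ≥0 → ℝ} {b b' t : ℝ≥0}

lemma DL_fz_le (hw : Continuous w) (hy : Continuous y) (hbt : b ≤ t) :
    DL t (fz b w) y ≤ DL t w y := by
  refine DL_le fun u s hus hst => ?_
  exact le_DL hw hy ((min_le_left _ _).trans hus) hst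

lemma DL_nonneg (hw : Continuous w) (hy : Continuous y) (hw0 : w 0 = 0) (hy0 : y 0 = 0)
    (t : ℝ≥0) : 0 ≤ DL t w y := by
  have := le_DL hw hy (le_refl (0:ℝ≥0)) (zero_le (a := t))
  rwa [hw0, hy0, add_zero] at this

lemma DL_gain1 (hw : Continuous w) (hy : Continuous y) (hbb : b ≤ b') (hbt : b' ≤ t) {ρ : ℝ}
    (h : ∃ u ≤ b', mx w 0 b + ρ ≤ w u) (hm : mx y 0 b' ≤ mx y b' t) :
    DL t (fz b w) y + ρ ≤ DL t w y := by
  obtain ⟨u1, hu1, h1⟩ := h
  obtain ⟨s1, hs1, hs1t, h2⟩ := exists_mx hy hbt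
  have h3 : DL t (fz b w) y ≤ mx w 0 b + mx y b' t := by
    refine DL_le fun u s hus hst => ?_
    have h4 : fz b w u ≤ mx w 0 b := le_mx hw zero_le (min_le_right _ _)
    have h5 : y s ≤ mx y b' t := by
      rcases le_total s b' with h6 | h6
      · exact (le_mx hy zero_le h6).trans hm
      · exact le_mx hy h6 hst
    linarith
  have h4 := le_DL hw hy (hu1.trans hs1) hs1t
  linarith

lemma DL_gain2 (hw : Continuous w) (hy : Continuous y) {ρ : ℝ}
    (h : ∃ u ≤ t, mx w 0 b + ρ ≤ w u) (hm : mx y 0 t - y t ≤ ρ / 2) :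
    DL t (fz b w) y + ρ / 2 ≤ DL t w y := by
  obtain ⟨u1, hu1, h1⟩ := h
  have h3 : DL t (fz b w) y ≤ mx w 0 b + mx y 0 t := by
    refine DL_le fun u s hus hst => ?_
    have h4 : fz b w u ≤ mx w 0 b := le_mx hw zero_le (min_le_right _ _)
    have h5 : y s ≤ mx y 0 t := le_mx hy zero_le hst
    linarith
  have h4 := le_DL hw hy hu1 le_rfl
  linarith

lemma DL_cost (hw : Continuous w) (hy : Continuous y) (hz : Continuous z) (hz0 : z 0 = 0)
    (hw0 : w 0 = 0) (hbt : b ≤ t) {R r : ℝ} (hr : 0 ≤ r) (hR : am w b ≤ R)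
    (hzr : am z (t - b) ≤ r) : DL t (cat b w z) y ≤ DL t (fz b w) y + r := by
  refine DL_le fun u s hus hst => ?_
  have h0 := le_DL (continuous_fz (b := b) hw) hy hus hst
  rcases le_total u b with h1 | h1
  · rw [cat_left hz0 h1]
    simp only [fz, min_eq_left h1] at h0
    linarith
  · rw [cat_right h1]
    simp only [fz, min_eq_right h1] at h0
    have h2 := le_am hz (tsub_le_tsub_right (hus.trans hst) b)
    have h3 := (abs_le.mp (h2.trans hzr)).2
    linarith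

lemma DL_cost' (hw : Continuous w) (hy : Continuous y) (hz : Continuous z) (hz0 : z 0 = 0)
    (hw0 : w 0 = 0) (hbt : b ≤ t) {R r : ℝ} (hr : 0 ≤ r) (hR : am w b ≤ R)
    (hzr : am z (t - b) ≤ r) (hm : mx y b t + (R + r) ≤ mx y 0 b) :
    DL t (cat b w z) y ≤ DL t (fz b w) y := by
  refine DL_le fun u s hus hst => ?_
  have h0 := le_DL (continuous_fz (b := b) hw) hy hus hst
  rcases le_total u b with h1 | h1
  · rw [cat_left hz0 h1]
    simp only [fz, min_eq_left h1] at h0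
    linarith
  · rw [cat_right h1]
    have h2 := le_am hz (tsub_le_tsub_right (hus.trans hst) b)
    have h3 := (abs_le.mp (h2.trans hzr)).2
    have h4 := (abs_le.mp ((le_am hw (le_refl b)).trans hR)).2
    obtain ⟨s0, _, hs0, h5⟩ := exists_mx hy (zero_le (a := b))
    have h6 := le_DL (continuous_fz (b := b) hw) hy (zero_le (a := s0)) (hs0.trans hbt)
    simp only [fz, min_eq_left (zero_le (a := b))] at h6
    rw [hw0] at h6
    have h7 := le_mx hy (h1.trans hus) hst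
    linarith

lemma DL_le_am (hw : Continuous w) (hy : Continuous y) :
    DL t w y ≤ am w t + mx y 0 t := by
  refine DL_le fun u s hus hst => ?_
  have h1 := (abs_le.mp (le_am hw (hus.trans hst))).2
  have h2 := le_mx hy zero_le hst
  linarith

end

variable {Ω : Type*} [MeasurableSpace Ω] {P : Measure Ω} [IsProbabilityMeasure P]
  {X : ℝ≥0 → Ω → ℝ}

/-- The mean of the maximum of `w u + X s` over `u ≤ s ≤ t`. -/
noncomputable def PhiL (P : Measure Ω) (X : ℝ≥0 → Ω → ℝ) (t : ℝ≥0) (w : ℝ≥0 → ℝ) : ℝ≥0∞ :=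
  ∫⁻ ω, ENNReal.ofReal (DL t w (path X ω)) ∂P

/-- The functional in the survival probability. -/
noncomputable def hL (P : Measure Ω) (X : ℝ≥0 → Ω → ℝ) (t : ℝ≥0) (w : ℝ≥0 → ℝ) : ℝ≥0∞ :=
  PhiL P X t w + PhiL P X t (-w)

lemma measurable_DL_path (hX : CBM P X) (t : ℝ≥0) (w : ℝ≥0 → ℝ) :
    Measurable (fun ω => DL t w (path X ω)) :=
  (measurable_DL t).comp (Measurable.prodMk (measurable_const (a := w)) hX.mpath)

lemma measurable_PhiL (hX : CBM P X) (t : ℝ≥0) : Measurable (PhiL P X t) := by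
  unfold PhiL
  have h1 : Measurable (fun q : (ℝ≥0 → ℝ) × Ω => ENNReal.ofReal (DL t q.1 (path X q.2))) :=
    ((measurable_DL t).comp (measurable_fst.prodMk (hX.mpath.comp measurable_snd))).ennreal_ofReal
  exact h1.lintegral_prod_right'

lemma measurable_hL (hX : CBM P X) (t : ℝ≥0) : Measurable (hL P X t) := by
  unfold hL
  exact (measurable_PhiL hX t).add ((measurable_PhiL hX t).comp measurable_neg)

lemma PhiL_ne_top (hX : CBM P X) {t : ℝ≥0} (ht : 0 < t) {w : ℝ≥0 → ℝ} (hw : Continuous w) :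
    PhiL P X t w ≠ ∞ := by
  have h1 : PhiL P X t w ≤ ∫⁻ ω, (ENNReal.ofReal (am w t) +
      ENNReal.ofReal (mx (path X ω) 0 t)) ∂P := by
    refine lintegral_mono fun ω => ?_
    exact (ENNReal.ofReal_le_ofReal (DL_le_am hw (hX.cont ω))).trans ENNReal.ofReal_add_le
  refine ne_top_of_le_ne_top ?_ h1
  rw [lintegral_add_left measurable_const, lintegral_const, measure_univ, mul_one]
  exact ENNReal.add_ne_top.mpr ⟨ENNReal.ofReal_ne_top,
    ne_top_of_le_ne_top ENNReal.ofReal_ne_top (lintegral_mx hX ht)⟩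

lemma hL_ne_top (hX : CBM P X) {t : ℝ≥0} (ht : 0 < t) {w : ℝ≥0 → ℝ} (hw : Continuous w) :
    hL P X t w ≠ ∞ :=
  ENNReal.add_ne_top.mpr ⟨PhiL_ne_top hX ht hw, PhiL_ne_top hX ht hw.neg⟩

lemma lintegral_ind_const {S : Set Ω} (hS : MeasurableSet S) (c : ℝ≥0∞) :
    ∫⁻ ω, S.indicator (fun _ => c) ω ∂P = c * P S := lintegral_indicator_const hS c

/-- pointwise gain gives a gain of the mean -/
lemma PhiL_gain (hX : CBM P X) {t : ℝ≥0} {w w' : ℝ≥0 → ℝ} (hw' : Continuous w')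
    (h0 : w' 0 = 0) {ρ : ℝ} (hρ : 0 ≤ ρ)
    (hle : ∀ ω, DL t w' (path X ω) ≤ DL t w (path X ω)) {S : Set Ω} (hS : MeasurableSet S)
    (hg : ∀ ω ∈ S, DL t w' (path X ω) + ρ ≤ DL t w (path X ω)) :
    PhiL P X t w' + ENNReal.ofReal ρ * P S ≤ PhiL P X t w := by
  unfold PhiL
  rw [← lintegral_ind_const hS, ← lintegral_add_right _ (measurable_const.indicator hS)]
  refine lintegral_mono fun ω => ?_
  have h1 := DL_nonneg hw' (hX.cont ω) h0 (hX.path_zero ω) t
  by_cases hω : ω ∈ S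
  · rw [indicator_of_mem hω, ← ENNReal.ofReal_add h1 hρ]
    exact ENNReal.ofReal_le_ofReal (hg ω hω)
  · rw [indicator_of_notMem hω, add_zero]
    exact ENNReal.ofReal_le_ofReal (hle ω)

lemma PhiL_cost (hX : CBM P X) {t : ℝ≥0} {w w' : ℝ≥0 → ℝ} {r : ℝ} (hr : 0 ≤ r)
    (hle : ∀ ω, DL t w (path X ω) ≤ DL t w' (path X ω) + r) {S : Set Ω} (hS : MeasurableSet S)
    (hg : ∀ ω, ω ∉ S → DL t w (path X ω) ≤ DL t w' (path X ω)) :
    PhiL P X t w ≤ PhiL P X t w' + ENNReal.ofReal r * P S := by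
  unfold PhiL
  rw [← lintegral_ind_const hS, ← lintegral_add_right _ (measurable_const.indicator hS)]
  refine lintegral_mono fun ω => ?_
  by_cases hω : ω ∈ S
  · rw [indicator_of_mem hω]
    exact (ENNReal.ofReal_le_ofReal (hle ω)).trans ENNReal.ofReal_add_le
  · rw [indicator_of_notMem hω, add_zero]
    exact ENNReal.ofReal_le_ofReal (hg ω hω)

lemma PhiL_fz_le (hX : CBM P X) {b t : ℝ≥0} (hbt : b ≤ t) {w : ℝ≥0 → ℝ} (hw : Continuous w) :
    PhiL P X t (fz b w) ≤ PhiL P X t w := by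
  unfold PhiL
  exact lintegral_mono fun ω => ENNReal.ofReal_le_ofReal (DL_fz_le hw (hX.cont ω) hbt)

/-- gain for one sign -/
lemma PhiL_gain_all (hX : CBM P X) {b b' t : ℝ≥0} (hbb : b ≤ b') (hbt : b' ≤ t) (ht : 0 < t)
    {w : ℝ≥0 → ℝ} (hw : Continuous w) (hw0 : w 0 = 0) {ρ : ℝ} (hρ : 0 ≤ ρ)
    (h : ∃ u ≤ b', mx w 0 b + ρ ≤ w u) :
    PhiL P X t (fz b w) + ENNReal.ofReal (max (ρ * (Real.sqrt (t - b' : ℝ≥0) / Real.sqrt t / 72))
      (ρ / 2 * (min 1 (ρ / 2 / Real.sqrt t) / 3))) ≤ PhiL P X t w := by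
  have hbt' : b ≤ t := hbb.trans hbt
  have hst : 0 < Real.sqrt t := Real.sqrt_pos.mpr ht
  have hf0 : fz b w 0 = 0 := by simp [fz, hw0]
  have hS1 : MeasurableSet {ω | mx (path X ω) 0 b' ≤ mx (path X ω) b' t} :=
    measurableSet_le ((measurable_mx 0 b').comp hX.mpath) ((measurable_mx b' t).comp hX.mpath)
  have hS2 : MeasurableSet {ω | mx (path X ω) 0 t - X t ω ≤ ρ / 2} :=
    measurableSet_le (((measurable_mx 0 t).comp hX.mpath).sub (hX.meas t)) measurable_const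
  have h1 := PhiL_gain hX (w := w) (continuous_fz (b := b) hw) hf0 hρ
    (fun ω => DL_fz_le hw (hX.cont ω) hbt') hS1
    (fun ω hω => DL_gain1 hw (hX.cont ω) hbb hbt h hω)
  have h' : ∃ u ≤ t, mx w 0 b + ρ ≤ w u := by
    obtain ⟨u, hu, h2⟩ := h
    exact ⟨u, hu.trans hbt, h2⟩
  have h2 := PhiL_gain hX (w := w) (continuous_fz (b := b) hw) hf0 (by positivity : (0:ℝ) ≤ ρ / 2)
    (fun ω => DL_fz_le hw (hX.cont ω) hbt') hS2
    (fun ω hω => DL_gain2 hw (hX.cont ω) h' hω)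
  have h3 : ENNReal.ofReal (ρ * (Real.sqrt (t - b' : ℝ≥0) / Real.sqrt t / 72)) ≤
      ENNReal.ofReal ρ * P {ω | mx (path X ω) 0 b' ≤ mx (path X ω) b' t} := by
    rw [ENNReal.ofReal_mul hρ]
    exact mul_le_mul_right (late_max hX hbt ht) _
  have h4 : ENNReal.ofReal (ρ / 2 * (min 1 (ρ / 2 / Real.sqrt t) / 3)) ≤
      ENNReal.ofReal (ρ / 2) * P {ω | mx (path X ω) 0 t - X t ω ≤ ρ / 2} := by
    rw [ENNReal.ofReal_mul (by positivity)]
    exact mul_le_mul_right (end_max hX ht (by positivity)) _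
  rcases le_total (ρ * (Real.sqrt (t - b' : ℝ≥0) / Real.sqrt t / 72))
    (ρ / 2 * (min 1 (ρ / 2 / Real.sqrt t) / 3)) with h5 | h5
  · rw [max_eq_right h5]
    exact (add_le_add_right h4 _).trans h2
  · rw [max_eq_left h5]
    exact (add_le_add_right h3 _).trans h1

end Pool.Agent.TH970
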