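import Pool.Agent.TH970.Lit1

namespace Pool.Agent.TH970

open MeasureTheory ProbabilityTheory Set Filter Topology
open scoped ENNReal NNReal

set_option linter.unusedSectionVars false
set_option linter.unusedVariables false

variable {Ω : Type*} [MeasurableSpace Ω] {P : Measure Ω} [IsProbabilityMeasure P]
  {X : ℝ≥0 → Ω → ℝ}

lemma ex_anti (lam : ℝ≥0) {u v : ℝ≥0∞} (hv : v ≠ ∞) (h : u ≤ v) : ex lam v ≤ ex lam u := by
  unfold ex
  apply ENNReal.ofReal_le_ofReal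
  apply Real.exp_le_exp.mpr
  have h1 := mul_le_mul_of_nonneg_left (ENNReal.toReal_mono hv h) lam.2
  simp only [neg_le_neg_iff]
  exact h1

lemma ex_add (lam : ℝ≥0) {u v : ℝ≥0∞} (hu : u ≠ ∞) (hv : v ≠ ∞) :
    ex lam (u + v) = ex lam u * ex lam v := by
  unfold ex
  rw [← ENNReal.ofReal_mul (Real.exp_pos _).le, ← Real.exp_add, ENNReal.toReal_add hu hv]
  congr 2
  ring

lemma ex_ofReal (lam : ℝ≥0) {u : ℝ} (hu : 0 ≤ u) :
    ex lam (ENNReal.ofReal u) = ENNReal.ofReal (Real.exp (-(lam * u))) := by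
  unfold ex
  rw [ENNReal.toReal_ofReal hu]

lemma ex_le_one (lam : ℝ≥0) (u : ℝ≥0∞) : ex lam u ≤ 1 := by
  unfold ex
  rw [← ENNReal.ofReal_one]
  apply ENNReal.ofReal_le_ofReal
  rw [Real.exp_le_one_iff]
  have : 0 ≤ (lam:ℝ) * u.toReal := by positivity
  linarith

lemma ex_pos (lam : ℝ≥0) (u : ℝ≥0∞) : 0 < ex lam u := by
  unfold ex
  rw [ENNReal.ofReal_pos]
  exact Real.exp_pos _

lemma measurable_ex (lam : ℝ≥0) : Measurable (ex lam) := by
  unfold ex
  exact (Real.measurable_exp.comp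
    ((ENNReal.measurable_toReal.const_mul (lam:ℝ)).neg)).ennreal_ofReal

/-- weight of a set of paths -/
noncomputable def WL (P : Measure Ω) (X : ℝ≥0 → Ω → ℝ) (lam t : ℝ≥0) (S : Set (ℝ≥0 → ℝ)) :
    ℝ≥0∞ := ∫⁻ ω in {ω | path X ω ∈ S}, ex lam (hL P X t (path X ω)) ∂P

lemma fz_zero {b : ℝ≥0} {w : ℝ≥0 → ℝ} (h : w 0 = 0) : fz b w 0 = 0 := by simp [fz, h]

lemma am_neg (w : ℝ≥0 → ℝ) (b : ℝ≥0) : am (-w) b = am w b := by
  unfold am
  congr 1
  ext s
  simp

lemma mx_le_am {w : ℝ≥0 → ℝ} (hw : Continuous w) (b : ℝ≥0) : mx w 0 b ≤ am w b :=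
  mx_le zero_le fun s _ h => (le_abs_self _).trans (le_am hw h)

/-- cost of a tube -/
lemma PhiL_cost_all (hX : CBM P X) {b t : ℝ≥0} (hbt : b ≤ t) (ht : 0 < t)
    {w z : ℝ≥0 → ℝ} (hw : Continuous w) (hw0 : w 0 = 0) (hz : Continuous z) (hz0 : z 0 = 0)
    {R r : ℝ} (hr : 0 ≤ r) (hR : am w b ≤ R) (hzr : am z (t - b) ≤ r) :
    PhiL P X t (cat b w z) ≤ PhiL P X t (fz b w) +
      ENNReal.ofReal (r * (2 * (2 * Real.sqrt (t - b : ℝ≥0) + (R + r)) / Real.sqrt t)) := by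
  have hR0 : 0 ≤ R := (am_nonneg hw b).trans hR
  have hS : MeasurableSet {ω | mx (path X ω) 0 b < mx (path X ω) b t + (R + r)} :=
    measurableSet_lt ((measurable_mx 0 b).comp hX.mpath)
      (((measurable_mx b t).comp hX.mpath).add_const _)
  have h1 := PhiL_cost hX (w := cat b w z) (w' := fz b w) hr
    (fun ω => DL_cost hw (hX.cont ω) hz hz0 hw0 hbt hr hR hzr) hS
    (fun ω hω => DL_cost' hw (hX.cont ω) hz hz0 hw0 hbt hr hR hzr (by
      simp only [Set.mem_ofPred_eq, not_lt] at hω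
      exact hω))
  refine h1.trans ?_
  gcongr
  rw [ENNReal.ofReal_mul hr]
  gcongr
  exact late_upper hX hbt ht (by linarith)

lemma hL_cost (hX : CBM P X) {b t : ℝ≥0} (hbt : b ≤ t) (ht : 0 < t)
    {w z : ℝ≥0 → ℝ} (hw : Continuous w) (hw0 : w 0 = 0) (hz : Continuous z) (hz0 : z 0 = 0)
    {R r : ℝ} (hr : 0 ≤ r) (hR : am w b ≤ R) (hzr : am z (t - b) ≤ r) :
    hL P X t (cat b w z) ≤ hL P X t (fz b w) +
      ENNReal.ofReal (r * (4 * (2 * Real.sqrt (t - b : ℝ≥0) + (R + r)) / Real.sqrt t)) := by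
  have hR0 : 0 ≤ R := (am_nonneg hw b).trans hR
  unfold hL
  have h1 := PhiL_cost_all hX hbt ht hw hw0 hz hz0 hr hR hzr
  have h2 := PhiL_cost_all hX hbt ht (R := R) hw.neg (by simp [hw0]) hz.neg (by simp [hz0]) hr
    (by rw [am_neg]; exact hR) (by rw [am_neg]; exact hzr)
  rw [← neg_cat, ← neg_fz] at h2
  calc PhiL P X t (cat b w z) + PhiL P X t (-cat b w z)
      ≤ _ := add_le_add h1 h2
    _ = _ := by
      rw [add_add_add_comm, ← ENNReal.ofReal_add (by positivity) (by positivity)]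
      congr 2
      ring

lemma hL_gain (hX : CBM P X) {b b' t : ℝ≥0} (hbb : b ≤ b') (hbt : b' ≤ t) (ht : 0 < t)
    {w : ℝ≥0 → ℝ} (hw : Continuous w) (hw0 : w 0 = 0) {R ρ : ℝ} (hρ : 0 ≤ ρ)
    (h1 : am w b ≤ R) (h2 : R + ρ ≤ am w b') :
    hL P X t (fz b w) + ENNReal.ofReal (max (ρ * (Real.sqrt (t - b' : ℝ≥0) / Real.sqrt t / 72))
      (ρ / 2 * (min 1 (ρ / 2 / Real.sqrt t) / 3))) ≤ hL P X t w := by
  obtain ⟨u, _, hu, h3⟩ := exists_mx (w := fun s => |w s|) hw.abs (zero_le (a := b'))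
  have h4 : R + ρ ≤ |w u| := by
    rw [← h3]
    exact h2
  unfold hL
  rcases le_abs.mp h4 with h5 | h5
  · have h6 := PhiL_gain_all hX hbb hbt ht hw hw0 hρ ⟨u, hu, by
      have := mx_le_am hw b
      linarith⟩
    have h7 := PhiL_fz_le hX (hbb.trans hbt) hw.neg
    rw [← neg_fz] at h7
    rw [add_right_comm]
    exact add_le_add h6 h7
  · have h6 := PhiL_gain_all hX hbb hbt ht hw.neg (by simp [hw0]) hρ ⟨u, hu, by
      have := mx_le_am hw.neg b
      rw [am_neg] at this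
      simp only [Pi.neg_apply]
      linarith⟩
    have h7 := PhiL_fz_le hX (hbb.trans hbt) hw
    rw [← neg_fz] at h6
    rw [add_assoc]
    exact add_le_add h7 h6

lemma measurableSet_am_le (b : ℝ≥0) (R : ℝ) : MeasurableSet {w : ℝ≥0 → ℝ | am w b ≤ R} :=
  measurableSet_le (measurable_am b) measurable_const

/-- the reference weight -/
noncomputable def QL (P : Measure Ω) (X : ℝ≥0 → Ω → ℝ) (lam t b : ℝ≥0) (R : ℝ) : ℝ≥0∞ :=
  ∫⁻ ω in {ω | am (path X ω) b ≤ R}, ex lam (hL P X t (fz b (path X ω))) ∂P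

lemma WL_gain (hX : CBM P X) (lam : ℝ≥0) {b b' t : ℝ≥0} (hbb : b ≤ b') (hbt : b' ≤ t) (ht : 0 < t)
    {R ρ g : ℝ} (hρ : 0 ≤ ρ) (hg0 : 0 ≤ g)
    (hg : g ≤ max (ρ * (Real.sqrt (t - b' : ℝ≥0) / Real.sqrt t / 72))
      (ρ / 2 * (min 1 (ρ / 2 / Real.sqrt t) / 3))) :
    WL P X lam t {w | am w b ≤ R ∧ R + ρ ≤ am w b'} ≤
      ENNReal.ofReal (Real.exp (-(lam * g))) * QL P X lam t b R := by
  unfold WL QL
  have hm1 : MeasurableSet {ω | path X ω ∈ {w : ℝ≥0 → ℝ | am w b ≤ R ∧ R + ρ ≤ am w b'}} :=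
    hX.mpath ((measurableSet_am_le b R).inter (measurableSet_le measurable_const (measurable_am b')))
  have hm2 : MeasurableSet {ω | am (path X ω) b ≤ R} := hX.mpath (measurableSet_am_le b R)
  rw [← lintegral_const_mul' _ _ ENNReal.ofReal_ne_top]
  calc ∫⁻ ω in {ω | path X ω ∈ {w : ℝ≥0 → ℝ | am w b ≤ R ∧ R + ρ ≤ am w b'}},
        ex lam (hL P X t (path X ω)) ∂P
      ≤ ∫⁻ ω in {ω | path X ω ∈ {w : ℝ≥0 → ℝ | am w b ≤ R ∧ R + ρ ≤ am w b'}},
        ENNReal.ofReal (Real.exp (-(lam * g))) * ex lam (hL P X t (fz b (path X ω))) ∂P := by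
        refine setLIntegral_mono' hm1 fun ω hω => ?_
        have h1 := hL_gain hX hbb hbt ht (hX.cont ω) (hX.path_zero ω) hρ hω.1 hω.2
        have h2 : hL P X t (fz b (path X ω)) + ENNReal.ofReal g ≤ hL P X t (path X ω) :=
          (add_le_add_right (ENNReal.ofReal_le_ofReal hg) _).trans h1
        have hft := hL_ne_top hX ht (continuous_fz (b := b) (hX.cont ω))
        rw [← ex_ofReal lam hg0, mul_comm, ← ex_add lam hft ENNReal.ofReal_ne_top]
        exact ex_anti lam (hL_ne_top hX ht (hX.cont ω)) h2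
    _ ≤ _ := by
        refine lintegral_mono' (Measure.restrict_mono ?_ le_rfl) le_rfl
        intro ω hω
        exact hω.1

lemma WL_cost (hX : CBM P X) (lam : ℝ≥0) {b t : ℝ≥0} (hbt : b ≤ t) (ht : 0 < t)
    {R r k : ℝ} (hr : 0 ≤ r) (hR0 : 0 ≤ R)
    (hk : r * (4 * (2 * Real.sqrt (t - b : ℝ≥0) + (R + r)) / Real.sqrt t) ≤ k) :
    ENNReal.ofReal (Real.exp (-(lam * k))) * P {ω | am (path X ω) (t - b) ≤ r} *
      QL P X lam t b R ≤ WL P X lam t univ := by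
  have hk0 : 0 ≤ k := le_trans (by positivity) hk
  have hm2 : MeasurableSet {ω | am (path X ω) b ≤ R} := hX.mpath (measurableSet_am_le b R)
  have hm3 : MeasurableSet {ω | am (path X ω) (t - b) ≤ r} :=
    hX.mpath (measurableSet_am_le (t - b) r)
  have e1 : WL P X lam t univ =
      ∫⁻ ω, ∫⁻ ω', ex lam (hL P X t (cat b (path X ω) (path X ω'))) ∂P ∂P := by
    have h := lintegral_cat hX b (F := fun w => ex lam (hL P X t w))
      ((measurable_ex lam).comp (measurable_hL hX t))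
    rw [h]
    unfold WL
    simp
  rw [e1]
  unfold QL
  rw [← lintegral_const_mul' _ _ (ENNReal.mul_ne_top ENNReal.ofReal_ne_top (measure_ne_top _ _))]
  refine le_trans ?_ (setLIntegral_le_lintegral {ω | am (path X ω) b ≤ R} _)
  refine setLIntegral_mono' hm2 fun ω hω => ?_
  have hft := hL_ne_top hX ht (continuous_fz (b := b) (hX.cont ω))
  calc ENNReal.ofReal (Real.exp (-(lam * k))) * P {ω | am (path X ω) (t - b) ≤ r} *
        ex lam (hL P X t (fz b (path X ω)))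
      = ∫⁻ ω' in {ω | am (path X ω) (t - b) ≤ r},
          (ENNReal.ofReal (Real.exp (-(lam * k))) * ex lam (hL P X t (fz b (path X ω)))) ∂P := by
        rw [setLIntegral_const]
        ring
    _ ≤ ∫⁻ ω' in {ω | am (path X ω) (t - b) ≤ r},
          ex lam (hL P X t (cat b (path X ω) (path X ω'))) ∂P := by
        refine setLIntegral_mono' hm3 fun ω' hω' => ?_
        have h1 := hL_cost hX hbt ht (hX.cont ω) (hX.path_zero ω) (hX.cont ω') (hX.path_zero ω')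
          hr hω hω'
        rw [← ex_ofReal lam hk0, mul_comm, ← ex_add lam hft ENNReal.ofReal_ne_top]
        refine ex_anti lam (ENNReal.add_ne_top.mpr ⟨hft, ENNReal.ofReal_ne_top⟩) ?_
        exact h1.trans (add_le_add_right (ENNReal.ofReal_le_ofReal hk) _)
    _ ≤ _ := setLIntegral_le_lintegral _ _

/-- **The main inequality.** -/
lemma WL_main (hX : CBM P X) (lam : ℝ≥0) {b b' t : ℝ≥0} (hbb : b ≤ b') (hbt : b' ≤ t) (ht : 0 < t)
    {R ρ g r k : ℝ} (hρ : 0 ≤ ρ) (hg0 : 0 ≤ g) (hr : 0 < r) (hR0 : 0 ≤ R)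
    (hg : g ≤ max (ρ * (Real.sqrt (t - b' : ℝ≥0) / Real.sqrt t / 72))
      (ρ / 2 * (min 1 (ρ / 2 / Real.sqrt t) / 3)))
    (hk : r * (4 * (2 * Real.sqrt (t - b : ℝ≥0) + (R + r)) / Real.sqrt t) ≤ k) :
    WL P X lam t {w | am w b ≤ R ∧ R + ρ ≤ am w b'} ≤
      ENNReal.ofReal (Real.exp (-(lam * g) + lam * k + (32 * (t - b : ℝ≥0) / r ^ 2 + 2))) *
        WL P X lam t univ := by
  have h1 := WL_gain hX lam hbb hbt ht (R := R) hρ hg0 hg
  have h2 := WL_cost hX lam (hbb.trans hbt) ht hr.le hR0 hk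
  have h3 := small_ball_lower hX (t - b) hr
  set Q := QL P X lam t b R
  have h4 : ENNReal.ofReal (Real.exp (-(lam * k + (32 * (t - b : ℝ≥0) / r ^ 2 + 2)))) * Q ≤
      WL P X lam t univ := by
    refine le_trans ?_ h2
    have h5 : ENNReal.ofReal (Real.exp (-(lam * k + (32 * (t - b : ℝ≥0) / r ^ 2 + 2)))) =
        ENNReal.ofReal (Real.exp (-(lam * k))) *
        ENNReal.ofReal (Real.exp (-(32 * (t - b : ℝ≥0) / r ^ 2 + 2))) := by
      rw [← ENNReal.ofReal_mul (Real.exp_pos _).le, ← Real.exp_add]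
      congr 2
      ring
    rw [h5]
    gcongr
  calc WL P X lam t {w | am w b ≤ R ∧ R + ρ ≤ am w b'}
      ≤ ENNReal.ofReal (Real.exp (-(lam * g))) * Q := h1
    _ = ENNReal.ofReal (Real.exp (-(lam * g) + lam * k + (32 * (t - b : ℝ≥0) / r ^ 2 + 2))) *
        (ENNReal.ofReal (Real.exp (-(lam * k + (32 * (t - b : ℝ≥0) / r ^ 2 + 2)))) * Q) := by
        rw [← mul_assoc, ← ENNReal.ofReal_mul (Real.exp_pos _).le, ← Real.exp_add]
        congr 3
        ring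
    _ ≤ _ := by gcongr

end Pool.Agent.TH970
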