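import Pool.Agent.TH970.Lit2
import Pool.Agent.TH970.Asym

namespace Pool.Agent.TH970

open MeasureTheory ProbabilityTheory Set Filter Topology
open scoped ENNReal NNReal

set_option linter.unusedSectionVars false
set_option linter.unusedVariables false

variable {Ω : Type*} [MeasurableSpace Ω] {P : Measure Ω} [IsProbabilityMeasure P]
  {X : ℝ≥0 → Ω → ℝ}

lemma WL_ne_top (lam t : ℝ≥0) (S : Set (ℝ≥0 → ℝ)) : WL P X lam t S ≠ ∞ := by
  unfold WL
  refine ne_top_of_le_ne_top (b := 1) ENNReal.one_ne_top ?_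
  calc ∫⁻ ω in {ω | path X ω ∈ S}, ex lam (hL P X t (path X ω)) ∂P
      ≤ ∫⁻ ω in {ω | path X ω ∈ S}, 1 ∂P := lintegral_mono fun ω => ex_le_one _ _
    _ = P {ω | path X ω ∈ S} := setLIntegral_one _
    _ ≤ 1 := prob_le_one

lemma WL_univ_pos (lam t : ℝ≥0) (hX : CBM P X) : WL P X lam t univ ≠ 0 := by
  unfold WL
  simp only [mem_univ]
  intro h0
  have hm : Measurable (fun ω => ex lam (hL P X t (path X ω))) :=
    (measurable_ex lam).comp ((measurable_hL hX t).comp hX.mpath)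
  have hset : {ω : Ω | True} = univ := by ext; simp
  rw [hset, Measure.restrict_univ, lintegral_eq_zero_iff hm] at h0
  have h1 : ∀ᵐ ω ∂P, False := by
    filter_upwards [h0] with ω hω
    exact (ex_pos lam _).ne' hω
  have h2 := h1.exists
  obtain ⟨_, h3⟩ := h2
  exact h3

lemma WL_mono (lam t : ℝ≥0) {S S' : Set (ℝ≥0 → ℝ)} (h : S ⊆ S') :
    WL P X lam t S ≤ WL P X lam t S' := by
  unfold WL
  refine lintegral_mono' (Measure.restrict_mono ?_ le_rfl) le_rfl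
  intro ω hω
  exact h hω

lemma WL_union (lam t : ℝ≥0) (S S' : Set (ℝ≥0 → ℝ)) :
    WL P X lam t (S ∪ S') ≤ WL P X lam t S + WL P X lam t S' := by
  unfold WL
  have h1 : {ω | path X ω ∈ S ∪ S'} = {ω | path X ω ∈ S} ∪ {ω | path X ω ∈ S'} := rfl
  rw [h1]
  exact lintegral_union_le _ _ _

/-- the relative weight of large displacements up to time `b t` tends to zero -/
def Neg (P : Measure Ω) (X : ℝ≥0 → Ω → ℝ) (lam : ℝ≥0) (α : ℝ) (b : ℝ≥0 → ℝ≥0) : Prop :=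
  ∀ c : ℝ, 0 < c → Tendsto (fun t : ℝ≥0 =>
    WL P X lam t {w | c * (t:ℝ) ^ α ≤ am w (b t)} / WL P X lam t univ) atTop (𝓝 0)

lemma Neg_step (hX : CBM P X) {lam : ℝ≥0} {α : ℝ} {b b' : ℝ≥0 → ℝ≥0}
    (h1 : Neg P X lam α b)
    (h2 : ∀ c : ℝ, 0 < c → ∃ F : ℝ≥0 → ℝ, Tendsto F atTop atBot ∧ ∀ᶠ t : ℝ≥0 in atTop,
      WL P X lam t {w | am w (b t) ≤ c * (t:ℝ) ^ α ∧
        c * (t:ℝ) ^ α + c * (t:ℝ) ^ α ≤ am w (b' t)} ≤
        ENNReal.ofReal (Real.exp (F t)) * WL P X lam t univ) :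
    Neg P X lam α b' := by
  intro c hc
  have hc2 : 0 < c / 2 := by linarith
  obtain ⟨F, hF, hev⟩ := h2 (c / 2) hc2
  have h3 := (h1 (c / 2) hc2).add (tendsto_ofReal_exp hF)
  rw [add_zero] at h3
  refine tendsto_of_tendsto_of_tendsto_of_le_of_le' tendsto_const_nhds h3
    (Eventually.of_forall fun _ => zero_le) ?_
  filter_upwards [hev] with t ht
  have h4 : {w : ℝ≥0 → ℝ | c * (t:ℝ) ^ α ≤ am w (b' t)} ⊆
      {w | c / 2 * (t:ℝ) ^ α ≤ am w (b t)} ∪ {w | am w (b t) ≤ c / 2 * (t:ℝ) ^ α ∧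
        c / 2 * (t:ℝ) ^ α + c / 2 * (t:ℝ) ^ α ≤ am w (b' t)} := by
    intro w hw
    have hw' : c * (t:ℝ) ^ α ≤ am w (b' t) := hw
    rcases le_total (c / 2 * (t:ℝ) ^ α) (am w (b t)) with h | h
    · exact Or.inl h
    · refine Or.inr ⟨h, ?_⟩
      linarith
  have h5 := (WL_mono (P := P) (X := X) lam t h4).trans (WL_union lam t _ _)
  have h6 := h5.trans (add_le_add_right ht _)
  calc WL P X lam t {w | c * (t:ℝ) ^ α ≤ am w (b' t)} / WL P X lam t univ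
      ≤ (WL P X lam t {w | c / 2 * (t:ℝ) ^ α ≤ am w (b t)} +
          ENNReal.ofReal (Real.exp (F t)) * WL P X lam t univ) / WL P X lam t univ := by gcongr
    _ = _ := by
        rw [ENNReal.add_div, ENNReal.mul_div_cancel_right (WL_univ_pos lam t hX)
          (WL_ne_top lam t _)]

lemma Neg_zero (hX : CBM P X) {lam : ℝ≥0} {α : ℝ} : Neg P X lam α (fun t => t - t ^ (1:ℝ)) := by
  intro c hc
  refine Tendsto.congr' ?_ tendsto_const_nhds
  filter_upwards [eventually_gt_atTop 0] with t ht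
  have h1 : {ω | path X ω ∈ {w : ℝ≥0 → ℝ | c * (t:ℝ) ^ α ≤ am w (t - t ^ (1:ℝ))}} = ∅ := by
    ext ω
    simp only [Set.mem_ofPred_eq, mem_empty_iff_false, iff_false, not_le]
    rw [NNReal.rpow_one, tsub_self]
    have h2 : am (path X ω) 0 ≤ 0 := am_le fun s hs => by
      have : s = 0 := le_antisymm hs zero_le
      rw [this, hX.path_zero, abs_zero]
    have h3 : 0 < c * (t:ℝ) ^ α := mul_pos hc (Real.rpow_pos_of_pos (by exact_mod_cast ht) _)
    linarith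
  unfold WL
  rw [h1]
  simp

lemma exists_kappa {c d : ℝ} (hc : 0 < c) (hd : 0 < d) :
    ∃ κ : ℝ, 0 < κ ∧ κ ≤ 1 ∧ 4 * κ * (2 + c + κ) ≤ d := by
  refine ⟨min 1 (d / (4 * (3 + c))), by positivity, min_le_left _ _, ?_⟩
  set κ := min 1 (d / (4 * (3 + c))) with hκ
  have h1 : κ ≤ 1 := min_le_left _ _
  have h2 : κ ≤ d / (4 * (3 + c)) := min_le_right _ _
  have h3 : 0 < κ := by positivity
  rw [le_div_iff₀ (by positivity)] at h2
  nlinarith

/-- a step of the ladder -/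
lemma Neg_ladder (hX : CBM P X) {lam : ℝ≥0} (hlam : 0 < lam) {α β β' : ℝ}
    (h : Neg P X lam α (fun t => t - t ^ β)) (hβ1 : β ≤ 1) (hβ : 2 * α ≤ β) (hββ : β' ≤ β)
    (hp : 0 < α + β' / 2 - 1 / 2) (hq : 2 * β - 2 * α - β' < α + β' / 2 - 1 / 2) :
    Neg P X lam α (fun t => t - t ^ β') := by
  refine Neg_step hX h fun c hc => ?_
  obtain ⟨κ, hκ, hκ1, hκ2⟩ := exists_kappa (d := c / 144) hc (by positivity)
  have hlam' : (0:ℝ) < lam := hlam
  refine ⟨fun t => -((lam * (c / 144)) * (t:ℝ) ^ (α + β' / 2 - 1 / 2)) +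
    (32 / κ ^ 2) * (t:ℝ) ^ (2 * β - 2 * α - β') + 2,
    tendsto_pow_diff_nn (by positivity) hp hq, ?_⟩
  filter_upwards [eventually_ge_atTop 1] with t ht
  have ht1 : (1:ℝ) ≤ t := by exact_mod_cast ht
  have ht0 : (0:ℝ) < t := by linarith
  have ht0' : 0 < t := lt_of_lt_of_le one_pos ht
  have hle1 : t ^ β ≤ t := by
    calc t ^ β ≤ t ^ (1:ℝ) := NNReal.rpow_le_rpow_of_exponent_le ht hβ1
      _ = t := NNReal.rpow_one t
  have hle2 : t ^ β' ≤ t ^ β := NNReal.rpow_le_rpow_of_exponent_le ht hββ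
  have hbb : t - t ^ β ≤ t - t ^ β' := tsub_le_tsub_left hle2 t
  have hbt : t - t ^ β' ≤ t := tsub_le_self
  have e1 : t - (t - t ^ β) = t ^ β := tsub_tsub_cancel_of_le hle1
  have e2 : t - (t - t ^ β') = t ^ β' := tsub_tsub_cancel_of_le (hle2.trans hle1)
  have hst : Real.sqrt t = (t:ℝ) ^ ((1:ℝ) / 2) := Real.sqrt_eq_rpow _
  have hsβ : ∀ γ : ℝ, Real.sqrt ((t ^ γ : ℝ≥0) : ℝ) = (t:ℝ) ^ (γ / 2) := by
    intro γ
    rw [NNReal.coe_rpow, Real.sqrt_eq_rpow, ← Real.rpow_mul ht0.le]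
    congr 1
    ring
  set R : ℝ := c * (t:ℝ) ^ α with hR
  have hR0 : 0 < R := by positivity
  set r : ℝ := κ * (t:ℝ) ^ (α + β' / 2 - β / 2) with hr
  have hr0 : 0 < r := by positivity
  set g : ℝ := (c / 72) * (t:ℝ) ^ (α + β' / 2 - 1 / 2) with hg
  have hg0 : 0 ≤ g := by positivity
  have main := WL_main hX lam hbb hbt ht0' (R := R) (ρ := R) (g := g) (r := r) (k := g / 2)
    hR0.le hg0 hr0 hR0.le ?_ ?_
  · refine main.trans ?_
    refine mul_le_mul' (ENNReal.ofReal_le_ofReal (Real.exp_le_exp.mpr ?_)) le_rfl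
    rw [e1, NNReal.coe_rpow]
    have h3 : 32 * (t:ℝ) ^ β / r ^ 2 = (32 / κ ^ 2) * (t:ℝ) ^ (2 * β - 2 * α - β') := by
      have h4 : (t:ℝ) ^ β = (t:ℝ) ^ (2 * β - 2 * α - β') * ((t:ℝ) ^ (α + β' / 2 - β / 2)) ^ 2 := by
        rw [← Real.rpow_natCast ((t:ℝ) ^ (α + β' / 2 - β / 2)), ← Real.rpow_mul ht0.le,
          ← Real.rpow_add ht0]
        congr 1
        push_cast
        ring
      rw [hr, mul_pow, h4]
      have h5 : 0 < (t:ℝ) ^ (α + β' / 2 - β / 2) := Real.rpow_pos_of_pos ht0 _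
      field_simp
    rw [h3]
    have h6 : -(lam * g) + lam * (g / 2) = -((lam * (c / 144)) * (t:ℝ) ^ (α + β' / 2 - 1 / 2)) := by
      rw [hg]
      ring
    linarith
  · refine le_trans ?_ (le_max_left _ _)
    rw [e2, hsβ, hst]
    apply le_of_eq
    rw [hg, hR]
    have h4 : (t:ℝ) ^ (α + β' / 2 - 1 / 2) =
        (t:ℝ) ^ α * ((t:ℝ) ^ (β' / 2) / (t:ℝ) ^ ((1:ℝ) / 2)) := by
      rw [← Real.rpow_sub ht0, ← Real.rpow_add ht0]
      congr 1
      ring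
    rw [h4]
    ring
  · rw [e1, hsβ, hst]
    have h5 : R ≤ c * (t:ℝ) ^ (β / 2) := by
      rw [hR]
      exact mul_le_mul_of_nonneg_left
        (Real.rpow_le_rpow_of_exponent_le ht1 (by linarith)) hc.le
    have h6 : r ≤ κ * (t:ℝ) ^ (β / 2) := by
      rw [hr]
      exact mul_le_mul_of_nonneg_left
        (Real.rpow_le_rpow_of_exponent_le ht1 (by linarith)) hκ.le
    have h7 : 0 < (t:ℝ) ^ ((1:ℝ) / 2) := by positivity
    have h8 : (t:ℝ) ^ (α + β' / 2 - 1 / 2) =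
        (t:ℝ) ^ (α + β' / 2 - β / 2) * (t:ℝ) ^ (β / 2) / (t:ℝ) ^ ((1:ℝ) / 2) := by
      rw [← Real.rpow_add ht0, ← Real.rpow_sub ht0]
      congr 1
      ring
    calc r * (4 * (2 * (t:ℝ) ^ (β / 2) + (R + r)) / (t:ℝ) ^ ((1:ℝ) / 2))
        ≤ r * (4 * (2 * (t:ℝ) ^ (β / 2) + (c * (t:ℝ) ^ (β / 2) + κ * (t:ℝ) ^ (β / 2))) /
            (t:ℝ) ^ ((1:ℝ) / 2)) := by gcongr
      _ = (4 * κ * (2 + c + κ)) * ((t:ℝ) ^ (α + β' / 2 - β / 2) * (t:ℝ) ^ (β / 2) /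
            (t:ℝ) ^ ((1:ℝ) / 2)) := by
          rw [hr]
          ring
      _ ≤ (c / 144) * ((t:ℝ) ^ (α + β' / 2 - β / 2) * (t:ℝ) ^ (β / 2) /
            (t:ℝ) ^ ((1:ℝ) / 2)) := by gcongr
      _ = g / 2 := by
          rw [hg, h8]
          ring

/-- the last step -/
lemma Neg_last (hX : CBM P X) {lam : ℝ≥0} (hlam : 0 < lam) {α β : ℝ}
    (h : Neg P X lam α (fun t => t - t ^ β)) (hβ1 : β ≤ 1) (hβ : β ≤ 2 * α)
    (hα : 1 / 4 < α) (hα2 : α < 1 / 2) :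
    Neg P X lam α (fun t => t) := by
  refine Neg_step hX h fun c hc => ?_
  obtain ⟨κ, hκ, hκ1, hκ2⟩ := exists_kappa (d := c ^ 2 / 24) hc (by positivity)
  have hlam' : (0:ℝ) < lam := hlam
  refine ⟨fun t => -((lam * (c ^ 2 / 24)) * (t:ℝ) ^ (2 * α - 1 / 2)) +
    (32 / κ ^ 2) * (t:ℝ) ^ (0:ℝ) + 2,
    tendsto_pow_diff_nn (by positivity) (by linarith) (by linarith), ?_⟩
  have hsmall := ev_rpow_le (p := α - 1 / 2) (c := 2 / c) (by linarith) (by positivity)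
  filter_upwards [eventually_ge_atTop 1, hsmall] with t ht hts
  have ht1 : (1:ℝ) ≤ t := by exact_mod_cast ht
  have ht0 : (0:ℝ) < t := by linarith
  have ht0' : 0 < t := lt_of_lt_of_le one_pos ht
  have hle1 : t ^ β ≤ t := by
    calc t ^ β ≤ t ^ (1:ℝ) := NNReal.rpow_le_rpow_of_exponent_le ht hβ1
      _ = t := NNReal.rpow_one t
  have hbb : t - t ^ β ≤ t := tsub_le_self
  have e1 : t - (t - t ^ β) = t ^ β := tsub_tsub_cancel_of_le hle1
  have hst : Real.sqrt t = (t:ℝ) ^ ((1:ℝ) / 2) := Real.sqrt_eq_rpow _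
  have hsβ : Real.sqrt ((t ^ β : ℝ≥0) : ℝ) = (t:ℝ) ^ (β / 2) := by
    rw [NNReal.coe_rpow, Real.sqrt_eq_rpow, ← Real.rpow_mul ht0.le]
    congr 1
    ring
  set R : ℝ := c * (t:ℝ) ^ α with hR
  have hR0 : 0 < R := by positivity
  set r : ℝ := κ * (t:ℝ) ^ α with hr
  have hr0 : 0 < r := by positivity
  set g : ℝ := (c ^ 2 / 12) * (t:ℝ) ^ (2 * α - 1 / 2) with hg
  have hg0 : 0 ≤ g := by positivity
  have h7 : 0 < (t:ℝ) ^ ((1:ℝ) / 2) := by positivity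
  have h8 : (t:ℝ) ^ (2 * α - 1 / 2) = (t:ℝ) ^ α * (t:ℝ) ^ α / (t:ℝ) ^ ((1:ℝ) / 2) := by
    rw [← Real.rpow_add ht0, ← Real.rpow_sub ht0]
    congr 1
    ring
  have main := WL_main hX lam hbb le_rfl ht0' (R := R) (ρ := R) (g := g) (r := r) (k := g / 2)
    hR0.le hg0 hr0 hR0.le ?_ ?_
  · refine main.trans ?_
    refine mul_le_mul' (ENNReal.ofReal_le_ofReal (Real.exp_le_exp.mpr ?_)) le_rfl
    rw [e1, NNReal.coe_rpow, Real.rpow_zero, mul_one]
    have h3 : 32 * (t:ℝ) ^ β / r ^ 2 ≤ 32 / κ ^ 2 := by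
      have h4 : (t:ℝ) ^ β ≤ ((t:ℝ) ^ α) ^ 2 := by
        rw [← Real.rpow_natCast ((t:ℝ) ^ α), ← Real.rpow_mul ht0.le]
        apply Real.rpow_le_rpow_of_exponent_le ht1
        push_cast
        linarith
      rw [hr, mul_pow, div_le_div_iff₀ (by positivity) (by positivity)]
      nlinarith [sq_nonneg κ, mul_le_mul_of_nonneg_left h4 (sq_nonneg κ)]
    have h6 : -(lam * g) + lam * (g / 2) = -((lam * (c ^ 2 / 24)) * (t:ℝ) ^ (2 * α - 1 / 2)) := by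
      rw [hg]
      ring
    linarith
  · refine le_trans ?_ (le_max_right _ _)
    rw [hst]
    have h9 : R / 2 / (t:ℝ) ^ ((1:ℝ) / 2) ≤ 1 := by
      have h10 : (t:ℝ) ^ (α - 1 / 2) = (t:ℝ) ^ α / (t:ℝ) ^ ((1:ℝ) / 2) := Real.rpow_sub ht0 _ _
      rw [h10, le_div_iff₀ hc] at hts
      calc R / 2 / (t:ℝ) ^ ((1:ℝ) / 2) = ((t:ℝ) ^ α / (t:ℝ) ^ ((1:ℝ) / 2) * c) / 2 := by
            rw [hR]; ring
        _ ≤ 1 := by linarith
    rw [min_eq_right h9, hg, h8, hR]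
    apply le_of_eq
    ring
  · rw [e1, hsβ, hst]
    have h5 : (t:ℝ) ^ (β / 2) ≤ (t:ℝ) ^ α :=
      Real.rpow_le_rpow_of_exponent_le ht1 (by linarith)
    calc r * (4 * (2 * (t:ℝ) ^ (β / 2) + (R + r)) / (t:ℝ) ^ ((1:ℝ) / 2))
        ≤ r * (4 * (2 * (t:ℝ) ^ α + (R + r)) / (t:ℝ) ^ ((1:ℝ) / 2)) := by gcongr
      _ = (4 * κ * (2 + c + κ)) * ((t:ℝ) ^ α * (t:ℝ) ^ α / (t:ℝ) ^ ((1:ℝ) / 2)) := by
          rw [hr, hR]
          ring
      _ ≤ (c ^ 2 / 24) * ((t:ℝ) ^ α * (t:ℝ) ^ α / (t:ℝ) ^ ((1:ℝ) / 2)) := by gcongr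
      _ = g / 2 := by
          rw [hg, h8]
          ring

/-- **Subdiffusive bound**: for every `α` in `(1/3, 1/2)` the relative weight of paths with
displacement at least `c t ^ α` tends to zero. -/
theorem Neg_main (hX : CBM P X) {lam : ℝ≥0} (hlam : 0 < lam) {α : ℝ} (hα : 1 / 3 < α)
    (hα2 : α < 1 / 2) : Neg P X lam α (fun t => t) := by
  set ε : ℝ := (3 * α - 1) / 2 with hε
  have hε0 : 0 < ε := by linarith
  have key : ∀ j : ℕ, (∀ i : ℕ, i < j → 2 * α ≤ 1 - i * ε) →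
      Neg P X lam α (fun t => t - t ^ (1 - j * ε)) := by
    intro j
    induction j with
    | zero =>
      intro _
      have := Neg_zero (P := P) (lam := lam) (α := α) hX
      simpa using this
    | succ j ih =>
      intro hall
      have h1 := ih fun i hi => hall i (by omega)
      have h2 := hall j (by omega)
      have h3 : (0:ℝ) ≤ j * ε := by positivity
      refine Neg_ladder hX hlam h1 (by linarith) h2 ?_ ?_ ?_
      · push_cast; linarith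
      · push_cast
        linarith
      · push_cast
        linarith
  set N : ℕ := ⌈(1 - 2 * α) / ε⌉₊ with hN
  have h1 : (1 - 2 * α) / ε ≤ N := Nat.le_ceil _
  have h2 := key N fun i hi => by
    have h3 : (i:ℝ) < (1 - 2 * α) / ε := Nat.lt_ceil.mp hi
    rw [lt_div_iff₀ hε0] at h3
    linarith
  rw [div_le_iff₀ hε0] at h1
  have h4 : (0:ℝ) ≤ N * ε := by positivity
  exact Neg_last hX hlam h2 (by linarith) (by linarith) (by linarith) hα2

end Pool.Agent.TH970
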