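import Pool.Agent.TH970.Lit3

namespace Pool.Agent.TH970

open MeasureTheory ProbabilityTheory Set Filter Topology
open scoped ENNReal NNReal

set_option linter.unusedSectionVars false
set_option linter.unusedVariables false

variable {Ω : Type*} [MeasurableSpace Ω] {P : Measure Ω} [IsProbabilityMeasure P]
  {X : ℝ≥0 → Ω → ℝ}

lemma fz_zero_path {w : ℝ≥0 → ℝ} (h : w 0 = 0) : fz 0 w = 0 := by
  ext s
  simp [fz, h]

/-- paths with small displacement have small weight -/
lemma WL_small (hX : CBM P X) (lam : ℝ≥0) {t : ℝ≥0} (ht : 0 < t) {ρ : ℝ} (hρ : 0 < ρ) :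
    WL P X lam t {w | am w t ≤ ρ} ≤
      ENNReal.ofReal (Real.exp (-(t / (32 * ρ ^ 2) - 1))) * ex lam (hL P X t 0) := by
  have hm : MeasurableSet {ω | path X ω ∈ {w : ℝ≥0 → ℝ | am w t ≤ ρ}} :=
    hX.mpath (measurableSet_am_le t ρ)
  unfold WL
  calc ∫⁻ ω in {ω | path X ω ∈ {w : ℝ≥0 → ℝ | am w t ≤ ρ}}, ex lam (hL P X t (path X ω)) ∂P
      ≤ ∫⁻ ω in {ω | path X ω ∈ {w : ℝ≥0 → ℝ | am w t ≤ ρ}}, ex lam (hL P X t 0) ∂P := by
        refine lintegral_mono fun ω => ?_
        refine ex_anti lam (hL_ne_top hX ht (hX.cont ω)) ?_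
        rw [← fz_zero_path (hX.path_zero ω)]
        have h1 := PhiL_fz_le hX (zero_le (a := t)) (hX.cont ω)
        have h2 := PhiL_fz_le hX (zero_le (a := t)) (hX.cont ω).neg
        unfold hL
        rw [neg_fz]
        exact add_le_add h1 h2
    _ = ex lam (hL P X t 0) * P {ω | am (path X ω) t ≤ ρ} := setLIntegral_const _ _
    _ ≤ ex lam (hL P X t 0) * ENNReal.ofReal (Real.exp (-(t / (32 * ρ ^ 2) - 1))) := by
        gcongr
        exact small_ball_upper hX t hρ
    _ = _ := mul_comm _ _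

lemma WL_univ_lower (hX : CBM P X) (lam : ℝ≥0) {t : ℝ≥0} (ht : 1 ≤ t) :
    ENNReal.ofReal (Real.exp (-(lam * (12 * (t:ℝ) ^ ((1:ℝ) / 3)) + (32 * (t:ℝ) ^ ((1:ℝ) / 3) + 2)))) *
      ex lam (hL P X t 0) ≤ WL P X lam t univ := by
  have ht1 : (1:ℝ) ≤ t := by exact_mod_cast ht
  have ht0 : (0:ℝ) < t := by linarith
  have ht0' : 0 < t := lt_of_lt_of_le one_pos ht
  set r : ℝ := (t:ℝ) ^ ((1:ℝ) / 3) with hr
  have hr0 : 0 < r := by positivity
  have hst : Real.sqrt t = (t:ℝ) ^ ((1:ℝ) / 2) := Real.sqrt_eq_rpow _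
  have hrs : r ≤ Real.sqrt t := by
    rw [hr, hst]
    exact Real.rpow_le_rpow_of_exponent_le ht1 (by norm_num)
  have hs0 : 0 < Real.sqrt t := Real.sqrt_pos.mpr ht0
  have h1 := WL_cost hX lam (zero_le (a := t)) ht0' (R := 0) (r := r) (k := 12 * r) hr0.le le_rfl ?_
  · refine le_trans ?_ h1
    have h2 : QL P X lam t 0 0 = ex lam (hL P X t 0) := by
      unfold QL
      have h3 : {ω | am (path X ω) 0 ≤ 0} = univ := by
        ext ω
        simp only [Set.mem_ofPred_eq, mem_univ, iff_true]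
        refine am_le fun s hs => ?_
        have : s = 0 := le_antisymm hs zero_le
        rw [this, hX.path_zero, abs_zero]
      rw [h3, Measure.restrict_univ]
      have h4 : ∀ ω, ex lam (hL P X t (fz 0 (path X ω))) = ex lam (hL P X t 0) := by
        intro ω
        rw [fz_zero_path (hX.path_zero ω)]
      simp_rw [h4]
      rw [lintegral_const, measure_univ, mul_one]
    rw [h2]
    refine mul_le_mul' ?_ le_rfl
    have h5 := small_ball_lower hX (t - 0) hr0
    refine le_trans ?_ (mul_le_mul' le_rfl h5)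
    rw [← ENNReal.ofReal_mul (Real.exp_pos _).le, ← Real.exp_add]
    apply ENNReal.ofReal_le_ofReal
    apply Real.exp_le_exp.mpr
    have h6 : 32 * ((t - 0 : ℝ≥0) : ℝ) / r ^ 2 = 32 * r := by
      rw [tsub_zero]
      have h7 : (t:ℝ) = r ^ 3 := by
        rw [hr, ← Real.rpow_natCast, ← Real.rpow_mul ht0.le]
        norm_num
      rw [h7]
      field_simp
    rw [h6]
    apply le_of_eq
    ring
  · rw [tsub_zero]
    have h8 : 4 * (2 * Real.sqrt t + (0 + r)) / Real.sqrt t ≤ 12 := by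
      rw [div_le_iff₀ hs0]
      linarith
    calc r * (4 * (2 * Real.sqrt t + (0 + r)) / Real.sqrt t) ≤ r * 12 := by gcongr
      _ = 12 * r := by ring

/-- Lower bound: displacements below `t ^ (1/3)` have negligible weight. -/
theorem Small_main (hX : CBM P X) {lam : ℝ≥0} {α : ℝ} (hα0 : 0 < α) (hα : α < 1 / 3)
    {c : ℝ} (hc : 0 < c) : Tendsto (fun t : ℝ≥0 =>
      WL P X lam t {w | am w t ≤ c * (t:ℝ) ^ α} / WL P X lam t univ) atTop (𝓝 0) := by
  have hF := tendsto_pow_diff_nn (A := 1 / (32 * c ^ 2)) (B := 12 * lam + 32) (C := 3)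
    (p := 1 - 2 * α) (q := 1 / 3) (by positivity) (by linarith) (by linarith)
  refine tendsto_of_tendsto_of_tendsto_of_le_of_le' tendsto_const_nhds (tendsto_ofReal_exp hF)
    (Eventually.of_forall fun _ => zero_le) ?_
  filter_upwards [eventually_ge_atTop 1] with t ht
  have ht1 : (1:ℝ) ≤ t := by exact_mod_cast ht
  have ht0 : (0:ℝ) < t := by linarith
  have ht0' : 0 < t := lt_of_lt_of_le one_pos ht
  have hρ : 0 < c * (t:ℝ) ^ α := by positivity
  have h1 := WL_small hX lam ht0' hρ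
  have h2 := WL_univ_lower hX lam ht
  rw [ENNReal.div_le_iff (WL_univ_pos lam t hX) (WL_ne_top lam t _)]
  refine h1.trans ?_
  refine le_trans ?_ (mul_le_mul' le_rfl h2)
  rw [← mul_assoc, ← ENNReal.ofReal_mul (Real.exp_pos _).le, ← Real.exp_add]
  refine mul_le_mul' (ENNReal.ofReal_le_ofReal (Real.exp_le_exp.mpr ?_)) le_rfl
  have h3 : (t:ℝ) / (32 * (c * (t:ℝ) ^ α) ^ 2) = 1 / (32 * c ^ 2) * (t:ℝ) ^ (1 - 2 * α) := by
    have h4 : (t:ℝ) ^ (1 - 2 * α) = t / ((t:ℝ) ^ α) ^ 2 := by
      rw [← Real.rpow_natCast ((t:ℝ) ^ α), ← Real.rpow_mul ht0.le, Real.rpow_sub ht0,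
        Real.rpow_one]
      congr 2
      push_cast
      ring
    rw [h4]
    field_simp
  rw [h3]
  apply le_of_eq
  ring

/-! ### Extension of the time horizon by one unit -/

lemma CBM.shift (hX : CBM P X) (b : ℝ≥0) : CBM P (fun s ω => X (b + s) ω - X b ω) where
  meas t := (hX.meas _).sub (hX.meas _)
  cont ω := by
    have h1 := hX.cont ω
    have h2 : Continuous fun s : ℝ≥0 => path X ω (b + s) := h1.comp (continuous_const.add continuous_id)
    exact h2.sub continuous_const
  zero ω := by simp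
  pre := hX.pre.shift b

lemma DL_extend {w z y : ℝ≥0 → ℝ} {b : ℝ≥0} (hw : Continuous w) (hz : Continuous z)
    (hz0 : z 0 = 0) (hy : Continuous y) (hzr : am z 1 ≤ 1) :
    DL (b + 1) (cat b w z) y ≤ DL b w y + (1 + mx (fun s => y (b + s) - y b) 0 1) := by
  have hy2 : Continuous (fun s => y (b + s) - y b) :=
    (hy.comp (continuous_const.add continuous_id)).sub continuous_const
  have h0 : 0 ≤ mx (fun s => y (b + s) - y b) 0 1 := by
    have := le_mx hy2 (a := 0) (b := 1) (s := 0) le_rfl zero_le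
    simpa using this
  refine DL_le fun u s hus hst => ?_
  rcases le_total s b with h1 | h1
  · rw [cat_left hz0 (hus.trans h1)]
    have := le_DL hw hy hus h1
    linarith
  · have h2 : y s - y b ≤ mx (fun s => y (b + s) - y b) 0 1 := by
      have h3 := le_mx hy2 (a := 0) (b := 1) (s := s - b) zero_le (by
        rw [tsub_le_iff_left]; exact hst)
      rw [add_tsub_cancel_of_le h1] at h3
      exact h3
    rcases le_total u b with h3 | h3
    · rw [cat_left hz0 h3]
      have := le_DL hw hy h3 le_rfl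
      linarith
    · rw [cat_right h3]
      have h4 := le_DL hw hy (le_refl b) le_rfl
      have h5 : |z (u - b)| ≤ 1 := (le_am hz (by
        rw [tsub_le_iff_left]; exact hus.trans hst)).trans hzr
      have h6 := (abs_le.mp h5).2
      linarith

lemma PhiL_extend (hX : CBM P X) {w z : ℝ≥0 → ℝ} {b : ℝ≥0} (hw : Continuous w)
    (hz : Continuous z) (hz0 : z 0 = 0) (hzr : am z 1 ≤ 1) :
    PhiL P X (b + 1) (cat b w z) ≤ PhiL P X b w + ENNReal.ofReal 3 := by
  unfold PhiL
  have hsh := hX.shift b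
  calc ∫⁻ ω, ENNReal.ofReal (DL (b + 1) (cat b w z) (path X ω)) ∂P
      ≤ ∫⁻ ω, (ENNReal.ofReal (DL b w (path X ω)) + (ENNReal.ofReal 1 +
          ENNReal.ofReal (mx (path (fun s ω => X (b + s) ω - X b ω) ω) 0 1))) ∂P := by
        refine lintegral_mono fun ω => ?_
        refine (ENNReal.ofReal_le_ofReal (DL_extend hw hz hz0 (hX.cont ω) hzr)).trans ?_
        refine ENNReal.ofReal_add_le.trans (add_le_add_right ?_ _)
        exact ENNReal.ofReal_add_le
    _ = ∫⁻ ω, ENNReal.ofReal (DL b w (path X ω)) ∂P + (ENNReal.ofReal 1 +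
          ∫⁻ ω, ENNReal.ofReal (mx (path (fun s ω => X (b + s) ω - X b ω) ω) 0 1) ∂P) := by
        rw [lintegral_add_left (measurable_DL_path hX b w).ennreal_ofReal,
          lintegral_add_left measurable_const, lintegral_const, measure_univ, mul_one]
    _ ≤ ∫⁻ ω, ENNReal.ofReal (DL b w (path X ω)) ∂P + (ENNReal.ofReal 1 + ENNReal.ofReal 2) := by
        gcongr
        refine (lintegral_mx hsh one_pos).trans (ENNReal.ofReal_le_ofReal ?_)
        simp
    _ = _ := by
        rw [← ENNReal.ofReal_add (by norm_num) (by norm_num)]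
        norm_num

lemma WL_extend (hX : CBM P X) (lam : ℝ≥0) {b : ℝ≥0} (hb : 0 < b) :
    ex lam (ENNReal.ofReal 6) * P {ω | am (path X ω) 1 ≤ 1} * WL P X lam b univ ≤
      WL P X lam (b + 1) univ := by
  have hm3 : MeasurableSet {ω | am (path X ω) 1 ≤ 1} :=
    hX.mpath (measurableSet_am_le 1 1)
  have e1 : WL P X lam (b + 1) univ =
      ∫⁻ ω, ∫⁻ ω', ex lam (hL P X (b + 1) (cat b (path X ω) (path X ω'))) ∂P ∂P := by
    have h := lintegral_cat hX b (F := fun w => ex lam (hL P X (b + 1) w))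
      ((measurable_ex lam).comp (measurable_hL hX (b + 1)))
    rw [h]
    unfold WL
    simp
  have e2 : WL P X lam b univ = ∫⁻ ω, ex lam (hL P X b (path X ω)) ∂P := by
    unfold WL
    simp
  have hc : ex lam (ENNReal.ofReal 6) ≠ ∞ := ne_top_of_le_ne_top ENNReal.one_ne_top (ex_le_one _ _)
  rw [e1, e2, ← lintegral_const_mul' _ _ (ENNReal.mul_ne_top hc (measure_ne_top _ _))]
  refine lintegral_mono fun ω => ?_
  have hft := hL_ne_top hX hb (hX.cont ω)
  calc ex lam (ENNReal.ofReal 6) * P {ω | am (path X ω) 1 ≤ 1} * ex lam (hL P X b (path X ω))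
      = ∫⁻ ω' in {ω | am (path X ω) 1 ≤ 1},
          (ex lam (hL P X b (path X ω)) * ex lam (ENNReal.ofReal 6)) ∂P := by
        rw [setLIntegral_const]
        ring
    _ ≤ ∫⁻ ω' in {ω | am (path X ω) 1 ≤ 1},
          ex lam (hL P X (b + 1) (cat b (path X ω) (path X ω'))) ∂P := by
        refine setLIntegral_mono' hm3 fun ω' hω' => ?_
        rw [← ex_add lam hft ENNReal.ofReal_ne_top]
        refine ex_anti lam (ENNReal.add_ne_top.mpr ⟨hft, ENNReal.ofReal_ne_top⟩) ?_
        have h1 := PhiL_extend hX (b := b) (hX.cont ω) (hX.cont ω') (hX.path_zero ω') hω'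
        have h2 := PhiL_extend hX (b := b) (hX.cont ω).neg (hX.cont ω').neg
          (by simp [hX.path_zero ω']) (by rw [am_neg]; exact hω')
        unfold hL
        rw [neg_cat]
        calc _ ≤ _ := add_le_add h1 h2
          _ = _ := by
            rw [add_add_add_comm, ← ENNReal.ofReal_add (by norm_num) (by norm_num)]
            norm_num
    _ ≤ _ := setLIntegral_le_lintegral _ _

end Pool.Agent.TH970
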