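import Pool.Agent.TH970.Lit4
import Pool.Agent.Helper392.Mey.PL

namespace Pool.Agent.TH970

open MeasureTheory ProbabilityTheory Set Filter Topology
open scoped ENNReal NNReal

set_option linter.unusedSectionVars false
set_option linter.unusedVariables false

lemma pdf_mid (v : ℝ≥0) (x y : ℝ) :
    gaussianPDF 0 v x * gaussianPDF 0 v y ≤ gaussianPDF 0 v ((x + y) / 2) ^ 2 := by
  unfold gaussianPDF
  rw [← ENNReal.ofReal_mul (gaussianPDFReal_nonneg _ _ _),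
    ← ENNReal.ofReal_pow (gaussianPDFReal_nonneg _ _ _)]
  apply ENNReal.ofReal_le_ofReal
  unfold gaussianPDFReal
  have h1 : Real.exp (-(x - 0) ^ 2 / (2 * v)) * Real.exp (-(y - 0) ^ 2 / (2 * v)) ≤
      Real.exp (-((x + y) / 2 - 0) ^ 2 / (2 * v)) ^ 2 := by
    rw [← Real.exp_add, ← Real.exp_nat_mul]
    apply Real.exp_le_exp.mpr
    rw [← add_div]
    push_cast
    rw [mul_div_assoc']
    apply div_le_div_of_nonneg_right _ (by positivity)
    nlinarith [sq_nonneg (x - y)]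
  have h2 : 0 ≤ (Real.sqrt (2 * Real.pi * v))⁻¹ := by positivity
  calc _ = (Real.sqrt (2 * Real.pi * v))⁻¹ ^ 2 *
        (Real.exp (-(x - 0) ^ 2 / (2 * v)) * Real.exp (-(y - 0) ^ 2 / (2 * v))) := by ring
    _ ≤ (Real.sqrt (2 * Real.pi * v))⁻¹ ^ 2 *
        Real.exp (-((x + y) / 2 - 0) ^ 2 / (2 * v)) ^ 2 := by gcongr
    _ = _ := by ring

/-- one-dimensional Gaussian Prekopa-Leindler inequality, midpoint form. -/
lemma pl_gauss {v : ℝ≥0} (hv : v ≠ 0) (F G K : ℝ → ℝ≥0∞) (hF : Measurable F) (hG : Measurable G)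
    (hK : Measurable K) (h : ∀ x y, F x * G y ≤ K ((x + y) / 2) ^ 2) :
    (∫⁻ x, F x ∂(gaussianReal 0 v)) * (∫⁻ x, G x ∂(gaussianReal 0 v)) ≤
      (∫⁻ x, K x ∂(gaussianReal 0 v)) ^ 2 := by
  have hφ : Measurable (gaussianPDF 0 v) := measurable_gaussianPDF 0 v
  have e : ∀ A : ℝ → ℝ≥0∞, Measurable A →
      ∫⁻ x, A x ∂(gaussianReal 0 v) = ∫⁻ x, gaussianPDF 0 v x * A x := by
    intro A hA
    rw [gaussianReal_of_var_ne_zero 0 hv, lintegral_withDensity_eq_lintegral_mul _ hφ hA]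
    rfl
  rw [e F hF, e G hG, e K hK]
  refine Pool.Agent.Helper392.Mey.PL.pl1 _ _ _ (hφ.mul hF) (hφ.mul hG) (hφ.mul hK) fun x y => ?_
  calc gaussianPDF 0 v x * F x * (gaussianPDF 0 v y * G y)
      = (gaussianPDF 0 v x * gaussianPDF 0 v y) * (F x * G y) := by ring
    _ ≤ gaussianPDF 0 v ((x + y) / 2) ^ 2 * K ((x + y) / 2) ^ 2 :=
        mul_le_mul' (pdf_mid v x y) (h x y)
    _ = _ := by ring

/-- midpoint of two paths -/
noncomputable def mid (f g : ℝ≥0 → ℝ) : ℝ≥0 → ℝ := fun s => (f s + g s) / 2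

/-- one step path -/
noncomputable def stp (δ : ℝ≥0) (x : ℝ) (z : ℝ≥0 → ℝ) : ℝ≥0 → ℝ :=
  fun s => if s < δ then 0 else x + z (s - δ)

/-- discretised path -/
noncomputable def Dd (δ : ℝ≥0) : ℕ → (ℝ≥0 → ℝ) → (ℝ≥0 → ℝ)
  | 0 => fun _ _ => 0
  | n + 1 => fun w => stp δ (w δ) (Dd δ n (fun s => w (δ + s) - w δ))

lemma mid_stp (δ : ℝ≥0) (x x' : ℝ) (z z' : ℝ≥0 → ℝ) :
    mid (stp δ x z) (stp δ x' z') = stp δ ((x + x') / 2) (mid z z') := by
  ext s
  unfold mid stp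
  split_ifs
  · simp
  · ring

lemma measurable_stp (δ : ℝ≥0) :
    Measurable (fun q : ℝ × (ℝ≥0 → ℝ) => stp δ q.1 q.2) := by
  refine measurable_pi_iff.mpr fun s => ?_
  unfold stp
  split_ifs
  · exact measurable_const
  · exact measurable_fst.add ((measurable_pi_apply _).comp measurable_snd)

lemma measurable_Dd (δ : ℝ≥0) (n : ℕ) : Measurable (Dd δ n) := by
  induction n with
  | zero => exact measurable_const
  | succ n ih =>
    have h1 : Measurable (fun w : ℝ≥0 → ℝ => (fun s => w (δ + s) - w δ)) := by fun_prop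
    exact (measurable_stp δ).comp ((measurable_pi_apply δ).prodMk (ih.comp h1))

lemma Dd_grid (δ : ℝ≥0) (hδ : 0 < δ) (n : ℕ) : ∀ (w : ℝ≥0 → ℝ), w 0 = 0 → ∀ k : ℕ, k ≤ n →
    Dd δ n w (k * δ) = w (k * δ) := by
  induction n with
  | zero =>
    intro w hw k hk
    have : k = 0 := by omega
    subst this
    simp [Dd, hw]
  | succ n ih =>
    intro w hw k hk
    cases k with
    | zero =>
      simp [Dd, stp, hw, hδ]
    | succ k =>
      have e1 : (((k + 1 : ℕ) : ℝ≥0) * δ) = δ + k * δ := by push_cast; ring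
      rw [e1]
      simp only [Dd, stp]
      rw [if_neg (by simp), add_tsub_cancel_left, ih _ (by simp) k (by omega)]
      ring

variable {Ω : Type*} [MeasurableSpace Ω] {P : Measure Ω} [IsProbabilityMeasure P]
  {X : ℝ≥0 → Ω → ℝ}

/-- The Prekopa-Leindler property of a random path. -/
def PLp (P : Measure Ω) (Z : Ω → (ℝ≥0 → ℝ)) : Prop :=
  ∀ F G K : (ℝ≥0 → ℝ) → ℝ≥0∞, Measurable F → Measurable G → Measurable K →
    (∀ w w', F w * G w' ≤ K (mid w w') ^ 2) →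
    (∫⁻ ω, F (Z ω) ∂P) * (∫⁻ ω, G (Z ω) ∂P) ≤ (∫⁻ ω, K (Z ω) ∂P) ^ 2

lemma lintegral_Dd_succ (hX : CBM P X) {δ : ℝ≥0} (n : ℕ)
    {F : (ℝ≥0 → ℝ) → ℝ≥0∞} (hF : Measurable F) :
    ∫⁻ ω, F (Dd δ (n + 1) (path X ω)) ∂P =
      ∫⁻ x, ∫⁻ ω', F (stp δ x (Dd δ n (path X ω'))) ∂P ∂(gaussianReal 0 δ) := by
  have hm : Measurable (fun w => F (Dd δ (n + 1) w)) := hF.comp (measurable_Dd δ (n + 1))
  rw [← lintegral_cat hX δ hm]
  have hG : Measurable (fun x : ℝ => ∫⁻ ω', F (stp δ x (Dd δ n (path X ω'))) ∂P) := by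
    have h1 : Measurable (fun q : ℝ × Ω => F (stp δ q.1 (Dd δ n (path X q.2)))) :=
      hF.comp ((measurable_stp δ).comp (measurable_fst.prodMk
        ((measurable_Dd δ n).comp (hX.mpath.comp measurable_snd))))
    exact h1.lintegral_prod_right'
  rw [← (hX.pre.hasLaw_eval δ).map_eq, lintegral_map hG (hX.meas δ)]
  refine lintegral_congr fun ω => lintegral_congr fun ω' => ?_
  congr 1
  simp only [Dd]
  have e1 : cat δ (path X ω) (path X ω') δ = X δ ω := cat_left (hX.path_zero ω') le_rfl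
  have e2 : (fun s => cat δ (path X ω) (path X ω') (δ + s) - cat δ (path X ω) (path X ω') δ) =
      path X ω' := by
    ext s
    rw [e1, cat_add]
    simp [path]
  rw [e2, e1]

theorem PLp_Dd (hX : CBM P X) {δ : ℝ≥0} (hδ : 0 < δ) (n : ℕ) :
    PLp P (fun ω => Dd δ n (path X ω)) := by
  induction n with
  | zero =>
    intro F G K _ _ _ h
    simp only [Dd]
    rw [lintegral_const, lintegral_const, lintegral_const, measure_univ, mul_one, mul_one, mul_one]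
    have := h (fun _ => 0) (fun _ => 0)
    have e : mid (fun _ => 0) (fun _ => 0) = fun _ => 0 := by
      ext s
      simp [mid]
    rwa [e] at this
  | succ n ih =>
    intro F G K hF hG hK h
    rw [lintegral_Dd_succ hX n hF, lintegral_Dd_succ hX n hG, lintegral_Dd_succ hX n hK]
    have hm : ∀ A : (ℝ≥0 → ℝ) → ℝ≥0∞, Measurable A →
        Measurable (fun x : ℝ => ∫⁻ ω', A (stp δ x (Dd δ n (path X ω'))) ∂P) := by
      intro A hA
      have h1 : Measurable (fun q : ℝ × Ω => A (stp δ q.1 (Dd δ n (path X q.2)))) :=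
        hA.comp ((measurable_stp δ).comp (measurable_fst.prodMk
          ((measurable_Dd δ n).comp (hX.mpath.comp measurable_snd))))
      exact h1.lintegral_prod_right'
    have hm1 : ∀ A : (ℝ≥0 → ℝ) → ℝ≥0∞, Measurable A → ∀ x : ℝ,
        Measurable (fun z : ℝ≥0 → ℝ => A (stp δ x z)) := by
      intro A hA x
      exact hA.comp ((measurable_stp δ).comp (Measurable.prodMk (measurable_const (a := x))
        measurable_id))
    refine pl_gauss hδ.ne' _ _ _ (hm F hF) (hm G hG) (hm K hK) fun x y => ?_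
    refine ih _ _ _ (hm1 F hF x) (hm1 G hG y) (hm1 K hK ((x + y) / 2)) fun z z' => ?_
    have := h (stp δ x z) (stp δ y z')
    rwa [mid_stp] at this

/-- product form -/
theorem PLp_prod {Z Z' : Ω → (ℝ≥0 → ℝ)} (hZ : PLp P Z) (hZ' : PLp P Z') (hZm' : Measurable Z')
    (F G K : (ℝ≥0 → ℝ) × (ℝ≥0 → ℝ) → ℝ≥0∞) (hF : Measurable F) (hG : Measurable G)
    (hK : Measurable K)
    (h : ∀ u v u' v', F (u, v) * G (u', v') ≤ K (mid u u', mid v v') ^ 2) :
    (∫⁻ ω, ∫⁻ ω', F (Z ω, Z' ω') ∂P ∂P) * (∫⁻ ω, ∫⁻ ω', G (Z ω, Z' ω') ∂P ∂P) ≤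
      (∫⁻ ω, ∫⁻ ω', K (Z ω, Z' ω') ∂P ∂P) ^ 2 := by
  have hm : ∀ A : (ℝ≥0 → ℝ) × (ℝ≥0 → ℝ) → ℝ≥0∞, Measurable A →
      Measurable (fun u : ℝ≥0 → ℝ => ∫⁻ ω', A (u, Z' ω') ∂P) := by
    intro A hA
    have h1 : Measurable (fun q : (ℝ≥0 → ℝ) × Ω => A (q.1, Z' q.2)) :=
      hA.comp (measurable_fst.prodMk (hZm'.comp measurable_snd))
    exact h1.lintegral_prod_right'
  have hm1 : ∀ A : (ℝ≥0 → ℝ) × (ℝ≥0 → ℝ) → ℝ≥0∞, Measurable A → ∀ u : ℝ≥0 → ℝ,
      Measurable (fun v : ℝ≥0 → ℝ => A (u, v)) := by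
    intro A hA u
    exact hA.comp (Measurable.prodMk (measurable_const (a := u)) measurable_id)
  refine hZ _ _ _ (hm F hF) (hm G hG) (hm K hK) fun u u' => ?_
  exact hZ' _ _ _ (hm1 F hF u) (hm1 G hG u') (hm1 K hK (mid u u')) fun v v' => h u v u' v'

end Pool.Agent.TH970
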