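import Pool.Agent.TH970.Formula

namespace Pool.Agent.TH970

open MeasureTheory ProbabilityTheory Set Filter Topology
open scoped ENNReal NNReal

set_option linter.unusedSectionVars false
set_option linter.unusedVariables false

/-- a dense sequence of times -/
noncomputable def dq (n : ℕ) : ℝ≥0 := TopologicalSpace.denseSeq ℝ≥0 n

lemma dense_dq : DenseRange dq := TopologicalSpace.denseRange_denseSeq ℝ≥0

/-- sup of a continuous function over a dense sequence. -/
lemma le_iSup_dense {Z : Type*} [TopologicalSpace Z] {ι : Type*} {e : ι → Z} (he : DenseRange e)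
    {G : Z → ℝ} (hG : Continuous G) (hb : BddAbove (range G)) (z : Z) : G z ≤ ⨆ n, G (e n) := by
  have hb' : BddAbove (range (fun n => G (e n))) := by
    refine hb.mono ?_
    rintro _ ⟨n, rfl⟩
    exact ⟨e n, rfl⟩
  have h1 : IsClosed {z | G z ≤ ⨆ n, G (e n)} := isClosed_le hG continuous_const
  have h2 : range e ⊆ {z | G z ≤ ⨆ n, G (e n)} := by
    rintro _ ⟨n, rfl⟩
    exact le_ciSup hb' n
  have h3 := closure_minimal h2 h1
  rw [he.closure_range] at h3
  exact h3 (mem_univ z)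

/-- the maximum of a path over `[a, b]` -/
noncomputable def mx (w : ℝ≥0 → ℝ) (a b : ℝ≥0) : ℝ := ⨆ n, w (max a (min (dq n) b))

lemma measurable_mx (a b : ℝ≥0) : Measurable (fun w : ℝ≥0 → ℝ => mx w a b) := by
  unfold mx
  exact Measurable.iSup fun n => measurable_pi_apply _

section
variable {w : ℝ≥0 → ℝ} {a b : ℝ≥0}

lemma isCompact_clamp (hab : a ≤ b) :
    range (fun s => w (max a (min s b))) = w '' Icc a b := by
  ext v
  constructor
  · rintro ⟨s, rfl⟩
    exact ⟨_, ⟨le_max_left _ _, max_le hab (min_le_right _ _)⟩, rfl⟩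
  · rintro ⟨s, ⟨h1, h2⟩, rfl⟩
    refine ⟨s, ?_⟩
    simp only
    rw [min_eq_left h2, max_eq_right h1]

lemma bdd_clamp (hw : Continuous w) (hab : a ≤ b) :
    BddAbove (range (fun s => w (max a (min s b)))) := by
  rw [isCompact_clamp hab]
  exact (isCompact_Icc.image hw).bddAbove

lemma le_mx (hw : Continuous w) {s : ℝ≥0} (h1 : a ≤ s) (h2 : s ≤ b) : w s ≤ mx w a b := by
  have hc : Continuous (fun s => w (max a (min s b))) :=
    hw.comp (continuous_const.max (continuous_id.min continuous_const))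
  have := le_iSup_dense dense_dq hc (bdd_clamp hw (h1.trans h2)) s
  simp only [min_eq_left h2, max_eq_right h1] at this
  exact this

lemma mx_le (hab : a ≤ b) {c : ℝ} (h : ∀ s, a ≤ s → s ≤ b → w s ≤ c) : mx w a b ≤ c :=
  ciSup_le fun _ => h _ (le_max_left _ _) (max_le hab (min_le_right _ _))

lemma exists_mx (hw : Continuous w) (hab : a ≤ b) : ∃ s, a ≤ s ∧ s ≤ b ∧ mx w a b = w s := by
  obtain ⟨s, hs, hmax⟩ := isCompact_Icc.exists_isMaxOn (nonempty_Icc.mpr hab) hw.continuousOn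
  refine ⟨s, hs.1, hs.2, le_antisymm (mx_le hab fun u h1 h2 => hmax ⟨h1, h2⟩) (le_mx hw hs.1 hs.2)⟩

lemma mx_le_iff (hw : Continuous w) (hab : a ≤ b) {c : ℝ} :
    mx w a b ≤ c ↔ ∀ s, a ≤ s → s ≤ b → w s ≤ c :=
  ⟨fun h _ h1 h2 => (le_mx hw h1 h2).trans h, mx_le hab⟩

lemma mx_mono {b' : ℝ≥0} (hw : Continuous w) (hab : a ≤ b) (hb : b ≤ b') :
    mx w a b ≤ mx w a b' :=
  mx_le hab fun _ h1 h2 => le_mx hw h1 (h2.trans hb)

end

/-- absolute maximum over `[0, b]` -/
noncomputable def am (w : ℝ≥0 → ℝ) (b : ℝ≥0) : ℝ := mx (fun s => |w s|) 0 b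

lemma measurable_am (b : ℝ≥0) : Measurable (fun w : ℝ≥0 → ℝ => am w b) := by
  unfold am mx
  exact Measurable.iSup fun n => (measurable_pi_apply _).abs

lemma le_am {w : ℝ≥0 → ℝ} (hw : Continuous w) {s b : ℝ≥0} (h : s ≤ b) : |w s| ≤ am w b :=
  le_mx (w := fun s => |w s|) hw.abs zero_le h

lemma am_le {w : ℝ≥0 → ℝ} {b : ℝ≥0} {c : ℝ} (h : ∀ s, s ≤ b → |w s| ≤ c) : am w b ≤ c :=
  mx_le zero_le fun s _ h2 => h s h2

lemma am_le_iff {w : ℝ≥0 → ℝ} (hw : Continuous w) {b : ℝ≥0} {c : ℝ} :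
    am w b ≤ c ↔ ∀ s, s ≤ b → |w s| ≤ c :=
  ⟨fun h _ h2 => (le_am hw h2).trans h, am_le⟩

lemma am_nonneg {w : ℝ≥0 → ℝ} (hw : Continuous w) (b : ℝ≥0) : 0 ≤ am w b :=
  (abs_nonneg _).trans (le_am hw (zero_le (a := b)))

/-- concatenation of paths at time `b` -/
def cat (b : ℝ≥0) (w z : ℝ≥0 → ℝ) : ℝ≥0 → ℝ := fun s => w (min s b) + z (s - b)

/-- reversal of a path at time `b` -/
def rev (b : ℝ≥0) (w : ℝ≥0 → ℝ) : ℝ≥0 → ℝ := fun s => w (max s b) - w (b - s)

lemma measurable_cat (b : ℝ≥0) :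
    Measurable (fun q : (ℝ≥0 → ℝ) × (ℝ≥0 → ℝ) => cat b q.1 q.2) := by
  unfold cat
  fun_prop

lemma measurable_rev (b : ℝ≥0) : Measurable (rev b) := by
  unfold rev
  fun_prop

lemma continuous_cat {b : ℝ≥0} {w z : ℝ≥0 → ℝ} (hw : Continuous w) (hz : Continuous z) :
    Continuous (cat b w z) := by
  unfold cat
  exact (hw.comp (continuous_id.min continuous_const)).add
    (hz.comp (continuous_id.sub continuous_const))

lemma cat_left {b s : ℝ≥0} {w z : ℝ≥0 → ℝ} (hz : z 0 = 0) (h : s ≤ b) : cat b w z s = w s := by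
  unfold cat
  rw [min_eq_left h, tsub_eq_zero_of_le h, hz, add_zero]

lemma cat_right {b s : ℝ≥0} {w z : ℝ≥0 → ℝ} (h : b ≤ s) : cat b w z s = w b + z (s - b) := by
  unfold cat
  rw [min_eq_right h]

lemma cat_add {b s : ℝ≥0} {w z : ℝ≥0 → ℝ} : cat b w z (b + s) = w b + z s := by
  rw [cat_right le_self_add, add_tsub_cancel_left]

/-- A Brownian motion all of whose paths are continuous and start at `0`. -/
structure CBM {Ω : Type*} [MeasurableSpace Ω] (P : Measure Ω) (X : ℝ≥0 → Ω → ℝ) : Prop where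
  meas : ∀ t, Measurable (X t)
  cont : ∀ ω, Continuous (path X ω)
  zero : ∀ ω, X 0 ω = 0
  pre : IsPreBrownianReal X P

section
variable {Ω : Type*} [MeasurableSpace Ω] {P : Measure Ω} [IsProbabilityMeasure P]
  {X : ℝ≥0 → Ω → ℝ}

lemma CBM.path_zero (hX : CBM P X) (ω : Ω) : path X ω 0 = 0 := hX.zero ω

lemma CBM.mpath (hX : CBM P X) : Measurable (path X) := measurable_path hX.meas

lemma lintegral_of_law {X' : ℝ≥0 → Ω → ℝ} (hX : CBM P X) (hX' : IsPreBrownianReal X' P)
    (hm' : ∀ t, Measurable (X' t)) {F : (ℝ≥0 → ℝ) → ℝ≥0∞} (hF : Measurable F) :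
    ∫⁻ ω, F (path X' ω) ∂P = ∫⁻ ω, F (path X ω) ∂P := by
  rw [← lintegral_map hF (measurable_path hm'), ← lintegral_map hF hX.mpath,
    law_unique hX' hX.pre hm' hX.meas]

lemma lintegral_neg (hX : CBM P X) {F : (ℝ≥0 → ℝ) → ℝ≥0∞} (hF : Measurable F) :
    ∫⁻ ω, F (-path X ω) ∂P = ∫⁻ ω, F (path X ω) ∂P :=
  lintegral_of_law (X' := -X) hX hX.pre.neg (fun t => (hX.meas t).neg) hF

lemma isPre_rev (hX : CBM P X) (b : ℝ≥0) :
    IsPreBrownianReal (fun s ω => X (max s b) ω - X (b - s) ω) P := by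
  have hG := hX.pre.isGaussianProcess
  have hint : ∀ t, Integrable (X t) P := fun t => hX.pre.integrable_eval t
  have hL2 : ∀ t, MemLp (X t) 2 P := fun t => (hG.hasGaussianLaw_eval t).memLp_two
  refine IsGaussianProcess.isPreBrownianReal_of_covariance ?_ (fun t => ?_) (fun s t hst => ?_)
  · refine hG.of_isGaussianProcess fun s => ?_
    exact ⟨{max s b, b - s},
      { toFun x := x ⟨max s b, by simp⟩ - x ⟨b - s, by simp⟩
        map_add' x y := by simp; abel
        map_smul' c x := by simp; ring }, by simp⟩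
  · rw [integral_sub (hint _) (hint _)]
    have h1 : ∫ ω, X (max t b) ω ∂P = 0 := hX.pre.integral_eval _
    have h2 : ∫ ω, X (b - t) ω ∂P = 0 := hX.pre.integral_eval _
    rw [h1, h2, sub_zero]
  · have h1 := covariance_fun_sub_fun_sub (hL2 (max s b)) (hL2 (b - s)) (hL2 (max t b))
      (hL2 (b - t))
    rw [h1]
    simp_rw [hX.pre.covariance_fun_eval]
    have e1 : min (max s b) (max t b) = max s b := min_eq_left (max_le_max_right _ hst)
    have e2 : min (max s b) (b - t) = b - t :=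
      min_eq_right (tsub_le_self.trans (le_max_right _ _))
    have e3 : min (b - s) (max t b) = b - s := min_eq_left (tsub_le_self.trans (le_max_right _ _))
    have e4 : min (b - s) (b - t) = b - t := min_eq_right (tsub_le_tsub_left hst _)
    rw [e1, e2, e3, e4]
    rcases le_total s b with h | h
    · rw [max_eq_right h, NNReal.coe_sub h]
      ring
    · rw [max_eq_left h, tsub_eq_zero_of_le h]
      simp

lemma lintegral_rev (hX : CBM P X) (b : ℝ≥0) {F : (ℝ≥0 → ℝ) → ℝ≥0∞} (hF : Measurable F) :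
    ∫⁻ ω, F (rev b (path X ω)) ∂P = ∫⁻ ω, F (path X ω) ∂P :=
  lintegral_of_law (X' := fun s ω => X (max s b) ω - X (b - s) ω) hX (isPre_rev hX b)
    (fun t => (hX.meas _).sub (hX.meas _)) hF

/-- The Markov property at time `b`. -/
lemma lintegral_cat (hX : CBM P X) (b : ℝ≥0) {F : (ℝ≥0 → ℝ) → ℝ≥0∞} (hF : Measurable F) :
    ∫⁻ ω, ∫⁻ ω', F (cat b (path X ω) (path X ω')) ∂P ∂P = ∫⁻ ω, F (path X ω) ∂P := by
  set X' : ℝ≥0 → Ω → ℝ := fun t ω => X (b + t) ω - X b ω with hX'
  have hm' : ∀ t, Measurable (X' t) := fun t => (hX.meas _).sub (hX.meas _)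
  have hr : Measurable (fun ω (t : Set.Iic b) => X t ω) := measurable_pi_iff.mpr fun t => hX.meas _
  have hind : IndepFun (path X') (fun ω (t : Set.Iic b) => X t ω) P := hX.pre.indepFun_shift b
  have hlaw : P.map (path X') = P.map (path X) :=
    law_unique (hX.pre.shift b) hX.pre hm' hX.meas
  have hj := (indepFun_iff_map_prod_eq_prod_map_map (measurable_path hm').aemeasurable
    hr.aemeasurable).mp hind
  set C : (ℝ≥0 → ℝ) × (Set.Iic b → ℝ) → (ℝ≥0 → ℝ) := fun q s =>
    q.2 ⟨min s b, Set.mem_Iic.mpr (min_le_right _ _)⟩ + q.1 (s - b) with hC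
  have hCm : Measurable C := by
    rw [hC]
    fun_prop
  have h1 : ∀ ω, path X ω = C (path X' ω, fun t : Set.Iic b => X t ω) := by
    intro ω
    ext s
    simp only [hC, hX', path]
    rcases le_total s b with h | h
    · rw [tsub_eq_zero_of_le h, min_eq_left h, add_zero]
      ring
    · rw [min_eq_right h, add_tsub_cancel_of_le h]
      ring
  have hFC : Measurable (fun q => F (C q)) := hF.comp hCm
  have h2 : ∫⁻ ω, F (path X ω) ∂P =
      ∫⁻ q, F (C q) ∂((P.map (path X)).prod (P.map (fun ω (t : Set.Iic b) => X t ω))) := by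
    rw [← hlaw, ← hj, lintegral_map hFC ((measurable_path hm').prodMk hr)]
    exact lintegral_congr fun ω => by rw [← h1 ω]
  have hp1 : IsProbabilityMeasure (P.map (path X)) :=
    Measure.isProbabilityMeasure_map hX.mpath.aemeasurable
  have hp2 : IsProbabilityMeasure (P.map (fun ω (t : Set.Iic b) => X t ω)) :=
    Measure.isProbabilityMeasure_map hr.aemeasurable
  rw [h2, lintegral_prod_symm _ hFC.aemeasurable]
  have h3 : Measurable fun y => ∫⁻ x, F (C (x, y)) ∂(P.map (path X)) :=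
    hFC.lintegral_prod_left'
  rw [lintegral_map h3 hr]
  refine lintegral_congr fun ω => ?_
  have h4 : Measurable (fun x : ℝ≥0 → ℝ => F (C (x, fun t : Set.Iic b => X t ω))) :=
    hFC.comp (measurable_id.prodMk measurable_const)
  rw [lintegral_map h4 hX.mpath]
  rfl

end

end Pool.Agent.TH970
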