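import Pool.Agent.TH970.Paths

namespace Pool.Agent.TH970

open MeasureTheory ProbabilityTheory Set Filter Topology
open scoped ENNReal NNReal

set_option linter.unusedSectionVars false
set_option linter.unusedVariables false

variable {Ω : Type*} [MeasurableSpace Ω] {P : Measure Ω} [IsProbabilityMeasure P]
  {X : ℝ≥0 → Ω → ℝ}

lemma meas_ex {A : Type*} [MeasurableSpace A] {p : ℕ → A → Prop}
    (h : ∀ n, MeasurableSet {w | p n w}) : MeasurableSet {w | ∃ n, p n w} := by
  have : {w | ∃ n, p n w} = ⋃ n, {w | p n w} := by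
    ext w; simp
  rw [this]
  exact MeasurableSet.iUnion h

lemma meas_fa {A : Type*} [MeasurableSpace A] {p : ℕ → A → Prop}
    (h : ∀ n, MeasurableSet {w | p n w}) : MeasurableSet {w | ∀ n, p n w} := by
  have : {w | ∀ n, p n w} = ⋂ n, {w | p n w} := by
    ext w; simp
  rw [this]
  exact MeasurableSet.iInter h

lemma lintegral_ind {f : Ω → (ℝ≥0 → ℝ)} (hf : Measurable f) {S : Set (ℝ≥0 → ℝ)}
    (hS : MeasurableSet S) :
    ∫⁻ ω', S.indicator (fun _ => (1:ℝ≥0∞)) (f ω') ∂P = P {ω' | f ω' ∈ S} := by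
  have h2 : (fun ω' => S.indicator (fun _ => (1:ℝ≥0∞)) (f ω')) =
      (f ⁻¹' S).indicator (fun _ => (1:ℝ≥0∞)) := rfl
  rw [h2, lintegral_indicator_const (hf hS), one_mul]
  rfl

lemma measurable_cat_right (hX : CBM P X) (b : ℝ≥0) (w : ℝ≥0 → ℝ) :
    Measurable (fun ω' => cat b w (path X ω')) :=
  measurable_pi_iff.mpr fun s => measurable_const.add (hX.meas _)

/-- Markov property for events. -/
lemma prob_cat (hX : CBM P X) (b : ℝ≥0) {S : Set (ℝ≥0 → ℝ)} (hS : MeasurableSet S) :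
    ∫⁻ ω, P {ω' | cat b (path X ω) (path X ω') ∈ S} ∂P = P {ω | path X ω ∈ S} := by
  have h := lintegral_cat hX b (F := S.indicator (fun _ => (1:ℝ≥0∞)))
    (measurable_const.indicator hS)
  rw [lintegral_ind hX.mpath hS] at h
  rw [← h]
  refine lintegral_congr fun ω => ?_
  rw [lintegral_ind (measurable_cat_right hX b _) hS]

lemma prob_neg (hX : CBM P X) {S : Set (ℝ≥0 → ℝ)} (hS : MeasurableSet S) :
    P {ω | -path X ω ∈ S} = P {ω | path X ω ∈ S} := by
  have h := lintegral_neg hX (F := S.indicator (fun _ => (1:ℝ≥0∞)))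
    (measurable_const.indicator hS)
  have hm : Measurable (fun ω => -path X ω) := hX.mpath.neg
  rwa [lintegral_ind hX.mpath hS, lintegral_ind hm hS] at h

lemma prob_rev (hX : CBM P X) (b : ℝ≥0) {S : Set (ℝ≥0 → ℝ)} (hS : MeasurableSet S) :
    P {ω | rev b (path X ω) ∈ S} = P {ω | path X ω ∈ S} := by
  have h := lintegral_rev hX b (F := S.indicator (fun _ => (1:ℝ≥0∞)))
    (measurable_const.indicator hS)
  have hm : Measurable (fun ω => rev b (path X ω)) := (measurable_rev b).comp hX.mpath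
  rwa [lintegral_ind hX.mpath hS, lintegral_ind hm hS] at h

lemma gt_symm (hX : CBM P X) (t : ℝ≥0) (x : ℝ) :
    P {ω | x < X t ω} = P {ω | X t ω < -x} := by
  have h := prob_neg hX (S := {w | x < w t}) (measurableSet_lt measurable_const
    (measurable_pi_apply t))
  have h1 : {ω | -path X ω ∈ {w : ℝ≥0 → ℝ | x < w t}} = {ω | X t ω < -x} := by
    ext ω
    simp only [Set.mem_ofPred_eq, Pi.neg_apply, path]
    constructor <;> intro h <;> linarith
  have h2 : {ω | path X ω ∈ {w : ℝ≥0 → ℝ | x < w t}} = {ω | x < X t ω} := rfl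
  rw [h1, h2] at h
  exact h.symm

lemma one_le_gt (hX : CBM P X) (t : ℝ≥0) {x : ℝ} (hx : x < 0) :
    1 ≤ 2 * P {ω | x < X t ω} := by
  rw [two_mul]
  nth_rewrite 2 [gt_symm hX]
  calc (1:ℝ≥0∞) = P univ := measure_univ.symm
    _ ≤ P ({ω | x < X t ω} ∪ {ω | X t ω < -x}) := by
      refine measure_mono fun ω _ => ?_
      by_cases h : x < X t ω
      · exact Or.inl h
      · refine Or.inr ?_
        simp only [Set.mem_ofPred_eq]
        push Not at h
        linarith
    _ ≤ _ := measure_union_le _ _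

lemma gt_le_half (hX : CBM P X) (t : ℝ≥0) {x : ℝ} (hx : 0 ≤ x) :
    2 * P {ω | x < X t ω} ≤ 1 := by
  rw [two_mul]
  nth_rewrite 2 [gt_symm hX]
  rw [← measure_union]
  · exact prob_le_one
  · rw [Set.disjoint_left]
    intro ω h1 h2
    simp only [Set.mem_ofPred_eq] at h1 h2
    linarith
  · exact measurableSet_lt (hX.meas t) measurable_const

/-- discrete crossing event -/
def Cr (h : ℝ≥0) (n : ℕ) (x : ℝ) : Set (ℝ≥0 → ℝ) := {w | ∃ k : ℕ, k ≤ n ∧ x < w (k * h)}

lemma measurableSet_Cr (h : ℝ≥0) (n : ℕ) (x : ℝ) : MeasurableSet (Cr h n x) := by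
  unfold Cr
  refine meas_ex fun k => ?_
  by_cases hk : k ≤ n
  · simp only [hk, true_and]
    exact measurableSet_lt measurable_const (measurable_pi_apply _)
  · simp only [hk, false_and]
    exact MeasurableSet.empty

lemma cat_mul {h : ℝ≥0} {w z : ℝ≥0 → ℝ} (k : ℕ) :
    cat h w z (((k + 1 : ℕ) : ℝ≥0) * h) = w h + z (k * h) := by
  have : (((k + 1 : ℕ) : ℝ≥0) * h) = h + k * h := by
    push_cast
    ring
  rw [this, cat_add]

lemma Cr_step (hX : CBM P X) (h : ℝ≥0) (n : ℕ) {x : ℝ} (hx : 0 ≤ x) :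
    P {ω | path X ω ∈ Cr h (n + 1) x} = ∫⁻ ω, P {ω' | path X ω' ∈ Cr h n (x - X h ω)} ∂P := by
  rw [← prob_cat hX h (measurableSet_Cr h (n + 1) x)]
  refine lintegral_congr fun ω => ?_
  congr 1
  ext ω'
  simp only [Cr, Set.mem_ofPred_eq]
  constructor
  · rintro ⟨k, hk, hxk⟩
    cases k with
    | zero =>
      exfalso
      rw [Nat.cast_zero, zero_mul, cat_left (hX.path_zero ω') zero_le, hX.path_zero ω] at hxk
      linarith
    | succ k =>
      refine ⟨k, by omega, ?_⟩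
      rw [cat_mul] at hxk
      simp only [path] at hxk ⊢
      linarith
  · rintro ⟨k, hk, hxk⟩
    refine ⟨k + 1, by omega, ?_⟩
    rw [cat_mul]
    simp only [path] at hxk ⊢
    linarith

lemma Gt_step (hX : CBM P X) (h : ℝ≥0) (n : ℕ) (x : ℝ) :
    P {ω | x < X (((n + 1 : ℕ) : ℝ≥0) * h) ω} = ∫⁻ ω, P {ω' | x - X h ω < X (n * h) ω'} ∂P := by
  have hS : MeasurableSet {w : ℝ≥0 → ℝ | x < w (((n + 1 : ℕ) : ℝ≥0) * h)} :=
    measurableSet_lt measurable_const (measurable_pi_apply _)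
  have h1 : P {ω | x < X (((n + 1 : ℕ) : ℝ≥0) * h) ω} =
      P {ω | path X ω ∈ {w : ℝ≥0 → ℝ | x < w (((n + 1 : ℕ) : ℝ≥0) * h)}} := rfl
  rw [h1, ← prob_cat hX h hS]
  refine lintegral_congr fun ω => ?_
  congr 1
  ext ω'
  simp only [Set.mem_ofPred_eq]
  rw [cat_mul]
  simp only [path]
  constructor <;> intro h <;> linarith

/-- discrete maximal inequality -/
lemma levy_disc (hX : CBM P X) (h : ℝ≥0) (n : ℕ) : ∀ x : ℝ,
    P {ω | path X ω ∈ Cr h n x} ≤ 2 * P {ω | x < X (n * h) ω} := by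
  induction n with
  | zero =>
    intro x
    rcases lt_or_ge x 0 with hx | hx
    · exact prob_le_one.trans (one_le_gt hX _ hx)
    · have : {ω | path X ω ∈ Cr h 0 x} = ∅ := by
        ext ω
        simp only [Cr, Set.mem_ofPred_eq, mem_empty_iff_false, iff_false]
        rintro ⟨k, hk, hxk⟩
        have hk0 : k = 0 := by omega
        subst hk0
        rw [Nat.cast_zero, zero_mul, hX.path_zero] at hxk
        linarith
      rw [this, measure_empty]
      exact zero_le
  | succ n ih =>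
    intro x
    rcases lt_or_ge x 0 with hx | hx
    · exact prob_le_one.trans (one_le_gt hX _ hx)
    · rw [Cr_step hX h n hx, Gt_step hX h n x, ← lintegral_const_mul']
      · exact lintegral_mono fun ω => ih _
      · norm_num

/-- no big steps -/
def Nb (h : ℝ≥0) (n : ℕ) (ε : ℝ) : Set (ℝ≥0 → ℝ) :=
  {w | ∀ k : ℕ, k < n → |w (((k + 1 : ℕ) : ℝ≥0) * h) - w (k * h)| ≤ ε}

lemma measurableSet_Nb (h : ℝ≥0) (n : ℕ) (ε : ℝ) : MeasurableSet (Nb h n ε) := by
  unfold Nb
  refine meas_fa fun k => ?_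
  by_cases hk : k < n
  · simp only [hk, true_implies]
    have hm : Measurable (fun w : ℝ≥0 → ℝ => w (((k + 1 : ℕ) : ℝ≥0) * h) - w (k * h)) :=
      (measurable_pi_apply _).sub (measurable_pi_apply _)
    exact measurableSet_le hm.abs measurable_const
  · simp only [hk, false_implies]
    exact MeasurableSet.univ

/-- reverse discrete inequality -/
lemma levy_rev (hX : CBM P X) (h : ℝ≥0) {ε : ℝ} (hε : 0 < ε) (n : ℕ) : ∀ x : ℝ, -ε ≤ x →
    2 * P {ω | path X ω ∈ Nb h n ε ∧ x + 2 * ε < X (n * h) ω} ≤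
      P {ω | path X ω ∈ Cr h n x} := by
  induction n with
  | zero =>
    intro x hx
    have : {ω | path X ω ∈ Nb h 0 ε ∧ x + 2 * ε < X ((0 : ℕ) * h) ω} = ∅ := by
      ext ω
      simp only [Set.mem_ofPred_eq, mem_empty_iff_false, iff_false, not_and]
      intro _ h1
      rw [Nat.cast_zero, zero_mul, hX.zero] at h1
      linarith
    rw [this, measure_empty, mul_zero]
    exact zero_le
  | succ n ih =>
    intro x hx
    rcases lt_or_ge x 0 with hx0 | hx0
    · have h1 : P {ω | path X ω ∈ Cr h (n + 1) x} = 1 := by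
        have : {ω | path X ω ∈ Cr h (n + 1) x} = univ := by
          ext ω
          simp only [Cr, Set.mem_ofPred_eq, mem_univ, iff_true]
          refine ⟨0, by omega, ?_⟩
          rw [Nat.cast_zero, zero_mul, hX.path_zero]
          exact hx0
        rw [this, measure_univ]
      rw [h1]
      have h2 : P {ω | path X ω ∈ Nb h (n + 1) ε ∧ x + 2 * ε < X ((n + 1 : ℕ) * h) ω} ≤
          P {ω | 0 < X ((n + 1 : ℕ) * h) ω} := by
        refine measure_mono fun ω hω => ?_
        have := hω.2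
        simp only [Set.mem_ofPred_eq] at this ⊢
        linarith
      exact (mul_le_mul_right h2 2).trans (gt_le_half hX _ le_rfl)
    · rw [Cr_step hX h n hx0]
      have hS : MeasurableSet {w : ℝ≥0 → ℝ | w ∈ Nb h (n + 1) ε ∧
          x + 2 * ε < w ((n + 1 : ℕ) * h)} :=
        (measurableSet_Nb h (n + 1) ε).inter (measurableSet_lt measurable_const
          (measurable_pi_apply _))
      have h1 : P {ω | path X ω ∈ Nb h (n + 1) ε ∧ x + 2 * ε < X ((n + 1 : ℕ) * h) ω} =
          P {ω | path X ω ∈ {w : ℝ≥0 → ℝ | w ∈ Nb h (n + 1) ε ∧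
            x + 2 * ε < w ((n + 1 : ℕ) * h)}} := rfl
      rw [h1, ← prob_cat hX h hS, ← lintegral_const_mul' _ _ (by norm_num)]
      refine lintegral_mono fun ω => ?_
      by_cases hω : |X h ω| ≤ ε
      · refine le_trans ?_ (ih (x - X h ω) ?_)
        · refine mul_le_mul_right (measure_mono ?_) 2
          rintro ω' ⟨h2, h3⟩
          refine ⟨?_, ?_⟩
          · intro k hk
            have := h2 (k + 1) (by omega)
            rw [cat_mul, cat_mul] at this
            simpa using this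
          · rw [cat_mul] at h3
            simp only [path] at h3
            linarith
        · have := (abs_le.mp hω).2
          linarith
      · have h2 : {ω' | cat h (path X ω) (path X ω') ∈ {w : ℝ≥0 → ℝ | w ∈ Nb h (n + 1) ε ∧
            x + 2 * ε < w ((n + 1 : ℕ) * h)}} = ∅ := by
          ext ω'
          simp only [Set.mem_ofPred_eq, mem_empty_iff_false, iff_false, not_and]
          intro h3
          exfalso
          apply hω
          have := h3 0 (by omega)
          rw [cat_mul, Nat.cast_zero, zero_mul, cat_left (hX.path_zero ω') zero_le,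
            hX.path_zero, hX.path_zero] at this
          simpa [path] using this
        rw [h2, measure_empty, mul_zero]
        exact zero_le

lemma exists_grid {w : ℝ≥0 → ℝ} (hw : Continuous w) {T : ℝ≥0} (hT : 0 < T) {x : ℝ} {s : ℝ≥0}
    (hs : s ≤ T) (hx : x < w s) : ∃ N : ℕ, ∀ n, N ≤ n → w ∈ Cr (T / (n + 1 : ℕ)) (n + 1) x := by
  have h1 : {u | x < w u} ∈ 𝓝 s := (isOpen_lt continuous_const hw).mem_nhds hx
  obtain ⟨δ, hδ, hball⟩ := Metric.mem_nhds_iff.mp h1
  obtain ⟨N, hN⟩ := exists_nat_gt ((T : ℝ) / δ)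
  refine ⟨N, fun n hn => ?_⟩
  set m : ℕ := n + 1 with hm
  have hm0 : (0:ℝ) < m := by rw [hm]; positivity
  have hmN : (T : ℝ) / δ < m := hN.trans_le (by rw [hm]; exact_mod_cast (by omega))
  have hTm : (T : ℝ) / m < δ := by
    rw [div_lt_iff₀ hδ] at hmN
    rw [div_lt_iff₀ hm0]
    linarith [mul_comm (m:ℝ) δ]
  have hT' : (0:ℝ) < T := hT
  set k : ℕ := ⌊(s : ℝ) * m / T⌋₊ with hk
  have hk1 : (k : ℝ) ≤ (s : ℝ) * m / T := Nat.floor_le (by positivity)
  have hk2 : (s : ℝ) * m / T < k + 1 := Nat.lt_floor_add_one _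
  rw [le_div_iff₀ hT'] at hk1
  rw [div_lt_iff₀ hT'] at hk2
  have hs' : (s : ℝ) ≤ T := hs
  have hkm : k ≤ m := by
    have : (k : ℝ) * T ≤ m * T := hk1.trans (by rw [mul_comm (s:ℝ)]; gcongr)
    exact_mod_cast le_of_mul_le_mul_right this hT'
  refine ⟨k, hkm, ?_⟩
  refine hball ?_
  rw [Metric.mem_ball, NNReal.dist_eq]
  push_cast
  have e1 : (k : ℝ) * (T / m) = k * T / m := by ring
  rw [e1, abs_sub_lt_iff]
  constructor
  · have : (k : ℝ) * T / m ≤ s := by
      rw [div_le_iff₀ hm0]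
      exact hk1
    linarith
  · have : (s : ℝ) < k * T / m + T / m := by
      rw [← add_div, lt_div_iff₀ hm0]
      linarith
    linarith

lemma lt_mx_iff {w : ℝ≥0 → ℝ} (hw : Continuous w) {T : ℝ≥0} {x : ℝ} :
    x < mx w 0 T ↔ ∃ s ≤ T, x < w s := by
  constructor
  · intro h
    obtain ⟨s, _, h2, h3⟩ := exists_mx hw (zero_le (a := T))
    exact ⟨s, h2, h3 ▸ h⟩
  · rintro ⟨s, h1, h2⟩
    exact h2.trans_le (le_mx hw zero_le h1)

/-- Levy's maximal inequality. -/
lemma levy (hX : CBM P X) {T : ℝ≥0} (hT : 0 < T) (x : ℝ) :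
    P {ω | x < mx (path X ω) 0 T} ≤ 2 * P {ω | x < X T ω} := by
  set E : ℕ → Set Ω := fun n => {ω | path X ω ∈ Cr (T / (n + 1 : ℕ)) (n + 1) x} with hE
  have h1 : {ω | x < mx (path X ω) 0 T} ⊆ ⋃ N, ⋂ n, E (N + n) := by
    intro ω hω
    simp only [Set.mem_ofPred_eq] at hω
    rw [lt_mx_iff (hX.cont ω)] at hω
    obtain ⟨s, hs, hx⟩ := hω
    obtain ⟨N, hN⟩ := exists_grid (hX.cont ω) hT hs hx
    rw [mem_iUnion]
    exact ⟨N, mem_iInter.mpr fun n => hN _ (by omega)⟩
  have hmono : Monotone (fun N => ⋂ n, E (N + n)) := by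
    intro N M hNM ω hω
    rw [mem_iInter] at hω ⊢
    intro n
    have := hω (M - N + n)
    rwa [← add_assoc, Nat.add_sub_cancel' hNM] at this
  refine (measure_mono h1).trans ?_
  rw [hmono.measure_iUnion]
  refine iSup_le fun N => ?_
  refine (measure_mono (iInter_subset _ 0)).trans ?_
  rw [add_zero]
  refine (levy_disc hX _ _ x).trans ?_
  have : (((N + 1 : ℕ) : ℝ≥0) * (T / ((N + 1 : ℕ) : ℝ≥0))) = T :=
    mul_div_cancel₀ T (by positivity)
  rw [this]

lemma eventually_Nb {w : ℝ≥0 → ℝ} (hw : Continuous w) {T : ℝ≥0} (hT : 0 < T) {ε : ℝ}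
    (hε : 0 < ε) : ∃ N : ℕ, ∀ n, N ≤ n → w ∈ Nb (T / (n + 1 : ℕ)) (n + 1) ε := by
  have h1 : UniformContinuousOn w (Icc 0 T) :=
    isCompact_Icc.uniformContinuousOn_of_continuous hw.continuousOn
  rw [Metric.uniformContinuousOn_iff] at h1
  obtain ⟨δ, hδ, h2⟩ := h1 ε hε
  obtain ⟨N, hN⟩ := exists_nat_gt ((T : ℝ) / δ)
  refine ⟨N, fun n hn => ?_⟩
  set m : ℕ := n + 1 with hm
  have hm0 : (0:ℝ) < m := by rw [hm]; positivity
  have hmN : (T : ℝ) / δ < m := hN.trans_le (by rw [hm]; exact_mod_cast (by omega))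
  have hTm : (T : ℝ) / m < δ := by
    rw [div_lt_iff₀ hδ] at hmN
    rw [div_lt_iff₀ hm0]
    linarith [mul_comm (m:ℝ) δ]
  intro k hk
  have hm1 : (m : ℝ≥0) ≠ 0 := by rw [hm]; positivity
  have hle : ∀ j : ℕ, j ≤ m → (j : ℝ≥0) * (T / m) ≤ T := by
    intro j hj
    calc (j : ℝ≥0) * (T / m) ≤ m * (T / m) := by gcongr
      _ = T := mul_div_cancel₀ T hm1
  have h3 := h2 (((k + 1 : ℕ) : ℝ≥0) * (T / m)) ⟨zero_le, hle _ (by omega)⟩
    ((k : ℝ≥0) * (T / m)) ⟨zero_le, hle _ (by omega)⟩ ?_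
  · rw [Real.dist_eq] at h3
    exact h3.le
  · rw [NNReal.dist_eq]
    push_cast
    have : ((k : ℝ) + 1) * (T / m) - k * (T / m) = T / m := by ring
    rw [this, abs_of_nonneg (by positivity)]
    exact hTm

lemma levy_ge_aux (hX : CBM P X) {T : ℝ≥0} (hT : 0 < T) {x : ℝ} (hx : 0 ≤ x) {ε : ℝ}
    (hε : 0 < ε) : 2 * P {ω | x + 2 * ε < X T ω} ≤ P {ω | x < mx (path X ω) 0 T} := by
  set E : ℕ → Set Ω := fun n => {ω | path X ω ∈ Nb (T / (n + 1 : ℕ)) (n + 1) ε ∧
    x + 2 * ε < X T ω} with hE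
  have h1 : {ω | x + 2 * ε < X T ω} ⊆ ⋃ N, ⋂ n, E (N + n) := by
    intro ω hω
    obtain ⟨N, hN⟩ := eventually_Nb (hX.cont ω) hT hε
    rw [mem_iUnion]
    exact ⟨N, mem_iInter.mpr fun n => ⟨hN _ (by omega), hω⟩⟩
  have hmono : Monotone (fun N => ⋂ n, E (N + n)) := by
    intro N M hNM ω hω
    rw [mem_iInter] at hω ⊢
    intro n
    have := hω (M - N + n)
    rwa [← add_assoc, Nat.add_sub_cancel' hNM] at this
  refine (mul_le_mul_right (measure_mono h1) 2).trans ?_
  rw [hmono.measure_iUnion, ENNReal.mul_iSup]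
  refine iSup_le fun N => ?_
  refine (mul_le_mul_right (measure_mono (iInter_subset _ 0)) 2).trans ?_
  rw [add_zero]
  have h2 := levy_rev hX (T / ((N + 1 : ℕ) : ℝ≥0)) hε (N + 1) x (by linarith)
  have : (((N + 1 : ℕ) : ℝ≥0) * (T / ((N + 1 : ℕ) : ℝ≥0))) = T :=
    mul_div_cancel₀ T (by positivity)
  rw [this] at h2
  refine h2.trans (measure_mono ?_)
  rintro ω ⟨k, hk, hxk⟩
  rw [Set.mem_ofPred_eq, lt_mx_iff (hX.cont ω)]
  refine ⟨_, ?_, hxk⟩
  calc (k : ℝ≥0) * (T / ((N + 1 : ℕ) : ℝ≥0)) ≤ ((N + 1 : ℕ) : ℝ≥0) * (T / ((N + 1 : ℕ) : ℝ≥0)) := by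
        gcongr
    _ = T := this

/-- The reflection principle. -/
lemma reflection (hX : CBM P X) {T : ℝ≥0} (hT : 0 < T) {x : ℝ} (hx : 0 ≤ x) :
    P {ω | x < mx (path X ω) 0 T} = 2 * P {ω | x < X T ω} := by
  apply le_antisymm (levy hX hT x)
  set E : ℕ → Set Ω := fun n => {ω | x + 2 * (1 / ((n:ℝ) + 1)) < X T ω} with hE
  have hmono : Monotone E := by
    intro n m hnm ω hω
    simp only [hE, Set.mem_ofPred_eq] at hω ⊢
    have : 1 / ((m:ℝ) + 1) ≤ 1 / ((n:ℝ) + 1) := by
      apply one_div_le_one_div_of_le (by positivity)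
      have : (n:ℝ) ≤ m := by exact_mod_cast hnm
      linarith
    linarith
  have h1 : {ω | x < X T ω} ⊆ ⋃ n, E n := by
    intro ω hω
    simp only [Set.mem_ofPred_eq] at hω
    obtain ⟨n, hn⟩ := exists_nat_one_div_lt (show 0 < (X T ω - x) / 2 by linarith)
    rw [mem_iUnion]
    refine ⟨n, ?_⟩
    simp only [hE, Set.mem_ofPred_eq]
    linarith
  refine (mul_le_mul_right (measure_mono h1) 2).trans ?_
  rw [hmono.measure_iUnion, ENNReal.mul_iSup]
  refine iSup_le fun n => levy_ge_aux hX hT hx (by positivity)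

/-- The law of the maximum. -/
lemma mx_law (hX : CBM P X) {T : ℝ≥0} (hT : 0 < T) {x : ℝ} (hx : 0 ≤ x) :
    P {ω | mx (path X ω) 0 T ≤ x} = P {ω | |X T ω| ≤ x} := by
  have hm : Measurable (fun ω => mx (path X ω) 0 T) := (measurable_mx 0 T).comp hX.mpath
  have h1 : P {ω | x < mx (path X ω) 0 T} = P {ω | x < |X T ω|} := by
    rw [reflection hX hT hx, two_mul]
    nth_rewrite 2 [gt_symm hX]
    rw [← measure_union]
    · congr 1
      ext ω
      simp only [mem_union, Set.mem_ofPred_eq, lt_abs]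
      constructor
      · rintro (h | h)
        · exact Or.inl h
        · exact Or.inr (by linarith)
      · rintro (h | h)
        · exact Or.inl h
        · exact Or.inr (by linarith)
    · rw [Set.disjoint_left]
      intro ω h1 h2
      simp only [Set.mem_ofPred_eq] at h1 h2
      linarith
    · exact measurableSet_lt (hX.meas T) measurable_const
  have e1 : {ω | mx (path X ω) 0 T ≤ x} = {ω | x < mx (path X ω) 0 T}ᶜ := by
    ext ω; simp
  have e2 : {ω | |X T ω| ≤ x} = {ω | x < |X T ω|}ᶜ := by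
    ext ω; simp
  rw [e1, e2, prob_compl_eq_one_sub (measurableSet_lt measurable_const hm),
    prob_compl_eq_one_sub (measurableSet_lt measurable_const (hX.meas T).abs), h1]

end Pool.Agent.TH970
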