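import Pool.Agent.TH970.Blk6

namespace Pool.Agent.TH970

open MeasureTheory ProbabilityTheory Set Filter Topology
open scoped ENNReal NNReal

set_option linter.unusedSectionVars false
set_option linter.unusedVariables false

variable {Ω : Type*} [MeasurableSpace Ω] {P : Measure Ω} [IsProbabilityMeasure P]
  {X : ℝ≥0 → Ω → ℝ}

/-- the bridge of a path -/
noncomputable def brd (G : ℝ≥0) (y : ℝ≥0 → ℝ) : ℝ≥0 → ℝ :=
  fun s => y (min s G) - (((min s G : ℝ≥0) : ℝ) / G) * y G

lemma measurable_brd (G : ℝ≥0) : Measurable (brd G) := by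
  unfold brd
  fun_prop

lemma continuous_brd {y : ℝ≥0 → ℝ} (hy : Continuous y) (G : ℝ≥0) : Continuous (brd G y) := by
  unfold brd
  fun_prop

lemma bridge_indep (hX : CBM P X) {G : ℝ≥0} (hG : 0 < G) :
    IndepFun (fun ω s => brd G (path X ω) s) (fun ω (_ : Unit) => X G ω) P := by
  have hb := hX.pre
  have h1 : IndepFun (fun ω (s : ℝ≥0) => (fun (s : ℝ≥0) ω => X (min s G) ω -
      (((min s G : ℝ≥0) : ℝ) / G) * X G ω) s ω) (fun ω (_ : Unit) => X G ω) P := by
    apply IsGaussianProcess.indepFun_of_covariance_eq_zero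
    · apply hb.isGaussianProcess.of_isGaussianProcess
      rintro (s | u)
      · exact ⟨{min s G, G},
          { toFun x := x ⟨min s G, by simp⟩ -
              (((min s G : ℝ≥0) : ℝ) / G) * x ⟨G, by simp⟩
            map_add' x y := by simp; ring
            map_smul' c x := by simp; ring }, by simp⟩
      · exact ⟨{G},
          { toFun x := x ⟨G, by simp⟩
            map_add' x y := by simp
            map_smul' c x := by simp }, by simp⟩
    · intro s
      exact ((hX.meas _).sub ((hX.meas _).const_mul _)).aemeasurable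
    · intro _
      exact (hX.meas _).aemeasurable
    · rintro s ⟨⟩
      have hL2 : ∀ t, MemLp (X t) 2 P := fun t =>
        (hb.isGaussianProcess.hasGaussianLaw_eval t).memLp_two
      rw [covariance_fun_sub_left (hL2 _) ((hL2 _).const_mul _) (hL2 _),
        covariance_const_mul_left, hb.covariance_eval, hb.covariance_eval, min_self]
      have e1 : min (min s G) G = min s G := min_eq_left (min_le_right _ _)
      rw [e1]
      have : (G:ℝ) ≠ 0 := by exact_mod_cast hG.ne'
      field_simp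
      ring
  exact h1

lemma am_brd_le {y : ℝ≥0 → ℝ} (hy : Continuous y) {G : ℝ≥0} (hG : 0 < G) :
    am (brd G y) G ≤ 2 * am y G := by
  refine am_le fun s hs => ?_
  unfold brd
  rw [min_eq_left hs]
  have h1 := le_am hy hs
  have h2 := le_am hy (le_refl G)
  have h3 : 0 ≤ (s:ℝ) / G := by positivity
  have h4 : (s:ℝ) / G ≤ 1 := by
    rw [div_le_one (by exact_mod_cast hG)]
    exact_mod_cast hs
  calc |y s - (s:ℝ) / G * y G| ≤ |y s| + |(s:ℝ) / G * y G| := abs_sub _ _
    _ = |y s| + (s:ℝ) / G * |y G| := by rw [abs_mul, abs_of_nonneg h3]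
    _ ≤ am y G + 1 * am y G := by
        gcongr
    _ = _ := by ring

/-- the gap event: a controlled bridge and an end point in a window -/
lemma prob_gap (hX : CBM P X) {G : ℝ≥0} (hG : 0 < G) {β : ℝ} (hβ : 0 < β) {D0 δ K : ℝ}
    (hδ : 0 ≤ δ) (hK : |D0| + δ ≤ K * Real.sqrt G) (hK0 : 0 ≤ K) :
    ENNReal.ofReal (Real.exp (-(32 * G / (β / 2) ^ 2 + 2)) *
      ((2 * δ) * Real.exp (-(K ^ 2 / 2)) / (3 * Real.sqrt G))) ≤
      P {ω | am (brd G (path X ω)) G ≤ β ∧ |X G ω - D0| ≤ δ} := by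
  have hind := bridge_indep hX hG
  have h1 : MeasurableSet {w : ℝ≥0 → ℝ | am w G ≤ β} := measurableSet_am_le G β
  have h2 : MeasurableSet {z : Unit → ℝ | |z () - D0| ≤ δ} := by
    have h0 : Measurable (fun z : Unit → ℝ => z ()) := measurable_pi_apply ()
    exact measurableSet_le (h0.sub_const D0).abs measurable_const
  have h3 := hind.measure_inter_preimage_eq_mul _ _ h1 h2
  have e1 : {ω | am (brd G (path X ω)) G ≤ β ∧ |X G ω - D0| ≤ δ} =
      (fun ω s => brd G (path X ω) s) ⁻¹' {w : ℝ≥0 → ℝ | am w G ≤ β} ∩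
      (fun ω (_ : Unit) => X G ω) ⁻¹' {z : Unit → ℝ | |z () - D0| ≤ δ} := rfl
  rw [e1, h3, ENNReal.ofReal_mul (Real.exp_pos _).le]
  refine mul_le_mul' ?_ ?_
  · refine (small_ball_lower hX G (r := β / 2) (by positivity)).trans (measure_mono fun ω hω => ?_)
    have h4 : am (path X ω) G ≤ β / 2 := hω
    have h5 := am_brd_le (hX.cont ω) hG
    show am (brd G (path X ω)) G ≤ β
    linarith
  · have h6 := gauss_Icc_ge hG (a := D0 - δ) (b := D0 + δ) (by linarith) hK0
      (by have := neg_abs_le D0; linarith) (by have := le_abs_self D0; linarith)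
    have e2 : (D0 + δ - (D0 - δ)) = 2 * δ := by ring
    rw [e2] at h6
    refine h6.trans (le_of_eq ?_)
    rw [← prob_eval hX G measurableSet_Icc]
    congr 1
    ext ω
    show X G ω ∈ Icc (D0 - δ) (D0 + δ) ↔ |X G ω - D0| ≤ δ
    rw [mem_Icc, abs_le]
    constructor
    · rintro ⟨a, b⟩; constructor <;> linarith
    · rintro ⟨a, b⟩; constructor <;> linarith

/-- a path below its end level on the gap -/
lemma gap_below {y : ℝ≥0 → ℝ} {G : ℝ≥0} (hG : 0 < G) (hy : Continuous y) {β Γ0 : ℝ}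
    (hb : am (brd G y) G ≤ β) (hΓ : y G ≤ Γ0) (hΓ0 : 0 ≤ Γ0) {s : ℝ≥0} (hs : s ≤ G) :
    y s ≤ β + Γ0 := by
  have h1 := (abs_le.mp ((le_am (continuous_brd hy G) hs).trans hb)).2
  unfold brd at h1
  rw [min_eq_left hs] at h1
  have h3 : 0 ≤ (s:ℝ) / G := by positivity
  have h4 : (s:ℝ) / G ≤ 1 := by
    rw [div_le_one (by exact_mod_cast hG)]
    exact_mod_cast hs
  have h5 : (s:ℝ) / G * y G ≤ Γ0 := by
    calc (s:ℝ) / G * y G ≤ (s:ℝ) / G * Γ0 := by gcongr
      _ ≤ 1 * Γ0 := by gcongr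
      _ = Γ0 := one_mul _
  linarith

end Pool.Agent.TH970
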