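import Pool.Agent.TH970.Slow1

namespace Pool.Agent.TH970

open MeasureTheory ProbabilityTheory Set Filter Topology
open scoped ENNReal NNReal

set_option linter.unusedSectionVars false
set_option linter.unusedVariables false

variable {Ω : Type*} [MeasurableSpace Ω] {P : Measure Ω} [IsProbabilityMeasure P]
  {X : ℝ≥0 → Ω → ℝ}

/-- bound constant of block events -/
noncomputable def KB : ℝ := 20 * Real.exp 7

/-- probability constant of block events -/
noncomputable def pB : ℝ := (Real.exp (-(25 / 2)) / 9) ^ 2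

lemma KB_ge : 20 ≤ KB := by
  unfold KB
  have : 1 ≤ Real.exp 7 := Real.one_le_exp (by norm_num)
  linarith

lemma pB_pos : 0 < pB := by unfold pB; positivity

/-- block event: up by `2√u`, then down by `2√u`. -/
def EBs (u β : ℝ≥0) : Set (ℝ≥0 → ℝ) :=
  {y | 2 * Real.sqrt u ≤ y (β / 2) ∧ y β ≤ y (β / 2) - 2 * Real.sqrt u ∧
    am y β ≤ KB * Real.sqrt u}

lemma measurableSet_EBs (u β : ℝ≥0) : MeasurableSet (EBs u β) := by
  unfold EBs
  refine MeasurableSet.inter ?_ (MeasurableSet.inter ?_ ?_)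
  · exact measurableSet_le measurable_const (measurable_pi_apply (β / 2))
  · have h0 : Measurable (fun y : ℝ≥0 → ℝ => y (β / 2)) := measurable_pi_apply (β / 2)
    exact measurableSet_le (measurable_pi_apply β) (h0.sub_const (2 * Real.sqrt u))
  · exact measurableSet_le (measurable_am β) measurable_const

lemma am_tail (hX : CBM P X) (v : ℝ≥0) {x : ℝ} (hx : 0 < x) :
    P {ω | x < am (path X ω) v} ≤ ENNReal.ofReal (4 * v / x ^ 2) := by
  have hm : Measurable (fun ω => ENNReal.ofReal ((am (path X ω) v) ^ 2)) :=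
    (((measurable_am v).comp hX.mpath).pow_const 2).ennreal_ofReal
  have h1 := mul_meas_ge_le_lintegral (μ := P) hm (ENNReal.ofReal (x ^ 2))
  have h2 := h1.trans (lintegral_am_sq hX v)
  have hx2 : 0 < x ^ 2 := by positivity
  rw [ENNReal.ofReal_div_of_pos hx2, ENNReal.le_div_iff_mul_le
    (Or.inl (by simpa using hx.ne')) (Or.inl ENNReal.ofReal_ne_top), mul_comm]
  refine le_trans (mul_le_mul_right (measure_mono fun ω hω => ?_) _) h2
  have h3 : x < am (path X ω) v := hω
  show ENNReal.ofReal (x ^ 2) ≤ ENNReal.ofReal ((am (path X ω) v) ^ 2)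
  exact ENNReal.ofReal_le_ofReal (by gcongr)

lemma prob_F1 (hX : CBM P X) {u v : ℝ≥0} (hu : 0 < u) (h1 : u ≤ 2 * v) (h2 : v ≤ 2 * u) :
    ENNReal.ofReal (Real.exp (-(25 / 2)) / 9) ≤
      P {ω | 2 * Real.sqrt u ≤ X v ω ∧ am (path X ω) v ≤ KB / 2 * Real.sqrt u} := by
  have hv : 0 < v := by
    by_contra h
    have : v = 0 := by simpa using h
    rw [this] at h1
    simp at h1
    exact hu.ne' h1
  have hsu : 0 < Real.sqrt u := Real.sqrt_pos.mpr (by exact_mod_cast hu)
  have hsv : 0 < Real.sqrt v := Real.sqrt_pos.mpr (by exact_mod_cast hv)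
  have hu1 := Real.sq_sqrt (x := (u:ℝ)) u.2
  have hv1 := Real.sq_sqrt (x := (v:ℝ)) v.2
  have h1' : (u:ℝ) ≤ 2 * v := by exact_mod_cast h1
  have h2' : (v:ℝ) ≤ 2 * u := by exact_mod_cast h2
  have e1 : 3 * Real.sqrt u ≤ 5 * Real.sqrt v := by
    apply le_of_sq_le_sq _ (by positivity)
    rw [mul_pow, mul_pow, hu1, hv1]
    nlinarith
  have e2 : Real.sqrt v ≤ 3 / 2 * Real.sqrt u := by
    apply le_of_sq_le_sq _ (by positivity)
    rw [mul_pow, hu1, hv1]
    nlinarith
  have hK := KB_ge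
  have g1 := gauss_Icc_ge hv (a := 2 * Real.sqrt u) (b := 3 * Real.sqrt u) (by linarith)
    (M := 5) (by norm_num) (by nlinarith) e1
  rw [← prob_eval hX v measurableSet_Icc] at g1
  have g2 := am_tail hX v (x := KB / 2 * Real.sqrt u) (by positivity)
  have g3 : P {ω | X v ω ∈ Icc (2 * Real.sqrt u) (3 * Real.sqrt u)} ≤
      P {ω | 2 * Real.sqrt u ≤ X v ω ∧ am (path X ω) v ≤ KB / 2 * Real.sqrt u} +
      P {ω | KB / 2 * Real.sqrt u < am (path X ω) v} := by
    refine le_trans (measure_mono fun ω hω => ?_) (measure_union_le _ _)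
    have hω' : 2 * Real.sqrt u ≤ X v ω ∧ X v ω ≤ 3 * Real.sqrt u := hω
    by_cases h : am (path X ω) v ≤ KB / 2 * Real.sqrt u
    · left; exact ⟨hω'.1, h⟩
    · right; exact not_le.mp h
  have e3 : 2 * (Real.exp (-(25 / 2)) / 9) ≤
      (3 * Real.sqrt u - 2 * Real.sqrt u) * Real.exp (-(5 ^ 2 / 2)) / (3 * Real.sqrt v) := by
    rw [le_div_iff₀ (by positivity)]
    have : Real.exp (-(5 ^ 2 / 2)) = Real.exp (-(25 / 2)) := by norm_num
    rw [this]
    have := Real.exp_pos (-(25 / 2 : ℝ))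
    nlinarith
  have e4 : 4 * (v:ℝ) / (KB / 2 * Real.sqrt u) ^ 2 ≤ Real.exp (-(25 / 2)) / 9 := by
    have hb : (KB / 2 * Real.sqrt u) ^ 2 = 100 * Real.exp 7 ^ 2 * u := by
      rw [mul_pow, hu1]
      unfold KB
      ring
    rw [hb, div_le_div_iff₀ (by positivity) (by norm_num)]
    have hx : Real.exp 7 ^ 2 * Real.exp (-(25 / 2)) = Real.exp (3 / 2) := by
      rw [← Real.exp_nat_mul, ← Real.exp_add]
      norm_num
    have hx1 : 1 ≤ Real.exp (3 / 2) := Real.one_le_exp (by norm_num)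
    have : Real.exp (-(25 / 2)) * (100 * Real.exp 7 ^ 2 * (u:ℝ)) =
        100 * u * (Real.exp 7 ^ 2 * Real.exp (-(25 / 2))) := by ring
    rw [this, hx]
    have hu0 : (0:ℝ) < u := by exact_mod_cast hu
    nlinarith
  have hpos : 0 < Real.exp (-(25 / 2)) / 9 := by positivity
  have g4 : ENNReal.ofReal (Real.exp (-(25 / 2)) / 9) + ENNReal.ofReal (Real.exp (-(25 / 2)) / 9) ≤
      P {ω | 2 * Real.sqrt u ≤ X v ω ∧ am (path X ω) v ≤ KB / 2 * Real.sqrt u} +
      ENNReal.ofReal (Real.exp (-(25 / 2)) / 9) := by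
    rw [← ENNReal.ofReal_add hpos.le hpos.le, ← two_mul]
    refine (ENNReal.ofReal_le_ofReal e3).trans (g1.trans (g3.trans ?_))
    gcongr
    exact g2.trans (ENNReal.ofReal_le_ofReal e4)
  exact (ENNReal.add_le_add_iff_right ENNReal.ofReal_ne_top).mp g4

lemma am_cat_le {b c : ℝ≥0} {w z : ℝ≥0 → ℝ} (hw : Continuous w) (hz : Continuous z)
    (hz0 : z 0 = 0) : am (cat b w z) (b + c) ≤ am w b + am z c := by
  refine am_le fun s hs => ?_
  rcases le_total s b with h | h
  · rw [cat_left hz0 h]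
    have h1 := le_am hw h
    have h2 := am_nonneg hz c
    linarith
  · rw [cat_right h]
    have h1 := le_am hw (le_refl b)
    have h2 := le_am hz (s := s - b) (b := c) (tsub_le_iff_left.mpr hs)
    exact (abs_add_le _ _).trans (add_le_add h1 h2)

lemma prob_EBs (hX : CBM P X) {u β : ℝ≥0} (hu : 0 < u) (h1 : u ≤ β) (h2 : β ≤ 4 * u) :
    ENNReal.ofReal pB ≤ P {ω | path X ω ∈ EBs u β} := by
  set v := β / 2 with hv
  have hβ : v + v = β := add_halves β
  have hF1 := prob_F1 hX (v := v) hu (by rw [two_mul, hβ]; exact h1)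
    (by
      have : v ≤ 4 * u / 2 := by
        rw [hv]; gcongr
      calc v ≤ 4 * u / 2 := this
        _ = 2 * u := by
          rw [div_eq_iff two_ne_zero]; ring)
  have hF1m : MeasurableSet {y : ℝ≥0 → ℝ | 2 * Real.sqrt u ≤ y v ∧ am y v ≤ KB / 2 * Real.sqrt u} :=
    (measurableSet_le measurable_const (measurable_pi_apply v)).inter
      (measurableSet_le (measurable_am v) measurable_const)
  have hF2 := prob_neg hX hF1m
  set F1 : Set (ℝ≥0 → ℝ) := {y | 2 * Real.sqrt u ≤ y v ∧ am y v ≤ KB / 2 * Real.sqrt u} with hF1d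
  have hF1' : ENNReal.ofReal (Real.exp (-(25 / 2)) / 9) ≤ P {ω | path X ω ∈ F1} := hF1
  have hF2' : ENNReal.ofReal (Real.exp (-(25 / 2)) / 9) ≤ P {ω | -path X ω ∈ F1} := by
    rw [hF2]; exact hF1'
  rw [← prob_cat hX v (measurableSet_EBs u β)]
  have hF1m' : MeasurableSet {ω | path X ω ∈ F1} := hX.mpath hF1m
  calc ENNReal.ofReal pB = ENNReal.ofReal (Real.exp (-(25 / 2)) / 9) *
        ENNReal.ofReal (Real.exp (-(25 / 2)) / 9) := by
        rw [← ENNReal.ofReal_mul (by positivity)]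
        unfold pB
        rw [pow_two]
    _ ≤ P {ω | -path X ω ∈ F1} * P {ω | path X ω ∈ F1} := mul_le_mul' hF2' hF1'
    _ = ∫⁻ ω in {ω | path X ω ∈ F1}, P {ω | -path X ω ∈ F1} ∂P := by rw [setLIntegral_const]
    _ ≤ ∫⁻ ω in {ω | path X ω ∈ F1}, P {ω' | cat v (path X ω) (path X ω') ∈ EBs u β} ∂P := by
        refine setLIntegral_mono' hF1m' fun ω hω => measure_mono fun ω' hω' => ?_
        have k1 : 2 * Real.sqrt u ≤ path X ω v ∧ am (path X ω) v ≤ KB / 2 * Real.sqrt u := hω
        have k2 : 2 * Real.sqrt u ≤ (-path X ω') v ∧ am (-path X ω') v ≤ KB / 2 * Real.sqrt u := hω'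
        rw [am_neg] at k2
        have z0 := hX.path_zero ω'
        show cat v (path X ω) (path X ω') ∈ EBs u β
        refine ⟨?_, ?_, ?_⟩
        · rw [← hv, cat_left z0 le_rfl]; exact k1.1
        · rw [← hv, cat_left z0 le_rfl]
          have : cat v (path X ω) (path X ω') β = path X ω v + path X ω' v := by
            conv_lhs => rw [← hβ]
            rw [cat_add]
          rw [this]
          have k3 := k2.1
          simp only [Pi.neg_apply] at k3
          linarith
        · have h5 := am_cat_le (b := v) (c := v) (hX.cont ω) (hX.cont ω') z0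
          rw [hβ] at h5
          linarith [k1.2, k2.2]
    _ ≤ _ := setLIntegral_le_lintegral _ _

lemma prob_low (hX : CBM P X) {u b t : ℝ≥0} (hu : 0 < u) (hut : u ≤ t) (hbt : b ≤ t) :
    ENNReal.ofReal (Real.sqrt u / (6 * Real.sqrt t)) ≤
      P {ω | mx (path X ω) 0 b ≤ Real.sqrt u} := by
  have hsu : 0 < Real.sqrt u := Real.sqrt_pos.mpr (by exact_mod_cast hu)
  refine le_trans (ENNReal.ofReal_le_ofReal ?_) (mx_lower' hX b hsu)
  have h1 : Real.sqrt u ≤ Real.sqrt t := Real.sqrt_le_sqrt (by exact_mod_cast hut)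
  have h2 : Real.sqrt b ≤ Real.sqrt t := Real.sqrt_le_sqrt (by exact_mod_cast hbt)
  have h3 : 0 ≤ Real.sqrt b := Real.sqrt_nonneg _
  rw [div_div]
  exact div_le_div_of_nonneg_left hsu.le (by positivity) (by nlinarith)

end Pool.Agent.TH970
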