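import Pool.Agent.TH970.Slow2

namespace Pool.Agent.TH970

open MeasureTheory ProbabilityTheory Set Filter Topology
open scoped ENNReal NNReal

set_option linter.unusedSectionVars false
set_option linter.unusedVariables false

variable {Ω : Type*} [MeasurableSpace Ω] {P : Measure Ω} [IsProbabilityMeasure P]
  {X : ℝ≥0 → Ω → ℝ}

lemma ofReal_integral_le {μ : Measure Ω} {f : Ω → ℝ} (hf : Integrable f μ) :
    ENNReal.ofReal (∫ ω, f ω ∂μ) ≤ ∫⁻ ω, ENNReal.ofReal (f ω) ∂μ := by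
  rw [integral_eq_lintegral_pos_part_sub_lintegral_neg_part hf]
  exact (ENNReal.ofReal_le_ofReal (sub_le_self _ ENNReal.toReal_nonneg)).trans
    ENNReal.ofReal_toReal_le

lemma integrable_bdd {μ : Measure Ω} [IsFiniteMeasure μ] {V : Ω → ℝ} (hV : Measurable V) {D : ℝ}
    (hb : ∀ ω, |V ω| ≤ D) : Integrable V μ :=
  Integrable.of_bound hV.aestronglyMeasurable D (Eventually.of_forall hb)

/-- second moment of a difference of independent variables -/
lemma var_prod {μ ν : Measure Ω} [IsFiniteMeasure μ] [IsFiniteMeasure ν] {V W : Ω → ℝ}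
    (hV : Measurable V) (hW : Measurable W) {D : ℝ} (hVb : ∀ ω, |V ω| ≤ D)
    (hWb : ∀ ω, |W ω| ≤ D) (hμ : 0 < μ.real univ) (hν : 0 < ν.real univ) :
    ENNReal.ofReal (μ.real univ * ν.real univ *
      ((∫ ω, V ω ∂μ) / μ.real univ - (∫ ω, W ω ∂ν) / ν.real univ) ^ 2) ≤
      ∫⁻ ω, ∫⁻ ω', ENNReal.ofReal ((V ω - W ω') ^ 2) ∂ν ∂μ := by
  set m := μ.real univ with hm
  set n := ν.real univ with hn
  set IV := ∫ ω, V ω ∂μ with hIV
  set IW := ∫ ω, W ω ∂ν with hIW
  set θ := IV / m - IW / n with hθ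
  have hiV : Integrable V μ := integrable_bdd hV hVb
  have hiW : Integrable W ν := integrable_bdd hW hWb
  have inner : ∀ ω, ENNReal.ofReal (2 * θ * n * V ω - (2 * θ * IW + θ ^ 2 * n)) ≤
      ∫⁻ ω', ENNReal.ofReal ((V ω - W ω') ^ 2) ∂ν := by
    intro ω
    have h1 : Integrable (fun ω' => (2 * θ * V ω - θ ^ 2) - 2 * θ * W ω') ν :=
      (integrable_const _).sub (hiW.const_mul _)
    have h2 : ∫ ω', ((2 * θ * V ω - θ ^ 2) - 2 * θ * W ω') ∂ν =
        2 * θ * n * V ω - (2 * θ * IW + θ ^ 2 * n) := by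
      rw [integral_sub (integrable_const _) (hiW.const_mul _), integral_const,
        integral_const_mul]
      simp only [smul_eq_mul]
      rw [← hn, ← hIW]
      ring
    rw [← h2]
    refine (ofReal_integral_le h1).trans (lintegral_mono fun ω' => ?_)
    exact ENNReal.ofReal_le_ofReal (by nlinarith [sq_nonneg (V ω - W ω' - θ)])
  refine le_trans ?_ (lintegral_mono inner)
  have h3 : Integrable (fun ω => 2 * θ * n * V ω - (2 * θ * IW + θ ^ 2 * n)) μ :=
    (hiV.const_mul _).sub (integrable_const _)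
  refine le_trans (ENNReal.ofReal_le_ofReal (le_of_eq ?_)) (ofReal_integral_le h3)
  rw [integral_sub (hiV.const_mul _) (integrable_const _), integral_const, integral_const_mul]
  simp only [smul_eq_mul]
  rw [← hm, ← hIV]
  have e1 : IV = (IV / m) * m := (div_mul_cancel₀ _ hμ.ne').symm
  have e2 : IW = (IW / n) * n := (div_mul_cancel₀ _ hν.ne').symm
  have e3 : IV / m = θ + IW / n := by rw [hθ]; ring
  rw [e1, e3]
  conv_rhs => rw [e2]
  ring_nf
  field_simp
  ring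

/-- shifted path -/
def sh (b : ℝ≥0) (y : ℝ≥0 → ℝ) : ℝ≥0 → ℝ := fun s => y (s - b)

lemma measurable_sh (b : ℝ≥0) : Measurable (sh b) := by
  unfold sh
  fun_prop

/-- difference of block maxima -/
noncomputable def VV (S : Finset ℝ≥0) (m g : ℝ≥0 → ℝ) (b : ℝ≥0) (y : ℝ≥0 → ℝ) : ℝ :=
  fmx S (m + sh b y) - fmx S (g + sh b y)

lemma measurable_fmx_sh (S : Finset ℝ≥0) (m : ℝ≥0 → ℝ) (b : ℝ≥0) :
    Measurable (fun y : ℝ≥0 → ℝ => fmx S (m + sh b y)) :=
  (measurable_fmx S).comp (measurable_const.add (measurable_sh b))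

lemma measurable_VV (S : Finset ℝ≥0) (m g : ℝ≥0 → ℝ) (b : ℝ≥0) :
    Measurable (VV S m g b) :=
  (measurable_fmx_sh S m b).sub (measurable_fmx_sh S g b)

lemma VV_le {S : Finset ℝ≥0} (hS : S.Nonempty) {m g : ℝ≥0 → ℝ} {b : ℝ≥0} {y : ℝ≥0 → ℝ} {c : ℝ}
    (h : ∀ s ∈ S, m s - g s ≤ c) : VV S m g b y ≤ c := by
  unfold VV
  obtain ⟨s, hs, e⟩ := exists_fmx hS (m + sh b y)
  have h1 := le_fmx (w := g + sh b y) hs
  have h2 := h s hs
  rw [e]
  simp only [Pi.add_apply] at h1 ⊢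
  linarith

lemma le_VV {S : Finset ℝ≥0} (hS : S.Nonempty) {m g : ℝ≥0 → ℝ} {b : ℝ≥0} {y : ℝ≥0 → ℝ} {c : ℝ}
    (h : ∀ s ∈ S, c ≤ m s - g s) : c ≤ VV S m g b y := by
  unfold VV
  obtain ⟨s, hs, e⟩ := exists_fmx hS (g + sh b y)
  have h1 := le_fmx (w := m + sh b y) hs
  have h2 := h s hs
  rw [e]
  simp only [Pi.add_apply] at h1 ⊢
  linarith

/-- the restricted measure on the block event -/
noncomputable def muB (P : Measure Ω) (X : ℝ≥0 → Ω → ℝ) (u β : ℝ≥0) : Measure Ω :=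
  P.restrict {ω | path X ω ∈ EBs u β}

/-- average displacement of a block -/
noncomputable def Aav (P : Measure Ω) (X : ℝ≥0 → Ω → ℝ) (u β b : ℝ≥0) (S : Finset ℝ≥0)
    (m g : ℝ≥0 → ℝ) : ℝ :=
  (∫ ω, VV S m g b (path X ω) ∂(muB P X u β)) / (muB P X u β).real univ

lemma muB_real (hX : CBM P X) {u β : ℝ≥0} (hu : 0 < u) (h1 : u ≤ β) (h2 : β ≤ 4 * u) :
    pB ≤ (muB P X u β).real univ := by
  have h3 := prob_EBs hX hu h1 h2
  have h4 : muB P X u β univ = P {ω | path X ω ∈ EBs u β} := by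
    unfold muB
    rw [Measure.restrict_apply_univ]
  rw [Measure.real, h4]
  exact (ENNReal.ofReal_le_iff_le_toReal (measure_ne_top _ _)).mp h3

lemma Aav_le (hX : CBM P X) {u β b : ℝ≥0} (hu : 0 < u) (h1 : u ≤ β) (h2 : β ≤ 4 * u)
    {S : Finset ℝ≥0} (hS : S.Nonempty) {m g : ℝ≥0 → ℝ} {c D : ℝ}
    (hD : ∀ s ∈ S, |m s - g s| ≤ D)
    (h : ∀ s ∈ S, m s - g s ≤ c) : Aav P X u β b S m g ≤ c := by
  have hp := lt_of_lt_of_le pB_pos (muB_real hX hu h1 h2)
  have : IsFiniteMeasure (muB P X u β) := by unfold muB; infer_instance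
  unfold Aav
  rw [div_le_iff₀ hp]
  have hVb : ∀ ω, |VV S m g b (path X ω)| ≤ D := fun ω => by
    rw [abs_le]
    exact ⟨le_VV hS fun s hs => (abs_le.mp (hD s hs)).1,
      VV_le hS fun s hs => (abs_le.mp (hD s hs)).2⟩
  calc ∫ ω, VV S m g b (path X ω) ∂(muB P X u β) ≤ ∫ _, c ∂(muB P X u β) := by
        refine integral_mono (integrable_bdd ((measurable_VV S m g b).comp hX.mpath) hVb)
          (integrable_const _) fun ω => VV_le hS h
    _ = c * (muB P X u β).real univ := by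
        rw [integral_const, smul_eq_mul, mul_comm]

lemma le_Aav (hX : CBM P X) {u β b : ℝ≥0} (hu : 0 < u) (h1 : u ≤ β) (h2 : β ≤ 4 * u)
    {S : Finset ℝ≥0} (hS : S.Nonempty) {m g : ℝ≥0 → ℝ} {c D : ℝ}
    (hD : ∀ s ∈ S, |m s - g s| ≤ D)
    (h : ∀ s ∈ S, c ≤ m s - g s) : c ≤ Aav P X u β b S m g := by
  have hp := lt_of_lt_of_le pB_pos (muB_real hX hu h1 h2)
  have : IsFiniteMeasure (muB P X u β) := by unfold muB; infer_instance
  unfold Aav
  rw [le_div_iff₀ hp]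
  have hVb : ∀ ω, |VV S m g b (path X ω)| ≤ D := fun ω => by
    rw [abs_le]
    exact ⟨le_VV hS fun s hs => (abs_le.mp (hD s hs)).1,
      VV_le hS fun s hs => (abs_le.mp (hD s hs)).2⟩
  calc c * (muB P X u β).real univ = ∫ _, c ∂(muB P X u β) := by
        rw [integral_const, smul_eq_mul, mul_comm]
    _ ≤ ∫ ω, VV S m g b (path X ω) ∂(muB P X u β) := by
        refine integral_mono (integrable_const _)
          (integrable_bdd ((measurable_VV S m g b).comp hX.mpath) hVb) fun ω => le_VV hS h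

end Pool.Agent.TH970
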