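import Pool.Agent.TH970.Slow3

namespace Pool.Agent.TH970

open MeasureTheory ProbabilityTheory Set Filter Topology
open scoped ENNReal NNReal

set_option linter.unusedSectionVars false
set_option linter.unusedVariables false

variable {Ω : Type*} [MeasurableSpace Ω] {P : Measure Ω} [IsProbabilityMeasure P]
  {X : ℝ≥0 → Ω → ℝ}

open Classical in
/-- grid points of a block -/
noncomputable def blk (S : Finset ℝ≥0) (b c : ℝ≥0) : Finset ℝ≥0 :=
  S.filter (fun s => b ≤ s ∧ s ≤ c)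

lemma mem_blk {S : Finset ℝ≥0} {b c s : ℝ≥0} : s ∈ blk S b c ↔ s ∈ S ∧ b ≤ s ∧ s ≤ c := by
  unfold blk
  rw [Finset.mem_filter]

lemma blk_subset (S : Finset ℝ≥0) (b c : ℝ≥0) : blk S b c ⊆ S := by
  unfold blk
  exact Finset.filter_subset _ _

lemma link_det {S : Finset ℝ≥0} {f g y : ℝ≥0 → ℝ} {su h : ℝ} (hsu : 2 * h ≤ su) (hh : 0 ≤ h)
    {b1 b2 c1 c2 t sB sC : ℝ≥0} (h12 : b1 ≤ b2) (h23 : b2 ≤ c1) (h34 : c1 ≤ c2)
    (hSt : ∀ s ∈ S, s ≤ t) (hf : ∀ s ∈ S, |f s| ≤ h) (hg : ∀ s ∈ S, |g s| ≤ h)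
    (hsB : sB ∈ blk S b1 b2) (hsC : sC ∈ blk S c1 c2)
    (hL : ∀ s ≤ b1, y s ≤ y b1 + su)
    (hyB1 : y b1 + 2 * su ≤ y sB) (hyB2 : y b2 + 2 * su ≤ y sB)
    (hyC1 : y c1 + 2 * su ≤ y sC) (hyC2 : y c2 + 2 * su ≤ y sC)
    (hgap : ∀ s, b2 ≤ s → s ≤ c1 → y s ≤ max (y b2) (y c1) + su / 2)
    (hR : ∀ s, c2 ≤ s → s ≤ t → y s ≤ y c2 + su)
    {VB VC MB MC : ℝ} (hMB : MB = fmx (blk S b1 b2) (mid f g + y))
    (hMC : MC = fmx (blk S c1 c2) (mid f g + y))
    (hVB : VB = MB - fmx (blk S b1 b2) (g + y))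
    (hVC : VC = MC - fmx (blk S c1 c2) (g + y))
    (hclose : |MB - MC| ≤ |VB - VC| / 2) :
    |VB - VC| / 2 ≤ fmx S (f + y) + fmx S (g + y) - 2 * fmx S (mid f g + y) := by
  have hneB : (blk S b1 b2).Nonempty := ⟨sB, hsB⟩
  have hneC : (blk S c1 c2).Nonempty := ⟨sC, hsC⟩
  obtain ⟨hsB0, hsB1, hsB2⟩ := mem_blk.mp hsB
  obtain ⟨hsC0, hsC1, hsC2⟩ := mem_blk.mp hsC
  have hm : ∀ s ∈ S, |mid f g s| ≤ h := fun s hs => by
    have a1 := abs_le.mp (hf s hs)
    have a2 := abs_le.mp (hg s hs)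
    simp only [mid]
    rw [abs_le]
    constructor <;> linarith
  have kB : y sB - h ≤ MB := by
    have h1 := le_fmx (w := mid f g + y) hsB
    have h2 := abs_le.mp (hm sB hsB0)
    simp only [Pi.add_apply] at h1
    rw [hMB]
    linarith
  have kC : y sC - h ≤ MC := by
    have h1 := le_fmx (w := mid f g + y) hsC
    have h2 := abs_le.mp (hm sC hsC0)
    simp only [Pi.add_apply] at h1
    rw [hMC]
    linarith
  have hmax : fmx S (mid f g + y) ≤ max MB MC := by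
    refine fmx_le ⟨sB, hsB0⟩ fun s hs => ?_
    have h2 := abs_le.mp (hm s hs)
    simp only [Pi.add_apply]
    rcases le_total s b1 with h1 | h1
    · have h3 := hL s h1
      exact le_max_of_le_left (by linarith)
    rcases le_total s b2 with h4 | h4
    · refine le_max_of_le_left ?_
      rw [hMB]
      exact le_fmx (w := mid f g + y) (mem_blk.mpr ⟨hs, h1, h4⟩)
    rcases le_total s c1 with h5 | h5
    · have h3 := hgap s h4 h5
      rcases le_total (y b2) (y c1) with h6 | h6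
      · rw [max_eq_right h6] at h3
        exact le_max_of_le_right (by linarith)
      · rw [max_eq_left h6] at h3
        exact le_max_of_le_left (by linarith)
    rcases le_total s c2 with h7 | h7
    · refine le_max_of_le_right ?_
      rw [hMC]
      exact le_fmx (w := mid f g + y) (mem_blk.mpr ⟨hs, h5, h7⟩)
    · have h3 := hR s h7 (hSt s hs)
      exact le_max_of_le_right (by linarith)
  have cB := fmx_mid hneB f g y
  have cC := fmx_mid hneC f g y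
  rw [← hMB] at cB
  rw [← hMC] at cC
  have fB := fmx_mono hneB (blk_subset S b1 b2) (f + y)
  have fC := fmx_mono hneC (blk_subset S c1 c2) (f + y)
  have gB := fmx_mono hneB (blk_subset S b1 b2) (g + y)
  have gC := fmx_mono hneC (blk_subset S c1 c2) (g + y)
  have hmm : 2 * max MB MC = MB + MC + |MB - MC| := by
    rcases le_total MB MC with h6 | h6
    · rw [max_eq_right h6, abs_of_nonpos (by linarith)]; ring
    · rw [max_eq_left h6, abs_of_nonneg (by linarith)]; ring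
  rcases le_total VC VB with h8 | h8
  · rw [abs_of_nonneg (by linarith : 0 ≤ VB - VC)] at hclose ⊢
    linarith
  · rw [abs_of_nonpos (by linarith : VB - VC ≤ 0)] at hclose ⊢
    linarith

lemma fmx_shift {S : Finset ℝ≥0} (hS : S.Nonempty) {w w' : ℝ≥0 → ℝ} {c : ℝ}
    (h : ∀ s ∈ S, w' s = w s + c) : fmx S w' = fmx S w + c := by
  apply le_antisymm
  · refine fmx_le hS fun s hs => ?_
    rw [h s hs]
    have := le_fmx (w := w) hs
    linarith
  · obtain ⟨s, hs, e⟩ := exists_fmx hS w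
    rw [e, ← h s hs]
    exact le_fmx hs

/-- composite path -/
def cmp (b1 β G β' : ℝ≥0) (y0 yB yg yC y1 : ℝ≥0 → ℝ) : ℝ≥0 → ℝ :=
  cat b1 y0 (cat β yB (cat G yg (cat β' yC y1)))

section cmp

variable {b1 β G β' : ℝ≥0} {y0 yB yg yC y1 : ℝ≥0 → ℝ}

lemma cmp_left (hB : yB 0 = 0) (hg : yg 0 = 0) (hC : yC 0 = 0) (h1 : y1 0 = 0) {s : ℝ≥0}
    (hs : s ≤ b1) : cmp b1 β G β' y0 yB yg yC y1 s = y0 s := by
  unfold cmp
  exact cat_left (by simp [cat, hB, hg, hC, h1]) hs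

lemma cmp_B (hg : yg 0 = 0) (hC : yC 0 = 0) (h1 : y1 0 = 0) {s : ℝ≥0}
    (hs : b1 ≤ s) (hs2 : s ≤ b1 + β) :
    cmp b1 β G β' y0 yB yg yC y1 s = y0 b1 + yB (s - b1) := by
  unfold cmp
  rw [cat_right hs, cat_left (by simp [cat, hg, hC, h1]) (tsub_le_iff_left.mpr hs2)]

lemma cmp_g (hC : yC 0 = 0) (h1 : y1 0 = 0) {s : ℝ≥0}
    (hs : b1 + β ≤ s) (hs2 : s ≤ b1 + β + G) :
    cmp b1 β G β' y0 yB yg yC y1 s = y0 b1 + yB β + yg (s - (b1 + β)) := by
  unfold cmp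
  have e1 : b1 ≤ s := le_self_add.trans hs
  have e2 : β ≤ s - b1 := le_tsub_of_add_le_left hs
  rw [cat_right e1, cat_right e2, cat_left (by simp [cat, hC, h1])
    (by rw [tsub_tsub]; exact tsub_le_iff_left.mpr hs2), tsub_tsub]
  ring

lemma cmp_C (h1 : y1 0 = 0) {s : ℝ≥0}
    (hs : b1 + β + G ≤ s) (hs2 : s ≤ b1 + β + G + β') :
    cmp b1 β G β' y0 yB yg yC y1 s = y0 b1 + yB β + yg G + yC (s - (b1 + β + G)) := by
  unfold cmp
  have e0 : b1 + β ≤ s := le_self_add.trans hs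
  have e1 : b1 ≤ s := le_self_add.trans e0
  have e2 : β ≤ s - b1 := le_tsub_of_add_le_left e0
  have e3 : G ≤ s - b1 - β := by rw [tsub_tsub]; exact le_tsub_of_add_le_left hs
  rw [cat_right e1, cat_right e2, cat_right e3, cat_left h1
    (by rw [tsub_tsub, tsub_tsub, ← add_assoc]; exact tsub_le_iff_left.mpr hs2), tsub_tsub,
    tsub_tsub, ← add_assoc]
  ring

lemma cmp_R {s : ℝ≥0} (hs : b1 + β + G + β' ≤ s) :
    cmp b1 β G β' y0 yB yg yC y1 s =
      y0 b1 + yB β + yg G + yC β' + y1 (s - (b1 + β + G + β')) := by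
  unfold cmp
  have e4 : b1 + β + G ≤ s := le_self_add.trans hs
  have e0 : b1 + β ≤ s := le_self_add.trans e4
  have e1 : b1 ≤ s := le_self_add.trans e0
  have e2 : β ≤ s - b1 := le_tsub_of_add_le_left e0
  have e3 : G ≤ s - b1 - β := by rw [tsub_tsub]; exact le_tsub_of_add_le_left e4
  have e5 : β' ≤ s - b1 - β - G := by
    rw [tsub_tsub, tsub_tsub, ← add_assoc]; exact le_tsub_of_add_le_left hs
  rw [cat_right e1, cat_right e2, cat_right e3, cat_right e5, tsub_tsub,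
    tsub_tsub, tsub_tsub, ← add_assoc, ← add_assoc]
  ring

end cmp

lemma measurable_cmp (b1 β G β' : ℝ≥0) :
    Measurable (fun q : (ℝ≥0 → ℝ) × (ℝ≥0 → ℝ) × (ℝ≥0 → ℝ) × (ℝ≥0 → ℝ) × (ℝ≥0 → ℝ) =>
      cmp b1 β G β' q.1 q.2.1 q.2.2.1 q.2.2.2.1 q.2.2.2.2) := by
  refine measurable_pi_iff.mpr fun s => ?_
  unfold cmp cat
  fun_prop

lemma lintegral_cmp (hX : CBM P X) (b1 β G β' : ℝ≥0) {F : (ℝ≥0 → ℝ) → ℝ≥0∞}
    (hF : Measurable F) :
    ∫⁻ ω0, ∫⁻ ωB, ∫⁻ ωg, ∫⁻ ωC, ∫⁻ ω1, F (cmp b1 β G β' (path X ω0) (path X ωB) (path X ωg)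
      (path X ωC) (path X ω1)) ∂P ∂P ∂P ∂P ∂P = ∫⁻ ω, F (path X ω) ∂P := by
  rw [← lintegral_cat2 hX b1 β hF]
  refine lintegral_congr fun ω0 => lintegral_congr fun ωB => ?_
  have h1 : Measurable (fun z : ℝ≥0 → ℝ => F (cat b1 (path X ω0) (cat β (path X ωB) z))) :=
    hF.comp ((measurable_cat_comp _).comp (measurable_cat_comp _))
  exact lintegral_cat2 hX G β' h1

end Pool.Agent.TH970
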