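import Pool.Agent.TH970.Slow4

namespace Pool.Agent.TH970

open MeasureTheory ProbabilityTheory Set Filter Topology
open scoped ENNReal NNReal

set_option linter.unusedSectionVars false
set_option linter.unusedVariables false

variable {Ω : Type*} [MeasurableSpace Ω] {P : Measure Ω} [IsProbabilityMeasure P]
  {X : ℝ≥0 → Ω → ℝ}

/-- gap constant -/
noncomputable def pG : ℝ := Real.exp (-65538) * Real.exp (-((6 * KB + 2) ^ 2 / 2)) / 36

/-- link constant -/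
noncomputable def cT : ℝ := pG * pB ^ 2 / 72

lemma pG_pos : 0 < pG := by unfold pG; positivity

lemma cT_pos : 0 < cT := by
  have := pG_pos
  have := pB_pos
  unfold cT
  positivity

/-- window event of the gap -/
def GP (G : ℝ≥0) (b D0 δ : ℝ) : Set (ℝ≥0 → ℝ) :=
  {y | am (brd G y) G ≤ b ∧ |y G - D0| ≤ δ}

lemma prob_GP (hX : CBM P X) {u G : ℝ≥0} (hu : 0 < u) (h1 : u ≤ G) (h2 : G ≤ 128 * u)
    {D0 δ : ℝ} (hδ : 0 ≤ δ) (hK : |D0| + δ ≤ (6 * KB + 2) * Real.sqrt u) :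
    ENNReal.ofReal (pG * (2 * δ) / Real.sqrt u) ≤
      P {ω | path X ω ∈ GP G (Real.sqrt u / 2) D0 δ} := by
  have hG : 0 < G := lt_of_lt_of_le hu h1
  have hsu : 0 < Real.sqrt u := Real.sqrt_pos.mpr (by exact_mod_cast hu)
  have hsG : 0 < Real.sqrt G := Real.sqrt_pos.mpr (by exact_mod_cast hG)
  have hK0 := KB_ge
  have h1' : (u:ℝ) ≤ G := by exact_mod_cast h1
  have h2' : (G:ℝ) ≤ 128 * u := by exact_mod_cast h2
  have huG : Real.sqrt u ≤ Real.sqrt G := Real.sqrt_le_sqrt h1'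
  have hu1 := Real.sq_sqrt (x := (u:ℝ)) u.2
  have hG1 := Real.sq_sqrt (x := (G:ℝ)) G.2
  have hG12 : Real.sqrt G ≤ 12 * Real.sqrt u := by
    apply le_of_sq_le_sq _ (by positivity)
    rw [mul_pow, hu1, hG1]
    nlinarith [u.2]
  have hK1 : |D0| + δ ≤ (6 * KB + 2) * Real.sqrt G := by
    refine hK.trans ?_
    gcongr
  refine le_trans (ENNReal.ofReal_le_ofReal ?_)
    (prob_gap hX hG (β := Real.sqrt u / 2) (by positivity) hδ hK1 (by linarith))
  have e1 : Real.exp (-65538) ≤ Real.exp (-(32 * G / (Real.sqrt u / 2 / 2) ^ 2 + 2)) := by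
    apply Real.exp_le_exp.mpr
    have hu0 : (0:ℝ) < u := by exact_mod_cast hu
    have : (Real.sqrt u / 2 / 2) ^ 2 = u / 16 := by
      rw [div_pow, div_pow, hu1]; ring
    rw [this]
    have : 32 * (G:ℝ) / (u / 16) ≤ 65536 := by
      rw [div_le_iff₀ (by positivity)]
      linarith
    linarith
  have e2 : (2 * δ) * Real.exp (-((6 * KB + 2) ^ 2 / 2)) / (36 * Real.sqrt u) ≤
      (2 * δ) * Real.exp (-((6 * KB + 2) ^ 2 / 2)) / (3 * Real.sqrt G) := by
    apply div_le_div_of_nonneg_left (by positivity) (by positivity)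
    linarith
  have e3 : pG * (2 * δ) / Real.sqrt u = Real.exp (-65538) *
      ((2 * δ) * Real.exp (-((6 * KB + 2) ^ 2 / 2)) / (36 * Real.sqrt u)) := by
    unfold pG
    field_simp
  rw [e3]
  exact mul_le_mul e1 e2 (by positivity) (Real.exp_pos _).le

/-- data of a link -/
structure Link (S : Finset ℝ≥0) (u t b1 β G β' : ℝ≥0) : Prop where
  hu : 0 < u
  hβ1 : u ≤ β
  hβ2 : β ≤ 4 * u
  hG1 : u ≤ G
  hG2 : G ≤ 128 * u
  hβ3 : u ≤ β'
  hβ4 : β' ≤ 4 * u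
  hend : b1 + β + G + β' ≤ t
  hS : ∀ s ∈ S, s ≤ t
  h0 : (0:ℝ≥0) ∈ S
  mB : b1 + β / 2 ∈ S
  mC : b1 + β + G + β' / 2 ∈ S

lemma measurable_shift_end (S : Finset ℝ≥0) (m : ℝ≥0 → ℝ) (b β : ℝ≥0) :
    Measurable (fun y : ℝ≥0 → ℝ => fmx S (m + sh b y) - y β) :=
  (measurable_fmx_sh S m b).sub (measurable_pi_apply β)

/-- pointwise gain on the composite path -/
lemma link_point {S : Finset ℝ≥0} {u t b1 β G β' : ℝ≥0} (hl : Link S u t b1 β G β')
    {f g : ℝ≥0 → ℝ} {h : ℝ} (hh : 0 ≤ h) (hsu : 2 * h ≤ Real.sqrt u)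
    (hf : ∀ s ∈ S, |f s| ≤ h) (hg : ∀ s ∈ S, |g s| ≤ h)
    {y0 yB yg yC y1 : ℝ≥0 → ℝ} (c0 : Continuous y0) (cg : Continuous yg) (c1 : Continuous y1)
    (zB : yB 0 = 0) (zg : yg 0 = 0) (zC : yC 0 = 0) (z1 : y1 0 = 0)
    (h0 : mx y0 0 b1 - y0 b1 ≤ Real.sqrt u) (hB : yB ∈ EBs β β) (hC : yC ∈ EBs β' β')
    (h1 : mx y1 0 (t - (b1 + β + G + β')) ≤ Real.sqrt u)
    {VB VC : ℝ} (hVB : VB = VV (blk S b1 (b1 + β)) (mid f g) g b1 yB)
    (hVC : VC = VV (blk S (b1 + β + G) (b1 + β + G + β')) (mid f g) g (b1 + β + G) yC)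
    (hgp : yg ∈ GP G (Real.sqrt u / 2)
      ((fmx (blk S b1 (b1 + β)) (mid f g + sh b1 yB) - yB β) -
        fmx (blk S (b1 + β + G) (b1 + β + G + β')) (mid f g + sh (b1 + β + G) yC))
      (|VB - VC| / 2)) :
    |VB - VC| / 2 ≤ fmx S (f + cmp b1 β G β' y0 yB yg yC y1) +
      fmx S (g + cmp b1 β G β' y0 yB yg yC y1) -
      2 * fmx S (mid f g + cmp b1 β G β' y0 yB yg yC y1) := by
  set y := cmp b1 β G β' y0 yB yg yC y1 with hy
  set su := Real.sqrt u with hsud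
  have hsu0 : 0 ≤ su := Real.sqrt_nonneg _
  have hG0 : 0 < G := lt_of_lt_of_le hl.hu hl.hG1
  have l12 : b1 ≤ b1 + β := le_self_add
  have l23 : b1 + β ≤ b1 + β + G := le_self_add
  have l34 : b1 + β + G ≤ b1 + β + G + β' := le_self_add
  have v1 : y b1 = y0 b1 := cmp_left zB zg zC z1 le_rfl
  have vB : ∀ s, b1 ≤ s → s ≤ b1 + β → y s = y0 b1 + yB (s - b1) := fun s h1 h2 =>
    cmp_B zg zC z1 h1 h2
  have v2 : y (b1 + β) = y0 b1 + yB β := by
    rw [vB _ l12 le_rfl, add_tsub_cancel_left]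
  have vg : ∀ s, b1 + β ≤ s → s ≤ b1 + β + G → y s = y0 b1 + yB β + yg (s - (b1 + β)) :=
    fun s h1 h2 => cmp_g zC z1 h1 h2
  have v3 : y (b1 + β + G) = y0 b1 + yB β + yg G := by
    rw [vg _ l23 le_rfl, add_tsub_cancel_left]
  have vC : ∀ s, b1 + β + G ≤ s → s ≤ b1 + β + G + β' →
      y s = y0 b1 + yB β + yg G + yC (s - (b1 + β + G)) := fun s h1 h2 => cmp_C z1 h1 h2
  have v4 : y (b1 + β + G + β') = y0 b1 + yB β + yg G + yC β' := by
    rw [vC _ l34 le_rfl, add_tsub_cancel_left]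
  have vR : ∀ s, b1 + β + G + β' ≤ s →
      y s = y0 b1 + yB β + yg G + yC β' + y1 (s - (b1 + β + G + β')) := fun s h1 => cmp_R h1
  have hsB : b1 + β / 2 ∈ blk S b1 (b1 + β) := by
    refine mem_blk.mpr ⟨hl.mB, le_self_add, ?_⟩
    gcongr
    exact half_le_self zero_le
  have hsC : b1 + β + G + β' / 2 ∈ blk S (b1 + β + G) (b1 + β + G + β') := by
    refine mem_blk.mpr ⟨hl.mC, le_self_add, ?_⟩
    gcongr
    exact half_le_self zero_le
  have ysB : y (b1 + β / 2) = y0 b1 + yB (β / 2) := by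
    rw [vB _ (mem_blk.mp hsB).2.1 (mem_blk.mp hsB).2.2, add_tsub_cancel_left]
  have ysC : y (b1 + β + G + β' / 2) = y0 b1 + yB β + yg G + yC (β' / 2) := by
    rw [vC _ (mem_blk.mp hsC).2.1 (mem_blk.mp hsC).2.2, add_tsub_cancel_left]
  obtain ⟨hB1, hB2, hB3⟩ := hB
  obtain ⟨hC1, hC2, hC3⟩ := hC
  have hub : su ≤ Real.sqrt β := Real.sqrt_le_sqrt (by exact_mod_cast hl.hβ1)
  have huc : su ≤ Real.sqrt β' := Real.sqrt_le_sqrt (by exact_mod_cast hl.hβ3)
  -- shifts of the maxima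
  have sB : ∀ m : ℝ≥0 → ℝ, fmx (blk S b1 (b1 + β)) (m + y) =
      fmx (blk S b1 (b1 + β)) (m + sh b1 yB) + y0 b1 := fun m =>
    fmx_shift ⟨_, hsB⟩ fun s hs => by
      have := mem_blk.mp hs
      simp only [Pi.add_apply, sh]
      rw [vB s this.2.1 this.2.2]
      ring
  have sC : ∀ m : ℝ≥0 → ℝ, fmx (blk S (b1 + β + G) (b1 + β + G + β')) (m + y) =
      fmx (blk S (b1 + β + G) (b1 + β + G + β')) (m + sh (b1 + β + G) yC) +
        (y0 b1 + yB β + yg G) := fun m =>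
    fmx_shift ⟨_, hsC⟩ fun s hs => by
      have := mem_blk.mp hs
      simp only [Pi.add_apply, sh]
      rw [vC s this.2.1 this.2.2]
      ring
  obtain ⟨hg1, hg2⟩ := hgp
  refine link_det (S := S) (f := f) (g := g) (y := y) (su := su) (h := h) hsu hh l12 l23 l34
    hl.hS hf hg hsB hsC ?_ ?_ ?_ ?_ ?_ ?_ ?_ rfl rfl (VB := VB) (VC := VC) ?_ ?_ ?_
  · intro s hs
    have e1 : y s = y0 s := cmp_left zB zg zC z1 hs
    rw [e1, v1]
    have := le_mx c0 (a := 0) (b := b1) (s := s) zero_le hs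
    linarith
  · rw [ysB, v1]; linarith
  · rw [ysB, v2]; linarith
  · rw [ysC, v3]; linarith
  · rw [ysC, v4]; linarith
  · intro s hs1 hs2
    have hs3 : s - (b1 + β) ≤ G := tsub_le_iff_left.mpr hs2
    have := gap_below hG0 cg hg1 (Γ0 := max (yg G) 0) (le_max_left _ _) (le_max_right _ _) hs3
    rw [vg s hs1 hs2, v2, v3]
    have e : max (y0 b1 + yB β) (y0 b1 + yB β + yg G) = y0 b1 + yB β + max (yg G) 0 := by
      rcases le_total (yg G) 0 with h6 | h6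
      · rw [max_eq_right h6, max_eq_left (by linarith)]; ring
      · rw [max_eq_left h6, max_eq_right (by linarith)]
    rw [e]
    linarith
  · intro s hs1 hs2
    rw [vR s hs1, v4]
    have := le_mx c1 (a := 0) (b := t - (b1 + β + G + β')) (s := s - (b1 + β + G + β')) zero_le
      (tsub_le_tsub_right hs2 _)
    linarith
  · rw [sB, sB, hVB]
    unfold VV
    ring
  · rw [sC, sC, hVC]
    unfold VV
    ring
  · rw [sB, sC]
    rw [← abs_neg]
    refine le_trans (le_of_eq ?_) hg2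
    congr 1
    ring

end Pool.Agent.TH970
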