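import Pool.Agent.TH970.Slow5

namespace Pool.Agent.TH970

open MeasureTheory ProbabilityTheory Set Filter Topology
open scoped ENNReal NNReal

set_option linter.unusedSectionVars false
set_option linter.unusedVariables false

variable {Ω : Type*} [MeasurableSpace Ω] {P : Measure Ω} [IsProbabilityMeasure P]
  {X : ℝ≥0 → Ω → ℝ}

lemma abs_fmx_sh_le {S : Finset ℝ≥0} (hS : S.Nonempty) {m : ℝ≥0 → ℝ} {b β : ℝ≥0} {y : ℝ≥0 → ℝ}
    (hy : Continuous y) {h K : ℝ} (hm : ∀ s ∈ S, |m s| ≤ h) (hs : ∀ s ∈ S, s ≤ b + β)
    (hK : am y β ≤ K) : |fmx S (m + sh b y)| ≤ h + K := by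
  obtain ⟨s, hs', e⟩ := exists_fmx hS (m + sh b y)
  rw [e]
  simp only [Pi.add_apply, sh]
  have h1 := le_am hy (s := s - b) (b := β) (tsub_le_iff_left.mpr (hs s hs'))
  exact (abs_add_le _ _).trans (add_le_add (hm s hs') (h1.trans hK))

lemma link_num {su st t D : ℝ} (hsu : 0 < su) (hst : 0 < st) (ht : st * st = t) :
    cT * (su / t) * D ^ 2 =
      su / (6 * st) * (su / (6 * st) * (pG / (2 * su) * (pB * pB * D ^ 2))) := by
  unfold cT
  rw [← ht]
  field_simp
  ring

instance muB_finite (u β : ℝ≥0) : IsFiniteMeasure (muB P X u β) := by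
  unfold muB
  infer_instance

/-- the link gain -/
theorem link_Phi (hX : CBM P X) {S : Finset ℝ≥0} {u t b1 β G β' : ℝ≥0}
    (hl : Link S u t b1 β G β') {f g : ℝ≥0 → ℝ} (hf0 : f 0 = 0) (hg0 : g 0 = 0)
    {h : ℝ} (hh : 0 ≤ h) (hsu : 3 * h ≤ Real.sqrt u)
    (hf : ∀ s ∈ S, |f s| ≤ h) (hg : ∀ s ∈ S, |g s| ≤ h) :
    2 * PhiS P X S (mid f g) + ENNReal.ofReal (cT * (Real.sqrt u / t) *
      (Aav P X β β b1 (blk S b1 (b1 + β)) (mid f g) g -
        Aav P X β' β' (b1 + β + G) (blk S (b1 + β + G) (b1 + β + G + β')) (mid f g) g) ^ 2) ≤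
      PhiS P X S f + PhiS P X S g := by
  classical
  set c2 := b1 + β + G + β' with hc2
  set SB := blk S b1 (b1 + β) with hSB
  set SC := blk S (b1 + β + G) c2 with hSC
  set m := mid f g with hm
  have hne : S.Nonempty := ⟨0, hl.h0⟩
  have hu := hl.hu
  have hsu0 : 0 < Real.sqrt u := Real.sqrt_pos.mpr (by exact_mod_cast hu)
  have hut : u ≤ t := hl.hβ1.trans (((le_self_add.trans le_self_add).trans (by
    calc β + G + β' ≤ b1 + (β + G + β') := le_add_self
      _ = b1 + β + G + β' := by ring)).trans hl.hend)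
  have ht : 0 < t := lt_of_lt_of_le hu hut
  have hst0 : 0 < Real.sqrt t := Real.sqrt_pos.mpr (by exact_mod_cast ht)
  have hβ0 : 0 < β := lt_of_lt_of_le hu hl.hβ1
  have hβ0' : 0 < β' := lt_of_lt_of_le hu hl.hβ3
  have four : ∀ x : ℝ≥0, x ≤ 4 * x := fun x => by
    calc x = 1 * x := (one_mul x).symm
      _ ≤ 4 * x := by gcongr; norm_num
  have hβ4 : β ≤ 4 * β := four β
  have hβ4' : β' ≤ 4 * β' := four β'
  have hu1 := Real.sq_sqrt (x := (u:ℝ)) u.2
  have hsβ : Real.sqrt β ≤ 2 * Real.sqrt u := by
    rw [Real.sqrt_le_left (by positivity), mul_pow, hu1]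
    have : (β:ℝ) ≤ 4 * u := by exact_mod_cast hl.hβ2
    linarith
  have hsβ' : Real.sqrt β' ≤ 2 * Real.sqrt u := by
    rw [Real.sqrt_le_left (by positivity), mul_pow, hu1]
    have : (β':ℝ) ≤ 4 * u := by exact_mod_cast hl.hβ4
    linarith
  have hKB := KB_ge
  have hmS : ∀ s ∈ S, |m s| ≤ h := fun s hs => by
    have a1 := abs_le.mp (hf s hs)
    have a2 := abs_le.mp (hg s hs)
    simp only [hm, mid]
    rw [abs_le]
    constructor <;> linarith
  have hdS : ∀ s ∈ S, |m s - g s| ≤ h := fun s hs => by
    have a1 := abs_le.mp (hf s hs)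
    have a2 := abs_le.mp (hg s hs)
    simp only [hm, mid]
    rw [abs_le]
    constructor <;> linarith
  have hsB : b1 + β / 2 ∈ SB := by
    refine mem_blk.mpr ⟨hl.mB, le_self_add, ?_⟩
    gcongr
    exact half_le_self zero_le
  have hsC : b1 + β + G + β' / 2 ∈ SC := by
    refine mem_blk.mpr ⟨hl.mC, le_self_add, ?_⟩
    rw [hc2]
    gcongr
    exact half_le_self zero_le
  have neB : SB.Nonempty := ⟨_, hsB⟩
  have neC : SC.Nonempty := ⟨_, hsC⟩
  -- functions
  set F : (ℝ≥0 → ℝ) → ℝ≥0∞ := fun y => ENNReal.ofReal (fmx S (f + y) + fmx S (g + y) -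
    2 * fmx S (m + y)) with hF
  have mfx : ∀ w : ℝ≥0 → ℝ, Measurable (fun y : ℝ≥0 → ℝ => fmx S (w + y)) := fun w =>
    (measurable_fmx S).comp (measurable_const.add measurable_id)
  have hFm : Measurable F :=
    (((mfx f).add (mfx g)).sub ((mfx m).const_mul 2)).ennreal_ofReal
  set VB : Ω → ℝ := fun ω => VV SB m g b1 (path X ω) with hVB
  set VC : Ω → ℝ := fun ω => VV SC m g (b1 + β + G) (path X ω) with hVC
  have hVBm : Measurable VB := (measurable_VV SB m g b1).comp hX.mpath
  have hVCm : Measurable VC := (measurable_VV SC m g (b1 + β + G)).comp hX.mpath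
  have hVBb : ∀ ω, |VB ω| ≤ h := fun ω => by
    rw [abs_le]
    exact ⟨le_VV neB fun s hs => (abs_le.mp (hdS s (mem_blk.mp hs).1)).1,
      VV_le neB fun s hs => (abs_le.mp (hdS s (mem_blk.mp hs).1)).2⟩
  have hVCb : ∀ ω, |VC ω| ≤ h := fun ω => by
    rw [abs_le]
    exact ⟨le_VV neC fun s hs => (abs_le.mp (hdS s (mem_blk.mp hs).1)).1,
      VV_le neC fun s hs => (abs_le.mp (hdS s (mem_blk.mp hs).1)).2⟩
  set xB : Ω → ℝ := fun ω => fmx SB (m + sh b1 (path X ω)) - path X ω β with hxB
  set xC : Ω → ℝ := fun ω => fmx SC (m + sh (b1 + β + G) (path X ω)) with hxC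
  have hxCm : Measurable xC := (measurable_fmx_sh SC m (b1 + β + G)).comp hX.mpath
  -- events
  set EL : Set Ω := {ω | mx (path X ω) 0 b1 - X b1 ω ≤ Real.sqrt u} with hEL
  set ER : Set Ω := {ω | mx (path X ω) 0 (t - c2) ≤ Real.sqrt u} with hER
  set EB : Set Ω := {ω | path X ω ∈ EBs β β} with hEB
  set EC : Set Ω := {ω | path X ω ∈ EBs β' β'} with hEC
  have mEL : MeasurableSet EL :=
    measurableSet_le (((measurable_mx 0 b1).comp hX.mpath).sub (hX.meas b1)) measurable_const
  have mER : MeasurableSet ER :=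
    measurableSet_le ((measurable_mx 0 (t - c2)).comp hX.mpath) measurable_const
  have mEB : MeasurableSet EB := hX.mpath (measurableSet_EBs β β)
  have mEC : MeasurableSet EC := hX.mpath (measurableSet_EBs β' β')
  set q : ℝ := Real.sqrt u / (6 * Real.sqrt t) with hq
  have hq0 : 0 < q := by positivity
  have pEL : ENNReal.ofReal q ≤ P EL := by
    have h1 : b1 ≤ t := by
      calc b1 ≤ b1 + (β + G + β') := le_self_add
        _ = b1 + β + G + β' := by ring
        _ ≤ t := hl.hend
    rw [hEL, end_law hX]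
    exact prob_low hX hu hut h1
  have pER : ENNReal.ofReal q ≤ P ER := prob_low hX hu hut tsub_le_self
  -- main estimate
  have hmain : ENNReal.ofReal q * (ENNReal.ofReal q *
      ∫⁻ ωB in EB, ∫⁻ ωC in EC, ENNReal.ofReal (pG / (2 * Real.sqrt u) * (VB ωB - VC ωC) ^ 2)
        ∂P ∂P) ≤ ∫⁻ ω, F (path X ω) ∂P := by
    rw [← lintegral_cmp hX b1 β G β' hFm]
    calc ENNReal.ofReal q * (ENNReal.ofReal q *
          ∫⁻ ωB in EB, ∫⁻ ωC in EC, ENNReal.ofReal (pG / (2 * Real.sqrt u) *
            (VB ωB - VC ωC) ^ 2) ∂P ∂P)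
        ≤ P EL * (ENNReal.ofReal q *
          ∫⁻ ωB in EB, ∫⁻ ωC in EC, ENNReal.ofReal (pG / (2 * Real.sqrt u) *
            (VB ωB - VC ωC) ^ 2) ∂P ∂P) := by gcongr
      _ = ∫⁻ ω0 in EL, (ENNReal.ofReal q *
          ∫⁻ ωB in EB, ∫⁻ ωC in EC, ENNReal.ofReal (pG / (2 * Real.sqrt u) *
            (VB ωB - VC ωC) ^ 2) ∂P ∂P) ∂P := by
          rw [setLIntegral_const, mul_comm]
      _ ≤ ∫⁻ ω0 in EL, ∫⁻ ωB, ∫⁻ ωg, ∫⁻ ωC, ∫⁻ ω1, F (cmp b1 β G β' (path X ω0) (path X ωB)
            (path X ωg) (path X ωC) (path X ω1)) ∂P ∂P ∂P ∂P ∂P := by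
          refine setLIntegral_mono' mEL fun ω0 hω0 => ?_
          rw [← lintegral_const_mul' _ _ ENNReal.ofReal_ne_top]
          refine le_trans ?_ (setLIntegral_le_lintegral EB _)
          refine setLIntegral_mono' mEB fun ωB hωB => ?_
          rw [← lintegral_const_mul' _ _ ENNReal.ofReal_ne_top]
          -- swap the gap and the second block
          set T : Set (Ω × Ω) := {z | path X z.1 ∈ GP G (Real.sqrt u / 2) (xB ωB - xC z.2)
            (|VB ωB - VC z.2| / 2)} with hT
          have mT : MeasurableSet T := by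
            have a1 : Measurable (fun z : Ω × Ω => am (brd G (path X z.1)) G) :=
              ((measurable_am G).comp (measurable_brd G)).comp (hX.mpath.comp measurable_fst)
            have a2 : Measurable (fun z : Ω × Ω => |path X z.1 G - (xB ωB - xC z.2)|) :=
              (((hX.meas G).comp measurable_fst).sub
                ((hxCm.comp measurable_snd).const_sub (xB ωB))).abs
            have a3 : Measurable (fun z : Ω × Ω => |VB ωB - VC z.2| / 2) :=
              (((hVCm.comp measurable_snd).const_sub (VB ωB)).abs).div_const 2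
            exact (measurableSet_le a1 measurable_const).inter (measurableSet_le a2 a3)
          have mTi : Measurable (T.indicator (fun z : Ω × Ω =>
              ENNReal.ofReal (|VB ωB - VC z.2| / 2) * P ER)) :=
            (((((hVCm.comp measurable_snd).const_sub (VB ωB)).abs).div_const
              2).ennreal_ofReal.mul_const _).indicator mT
          calc ∫⁻ ωC in EC, ENNReal.ofReal q * ENNReal.ofReal (pG / (2 * Real.sqrt u) *
                (VB ωB - VC ωC) ^ 2) ∂P
              ≤ ∫⁻ ωC in EC, ∫⁻ ωg, T.indicator (fun z : Ω × Ω =>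
                ENNReal.ofReal (|VB ωB - VC z.2| / 2) * P ER) (ωg, ωC) ∂P ∂P := by
                refine setLIntegral_mono' mEC fun ωC hωC => ?_
                have hD : |xB ωB - xC ωC| + |VB ωB - VC ωC| / 2 ≤
                    (6 * KB + 2) * Real.sqrt u := by
                  have b1' : |fmx SB (m + sh b1 (path X ωB))| ≤ h + KB * Real.sqrt β :=
                    abs_fmx_sh_le neB (hX.cont ωB) (fun s hs => hmS s (mem_blk.mp hs).1)
                      (fun s hs => (mem_blk.mp hs).2.2) hωB.2.2
                  have b2' : |xC ωC| ≤ h + KB * Real.sqrt β' :=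
                    abs_fmx_sh_le neC (hX.cont ωC) (fun s hs => hmS s (mem_blk.mp hs).1)
                      (fun s hs => (mem_blk.mp hs).2.2) hωC.2.2
                  have b3' : |path X ωB β| ≤ KB * Real.sqrt β :=
                    (le_am (hX.cont ωB) le_rfl).trans hωB.2.2
                  have b4 : |xB ωB| ≤ (h + KB * Real.sqrt β) + KB * Real.sqrt β :=
                    (abs_sub _ _).trans (add_le_add b1' b3')
                  have b5 : |xB ωB - xC ωC| ≤
                      (h + KB * Real.sqrt β) + KB * Real.sqrt β + (h + KB * Real.sqrt β') :=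
                    (abs_sub _ _).trans (add_le_add b4 b2')
                  have b6 : |VB ωB - VC ωC| ≤ h + h :=
                    (abs_sub _ _).trans (add_le_add (hVBb ωB) (hVCb ωC))
                  have b7 : KB * Real.sqrt β ≤ KB * (2 * Real.sqrt u) := by gcongr
                  have b8 : KB * Real.sqrt β' ≤ KB * (2 * Real.sqrt u) := by gcongr
                  linarith
                have hgp := prob_GP hX hu hl.hG1 hl.hG2 (D0 := xB ωB - xC ωC)
                  (δ := |VB ωB - VC ωC| / 2) (by positivity) hD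
                have e1 : ∫⁻ ωg, T.indicator (fun z : Ω × Ω =>
                    ENNReal.ofReal (|VB ωB - VC z.2| / 2) * P ER) (ωg, ωC) ∂P =
                    (ENNReal.ofReal (|VB ωB - VC ωC| / 2) * P ER) *
                      P {ωg | path X ωg ∈ GP G (Real.sqrt u / 2) (xB ωB - xC ωC)
                        (|VB ωB - VC ωC| / 2)} := by
                  have e2 : ∀ ωg, T.indicator (fun z : Ω × Ω =>
                    ENNReal.ofReal (|VB ωB - VC z.2| / 2) * P ER) (ωg, ωC) =
                    {ωg | path X ωg ∈ GP G (Real.sqrt u / 2) (xB ωB - xC ωC)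
                        (|VB ωB - VC ωC| / 2)}.indicator
                      (fun _ => ENNReal.ofReal (|VB ωB - VC ωC| / 2) * P ER) ωg := fun ωg => rfl
                  simp_rw [e2]
                  rw [lintegral_indicator_const]
                  exact mT.preimage measurable_prodMk_right
                rw [e1]
                calc ENNReal.ofReal q * ENNReal.ofReal (pG / (2 * Real.sqrt u) *
                      (VB ωB - VC ωC) ^ 2)
                    = (ENNReal.ofReal (|VB ωB - VC ωC| / 2) * ENNReal.ofReal q) *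
                      ENNReal.ofReal (pG * (2 * (|VB ωB - VC ωC| / 2)) / Real.sqrt u) := by
                      have hp := pG_pos
                      rw [← ENNReal.ofReal_mul hq0.le, ← ENNReal.ofReal_mul (by positivity),
                        ← ENNReal.ofReal_mul (by positivity)]
                      congr 1
                      rw [← sq_abs (VB ωB - VC ωC)]
                      field_simp
                  _ ≤ _ := mul_le_mul' (mul_le_mul' le_rfl pER) hgp
            _ = ∫⁻ ωg, ∫⁻ ωC in EC, T.indicator (fun z : Ω × Ω =>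
                ENNReal.ofReal (|VB ωB - VC z.2| / 2) * P ER) (ωg, ωC) ∂P ∂P := by
                rw [lintegral_lintegral_swap]
                exact (mTi.comp measurable_swap).aemeasurable
            _ ≤ _ := by
                refine lintegral_mono fun ωg => ?_
                refine le_trans ?_ (setLIntegral_le_lintegral EC _)
                refine setLIntegral_mono' mEC fun ωC hωC => ?_
                by_cases hz : (ωg, ωC) ∈ T
                · rw [indicator_of_mem hz]
                  simp only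
                  rw [← setLIntegral_const]
                  refine le_trans ?_ (setLIntegral_le_lintegral ER _)
                  refine setLIntegral_mono' mER fun ω1 hω1 => ?_
                  exact ENNReal.ofReal_le_ofReal (link_point hl hh (by linarith) hf hg
                    (hX.cont ω0) (hX.cont ωg) (hX.cont ω1) (hX.path_zero ωB) (hX.path_zero ωg)
                    (hX.path_zero ωC) (hX.path_zero ω1) hω0 hωB hωC hω1 rfl rfl hz)
                · rw [indicator_of_notMem hz]
                  exact zero_le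
      _ ≤ _ := setLIntegral_le_lintegral _ _
  -- variance
  have hvar := var_prod (μ := muB P X β β) (ν := muB P X β' β') hVBm hVCm hVBb hVCb
    (lt_of_lt_of_le pB_pos (muB_real hX hβ0 le_rfl hβ4))
    (lt_of_lt_of_le pB_pos (muB_real hX hβ0' le_rfl hβ4'))
  have hmB := muB_real hX hβ0 le_rfl hβ4
  have hmC := muB_real hX hβ0' le_rfl hβ4'
  set AB := Aav P X β β b1 SB m g with hAB
  set AC := Aav P X β' β' (b1 + β + G) SC m g with hAC
  have hvar' : ENNReal.ofReal (pB * pB * (AB - AC) ^ 2) ≤
      ∫⁻ ωB in EB, ∫⁻ ωC in EC, ENNReal.ofReal ((VB ωB - VC ωC) ^ 2) ∂P ∂P := by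
    refine le_trans (ENNReal.ofReal_le_ofReal ?_) hvar
    have hp := pB_pos
    have e : (∫ ω, VB ω ∂(muB P X β β)) / (muB P X β β).real univ -
        (∫ ω, VC ω ∂(muB P X β' β')) / (muB P X β' β').real univ = AB - AC := rfl
    rw [e]
    gcongr
  have hfin : ENNReal.ofReal (cT * (Real.sqrt u / t) * (AB - AC) ^ 2) ≤
      ∫⁻ ω, F (path X ω) ∂P := by
    refine le_trans ?_ hmain
    have hp := pG_pos
    have hp2 := pB_pos
    have e1 : ∫⁻ ωB in EB, ∫⁻ ωC in EC, ENNReal.ofReal (pG / (2 * Real.sqrt u) *
        (VB ωB - VC ωC) ^ 2) ∂P ∂P = ENNReal.ofReal (pG / (2 * Real.sqrt u)) *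
        ∫⁻ ωB in EB, ∫⁻ ωC in EC, ENNReal.ofReal ((VB ωB - VC ωC) ^ 2) ∂P ∂P := by
      rw [← lintegral_const_mul' _ _ ENNReal.ofReal_ne_top]
      refine lintegral_congr fun ωB => ?_
      rw [← lintegral_const_mul' _ _ ENNReal.ofReal_ne_top]
      refine lintegral_congr fun ωC => ?_
      rw [ENNReal.ofReal_mul (by positivity)]
    rw [e1]
    calc ENNReal.ofReal (cT * (Real.sqrt u / t) * (AB - AC) ^ 2)
        = ENNReal.ofReal q * (ENNReal.ofReal q * (ENNReal.ofReal (pG / (2 * Real.sqrt u)) *
          ENNReal.ofReal (pB * pB * (AB - AC) ^ 2))) := by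
          rw [← ENNReal.ofReal_mul (by positivity), ← ENNReal.ofReal_mul (by positivity),
            ← ENNReal.ofReal_mul (by positivity)]
          congr 1
          exact link_num hsu0 hst0 (Real.mul_self_sqrt (x := (t:ℝ)) t.2)
      _ ≤ _ := by gcongr
  have hgain := PhiS_gain hX hne hl.h0 hf0 hg0 (G := fun ω => F (path X ω))
    (hFm.comp hX.mpath) (fun ω => by
      have hz : 0 ≤ fmx S (mid f g + path X ω) := by
        have := le_fmx (w := mid f g + path X ω) hl.h0
        simp only [Pi.add_apply, mid, hf0, hg0, hX.path_zero] at this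
        linarith
      have hc := fmx_mid hne f g (path X ω)
      have e2 : 2 * ENNReal.ofReal (fmx S (mid f g + path X ω)) =
          ENNReal.ofReal (2 * fmx S (mid f g + path X ω)) := by
        rw [ENNReal.ofReal_mul (by norm_num)]; simp
      simp only [hF]
      rw [e2, ← ENNReal.ofReal_add (by linarith) (by linarith)]
      apply ENNReal.ofReal_le_ofReal
      linarith)
  exact (add_le_add le_rfl hfin).trans hgain

end Pool.Agent.TH970
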