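import Pool.Agent.TH970.Slow6

namespace Pool.Agent.TH970

open MeasureTheory ProbabilityTheory Set Filter Topology
open scoped ENNReal NNReal

set_option linter.unusedSectionVars false
set_option linter.unusedVariables false

variable {Ω : Type*} [MeasurableSpace Ω] {P : Measure Ω} [IsProbabilityMeasure P]
  {X : ℝ≥0 → Ω → ℝ}

lemma chain_aux {a : ℕ → ℝ} {J : ℕ} {Δ : ℝ}
    (h : ∀ j < J, |a (j + 1) - a j| < Δ / 9 * (3 / 4) ^ j) (j : ℕ) (hj : j ≤ J) :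
    |a j - a 0| ≤ 4 * Δ / 9 * (1 - (3 / 4) ^ j) := by
  induction j with
  | zero => simp
  | succ j ih =>
    have h1 := ih (by omega)
    have h2 := h j (by omega)
    have e : a (j + 1) - a 0 = (a (j + 1) - a j) + (a j - a 0) := by ring
    rw [e]
    refine (abs_add_le _ _).trans ((add_le_add h2.le h1).trans (le_of_eq ?_))
    rw [pow_succ]
    ring

/-- pigeonhole over a chain of links with geometric weights -/
lemma chain {a l : ℕ → ℝ} {J : ℕ} {Δ : ℝ} (hΔ : 0 < Δ) (h : Δ ≤ l 0 - a 0) :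
    (∃ j < J, Δ / 9 * (3 / 4) ^ j ≤ |a (j + 1) - a j|) ∨
    (∃ j < J, Δ / 9 * (3 / 4) ^ j ≤ |l (j + 1) - l j|) ∨ Δ / 9 ≤ |l J - a J| := by
  by_contra hcon
  push Not at hcon
  obtain ⟨h1, h2, h3⟩ := hcon
  have k1 := chain_aux h1 J le_rfl
  have k2 := chain_aux h2 J le_rfl
  have hp : 0 < ((3:ℝ) / 4) ^ J := by positivity
  have k3 : 4 * Δ / 9 * (1 - (3 / 4) ^ J) ≤ 4 * Δ / 9 := by nlinarith
  have k4 := abs_le.mp k1
  have k5 := abs_le.mp k2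
  have k6 := abs_lt.mp h3
  linarith [k4.1, k4.2, k5.1, k5.2, k6.1, k6.2]

lemma mem_Gr_of {t : ℝ≥0} (ht : 0 < t) {M n : ℕ} (h : (n : ℝ≥0) * (t / 2 ^ M) ≤ t) :
    (n : ℝ≥0) * (t / 2 ^ M) ∈ Gr t M := by
  refine mem_Gr.mpr ⟨n, ?_, rfl⟩
  by_contra hn
  push Not at hn
  have h1 : t < (n : ℝ≥0) * (t / 2 ^ M) := by
    calc t = ((2 ^ M : ℕ) : ℝ≥0) * (t / 2 ^ M) := by push_cast; field_simp
      _ < (n : ℝ≥0) * (t / 2 ^ M) := by
        have : 0 < t / 2 ^ M := by positivity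
        gcongr
  exact absurd h (not_le.mpr h1)

lemma sqrt_four_pow (τ : ℝ≥0) (j : ℕ) :
    Real.sqrt ((4 ^ j * τ : ℝ≥0) : ℝ) = 2 ^ j * Real.sqrt τ := by
  push_cast
  rw [Real.sqrt_mul (by positivity)]
  congr 1
  have : (4:ℝ) ^ j = (2 ^ j) ^ 2 := by
    rw [← pow_mul, mul_comm, pow_mul]
    norm_num
  rw [this, Real.sqrt_sq (by positivity)]

lemma link_weight {st t Δ A : ℝ} (hst : 0 ≤ st) (ht : 0 < t) (hΔ : 0 < Δ) (j : ℕ)
    (hA : Δ / 9 * (3 / 4) ^ j ≤ |A|) :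
    cT * (st / t) * (Δ / 9) ^ 2 ≤ cT * (2 ^ j * st / t) * A ^ 2 := by
  have hc := cT_pos
  have h1 : (Δ / 9 * (3 / 4) ^ j) ^ 2 ≤ A ^ 2 := by
    rw [← sq_abs A]
    gcongr
  have h2 : (1:ℝ) ≤ 2 ^ j * ((3 / 4) ^ j) ^ 2 := by
    rw [← pow_mul, mul_comm j 2, pow_mul, ← mul_pow]
    exact one_le_pow₀ (by norm_num)
  calc cT * (st / t) * (Δ / 9) ^ 2 = cT * (st / t) * (Δ / 9) ^ 2 * 1 := by ring
    _ ≤ cT * (st / t) * (Δ / 9) ^ 2 * (2 ^ j * ((3 / 4) ^ j) ^ 2) := by gcongr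
    _ = cT * (2 ^ j * st / t) * (Δ / 9 * (3 / 4) ^ j) ^ 2 := by ring
    _ ≤ _ := by gcongr

/-- gain of the slow step -/
theorem slow_gain (hX : CBM P X) {t τ : ℝ≥0} {m0 M k k' J : ℕ} (hM : m0 + 1 ≤ M) (ht : 0 < t)
    (hτ : τ = t / 2 ^ m0) (hk' : k' ≤ 2 ^ m0) (hkk : t ≤ 2 * ((k' : ℝ≥0) * τ - k * τ))
    (hJ1 : 32 * (4 ^ J * τ) ≤ t) (hJ2 : t ≤ 128 * (4 ^ J * τ))
    {f g : ℝ≥0 → ℝ} (hf0 : f 0 = 0) (hg0 : g 0 = 0)
    {h : ℝ} (hh : 0 ≤ h) (hsτ : 3 * h ≤ Real.sqrt τ)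
    (hf : ∀ s ∈ Gr t M, |f s| ≤ h) (hg : ∀ s ∈ Gr t M, |g s| ≤ h)
    {cp cq Δ : ℝ} (hΔ : 0 < Δ) (hcd : Δ ≤ cq - cp)
    (hp : ∀ s ∈ Gr t M, k * τ ≤ s → s ≤ k * τ + 2 * τ → mid f g s - g s ≤ cp)
    (hq : ∀ s ∈ Gr t M, k' * τ ≤ s + 2 * τ → s ≤ k' * τ → cq ≤ mid f g s - g s) :
    2 * PhiS P X (Gr t M) (mid f g) + ENNReal.ofReal (cT * (Real.sqrt τ / t) * (Δ / 9) ^ 2) ≤
      PhiS P X (Gr t M) f + PhiS P X (Gr t M) g := by
  set S := Gr t M with hS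
  set m := mid f g with hm
  set p : ℝ≥0 := k * τ with hpd
  set q : ℝ≥0 := k' * τ with hqd
  have hτ0 : 0 < τ := by rw [hτ]; positivity
  have ht0 : (0:ℝ) < t := by exact_mod_cast ht
  have hqt : q ≤ t := by
    rw [hqd, hτ]
    calc (k' : ℝ≥0) * (t / 2 ^ m0) ≤ ((2 ^ m0 : ℕ) : ℝ≥0) * (t / 2 ^ m0) := by
          gcongr
      _ = t := by push_cast; field_simp
  have hpq : p ≤ q := by
    by_contra hcon
    push Not at hcon
    rw [tsub_eq_zero_of_le hcon.le, mul_zero] at hkk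
    exact absurd hkk (not_le.mpr ht)
  have hpq2 : t + 2 * p ≤ 2 * q := by
    have e : q - p + p = q := tsub_add_cancel_of_le hpq
    calc t + 2 * p ≤ 2 * (q - p) + 2 * p := by gcongr
      _ = 2 * (q - p + p) := by ring
      _ = 2 * q := by rw [e]
  have hdS : ∀ s ∈ S, |m s - g s| ≤ h := fun s hs => by
    have a1 := abs_le.mp (hf s hs)
    have a2 := abs_le.mp (hg s hs)
    simp only [hm, mid]
    rw [abs_le]
    constructor <;> linarith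
  -- membership of half multiples
  have hhalf : τ / 2 = t / 2 ^ (m0 + 1) := by
    rw [hτ, pow_succ, div_div]
  have hmem : ∀ (n : ℕ) (x : ℝ≥0), x = n * (τ / 2) → x ≤ t → x ∈ S := by
    intro n x hx hxt
    rw [hx, hhalf] at hxt
    rw [hx, hhalf]
    exact Gr_mono t hM (mem_Gr_of ht hxt)
  have hSt : ∀ s ∈ S, s ≤ t := fun s hs => le_of_mem_Gr hs
  have hle4 : ∀ j, j ≤ J → (4:ℝ≥0) ^ j * τ ≤ 4 ^ J * τ := fun j hj => by
    gcongr
    norm_num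
  -- right links
  set AR : ℕ → ℝ := fun j => Aav P X (4 ^ j * τ) (4 ^ j * τ) (p + 4 ^ j * τ)
    (blk S (p + 4 ^ j * τ) (p + 4 ^ j * τ + 4 ^ j * τ)) m g with hAR
  set AL : ℕ → ℝ := fun j => Aav P X (4 ^ j * τ) (4 ^ j * τ) (q - 2 * (4 ^ j * τ))
    (blk S (q - 2 * (4 ^ j * τ)) (q - 2 * (4 ^ j * τ) + 4 ^ j * τ)) m g with hAL
  have h32 : ∀ j, j ≤ J → 32 * (4 ^ j * τ) ≤ t := fun j hj =>
    (mul_le_mul' le_rfl (hle4 j hj)).trans hJ1
  have hJt : ∀ j, j ≤ J → 16 * (4 ^ j * τ) ≤ q := fun j hj => by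
    have h1 := h32 j hj
    have h2 : t ≤ 2 * q := le_self_add.trans hpq2
    have h3 : 32 * (4 ^ j * τ) ≤ 2 * q := h1.trans h2
    have h4 : (2:ℝ≥0) * (16 * (4 ^ j * τ)) ≤ 2 * q := by
      calc (2:ℝ≥0) * (16 * (4 ^ j * τ)) = 32 * (4 ^ j * τ) := by ring
        _ ≤ _ := h3
    exact le_of_mul_le_mul_left h4 (by norm_num)
  have hpJ : ∀ j, j ≤ J → p + 16 * (4 ^ j * τ) ≤ q := fun j hj => by
    have h1 := h32 j hj
    have h4 : (2:ℝ≥0) * (p + 16 * (4 ^ j * τ)) ≤ 2 * q := by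
      calc (2:ℝ≥0) * (p + 16 * (4 ^ j * τ)) = 32 * (4 ^ j * τ) + 2 * p := by ring
        _ ≤ t + 2 * p := by gcongr
        _ ≤ _ := hpq2
    exact le_of_mul_le_mul_left h4 (by norm_num)
  have c16 : ∀ x : ℝ≥0, ∀ n : ℝ≥0, n ≤ 16 → n * x ≤ 16 * x := fun x n hn => by gcongr
  have blkR : ∀ j, j ≤ J → p + 4 ^ j * τ + 4 ^ j * τ / 2 ∈ S := fun j hj => by
    refine hmem (2 * k + 3 * 4 ^ j) _ ?_ ?_
    · rw [hpd]; push_cast; ring
    · refine le_trans ?_ ((hpJ j hj).trans hqt)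
      calc p + 4 ^ j * τ + 4 ^ j * τ / 2 = p + (3 / 2) * (4 ^ j * τ) := by ring
        _ ≤ p + 16 * (4 ^ j * τ) := by
          gcongr
          rw [div_le_iff₀ (by norm_num)]
          norm_num
  have hτpos : ∀ j : ℕ, 0 < 4 ^ j * τ := fun j => by positivity
  have four : ∀ x : ℝ≥0, x ≤ 4 * x := fun x => by
    calc x = 1 * x := (one_mul x).symm
      _ ≤ 4 * x := by gcongr; norm_num
  have linkR : ∀ j < J, Link S (4 ^ j * τ) t (p + 4 ^ j * τ) (4 ^ j * τ) (2 * (4 ^ j * τ))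
      (4 ^ (j + 1) * τ) := fun j hj => by
    have e4 : (4:ℝ≥0) ^ (j + 1) * τ = 4 * (4 ^ j * τ) := by rw [pow_succ]; ring
    refine ⟨hτpos j, le_rfl, four _, ?_, ?_, ?_, ?_, ?_, hSt, zero_mem_Gr t M, blkR j hj.le, ?_⟩
    · calc 4 ^ j * τ = 1 * (4 ^ j * τ) := (one_mul _).symm
        _ ≤ 2 * (4 ^ j * τ) := by gcongr; norm_num
    · gcongr; norm_num
    · rw [e4]; exact four _
    · rw [e4]
    · rw [e4]
      refine le_trans ?_ ((hpJ j hj.le).trans hqt)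
      calc p + 4 ^ j * τ + 4 ^ j * τ + 2 * (4 ^ j * τ) + 4 * (4 ^ j * τ) =
          p + 8 * (4 ^ j * τ) := by ring
        _ ≤ p + 16 * (4 ^ j * τ) := by gcongr; norm_num
    · have := blkR (j + 1) hj
      convert this using 1
      rw [e4]
      ring
  have two_x : ∀ x : ℝ≥0, x ≤ 2 * x := fun x => by
    calc x = 1 * x := (one_mul x).symm
      _ ≤ 2 * x := by gcongr; norm_num
  -- left links
  have blkL : ∀ j, j ≤ J → q - 2 * (4 ^ j * τ) + 4 ^ j * τ / 2 ∈ S := fun j hj => by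
    have e1 : q - 2 * (4 ^ j * τ) = ((k' - 2 * 4 ^ j : ℕ) : ℝ≥0) * τ := by
      rw [hqd, Nat.cast_tsub, tsub_mul]
      congr 1
      push_cast
      ring
    refine hmem (2 * (k' - 2 * 4 ^ j) + 4 ^ j) _ ?_ ?_
    · rw [e1]
      push_cast
      ring
    · refine le_trans ?_ hqt
      have h2 : 2 * (4 ^ j * τ) ≤ q := (c16 _ 2 (by norm_num)).trans (hJt j hj)
      calc q - 2 * (4 ^ j * τ) + 4 ^ j * τ / 2 ≤ q - 2 * (4 ^ j * τ) + 2 * (4 ^ j * τ) := by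
            gcongr
            calc 4 ^ j * τ / 2 ≤ 4 ^ j * τ := half_le_self zero_le
              _ = 1 * (4 ^ j * τ) := (one_mul _).symm
              _ ≤ 2 * (4 ^ j * τ) := by gcongr; norm_num
        _ = q := tsub_add_cancel_of_le h2
  have eL : ∀ j < J, q - 2 * (4 ^ (j + 1) * τ) + 4 ^ (j + 1) * τ + 2 * (4 ^ j * τ) =
      q - 2 * (4 ^ j * τ) := fun j hj => by
    have e4 : (4:ℝ≥0) ^ (j + 1) * τ = 4 * (4 ^ j * τ) := by rw [pow_succ]; ring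
    rw [e4]
    set x := 4 ^ j * τ with hx
    obtain ⟨r, hr⟩ : ∃ r, q = r + 8 * x := by
      have h8 : 8 * x ≤ q := (c16 x 8 (by norm_num)).trans (hJt j hj.le)
      exact ⟨q - 8 * x, (tsub_add_cancel_of_le h8).symm⟩
    rw [hr]
    have e5 : r + 8 * x - 2 * (4 * x) = r := by
      have : 2 * (4 * x) = 8 * x := by ring
      rw [this, add_tsub_cancel_right]
    have e6 : r + 8 * x - 2 * x = r + 6 * x := by
      have : r + 8 * x = r + 6 * x + 2 * x := by ring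
      rw [this, add_tsub_cancel_right]
    rw [e5, e6]
    ring
  have linkL : ∀ j < J, Link S (4 ^ j * τ) t (q - 2 * (4 ^ (j + 1) * τ)) (4 ^ (j + 1) * τ)
      (2 * (4 ^ j * τ)) (4 ^ j * τ) := fun j hj => by
    have e4 : (4:ℝ≥0) ^ (j + 1) * τ = 4 * (4 ^ j * τ) := by rw [pow_succ]; ring
    refine ⟨hτpos j, ?_, ?_, ?_, ?_, le_rfl, four _, ?_, hSt, zero_mem_Gr t M, blkL (j + 1) hj, ?_⟩
    · rw [e4]; exact four _
    · rw [e4]
    · calc 4 ^ j * τ = 1 * (4 ^ j * τ) := (one_mul _).symm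
        _ ≤ 2 * (4 ^ j * τ) := by gcongr; norm_num
    · gcongr; norm_num
    · rw [eL j hj]
      refine le_trans ?_ hqt
      have h2 : 2 * (4 ^ j * τ) ≤ q := (c16 _ 2 (by norm_num)).trans (hJt j hj.le)
      calc q - 2 * (4 ^ j * τ) + 4 ^ j * τ ≤ q - 2 * (4 ^ j * τ) + 2 * (4 ^ j * τ) :=
            add_le_add le_rfl (two_x _)
        _ = q := tsub_add_cancel_of_le h2
    · rw [eL j hj]
      exact blkL j hj.le
  -- middle link
  have hmid1 : p + 4 ^ J * τ + 4 ^ J * τ + 4 ^ J * τ ≤ q - 2 * (4 ^ J * τ) := by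
    apply le_tsub_of_add_le_right
    calc p + 4 ^ J * τ + 4 ^ J * τ + 4 ^ J * τ + 2 * (4 ^ J * τ) = p + 5 * (4 ^ J * τ) := by ring
      _ ≤ p + 16 * (4 ^ J * τ) := by gcongr; norm_num
      _ ≤ q := hpJ J le_rfl
  set G := q - 2 * (4 ^ J * τ) - (p + 4 ^ J * τ + 4 ^ J * τ) with hG
  have hGe : p + 4 ^ J * τ + 4 ^ J * τ + G = q - 2 * (4 ^ J * τ) :=
    add_tsub_cancel_of_le (le_self_add.trans hmid1)
  have linkM : Link S (4 ^ J * τ) t (p + 4 ^ J * τ) (4 ^ J * τ) G (4 ^ J * τ) := by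
    refine ⟨hτpos J, le_rfl, four _, ?_, ?_, le_rfl, four _, ?_, hSt, zero_mem_Gr t M,
      blkR J le_rfl, ?_⟩
    · rw [hG]
      exact le_tsub_of_add_le_left hmid1
    · exact (tsub_le_self.trans (tsub_le_self.trans hqt)).trans hJ2
    · rw [hGe]
      refine le_trans ?_ hqt
      have h2 : 2 * (4 ^ J * τ) ≤ q := (c16 _ 2 (by norm_num)).trans (hJt J le_rfl)
      calc q - 2 * (4 ^ J * τ) + 4 ^ J * τ ≤ q - 2 * (4 ^ J * τ) + 2 * (4 ^ J * τ) :=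
            add_le_add le_rfl (two_x _)
        _ = q := tsub_add_cancel_of_le h2
    · rw [hGe]
      exact blkL J le_rfl
  -- end values
  have hsu : ∀ j : ℕ, 3 * h ≤ Real.sqrt ((4 ^ j * τ : ℝ≥0) : ℝ) := fun j => by
    rw [sqrt_four_pow]
    have h1 : (1:ℝ) ≤ 2 ^ j := one_le_pow₀ (by norm_num)
    have h2 := Real.sqrt_nonneg (τ:ℝ)
    nlinarith
  have hmidR : ∀ j, j ≤ J → p + 4 ^ j * τ + 4 ^ j * τ / 2 ∈
      blk S (p + 4 ^ j * τ) (p + 4 ^ j * τ + 4 ^ j * τ) := fun j hj =>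
    mem_blk.mpr ⟨blkR j hj, le_self_add, by gcongr; exact half_le_self zero_le⟩
  have hmidL : ∀ j, j ≤ J → q - 2 * (4 ^ j * τ) + 4 ^ j * τ / 2 ∈
      blk S (q - 2 * (4 ^ j * τ)) (q - 2 * (4 ^ j * τ) + 4 ^ j * τ) := fun j hj =>
    mem_blk.mpr ⟨blkL j hj, le_self_add, by gcongr; exact half_le_self zero_le⟩
  have hAR0 : AR 0 ≤ cp := by
    refine Aav_le hX (hτpos 0) le_rfl (four _) ⟨_, hmidR 0 (Nat.zero_le _)⟩
      (fun s hs => hdS s (mem_blk.mp hs).1) fun s hs => ?_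
    obtain ⟨h1, h2, h3⟩ := mem_blk.mp hs
    rw [pow_zero, one_mul] at h2 h3
    refine hp s h1 (le_self_add.trans h2) (h3.trans (le_of_eq ?_))
    ring
  have hAL0 : cq ≤ AL 0 := by
    refine le_Aav hX (hτpos 0) le_rfl (four _) ⟨_, hmidL 0 (Nat.zero_le _)⟩
      (fun s hs => hdS s (mem_blk.mp hs).1) fun s hs => ?_
    obtain ⟨h1, h2, h3⟩ := mem_blk.mp hs
    rw [pow_zero, one_mul] at h2 h3
    have h4 : 2 * τ ≤ q := by
      have := hJt 0 (Nat.zero_le _)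
      rw [pow_zero, one_mul] at this
      exact (c16 _ 2 (by norm_num)).trans this
    refine hq s h1 (tsub_le_iff_right.mp h2) (h3.trans ?_)
    calc q - 2 * τ + τ ≤ q - 2 * τ + 2 * τ := by
          gcongr
          calc τ = 1 * τ := (one_mul _).symm
            _ ≤ 2 * τ := by gcongr; norm_num
      _ = q := tsub_add_cancel_of_le h4
  have hst : 0 ≤ Real.sqrt τ := Real.sqrt_nonneg _
  rcases chain (a := AR) (l := AL) (J := J) hΔ (by linarith) with ⟨j, hj, hA⟩ | ⟨j, hj, hA⟩ | hA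
  · have h1 := link_Phi hX (linkR j hj) hf0 hg0 hh (hsu j) hf hg
    refine le_trans (add_le_add le_rfl (ENNReal.ofReal_le_ofReal ?_)) h1
    have e1 : p + 4 ^ j * τ + 4 ^ j * τ + 2 * (4 ^ j * τ) = p + 4 ^ (j + 1) * τ := by
      rw [pow_succ]; ring
    rw [e1, sqrt_four_pow]
    refine link_weight hst ht0 hΔ j ?_
    rw [abs_sub_comm]
    exact hA
  · have h1 := link_Phi hX (linkL j hj) hf0 hg0 hh (hsu j) hf hg
    refine le_trans (add_le_add le_rfl (ENNReal.ofReal_le_ofReal ?_)) h1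
    rw [eL j hj, sqrt_four_pow]
    exact link_weight hst ht0 hΔ j hA
  · have h1 := link_Phi hX linkM hf0 hg0 hh (hsu J) hf hg
    refine le_trans (add_le_add le_rfl (ENNReal.ofReal_le_ofReal ?_)) h1
    rw [hGe, sqrt_four_pow]
    refine link_weight hst ht0 hΔ J ?_
    rw [abs_sub_comm]
    refine le_trans ?_ hA
    have : ((3:ℝ) / 4) ^ J ≤ 1 := pow_le_one₀ (by norm_num) (by norm_num)
    nlinarith

end Pool.Agent.TH970
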