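import Pool.Agent.TH970.Slow7

namespace Pool.Agent.TH970

open MeasureTheory ProbabilityTheory Set Filter Topology
open scoped ENNReal NNReal

set_option linter.unusedSectionVars false
set_option linter.unusedVariables false

variable {Ω : Type*} [MeasurableSpace Ω] {P : Measure Ω} [IsProbabilityMeasure P]
  {X : ℝ≥0 → Ω → ℝ}

/-- Prekopa-Leindler on the whole path -/
theorem PL_whole (hX : CBM P X) (lam : ℝ≥0) {t : ℝ≥0} (ht : 0 < t) {M : ℕ}
    {A : Set (ℝ≥0 → ℝ)} (hA : MeasurableSet A)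
    (hAc : ∀ f f' : ℝ≥0 → ℝ, (∀ s ∈ Gr t M, f s = f' s) → f ∈ A → f' ∈ A) {c : ℝ} (hc : 0 ≤ c)
    (hg : ∀ f g : ℝ≥0 → ℝ, f 0 = 0 → g 0 = 0 → f ∈ A → -g ∈ A →
      2 * HS P X (Gr t M) (mid f g) + ENNReal.ofReal c ≤
        HS P X (Gr t M) f + HS P X (Gr t M) g) :
    ∫⁻ ω, A.indicator (fun f => ex lam (HS P X (Gr t M) f)) (path X ω) ∂P ≤
      ENNReal.ofReal (Real.exp (-(lam * c / 2))) *
        ∫⁻ ω, ex lam (HS P X (Gr t M) (path X ω)) ∂P := by
  classical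
  have hδ : 0 < t / 2 ^ M := by positivity
  set S := Gr t M with hS
  set N : Set (ℝ≥0 → ℝ) := {f | f 0 = 0} with hN
  have hNm : MeasurableSet N := measurableSet_eq_fun (measurable_pi_apply 0) measurable_const
  set W : (ℝ≥0 → ℝ) → ℝ≥0∞ := fun f => ex lam (HS P X S f) with hW
  have hWm : Measurable W := (measurable_ex lam).comp (measurable_HS hX S)
  set A' : Set (ℝ≥0 → ℝ) := {f | -f ∈ A} with hA'
  have hA'm : MeasurableSet A' := measurable_neg hA
  set E : ℝ≥0∞ := ENNReal.ofReal (Real.exp (-(lam * c / 2))) with hE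
  have hgrid : ∀ ω, ∀ s ∈ S, ZD X t M ω s = path X ω s := fun ω s hs => ZD_grid hX ht hs ω
  have hZN : ∀ ω, ZD X t M ω ∈ N := fun ω => by
    show ZD X t M ω 0 = 0
    rw [hgrid ω 0 (zero_mem_Gr t M), hX.path_zero]
  have hrep : ∀ B : Set (ℝ≥0 → ℝ), (∀ f f' : ℝ≥0 → ℝ, (∀ s ∈ S, f s = f' s) → f ∈ B → f' ∈ B) →
      ∫⁻ ω, B.indicator W (path X ω) ∂P = ∫⁻ ω, (N ∩ B).indicator W (ZD X t M ω) ∂P := by
    intro B hB
    refine lintegral_congr fun ω => ?_
    have e : W (ZD X t M ω) = W (path X ω) := by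
      simp only [hW]
      rw [HS_congr (hgrid ω)]
    by_cases h1 : path X ω ∈ B
    · have h2 : ZD X t M ω ∈ N ∩ B :=
        ⟨hZN ω, hB _ _ (fun s hs => (hgrid ω s hs).symm) h1⟩
      rw [indicator_of_mem h1, indicator_of_mem h2, e]
    · have h2 : ZD X t M ω ∉ N ∩ B := fun h3 => h1 (hB _ _ (hgrid ω) h3.2)
      rw [indicator_of_notMem h1, indicator_of_notMem h2]
  have hA'c : ∀ f f' : ℝ≥0 → ℝ, (∀ s ∈ S, f s = f' s) → f ∈ A' → f' ∈ A' := by
    intro f f' h h1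
    exact hAc (-f) (-f') (fun s hs => by simp only [Pi.neg_apply]; rw [h s hs]) h1
  have hPL : ∀ w w', (N ∩ A).indicator W w * (N ∩ A').indicator W w' ≤ (E * W (mid w w')) ^ 2 := by
    intro f g
    by_cases h1 : f ∈ N ∩ A
    swap
    · rw [indicator_of_notMem h1, zero_mul]; exact zero_le
    by_cases h2 : g ∈ N ∩ A'
    swap
    · rw [indicator_of_notMem h2, mul_zero]; exact zero_le
    rw [indicator_of_mem h1, indicator_of_mem h2]
    have key := hg f g h1.1 h2.1 h1.2 h2.2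
    have t1 := HS_ne_top hX ht M f
    have t2 := HS_ne_top hX ht M g
    have t3 := HS_ne_top hX ht M (mid f g)
    simp only [hW]
    rw [← ex_add lam t1 t2]
    refine (ex_anti lam (ENNReal.add_ne_top.mpr ⟨t1, t2⟩) key).trans (le_of_eq ?_)
    rw [two_mul, ex_add lam (ENNReal.add_ne_top.mpr ⟨t3, t3⟩) ENNReal.ofReal_ne_top,
      ex_add lam t3 t3, ex_ofReal lam hc]
    have e7 : ENNReal.ofReal (Real.exp (-(lam * c))) = E * E := by
      rw [hE, ← ENNReal.ofReal_mul (Real.exp_pos _).le, ← Real.exp_add]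
      congr 2
      ring
    rw [e7]
    ring
  have h1 := PLp_Dd hX hδ (2 ^ M) ((N ∩ A).indicator W) ((N ∩ A').indicator W)
    (fun f => E * W f) (hWm.indicator (hNm.inter hA)) (hWm.indicator (hNm.inter hA'm))
    (hWm.const_mul E) hPL
  have h2 : (∫⁻ ω, A.indicator W (path X ω) ∂P) * (∫⁻ ω, A'.indicator W (path X ω) ∂P) ≤
      (E * ∫⁻ ω, W (path X ω) ∂P) ^ 2 := by
    rw [hrep A hAc, hrep A' hA'c]
    refine h1.trans (le_of_eq ?_)
    congr 1
    rw [← lintegral_const_mul' _ _ ENNReal.ofReal_ne_top]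
    refine lintegral_congr fun ω => ?_
    simp only [hW]
    congr 2
    exact HS_congr (hgrid ω)
  have h3 : ∫⁻ ω, A'.indicator W (path X ω) ∂P = ∫⁻ ω, A.indicator W (path X ω) ∂P := by
    rw [← lintegral_neg hX (hWm.indicator hA)]
    refine lintegral_congr fun ω => ?_
    by_cases h4 : path X ω ∈ A'
    · have h5 : -path X ω ∈ A := h4
      rw [indicator_of_mem h4, indicator_of_mem h5]
      simp only [hW]
      rw [HS_neg]
    · have h5 : -path X ω ∉ A := h4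
      rw [indicator_of_notMem h4, indicator_of_notMem h5]
  rw [h3, ← pow_two] at h2
  exact (ENNReal.pow_le_pow_left_iff two_ne_zero).mp h2

/-- passage to the limit in the grid -/
lemma WC_of_grid (hX : CBM P X) (lam : ℝ≥0) {t : ℝ≥0} (ht : 0 < t) {A : Set (ℝ≥0 → ℝ)}
    (hA : MeasurableSet A) {B : ℕ → Set (ℝ≥0 → ℝ)} {E : ℝ≥0∞} (hE : E ≠ ∞) {M0 : ℕ}
    (hAB : ∀ M, ∀ ω, path X ω ∈ A → path X ω ∈ B M)
    (h : ∀ M, M0 ≤ M → ∫⁻ ω, (B M).indicator (fun f => ex lam (HS P X (Gr t M) f)) (path X ω) ∂P ≤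
      E * ∫⁻ ω, ex lam (HS P X (Gr t M) (path X ω)) ∂P) :
    WC P X lam t A ≤ E * WC P X lam t univ := by
  classical
  have e0 : WC P X lam t univ = ∫⁻ ω, ex lam (HC P X t (path X ω)) ∂P := by
    rw [WC_eq hX lam t MeasurableSet.univ]
    simp only [indicator_univ]
  rw [WC_eq hX lam t hA, e0]
  have hm : ∀ M, Measurable (fun f => ex lam (HS P X (Gr t M) f)) := fun M =>
    (measurable_ex lam).comp (measurable_HS hX _)
  have l1 : Tendsto (fun M => ∫⁻ ω, A.indicator (fun f => ex lam (HS P X (Gr t M) f)) (path X ω) ∂P)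
      atTop (𝓝 (∫⁻ ω, A.indicator (fun w => ex lam (HC P X t w)) (path X ω) ∂P)) := by
    refine tendsto_lintegral_of_dominated_convergence (fun _ => 1) (fun M => ?_) (fun M => ?_) ?_ ?_
    · exact ((hm M).indicator hA).comp hX.mpath
    · refine Eventually.of_forall fun ω => ?_
      show A.indicator (fun f => ex lam (HS P X (Gr t M) f)) (path X ω) ≤ 1
      by_cases h1 : path X ω ∈ A
      · rw [indicator_of_mem h1]; exact ex_le_one _ _
      · rw [indicator_of_notMem h1]; exact zero_le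
    · simp
    · refine Eventually.of_forall fun ω => ?_
      by_cases h1 : path X ω ∈ A
      · simp_rw [indicator_of_mem h1]
        exact tendsto_ex_HS hX ht (hX.cont ω)
      · simp_rw [indicator_of_notMem h1]
        exact tendsto_const_nhds
  have l2 : Tendsto (fun M => ∫⁻ ω, ex lam (HS P X (Gr t M) (path X ω)) ∂P)
      atTop (𝓝 (∫⁻ ω, ex lam (HC P X t (path X ω)) ∂P)) := by
    refine tendsto_lintegral_of_dominated_convergence (fun _ => 1) (fun M => ?_) (fun M => ?_) ?_ ?_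
    · exact (hm M).comp hX.mpath
    · exact Eventually.of_forall fun ω => ex_le_one _ _
    · simp
    · exact Eventually.of_forall fun ω => tendsto_ex_HS hX ht (hX.cont ω)
  refine le_of_tendsto_of_tendsto l1 (ENNReal.Tendsto.const_mul l2 (Or.inr hE)) ?_
  filter_upwards [eventually_ge_atTop M0] with M hM
  refine le_trans (lintegral_mono fun ω => ?_) (h M hM)
  by_cases h1 : path X ω ∈ A
  · rw [indicator_of_mem h1, indicator_of_mem (hAB M ω h1)]
  · rw [indicator_of_notMem h1]; exact zero_le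

/-- all cells have small oscillation -/
def Reg (m0 : ℕ) (ρ : ℝ) (t : ℝ≥0) : Set (ℝ≥0 → ℝ) :=
  {f | ∀ i : ℕ, i < 2 ^ m0 → mx f (i * (t / 2 ^ m0)) ((i + 1 : ℕ) * (t / 2 ^ m0)) +
    mx (-f) (i * (t / 2 ^ m0)) ((i + 1 : ℕ) * (t / 2 ^ m0)) ≤ ρ}

lemma measurableSet_Reg (m0 : ℕ) (ρ : ℝ) (t : ℝ≥0) : MeasurableSet (Reg m0 ρ t) := by
  have : Reg m0 ρ t = ⋂ i ∈ Finset.range (2 ^ m0),
      {f : ℝ≥0 → ℝ | mx f (i * (t / 2 ^ m0)) ((i + 1 : ℕ) * (t / 2 ^ m0)) +
        mx (-f) (i * (t / 2 ^ m0)) ((i + 1 : ℕ) * (t / 2 ^ m0)) ≤ ρ} := by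
    ext f
    simp [Reg]
  rw [this]
  refine Finset.measurableSet_biInter _ fun i _ => ?_
  exact measurableSet_le ((measurable_mx _ _).add ((measurable_mx _ _).comp measurable_neg))
    measurable_const

lemma osc_cell {f : ℝ≥0 → ℝ} (hf : Continuous f) {a b s s' : ℝ≥0} {ρ : ℝ}
    (h : mx f a b + mx (-f) a b ≤ ρ) (h1 : a ≤ s) (h2 : s ≤ b) (h3 : a ≤ s') (h4 : s' ≤ b) :
    |f s - f s'| ≤ ρ := by
  have k1 := le_mx hf h1 h2
  have k2 := le_mx hf h3 h4
  have k3 : -f s ≤ mx (-f) a b := le_mx (w := -f) hf.neg h1 h2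
  have k4 : -f s' ≤ mx (-f) a b := le_mx (w := -f) hf.neg h3 h4
  rw [abs_le]
  constructor <;> linarith

lemma Reg_near {m0 : ℕ} {ρ : ℝ} {t : ℝ≥0} (ht : 0 < t) {f : ℝ≥0 → ℝ} (hf : Continuous f)
    (hR : f ∈ Reg m0 ρ t) (hρ : 0 ≤ ρ) {k : ℕ} {s : ℝ≥0} (hst : s ≤ t)
    (h1 : (k : ℝ≥0) * (t / 2 ^ m0) ≤ s)
    (h2 : s ≤ k * (t / 2 ^ m0) + 2 * (t / 2 ^ m0)) :
    |f s - f (k * (t / 2 ^ m0))| ≤ 2 * ρ := by
  set τ := t / 2 ^ m0 with hτ
  have hτ0 : 0 < τ := by positivity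
  have ht' : t = ((2 ^ m0 : ℕ) : ℝ≥0) * τ := by rw [hτ]; push_cast; field_simp
  have key : ∀ i : ℕ, (i : ℝ≥0) * τ < s → i < 2 ^ m0 := fun i hi => by
    by_contra hcon
    push Not at hcon
    have : t ≤ (i : ℝ≥0) * τ := by
      rw [ht']
      gcongr
    exact absurd (hst.trans this) (not_le.mpr hi)
  rcases le_total s (((k + 1 : ℕ) : ℝ≥0) * τ) with h3 | h3
  · rcases eq_or_lt_of_le h1 with h4 | h4
    · rw [← h4, sub_self, abs_zero]; linarith
    · have h5 := osc_cell hf (hR k (key k h4)) h1 h3 le_rfl (h1.trans h3)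
      linarith
  · rcases eq_or_lt_of_le h3 with h4 | h4
    · have h6 : ((k : ℕ) : ℝ≥0) * τ < s := by
        rw [← h4]
        gcongr
        exact Nat.lt_succ_self k
      rw [← h4] at h6 ⊢
      have h5 := osc_cell hf (hR k (key k (by rw [← h4]; exact h6))) h6.le le_rfl le_rfl h6.le
      linarith
    · have h6 : ((k : ℕ) : ℝ≥0) * τ < s := by
        refine lt_of_le_of_lt ?_ h4
        gcongr
        exact Nat.le_succ k
      have hkk : ((k : ℕ) : ℝ≥0) * τ ≤ ((k + 1 : ℕ) : ℝ≥0) * τ := by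
        gcongr
        exact Nat.le_succ k
      have h5 := osc_cell hf (hR k (key k h6)) hkk le_rfl le_rfl hkk
      have h7 : s ≤ ((k + 1 + 1 : ℕ) : ℝ≥0) * τ := by
        refine h2.trans (le_of_eq ?_)
        push_cast
        ring
      have h8 := osc_cell hf (hR (k + 1) (key (k + 1) h4)) h3 h7 le_rfl (h3.trans h7)
      have e : f s - f (k * τ) = (f s - f (((k + 1 : ℕ) : ℝ≥0) * τ)) +
        (f (((k + 1 : ℕ) : ℝ≥0) * τ) - f (k * τ)) := by ring
      rw [e]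
      exact (abs_add_le _ _).trans (by linarith)

lemma Reg_near' {m0 : ℕ} {ρ : ℝ} {t : ℝ≥0} (ht : 0 < t) {f : ℝ≥0 → ℝ} (hf : Continuous f)
    (hR : f ∈ Reg m0 ρ t) (hρ : 0 ≤ ρ) {k : ℕ} (hk : k ≤ 2 ^ m0) {s : ℝ≥0}
    (h1 : (k : ℝ≥0) * (t / 2 ^ m0) ≤ s + 2 * (t / 2 ^ m0))
    (h2 : s ≤ k * (t / 2 ^ m0)) :
    |f s - f (k * (t / 2 ^ m0))| ≤ 2 * ρ := by
  set τ := t / 2 ^ m0 with hτ
  have hτ0 : 0 < τ := by positivity
  rcases Nat.lt_or_ge k 1 with h0 | h0
  · have : k = 0 := by omega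
    subst this
    have : s = 0 := by simpa using h2
    rw [this]
    simp
    linarith
  have ek : ((k : ℕ) : ℝ≥0) * τ = ((k - 1 + 1 : ℕ) : ℝ≥0) * τ := by
    congr 2
    omega
  rcases le_total (((k - 1 : ℕ) : ℝ≥0) * τ) s with h3 | h3
  · have h4 : s ≤ ((k - 1 + 1 : ℕ) : ℝ≥0) * τ := by rw [← ek]; exact h2
    have h5 := osc_cell hf (hR (k - 1) (by omega)) h3 h4 (h3.trans h4) le_rfl
    rw [← ek] at h5
    linarith
  · rcases Nat.lt_or_ge k 2 with h6 | h6
    · have : k = 1 := by omega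
      subst this
      simp at h3
      subst h3
      have h5 := osc_cell hf (hR 0 (by omega)) (s := 0) (s' := ((0 + 1 : ℕ) : ℝ≥0) * τ)
        (by simp) zero_le (by simp) le_rfl
      simp at h5 ⊢
      linarith
    · have e2 : ((k - 1 : ℕ) : ℝ≥0) * τ = ((k - 2 + 1 : ℕ) : ℝ≥0) * τ := by
        congr 2
        omega
      have e3 : ((k : ℕ) : ℝ≥0) * τ = ((k - 2 : ℕ) : ℝ≥0) * τ + 2 * τ := by
        have : k = (k - 2) + 2 := by omega
        conv_lhs => rw [this]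
        push_cast
        ring
      have h7 : ((k - 2 : ℕ) : ℝ≥0) * τ ≤ s := by
        rw [e3] at h1
        exact le_of_add_le_add_right h1
      have h8 : s ≤ ((k - 2 + 1 : ℕ) : ℝ≥0) * τ := by rw [← e2]; exact h3
      have h9 := osc_cell hf (hR (k - 2) (by omega)) h7 h8 (h7.trans h8) le_rfl
      rw [← e2] at h9
      have h10 : ((k - 1 : ℕ) : ℝ≥0) * τ ≤ ((k - 1 + 1 : ℕ) : ℝ≥0) * τ := by
        gcongr
        exact Nat.le_succ _
      have h11 := osc_cell hf (hR (k - 1) (by omega)) le_rfl h10 h10 le_rfl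
      rw [← ek] at h11
      have e : f s - f (k * τ) = (f s - f (((k - 1 : ℕ) : ℝ≥0) * τ)) +
        (f (((k - 1 : ℕ) : ℝ≥0) * τ) - f (k * τ)) := by ring
      rw [e]
      exact (abs_add_le _ _).trans (by linarith)

end Pool.Agent.TH970
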