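import Pool.Agent.TH970.Slow8

namespace Pool.Agent.TH970

open MeasureTheory ProbabilityTheory Set Filter Topology
open scoped ENNReal NNReal

set_option linter.unusedSectionVars false
set_option linter.unusedVariables false

variable {Ω : Type*} [MeasurableSpace Ω] {P : Measure Ω} [IsProbabilityMeasure P]
  {X : ℝ≥0 → Ω → ℝ}

/-- slow constant -/
noncomputable def c2 : ℝ := cT / 360

lemma c2_pos : 0 < c2 := div_pos cT_pos (by norm_num)

/-- grid version of the slow displacement event -/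
def SPM (M : ℕ) (h : ℝ) (t τ p q : ℝ≥0) : Set (ℝ≥0 → ℝ) :=
  {f | (∀ s ∈ Gr t M, |f s| ≤ h) ∧
    (∀ s ∈ Gr t M, p ≤ s → s ≤ p + 2 * τ → |f s - f p| ≤ 2 * (h / 20)) ∧
    (∀ s ∈ Gr t M, q ≤ s + 2 * τ → s ≤ q → |f s - f q| ≤ 2 * (h / 20)) ∧
    7 * h / 20 ≤ f q - f p}

lemma measurableSet_SPM (M : ℕ) (h : ℝ) (t τ p q : ℝ≥0) : MeasurableSet (SPM M h t τ p q) := by
  have hpi : ∀ s : ℝ≥0, Measurable (fun f : ℝ≥0 → ℝ => f s) := fun s => measurable_pi_apply s
  have e : SPM M h t τ p q = (⋂ s ∈ Gr t M, {f : ℝ≥0 → ℝ | |f s| ≤ h}) ∩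
      ((⋂ s ∈ Gr t M, {f : ℝ≥0 → ℝ | p ≤ s → s ≤ p + 2 * τ → |f s - f p| ≤ 2 * (h / 20)}) ∩
      ((⋂ s ∈ Gr t M, {f : ℝ≥0 → ℝ | q ≤ s + 2 * τ → s ≤ q → |f s - f q| ≤ 2 * (h / 20)}) ∩
      {f : ℝ≥0 → ℝ | 7 * h / 20 ≤ f q - f p})) := by
    ext f
    simp [SPM]
  rw [e]
  refine MeasurableSet.inter ?_ (MeasurableSet.inter ?_ (MeasurableSet.inter ?_ ?_))
  · exact Finset.measurableSet_biInter _ fun s _ => measurableSet_le (hpi s).abs measurable_const
  · refine Finset.measurableSet_biInter _ fun s _ => ?_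
    by_cases h1 : p ≤ s ∧ s ≤ p + 2 * τ
    · have : {f : ℝ≥0 → ℝ | p ≤ s → s ≤ p + 2 * τ → |f s - f p| ≤ 2 * (h / 20)} =
          {f : ℝ≥0 → ℝ | |f s - f p| ≤ 2 * (h / 20)} := by
        ext f; simp [h1.1, h1.2]
      rw [this]
      exact measurableSet_le ((hpi s).sub (hpi p)).abs measurable_const
    · have : {f : ℝ≥0 → ℝ | p ≤ s → s ≤ p + 2 * τ → |f s - f p| ≤ 2 * (h / 20)} = univ := by
        ext f
        simp only [mem_ofPred_eq, mem_univ, iff_true]
        intro h2 h3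
        exact absurd ⟨h2, h3⟩ h1
      rw [this]
      exact MeasurableSet.univ
  · refine Finset.measurableSet_biInter _ fun s _ => ?_
    by_cases h1 : q ≤ s + 2 * τ ∧ s ≤ q
    · have : {f : ℝ≥0 → ℝ | q ≤ s + 2 * τ → s ≤ q → |f s - f q| ≤ 2 * (h / 20)} =
          {f : ℝ≥0 → ℝ | |f s - f q| ≤ 2 * (h / 20)} := by
        ext f; simp [h1.1, h1.2]
      rw [this]
      exact measurableSet_le ((hpi s).sub (hpi q)).abs measurable_const
    · have : {f : ℝ≥0 → ℝ | q ≤ s + 2 * τ → s ≤ q → |f s - f q| ≤ 2 * (h / 20)} = univ := by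
        ext f
        simp only [mem_ofPred_eq, mem_univ, iff_true]
        intro h2 h3
        exact absurd ⟨h2, h3⟩ h1
      rw [this]
      exact MeasurableSet.univ
  · exact measurableSet_le measurable_const ((hpi q).sub (hpi p))

/-- the slow displacement event -/
def SPc (m0 k k' : ℕ) (h : ℝ) (t : ℝ≥0) : Set (ℝ≥0 → ℝ) :=
  {f | am f t ≤ h ∧ f ∈ Reg m0 (h / 20) t ∧
    7 * h / 20 ≤ f (k' * (t / 2 ^ m0)) - f (k * (t / 2 ^ m0))}

lemma measurableSet_SPc (m0 k k' : ℕ) (h : ℝ) (t : ℝ≥0) : MeasurableSet (SPc m0 k k' h t) := by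
  have hpi : ∀ s : ℝ≥0, Measurable (fun f : ℝ≥0 → ℝ => f s) := fun s => measurable_pi_apply s
  exact (measurableSet_am_le t h).inter ((measurableSet_Reg m0 _ t).inter
    (measurableSet_le measurable_const ((hpi _).sub (hpi _))))

/-- slow displacements have small weight -/
theorem slow_bound (hX : CBM P X) (lam : ℝ≥0) {t : ℝ≥0} (ht : 0 < t) {h : ℝ} (hh : 0 < h)
    {m0 k k' : ℕ} (hm0 : 5 ≤ m0) (hk' : k' ≤ 2 ^ m0)
    (hkk : t ≤ 2 * ((k' : ℝ≥0) * (t / 2 ^ m0) - k * (t / 2 ^ m0)))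
    (hτ1 : 400 * h ^ 2 ≤ ((t / 2 ^ m0 : ℝ≥0) : ℝ)) :
    WC P X lam t (SPc m0 k k' h t) ≤
      ENNReal.ofReal (Real.exp (-(lam * (c2 * h ^ 3 / t)))) * WC P X lam t univ := by
  set τ := t / 2 ^ m0 with hτ
  have hτ0 : 0 < τ := by positivity
  have ht0 : (0:ℝ) < t := by exact_mod_cast ht
  set p : ℝ≥0 := k * τ with hp
  set q : ℝ≥0 := k' * τ with hq
  have hs1 : 20 * h ≤ Real.sqrt τ := by
    apply Real.le_sqrt_of_sq_le
    nlinarith
  have ht' : t = ((2 ^ m0 : ℕ) : ℝ≥0) * τ := by rw [hτ]; push_cast; field_simp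
  set J := (m0 - 5) / 2 with hJ
  have hJ1 : 32 * (4 ^ J * τ) ≤ t := by
    have h1 : 2 * J + 5 ≤ m0 := by omega
    have h2 : (2:ℝ≥0) ^ (2 * J + 5) ≤ 2 ^ m0 := pow_le_pow_right₀ (by norm_num) h1
    calc 32 * (4 ^ J * τ) = 2 ^ (2 * J + 5) * τ := by
          rw [pow_add, pow_mul]
          norm_num
          ring
      _ ≤ 2 ^ m0 * τ := by gcongr
      _ = t := by rw [hτ]; field_simp
  have hJ2 : t ≤ 128 * (4 ^ J * τ) := by
    have h1 : m0 ≤ 2 * J + 7 := by omega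
    have h2 : (2:ℝ≥0) ^ m0 ≤ 2 ^ (2 * J + 7) := pow_le_pow_right₀ (by norm_num) h1
    calc t = 2 ^ m0 * τ := by rw [hτ]; field_simp
      _ ≤ 2 ^ (2 * J + 7) * τ := by gcongr
      _ = 128 * (4 ^ J * τ) := by
          rw [pow_add, pow_mul]
          norm_num
          ring
  have hqt : q ≤ t := by
    rw [hq, ht']
    gcongr
  have hpq : p ≤ q := by
    by_contra hcon
    push Not at hcon
    rw [tsub_eq_zero_of_le hcon.le, mul_zero] at hkk
    exact absurd hkk (not_le.mpr ht)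
  have hpG : p ∈ Gr t m0 := mem_Gr_of ht (hpq.trans hqt)
  have hqG : q ∈ Gr t m0 := mem_Gr_of ht hqt
  set c : ℝ := cT * (Real.sqrt τ / t) * (3 * h / 20 / 9) ^ 2 with hc
  have hcT := cT_pos
  have hc0 : 0 ≤ c := by positivity
  have hcb : 2 * (c2 * h ^ 3 / t) ≤ c := by
    have e : 2 * (c2 * h ^ 3 / t) = cT * (20 * h / t) * (3 * h / 20 / 9) ^ 2 := by
      unfold c2
      field_simp
      norm_num
    rw [e, hc]
    gcongr
  refine (WC_of_grid hX lam ht (measurableSet_SPc m0 k k' h t) (B := fun M => SPM M h t τ p q)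
    (E := ENNReal.ofReal (Real.exp (-(lam * c / 2)))) ENNReal.ofReal_ne_top (M0 := m0 + 1)
    ?_ ?_).trans ?_
  · intro M ω hω
    obtain ⟨h1, h2, h3⟩ := hω
    have hcω := hX.cont ω
    refine ⟨fun s hs => (le_am hcω (le_of_mem_Gr hs)).trans h1, fun s hs h4 h5 => ?_,
      fun s hs h4 h5 => ?_, h3⟩
    · exact Reg_near ht hcω h2 (by positivity) (le_of_mem_Gr hs) h4 h5
    · exact Reg_near' ht hcω h2 (by positivity) hk' h4 h5
  · intro M hM
    refine PL_whole hX lam ht (measurableSet_SPM M h t τ p q) ?_ hc0 ?_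
    · intro f f' hff hf
      have epp : f p = f' p := hff p (Gr_mono t (by omega) hpG)
      have eqq : f q = f' q := hff q (Gr_mono t (by omega) hqG)
      obtain ⟨a1, a2, a3, a4⟩ := hf
      refine ⟨fun s hs => ?_, fun s hs h4 h5 => ?_, fun s hs h4 h5 => ?_, ?_⟩
      · rw [← hff s hs]; exact a1 s hs
      · rw [← hff s hs, ← epp]; exact a2 s hs h4 h5
      · rw [← hff s hs, ← eqq]; exact a3 s hs h4 h5
      · rw [← eqq, ← epp]; exact a4
    · intro f g hf0 hg0 hf hg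
      obtain ⟨a1, a2, a3, a4⟩ := hf
      obtain ⟨b1, b2, b3, b4⟩ := hg
      have b1' : ∀ s ∈ Gr t M, |g s| ≤ h := fun s hs => by
        have := b1 s hs
        simpa only [Pi.neg_apply, abs_neg] using this
      have hne : (Gr t M).Nonempty := ⟨0, zero_mem_Gr t M⟩
      refine HS_gain hX hne ?_
      refine slow_gain hX hM ht hτ hk' hkk hJ1 hJ2 hf0 hg0 hh.le (by linarith) a1 b1'
        (Δ := 3 * h / 20) (cp := (f p - g p) / 2 + 2 * (h / 20))
        (cq := (f q - g q) / 2 - 2 * (h / 20)) (by positivity) ?_ ?_ ?_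
      · simp only [Pi.neg_apply] at b4
        linarith
      · intro s hs h4 h5
        have k1 := abs_le.mp (a2 s hs h4 h5)
        have k2 := abs_le.mp (b2 s hs h4 h5)
        simp only [Pi.neg_apply] at k2
        simp only [mid]
        linarith [k1.1, k1.2, k2.1, k2.2]
      · intro s hs h4 h5
        have k1 := abs_le.mp (a3 s hs h4 h5)
        have k2 := abs_le.mp (b3 s hs h4 h5)
        simp only [Pi.neg_apply] at k2
        simp only [mid]
        linarith [k1.1, k1.2, k2.1, k2.2]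
  · gcongr
    have hl : (0:ℝ) ≤ lam := lam.2
    have : (lam:ℝ) * (2 * (c2 * h ^ 3 / t)) ≤ lam * c := by gcongr
    linarith

/-- symmetry of the weight -/
lemma WC_neg (hX : CBM P X) (lam t : ℝ≥0) {A : Set (ℝ≥0 → ℝ)} (hA : MeasurableSet A) :
    WC P X lam t {f | -f ∈ A} = WC P X lam t A := by
  classical
  have hA' : MeasurableSet {f : ℝ≥0 → ℝ | -f ∈ A} := measurable_neg hA
  rw [WC_eq hX lam t hA', WC_eq hX lam t hA]
  have hm : Measurable (fun w : ℝ≥0 → ℝ => ex lam (HC P X t w)) :=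
    (measurable_ex lam).comp (measurable_HC hX t)
  rw [← lintegral_neg hX (hm.indicator hA)]
  refine lintegral_congr fun ω => ?_
  by_cases h4 : -path X ω ∈ A
  · have h5 : path X ω ∈ {f : ℝ≥0 → ℝ | -f ∈ A} := h4
    rw [indicator_of_mem h5, indicator_of_mem h4]
    show ex lam (HC P X t (path X ω)) = ex lam (HC P X t (-path X ω))
    rw [HC_neg]
  · have h5 : path X ω ∉ {f : ℝ≥0 → ℝ | -f ∈ A} := h4
    rw [indicator_of_notMem h5, indicator_of_notMem h4]

end Pool.Agent.TH970
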