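import Pool.Agent.TH970.Std1

namespace Pool.Agent.TH970

open MeasureTheory ProbabilityTheory Set Filter Topology
open scoped ENNReal NNReal

set_option linter.unusedSectionVars false
set_option linter.unusedVariables false

variable {Ω : Type*} [MeasurableSpace Ω] {P : Measure Ω} [IsProbabilityMeasure P]
  {X : ℝ≥0 → Ω → ℝ}

lemma mx_zero_le (hX : CBM P X) (ω : Ω) {x : ℝ} (hx : 0 ≤ x) : mx (path X ω) 0 0 ≤ x := by
  refine mx_le le_rfl fun s _ hs => ?_
  have : s = 0 := le_antisymm hs zero_le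
  rw [this, hX.path_zero]
  exact hx

lemma mx_lower' (hX : CBM P X) (T : ℝ≥0) {x : ℝ} (hx : 0 < x) :
    ENNReal.ofReal (x / (x + Real.sqrt T) / 3) ≤ P {ω | mx (path X ω) 0 T ≤ x} := by
  rcases eq_or_ne T 0 with h | h
  · subst h
    have : {ω | mx (path X ω) 0 0 ≤ x} = univ := by
      ext ω
      simp only [Set.mem_ofPred_eq, mem_univ, iff_true]
      exact mx_zero_le hX ω hx.le
    rw [this, measure_univ, ← ENNReal.ofReal_one]
    apply ENNReal.ofReal_le_ofReal
    have h1 : x / (x + Real.sqrt ((0:ℝ≥0):ℝ)) ≤ 1 := by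
      rw [div_le_one (by positivity)]
      have := Real.sqrt_nonneg ((0:ℝ≥0):ℝ)
      linarith
    linarith
  · have hT : 0 < T := pos_iff_ne_zero.mpr h
    have hs : 0 < Real.sqrt T := Real.sqrt_pos.mpr hT
    refine le_trans (ENNReal.ofReal_le_ofReal ?_) (mx_lower hX hT hx.le)
    apply div_le_div_of_nonneg_right _ (by norm_num)
    apply le_min
    · rw [div_le_one (by positivity)]
      linarith
    · apply div_le_div_of_nonneg_left hx.le hs
      linarith

lemma mx_upper' (hX : CBM P X) (T : ℝ≥0) {x : ℝ} (hx : 0 < x) :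
    P {ω | mx (path X ω) 0 T ≤ x} ≤ ENNReal.ofReal (2 * x / (x + Real.sqrt T)) := by
  have hs0 := Real.sqrt_nonneg (T:ℝ)
  rcases le_or_gt (Real.sqrt T) x with h | h
  · refine prob_le_one.trans ?_
    rw [← ENNReal.ofReal_one]
    apply ENNReal.ofReal_le_ofReal
    rw [le_div_iff₀ (by positivity)]
    linarith
  · have hs : 0 < Real.sqrt T := hx.trans h
    have hT : 0 < T := by
      have := Real.sqrt_pos.mp hs
      exact_mod_cast this
    refine (mx_upper hX hT hx.le).trans (ENNReal.ofReal_le_ofReal ?_)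
    rw [div_le_div_iff₀ hs (by positivity)]
    nlinarith

/-- The path stays low and falls. -/
lemma fall (hX : CBM P X) {τ : ℝ≥0} (hτ : 0 < τ) {a b : ℝ} (ha : 0 < a) (hb : 0 ≤ b)
    (h : 6 * (a + b) ≤ Real.sqrt τ) :
    ENNReal.ofReal (a / (6 * Real.sqrt τ)) ≤ P {ω | mx (path X ω) 0 τ ≤ a ∧ X τ ω ≤ -b} := by
  have hs : 0 < Real.sqrt τ := Real.sqrt_pos.mpr hτ
  have hτ2 : 0 < τ / 2 := by positivity
  have hs2 : 0 < Real.sqrt (τ / 2 : ℝ≥0) := Real.sqrt_pos.mpr (by exact_mod_cast hτ2)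
  have hsq : Real.sqrt (τ / 2 : ℝ≥0) * Real.sqrt (τ / 2 : ℝ≥0) = τ / 2 := by
    rw [Real.mul_self_sqrt (NNReal.coe_nonneg _)]
    push_cast
    ring
  have hsqt : Real.sqrt τ * Real.sqrt τ = τ := Real.mul_self_sqrt (NNReal.coe_nonneg _)
  -- the bad event
  have hS : MeasurableSet {w : ℝ≥0 → ℝ | mx w 0 (τ / 2) ≤ a ∧ w τ ∈ Icc (-b) a} :=
    (measurableSet_le (measurable_mx 0 (τ / 2)) measurable_const).inter
      ((measurable_pi_apply τ) measurableSet_Icc)
  have hbad : P {ω | mx (path X ω) 0 (τ / 2) ≤ a ∧ X τ ω ∈ Icc (-b) a} ≤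
      ENNReal.ofReal (a / (6 * Real.sqrt τ)) := by
    have h1 : {ω | mx (path X ω) 0 (τ / 2) ≤ a ∧ X τ ω ∈ Icc (-b) a} =
        {ω | path X ω ∈ {w : ℝ≥0 → ℝ | mx w 0 (τ / 2) ≤ a ∧ w τ ∈ Icc (-b) a}} := rfl
    rw [h1, ← prob_cat hX (τ / 2) hS]
    have hA : MeasurableSet {ω | mx (path X ω) 0 (τ / 2) ≤ a} :=
      measurableSet_le ((measurable_mx 0 (τ / 2)).comp hX.mpath) measurable_const
    have hττ : (τ / 2) + (τ / 2) = τ := add_halves τ
    calc ∫⁻ ω, P {ω' | cat (τ / 2) (path X ω) (path X ω') ∈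
            {w : ℝ≥0 → ℝ | mx w 0 (τ / 2) ≤ a ∧ w τ ∈ Icc (-b) a}} ∂P
        ≤ ∫⁻ ω, {ω | mx (path X ω) 0 (τ / 2) ≤ a}.indicator
            (fun _ => ENNReal.ofReal ((a + b) / (2 * Real.sqrt (τ / 2 : ℝ≥0)))) ω ∂P := by
          refine lintegral_mono fun ω => ?_
          by_cases hω : mx (path X ω) 0 (τ / 2) ≤ a
          · rw [indicator_of_mem (by exact hω)]
            refine le_trans (measure_mono ?_) (le_of_le_of_eq (window_upper hX hτ2
              (a := -b - X (τ / 2) ω) (b := a - X (τ / 2) ω) (by linarith)) ?_)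
            · rintro ω' ⟨_, h2⟩
              have h3 : cat (τ / 2) (path X ω) (path X ω') τ =
                  X (τ / 2) ω + X (τ / 2) ω' := by
                nth_rewrite 2 [← hττ]
                rw [cat_add]
                rfl
              rw [h3] at h2
              simp only [Set.mem_ofPred_eq, mem_Icc] at h2 ⊢
              constructor <;> linarith [h2.1, h2.2]
            · congr 2
              ring
          · have : {ω' | cat (τ / 2) (path X ω) (path X ω') ∈
                {w : ℝ≥0 → ℝ | mx w 0 (τ / 2) ≤ a ∧ w τ ∈ Icc (-b) a}} = ∅ := by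
              ext ω'
              simp only [Set.mem_ofPred_eq, mem_empty_iff_false, iff_false, not_and]
              intro h2
              rw [mx_cat_left (hX.path_zero ω')] at h2
              exact absurd h2 hω
            rw [this, measure_empty]
            exact zero_le
      _ = ENNReal.ofReal ((a + b) / (2 * Real.sqrt (τ / 2 : ℝ≥0))) *
            P {ω | mx (path X ω) 0 (τ / 2) ≤ a} := lintegral_indicator_const hA _
      _ ≤ ENNReal.ofReal ((a + b) / (2 * Real.sqrt (τ / 2 : ℝ≥0))) *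
            ENNReal.ofReal (a / Real.sqrt (τ / 2 : ℝ≥0)) := by
          gcongr
          exact mx_upper hX hτ2 ha.le
      _ = ENNReal.ofReal (a * (a + b) / τ) := by
          rw [← ENNReal.ofReal_mul (by positivity)]
          congr 1
          have h4 : (a + b) / (2 * Real.sqrt (τ / 2 : ℝ≥0)) * (a / Real.sqrt (τ / 2 : ℝ≥0)) =
              a * (a + b) / (2 * (Real.sqrt (τ / 2 : ℝ≥0) * Real.sqrt (τ / 2 : ℝ≥0))) := by
            field_simp
          rw [h4, hsq]
          congr 1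
          ring
      _ ≤ ENNReal.ofReal (a / (6 * Real.sqrt τ)) := by
          apply ENNReal.ofReal_le_ofReal
          rw [div_le_div_iff₀ (by exact_mod_cast hτ) (by positivity)]
          calc a * (a + b) * (6 * Real.sqrt τ) = a * (6 * (a + b)) * Real.sqrt τ := by ring
            _ ≤ a * Real.sqrt τ * Real.sqrt τ := by gcongr
            _ = a * τ := by rw [mul_assoc, hsqt]
  have hgood : ENNReal.ofReal (a / (3 * Real.sqrt τ)) ≤ P {ω | mx (path X ω) 0 τ ≤ a} := by
    refine le_trans (ENNReal.ofReal_le_ofReal ?_) (mx_lower hX hτ ha.le)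
    have h1 : a / Real.sqrt τ ≤ 1 := by
      rw [div_le_one hs]
      linarith
    rw [min_eq_right h1]
    apply le_of_eq
    field_simp
  have hcov : P {ω | mx (path X ω) 0 τ ≤ a} ≤ P {ω | mx (path X ω) 0 τ ≤ a ∧ X τ ω ≤ -b} +
      P {ω | mx (path X ω) 0 (τ / 2) ≤ a ∧ X τ ω ∈ Icc (-b) a} := by
    refine le_trans (measure_mono ?_) (measure_union_le _ _)
    intro ω hω
    have hω' : mx (path X ω) 0 τ ≤ a := hω
    rcases le_total (X τ ω) (-b) with h1 | h1
    · exact Or.inl ⟨hω, h1⟩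
    · refine Or.inr ⟨?_, h1, ?_⟩
      · exact (mx_mono (hX.cont ω) zero_le (by
          have := div_le_self (zero_le (a := τ)) (one_le_two (α := ℝ≥0))
          exact this)).trans hω'
      · exact (le_mx (hX.cont ω) zero_le le_rfl).trans hω'
  have h2 := hgood.trans (hcov.trans (add_le_add_right hbad _))
  have h3 : ENNReal.ofReal (a / (3 * Real.sqrt τ)) = ENNReal.ofReal (a / (6 * Real.sqrt τ)) +
      ENNReal.ofReal (a / (6 * Real.sqrt τ)) := by
    rw [← ENNReal.ofReal_add (by positivity) (by positivity)]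
    congr 1
    field_simp
    norm_num
  rw [h3] at h2
  exact (ENNReal.add_le_add_iff_right ENNReal.ofReal_ne_top).mp h2

/-- second moment of the maximum -/
lemma lintegral_mx_sq (hX : CBM P X) (T : ℝ≥0) :
    ∫⁻ ω, ENNReal.ofReal ((mx (path X ω) 0 T) ^ 2) ∂P ≤ ENNReal.ofReal (2 * T) := by
  have h0 : ∀ ω, 0 ≤ mx (path X ω) 0 T := by
    intro ω
    have := le_mx (hX.cont ω) (a := 0) (b := T) (s := 0) le_rfl zero_le
    rwa [hX.path_zero] at this
  rcases eq_or_ne T 0 with h | h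
  · subst h
    have : ∀ ω, ENNReal.ofReal ((mx (path X ω) 0 0) ^ 2) = 0 := by
      intro ω
      have h1 : mx (path X ω) 0 0 = 0 := le_antisymm (mx_zero_le hX ω le_rfl) (h0 ω)
      rw [h1]
      simp
    simp [this]
  have hT : 0 < T := pos_iff_ne_zero.mpr h
  have hm : Measurable (fun ω => mx (path X ω) 0 T) := (measurable_mx 0 T).comp hX.mpath
  rw [lintegral_eq_lintegral_meas_lt P (ae_of_all _ fun ω => sq_nonneg _)
    (hm.pow_const 2).aemeasurable]
  have h1 : ∫⁻ t in Ioi 0, P {ω | t < (mx (path X ω) 0 T) ^ 2} ≤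
      2 * ∫⁻ t in Ioi 0, P {ω | t < (X T ω) ^ 2} := by
    rw [← lintegral_const_mul' _ _ (by norm_num)]
    refine setLIntegral_mono' measurableSet_Ioi fun t ht => ?_
    have ht0 : (0:ℝ) < t := ht
    refine le_trans (measure_mono (t := {ω | Real.sqrt t < mx (path X ω) 0 T}) ?_)
      ((levy hX hT _).trans (mul_le_mul_right (measure_mono ?_) 2))
    · intro ω hω
      have hω' : t < (mx (path X ω) 0 T) ^ 2 := hω
      have h3 := Real.sqrt_lt_sqrt ht0.le hω'
      rwa [Real.sqrt_sq (h0 ω)] at h3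
    · intro ω hω
      have hω' : Real.sqrt t < X T ω := hω
      exact Real.lt_sq_of_sqrt_lt hω'
  refine h1.trans ?_
  have h5 := lintegral_eq_lintegral_meas_lt P (f := fun ω => (X T ω) ^ 2)
    (ae_of_all _ fun ω => sq_nonneg _) ((hX.meas T).pow_const 2).aemeasurable
  rw [← h5, lintegral_sq hX T, ENNReal.ofReal_mul (by norm_num)]
  simp

lemma am_sq_le {w : ℝ≥0 → ℝ} (hw : Continuous w) (hw0 : w 0 = 0) (T : ℝ≥0) :
    (am w T) ^ 2 ≤ (mx w 0 T) ^ 2 + (mx (-w) 0 T) ^ 2 := by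
  obtain ⟨s, _, hs, h⟩ := exists_mx (w := fun s => |w s|) hw.abs (zero_le (a := T))
  have h1 : am w T = |w s| := h
  have h2 := le_mx hw (zero_le (a := s)) hs
  have h3 := le_mx hw.neg (zero_le (a := s)) hs
  have h4 := le_mx hw (zero_le (a := (0:ℝ≥0))) (zero_le (a := T))
  have h5 := le_mx hw.neg (zero_le (a := (0:ℝ≥0))) (zero_le (a := T))
  simp only [Pi.neg_apply, hw0, neg_zero] at h3 h4 h5
  rw [h1]
  rcases abs_cases (w s) with ⟨h6, _⟩ | ⟨h6, _⟩
  · rw [h6]
    have : (w s) ^ 2 ≤ (mx w 0 T) ^ 2 := by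
      apply pow_le_pow_left₀ _ h2
      linarith
    nlinarith [sq_nonneg (mx (-w) 0 T)]
  · rw [h6]
    have : (-w s) ^ 2 ≤ (mx (-w) 0 T) ^ 2 := by
      apply pow_le_pow_left₀ _ h3
      linarith
    nlinarith [sq_nonneg (mx w 0 T)]

/-- second moment of the absolute maximum -/
lemma lintegral_am_sq (hX : CBM P X) (T : ℝ≥0) :
    ∫⁻ ω, ENNReal.ofReal ((am (path X ω) T) ^ 2) ∂P ≤ ENNReal.ofReal (4 * T) := by
  have hm : Measurable (fun w : ℝ≥0 → ℝ => ENNReal.ofReal ((mx w 0 T) ^ 2)) :=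
    ((measurable_mx 0 T).pow_const 2).ennreal_ofReal
  calc ∫⁻ ω, ENNReal.ofReal ((am (path X ω) T) ^ 2) ∂P
      ≤ ∫⁻ ω, (ENNReal.ofReal ((mx (path X ω) 0 T) ^ 2) +
          ENNReal.ofReal ((mx (-path X ω) 0 T) ^ 2)) ∂P := by
        refine lintegral_mono fun ω => ?_
        rw [← ENNReal.ofReal_add (sq_nonneg _) (sq_nonneg _)]
        exact ENNReal.ofReal_le_ofReal (am_sq_le (hX.cont ω) (hX.path_zero ω) T)
    _ = ∫⁻ ω, ENNReal.ofReal ((mx (path X ω) 0 T) ^ 2) ∂P +
          ∫⁻ ω, ENNReal.ofReal ((mx (-path X ω) 0 T) ^ 2) ∂P := by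
        have hm1 : Measurable (fun ω => ENNReal.ofReal ((mx (path X ω) 0 T) ^ 2)) :=
          hm.comp hX.mpath
        rw [lintegral_add_left hm1]
    _ = 2 * ∫⁻ ω, ENNReal.ofReal ((mx (path X ω) 0 T) ^ 2) ∂P := by
        rw [lintegral_neg hX hm, two_mul]
    _ ≤ 2 * ENNReal.ofReal (2 * T) := by
        gcongr
        exact lintegral_mx_sq hX T
    _ = ENNReal.ofReal (4 * T) := by
        rw [show (2:ℝ≥0∞) = ENNReal.ofReal 2 by simp, ← ENNReal.ofReal_mul (by norm_num)]
        congr 1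
        ring

end Pool.Agent.TH970
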