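import Pool.Agent.TH970.Tool2

namespace Pool.Agent.TH970

open MeasureTheory ProbabilityTheory Set Filter Topology
open scoped ENNReal NNReal

set_option linter.unusedSectionVars false
set_option linter.unusedVariables false

variable {Ω : Type*} [MeasurableSpace Ω] {P : Measure Ω} [IsProbabilityMeasure P]
  {X : ℝ≥0 → Ω → ℝ}

/-- tube with small end value -/
lemma tube_end (hX : CBM P X) (b : ℝ≥0) {r : ℝ} (hr : 0 < r) :
    (P {ω | am (path X ω) b ≤ r / 2}) ^ 2 ≤ ENNReal.ofReal (r + 1) *
      P {ω | am (path X ω) (b + b) ≤ r ∧ |X (b + b) ω| ≤ 1} := by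
  classical
  set J : ℕ := ⌊r⌋₊ + 1 with hJ
  have hJr : (J : ℝ) ≤ r + 1 := by
    rw [hJ]
    push_cast
    linarith [Nat.floor_le hr.le]
  set A : Set Ω := {ω | am (path X ω) b ≤ r / 2} with hA
  have hAm : MeasurableSet A := hX.mpath (measurableSet_am_le b (r / 2))
  set Aj : ℕ → Set Ω := fun j => A ∩ {ω | ⌊X b ω + r / 2⌋₊ = j} with hAj
  have hAjm : ∀ j, MeasurableSet (Aj j) := fun j =>
    hAm.inter ((Nat.measurable_floor.comp ((hX.meas b).add_const _)) (measurableSet_singleton j))
  have hcov : A ⊆ ⋃ j ∈ Finset.range J, Aj j := by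
    intro ω hω
    have h1 : |X b ω| ≤ r / 2 := (le_am (hX.cont ω) le_rfl).trans hω
    have h2 := abs_le.mp h1
    simp only [mem_iUnion, Finset.mem_range]
    refine ⟨⌊X b ω + r / 2⌋₊, ?_, hω, rfl⟩
    have h3 : ⌊X b ω + r / 2⌋₊ ≤ ⌊r⌋₊ := Nat.floor_le_floor (by linarith)
    omega
  have hPA : P A ≤ ∑ j ∈ Finset.range J, P (Aj j) :=
    (measure_mono hcov).trans (measure_biUnion_finset_le _ _)
  -- Cauchy-Schwarz
  have hCS : (P A) ^ 2 ≤ J * ∑ j ∈ Finset.range J, (P (Aj j)) ^ 2 := by
    have h1 : (P A) ^ 2 ≤ (∑ j ∈ Finset.range J, P (Aj j)) ^ 2 := by gcongr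
    refine h1.trans ?_
    have h2 : ∀ j, P (Aj j) = ENNReal.ofReal (P.real (Aj j)) := fun j =>
      (ofReal_measureReal (measure_ne_top _ _)).symm
    simp_rw [h2]
    rw [← ENNReal.ofReal_sum_of_nonneg (fun _ _ => measureReal_nonneg),
      ← ENNReal.ofReal_pow (Finset.sum_nonneg fun _ _ => measureReal_nonneg)]
    simp_rw [← ENNReal.ofReal_pow measureReal_nonneg]
    rw [← ENNReal.ofReal_sum_of_nonneg (fun _ _ => sq_nonneg _), ← ENNReal.ofReal_natCast,
      ← ENNReal.ofReal_mul (Nat.cast_nonneg _)]
    apply ENNReal.ofReal_le_ofReal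
    have := sq_sum_le_card_mul_sum_sq (s := Finset.range J) (f := fun j => P.real (Aj j))
    rwa [Finset.card_range] at this
  -- lower bound of the probability
  set S : Set (ℝ≥0 → ℝ) := {w | am w (b + b) ≤ r ∧ |w (b + b)| ≤ 1} with hS
  have hSm : MeasurableSet S :=
    (measurableSet_am_le _ _).inter (measurableSet_le (measurable_pi_apply _).abs measurable_const)
  have hprob : ∑ j ∈ Finset.range J, (P (Aj j)) ^ 2 ≤
      P {ω | am (path X ω) (b + b) ≤ r ∧ |X (b + b) ω| ≤ 1} := by
    have e1 : P {ω | am (path X ω) (b + b) ≤ r ∧ |X (b + b) ω| ≤ 1} = P {ω | path X ω ∈ S} := rfl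
    rw [e1, ← prob_cat hX b hSm]
    calc ∑ j ∈ Finset.range J, (P (Aj j)) ^ 2
        = ∑ j ∈ Finset.range J, ∫⁻ ω, (Aj j).indicator (fun _ => P (Aj j)) ω ∂P := by
          refine Finset.sum_congr rfl fun j _ => ?_
          rw [lintegral_indicator_const (hAjm j), sq]
      _ = ∫⁻ ω, ∑ j ∈ Finset.range J, (Aj j).indicator (fun _ => P (Aj j)) ω ∂P := by
          rw [lintegral_finsetSum]
          intro j _
          exact measurable_const.indicator (hAjm j)
      _ ≤ _ := by
          refine lintegral_mono fun ω => ?_
          by_cases hω : ω ∈ A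
          · rw [Finset.sum_eq_single ⌊X b ω + r / 2⌋₊]
            · rw [indicator_of_mem (show ω ∈ Aj _ from ⟨hω, rfl⟩)]
              -- replace the second path by its negative
              have hcm : MeasurableSet {z : ℝ≥0 → ℝ | cat b (path X ω) (-z) ∈ S} := by
                have : Measurable (fun z : ℝ≥0 → ℝ => cat b (path X ω) (-z)) := by
                  refine measurable_pi_iff.mpr fun s => ?_
                  exact measurable_const.add ((measurable_pi_apply (s - b)).neg)
                exact this hSm
              have h1 := prob_neg hX hcm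
              simp only [Set.mem_ofPred_eq, neg_neg] at h1
              rw [h1]
              refine measure_mono ?_
              rintro ω' ⟨h2, h3⟩
              have hz0 : (-path X ω') 0 = 0 := by simp [hX.path_zero ω']
              have h4 : am (path X ω) b ≤ r / 2 := hω
              have h5 : am (path X ω') b ≤ r / 2 := h2
              refine ⟨?_, ?_⟩
              · rw [am_le_iff (continuous_cat (hX.cont ω) (hX.cont ω').neg)]
                intro s hs
                rcases le_total s b with h6 | h6
                · rw [cat_left hz0 h6]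
                  exact ((le_am (hX.cont ω) h6).trans h4).trans (by linarith)
                · rw [cat_right h6]
                  have h7 := (le_am (hX.cont ω) (le_refl b)).trans h4
                  have h8 := (le_am (hX.cont ω') (s := s - b) (b := b) (by
                    rw [tsub_le_iff_right]; exact hs)).trans h5
                  calc |path X ω b + (-path X ω') (s - b)| ≤
                        |path X ω b| + |(-path X ω') (s - b)| := abs_add_le _ _
                    _ ≤ r := by
                      simp only [Pi.neg_apply, abs_neg]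
                      linarith
              · rw [cat_add]
                simp only [Pi.neg_apply]
                have h7 := abs_le.mp ((le_am (hX.cont ω) (le_refl b)).trans h4)
                have h8 := abs_le.mp ((le_am (hX.cont ω') (le_refl b)).trans h5)
                simp only [path] at h7 h8 ⊢
                have f1 := Nat.floor_le (a := X b ω + r / 2) (by linarith)
                have f2 := Nat.lt_floor_add_one (X b ω + r / 2)
                have f3 := Nat.floor_le (a := X b ω' + r / 2) (by linarith)
                have f4 := Nat.lt_floor_add_one (X b ω' + r / 2)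
                have h9 : ⌊X b ω' + r / 2⌋₊ = ⌊X b ω + r / 2⌋₊ := h3
                rw [h9] at f3 f4
                rw [abs_le]
                constructor <;> linarith
            · intro j _ hj
              rw [indicator_of_notMem]
              rintro ⟨_, h3⟩
              exact hj h3.symm
            · intro h1
              exfalso
              apply h1
              have h2 := hcov hω
              simp only [mem_iUnion, Finset.mem_range] at h2
              obtain ⟨j, hj, _, h3⟩ := h2
              have h4 : ⌊X b ω + r / 2⌋₊ = j := h3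
              rw [h4]
              exact Finset.mem_range.mpr hj
          · rw [Finset.sum_eq_zero]
            · exact zero_le
            · intro j _
              rw [indicator_of_notMem]
              intro h1
              exact hω h1.1
  calc (P A) ^ 2 ≤ J * ∑ j ∈ Finset.range J, (P (Aj j)) ^ 2 := hCS
    _ ≤ ENNReal.ofReal (r + 1) * P {ω | am (path X ω) (b + b) ≤ r ∧ |X (b + b) ω| ≤ 1} := by
        gcongr
        rw [← ENNReal.ofReal_natCast]
        exact ENNReal.ofReal_le_ofReal hJr

/-- lower bound for a tube with small end value -/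
lemma tube_end_lower (hX : CBM P X) (b : ℝ≥0) {r : ℝ} (hr : 0 < r) :
    ENNReal.ofReal (Real.exp (-(2 * (32 * b / (r / 2) ^ 2 + 2))) / (r + 1)) ≤
      P {ω | am (path X ω) (b + b) ≤ r ∧ |X (b + b) ω| ≤ 1} := by
  have h1 := tube_end hX b hr
  have h2 := small_ball_lower hX b (show 0 < r / 2 by linarith)
  have h3 : ENNReal.ofReal (Real.exp (-(2 * (32 * b / (r / 2) ^ 2 + 2)))) ≤
      ENNReal.ofReal (r + 1) *
      P {ω | am (path X ω) (b + b) ≤ r ∧ |X (b + b) ω| ≤ 1} := by
    refine le_trans ?_ h1
    refine le_trans (le_of_eq ?_) (pow_le_pow_left' h2 2)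
    rw [← ENNReal.ofReal_pow (Real.exp_pos _).le, ← Real.exp_nat_mul]
    congr 2
    push_cast
    ring
  rw [ENNReal.ofReal_div_of_pos (by linarith)]
  refine ENNReal.div_le_of_le_mul' h3

end Pool.Agent.TH970
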