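import Pool.Agent.TH970.Tool3

namespace Pool.Agent.TH970

open MeasureTheory ProbabilityTheory Set Filter Topology
open scoped ENNReal NNReal

set_option linter.unusedSectionVars false
set_option linter.unusedVariables false

variable {Ω : Type*} [MeasurableSpace Ω] {P : Measure Ω} [IsProbabilityMeasure P]
  {X : ℝ≥0 → Ω → ℝ}

lemma mx_congr {w w' : ℝ≥0 → ℝ} {a b : ℝ≥0} (hab : a ≤ b)
    (h : ∀ s, a ≤ s → s ≤ b → w s = w' s) : mx w a b = mx w' a b := by
  unfold mx
  congr 1
  ext n
  exact h _ (le_max_left _ _) (max_le hab (min_le_right _ _))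

lemma mx_cat_ge {b a c : ℝ≥0} {w z : ℝ≥0 → ℝ} (hw : Continuous w) (hz : Continuous z)
    (hba : b ≤ a) (hac : a ≤ c) : mx (cat b w z) a c = w b + mx z (a - b) (c - b) := by
  apply le_antisymm
  · refine mx_le hac fun s h1 h2 => ?_
    rw [cat_right (hba.trans h1)]
    have := le_mx hz (tsub_le_tsub_right h1 b) (tsub_le_tsub_right h2 b)
    linarith
  · obtain ⟨s, h1, h2, h3⟩ := exists_mx hz (tsub_le_tsub_right hac b)
    rw [h3, ← cat_add (b := b)]
    refine le_mx (continuous_cat hw hz) ?_ ?_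
    · calc a = b + (a - b) := (add_tsub_cancel_of_le hba).symm
        _ ≤ b + s := by gcongr
    · calc b + s ≤ b + (c - b) := by gcongr
        _ = c := add_tsub_cancel_of_le (hba.trans hac)

lemma mx_cat_le {b a c : ℝ≥0} {w z : ℝ≥0 → ℝ} (hz0 : z 0 = 0) (hac : a ≤ c) (hcb : c ≤ b) :
    mx (cat b w z) a c = mx w a c :=
  mx_congr hac fun s _ h2 => cat_left hz0 (h2.trans hcb)

/-- time reversed fall -/
lemma fall_rev (hX : CBM P X) {τ : ℝ≥0} (hτ : 0 < τ) {a b : ℝ} (ha : 0 < a) (hb : 0 ≤ b)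
    (h : 6 * (a + b) ≤ Real.sqrt τ) :
    ENNReal.ofReal (a / (6 * Real.sqrt τ)) ≤
      P {ω | mx (path X ω) 0 τ - X τ ω ≤ a ∧ b ≤ X τ ω} := by
  have h0 := fall hX hτ ha hb h
  have hS : MeasurableSet {w : ℝ≥0 → ℝ | mx w 0 τ ≤ a ∧ w τ ≤ -b} :=
    (measurableSet_le (measurable_mx 0 τ) measurable_const).inter
      (measurableSet_le (measurable_pi_apply τ) measurable_const)
  have hS' : MeasurableSet {w : ℝ≥0 → ℝ | -w ∈ {w : ℝ≥0 → ℝ | mx w 0 τ ≤ a ∧ w τ ≤ -b}} :=
    measurable_neg hS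
  have h1 := prob_rev hX τ hS'
  have h2 := prob_neg hX hS
  have h3 : {ω | path X ω ∈ {w : ℝ≥0 → ℝ | -w ∈ {w : ℝ≥0 → ℝ | mx w 0 τ ≤ a ∧ w τ ≤ -b}}} =
    {ω | -path X ω ∈ {w : ℝ≥0 → ℝ | mx w 0 τ ≤ a ∧ w τ ≤ -b}} := rfl
  rw [h3, h2] at h1
  refine h0.trans (le_of_eq ?_)
  have h4 : P {ω | mx (path X ω) 0 τ ≤ a ∧ X τ ω ≤ -b} =
    P {ω | path X ω ∈ {w : ℝ≥0 → ℝ | mx w 0 τ ≤ a ∧ w τ ≤ -b}} := rfl
  rw [h4, ← h1]
  congr 1
  ext ω
  simp only [Set.mem_ofPred_eq]
  rw [mx_end (hX.cont ω)]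
  have h5 : (-rev τ (path X ω)) τ = -X τ ω := by
    simp only [Pi.neg_apply, rev, max_self, tsub_self, hX.path_zero, sub_zero]
    rfl
  rw [h5]
  simp only [path]
  constructor
  · rintro ⟨h6, h7⟩
    exact ⟨h6, by linarith⟩
  · rintro ⟨h6, h7⟩
    exact ⟨h6, by linarith⟩

/-- comparison function -/
noncomputable def pih (h : ℝ) (T : ℝ≥0) : ℝ := h / (h + Real.sqrt T)

lemma pih_pos {h : ℝ} (hh : 0 < h) (T : ℝ≥0) : 0 < pih h T := by
  unfold pih
  positivity

lemma pih_le_one {h : ℝ} (hh : 0 < h) (T : ℝ≥0) : pih h T ≤ 1 := by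
  unfold pih
  rw [div_le_one (by positivity)]
  linarith [Real.sqrt_nonneg (T:ℝ)]

lemma pih_half {h : ℝ} (hh : 0 < h) (T : ℝ≥0) : pih h T / 2 ≤ pih (h / 2) T := by
  unfold pih
  have := Real.sqrt_nonneg (T:ℝ)
  rw [div_div, div_le_div_iff₀ (by positivity) (by positivity)]
  nlinarith

lemma pih_scale {h x : ℝ} (hh : 0 < h) (hx : h ≤ x) (T : ℝ≥0) : pih x T ≤ x / h * pih h T := by
  unfold pih
  have := Real.sqrt_nonneg (T:ℝ)
  have e : x / h * (h / (h + Real.sqrt T)) = x / (h + Real.sqrt T) := by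
    field_simp
  rw [e]
  apply div_le_div_of_nonneg_left (by linarith) (by positivity)
  linarith

/-- the one sided good events -/
def GoodL (a h : ℝ) (b1 p0 : ℝ≥0) : Set (ℝ≥0 → ℝ) :=
  {y | p0 = 0 ∨ (mx y b1 p0 - y p0 ≤ a ∧ 3 * h ≤ y p0 - y b1 ∧ mx y 0 b1 - y b1 ≤ h / 2)}

def GoodR (a h : ℝ) (β R : ℝ≥0) : Set (ℝ≥0 → ℝ) :=
  {y | R = 0 ∨ (mx y 0 β ≤ a ∧ y β ≤ -(3 * h) ∧ mx y β R - y β ≤ h / 2)}

lemma meas_or_const {A : Type*} [MeasurableSpace A] {q : Prop} {p : A → Prop}
    (h : MeasurableSet {w | p w}) : MeasurableSet {w | q ∨ p w} := by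
  by_cases hq : q
  · simp only [hq, true_or]
    exact MeasurableSet.univ
  · simp only [hq, false_or]
    exact h

lemma measurableSet_GoodL (a h : ℝ) (b1 p0 : ℝ≥0) : MeasurableSet (GoodL a h b1 p0) := by
  unfold GoodL
  refine meas_or_const ?_
  refine (measurableSet_le ((measurable_mx b1 p0).sub (measurable_pi_apply p0))
    measurable_const).inter ((measurableSet_le measurable_const
    ((measurable_pi_apply p0).sub (measurable_pi_apply b1))).inter ?_)
  exact measurableSet_le ((measurable_mx 0 b1).sub (measurable_pi_apply b1)) measurable_const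

lemma measurableSet_GoodR (a h : ℝ) (β R : ℝ≥0) : MeasurableSet (GoodR a h β R) := by
  unfold GoodR
  refine meas_or_const ?_
  refine (measurableSet_le (measurable_mx 0 β) measurable_const).inter ((measurableSet_le
    (measurable_pi_apply β) measurable_const).inter ?_)
  exact measurableSet_le ((measurable_mx β R).sub (measurable_pi_apply β)) measurable_const

lemma q_le_one {a h : ℝ} {τ : ℝ≥0} (hτ : 0 < τ) (ha : 0 < a) (hh : 0 < h)
    (h6 : 6 * (a + 3 * h) ≤ Real.sqrt τ) (T : ℝ≥0) : a / (36 * Real.sqrt τ) * pih h T ≤ 1 := by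
  have hs : 0 < Real.sqrt τ := Real.sqrt_pos.mpr hτ
  have h1 : a / (36 * Real.sqrt τ) ≤ 1 := by
    rw [div_le_one (by positivity)]
    linarith
  have h2 := pih_le_one hh T
  have h3 := pih_pos hh T
  have h4 : 0 < a / (36 * Real.sqrt τ) := by positivity
  nlinarith

lemma prob_GoodL (hX : CBM P X) {τ : ℝ≥0} (hτ : 0 < τ) {a h : ℝ} (ha : 0 < a) (hh : 0 < h)
    (h6 : 6 * (a + 3 * h) ≤ Real.sqrt τ) {b1 p0 : ℝ≥0} (hcase : (b1 = 0 ∧ p0 = 0) ∨ b1 + τ = p0) :
    ENNReal.ofReal (a / (36 * Real.sqrt τ) * pih h b1) ≤ P {ω | path X ω ∈ GoodL a h b1 p0} := by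
  have hs : 0 < Real.sqrt τ := Real.sqrt_pos.mpr hτ
  rcases hcase with ⟨h1, h2⟩ | hcase
  · have : {ω | path X ω ∈ GoodL a h b1 p0} = univ := by
      ext ω
      simp [GoodL, h2]
    rw [this, measure_univ, ← ENNReal.ofReal_one]
    exact ENNReal.ofReal_le_ofReal (q_le_one hτ ha hh h6 b1)
  · rw [← prob_cat hX b1 (measurableSet_GoodL a h b1 p0)]
    set A : Set Ω := {ω | mx (path X ω) 0 b1 - X b1 ω ≤ h / 2} with hA
    set B : Set Ω := {ω | mx (path X ω) 0 τ - X τ ω ≤ a ∧ 3 * h ≤ X τ ω} with hB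
    have hAm : MeasurableSet A := measurableSet_le
      (((measurable_mx 0 b1).comp hX.mpath).sub (hX.meas b1)) measurable_const
    have hPA : ENNReal.ofReal (pih h b1 / 2 / 3) ≤ P A := by
      rw [hA, end_law hX]
      refine le_trans (ENNReal.ofReal_le_ofReal ?_) (mx_lower' hX b1 (show 0 < h / 2 by linarith))
      apply div_le_div_of_nonneg_right _ (by norm_num)
      exact pih_half hh b1
    have hPB : ENNReal.ofReal (a / (6 * Real.sqrt τ)) ≤ P B := fall_rev hX hτ ha (by linarith) h6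
    calc ENNReal.ofReal (a / (36 * Real.sqrt τ) * pih h b1)
        = ENNReal.ofReal (a / (6 * Real.sqrt τ)) * ENNReal.ofReal (pih h b1 / 2 / 3) := by
          rw [← ENNReal.ofReal_mul (by positivity)]
          congr 1
          field_simp
          ring
      _ ≤ P B * P A := mul_le_mul' hPB hPA
      _ = ∫⁻ ω in A, P B ∂P := by rw [setLIntegral_const]
      _ ≤ ∫⁻ ω in A, P {ω' | cat b1 (path X ω) (path X ω') ∈ GoodL a h b1 p0} ∂P := by
          refine setLIntegral_mono' hAm fun ω hω => measure_mono fun ω' hω' => ?_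
          refine Or.inr ?_
          have e1 : cat b1 (path X ω) (path X ω') p0 = X b1 ω + X τ ω' := by
            rw [← hcase, cat_add]
            rfl
          have e2 : cat b1 (path X ω) (path X ω') b1 = X b1 ω := cat_left (hX.path_zero ω') le_rfl
          have e3 : mx (cat b1 (path X ω) (path X ω')) b1 p0 = X b1 ω + mx (path X ω') 0 τ := by
            rw [mx_cat_right (hX.cont ω) (hX.cont ω') (by rw [← hcase]; exact le_self_add),
              ← hcase, add_tsub_cancel_left]
            rfl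
          rw [e1, e2, e3, mx_cat_left (hX.path_zero ω')]
          have h7 : mx (path X ω) 0 b1 - X b1 ω ≤ h / 2 := hω
          have h8 : mx (path X ω') 0 τ - X τ ω' ≤ a := hω'.1
          have h9 : 3 * h ≤ X τ ω' := hω'.2
          exact ⟨by linarith, by linarith, h7⟩
      _ ≤ _ := setLIntegral_le_lintegral _ _

lemma prob_GoodR (hX : CBM P X) {τ : ℝ≥0} (hτ : 0 < τ) {a h : ℝ} (ha : 0 < a) (hh : 0 < h)
    (h6 : 6 * (a + 3 * h) ≤ Real.sqrt τ) {β R : ℝ≥0} (hcase : (β = 0 ∧ R = 0) ∨ (β = τ ∧ τ ≤ R)) :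
    ENNReal.ofReal (a / (36 * Real.sqrt τ) * pih h (R - β)) ≤
      P {ω | path X ω ∈ GoodR a h β R} := by
  have hs : 0 < Real.sqrt τ := Real.sqrt_pos.mpr hτ
  rcases hcase with ⟨h1, h2⟩ | ⟨h1, h2⟩
  · have : {ω | path X ω ∈ GoodR a h β R} = univ := by
      ext ω
      simp [GoodR, h2]
    rw [this, measure_univ, ← ENNReal.ofReal_one]
    exact ENNReal.ofReal_le_ofReal (q_le_one hτ ha hh h6 _)
  · subst h1
    rw [← prob_cat hX β (measurableSet_GoodR a h β R)]
    set A : Set Ω := {ω | mx (path X ω) 0 β ≤ a ∧ X β ω ≤ -(3 * h)} with hA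
    set B : Set Ω := {ω | mx (path X ω) 0 (R - β) ≤ h / 2} with hB
    have hAm : MeasurableSet A := (measurableSet_le
      ((measurable_mx 0 β).comp hX.mpath) measurable_const).inter
      (measurableSet_le (hX.meas β) measurable_const)
    have hPB : ENNReal.ofReal (pih h (R - β) / 2 / 3) ≤ P B := by
      refine le_trans (ENNReal.ofReal_le_ofReal ?_)
        (mx_lower' hX (R - β) (show 0 < h / 2 by linarith))
      apply div_le_div_of_nonneg_right _ (by norm_num)
      exact pih_half hh _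
    have hPA : ENNReal.ofReal (a / (6 * Real.sqrt β)) ≤ P A := fall hX hτ ha (by linarith) h6
    calc ENNReal.ofReal (a / (36 * Real.sqrt β) * pih h (R - β))
        = ENNReal.ofReal (pih h (R - β) / 2 / 3) * ENNReal.ofReal (a / (6 * Real.sqrt β)) := by
          rw [← ENNReal.ofReal_mul (by have := pih_pos hh (R - β); positivity)]
          congr 1
          field_simp
          ring
      _ ≤ P B * P A := mul_le_mul' hPB hPA
      _ = ∫⁻ ω in A, P B ∂P := by rw [setLIntegral_const]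
      _ ≤ ∫⁻ ω in A, P {ω' | cat β (path X ω) (path X ω') ∈ GoodR a h β R} ∂P := by
          refine setLIntegral_mono' hAm fun ω hω => measure_mono fun ω' hω' => ?_
          refine Or.inr ?_
          have e2 : cat β (path X ω) (path X ω') β = X β ω := cat_left (hX.path_zero ω') le_rfl
          rw [e2, mx_cat_left (hX.path_zero ω'), mx_cat_right (hX.cont ω) (hX.cont ω') h2]
          have h7 : mx (path X ω) 0 β ≤ a := hω.1
          have h8 : X β ω ≤ -(3 * h) := hω.2
          have h9 : mx (path X ω') 0 (R - β) ≤ h / 2 := hω'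
          refine ⟨h7, h8, ?_⟩
          simp only [path] at h9 ⊢
          linarith
      _ ≤ _ := setLIntegral_le_lintegral _ _

/-- shifted increments of a path -/
def incr (b : ℝ≥0) (y : ℝ≥0 → ℝ) : ℝ≥0 → ℝ := fun s => y (b + s) - y b

lemma incr_cat {b : ℝ≥0} {w z : ℝ≥0 → ℝ} (hz0 : z 0 = 0) : incr b (cat b w z) = z := by
  ext s
  unfold incr
  rw [cat_add, cat_left hz0 le_rfl]
  ring

lemma measurable_incr (b : ℝ≥0) : Measurable (incr b) := by
  unfold incr
  fun_prop

/-- the good event of the block step -/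
def GoodE (a h : ℝ) (b1 p0 p1 β t : ℝ≥0) : Set (ℝ≥0 → ℝ) :=
  {y | y ∈ GoodL a h b1 p0 ∧ am (incr p0 y) (p1 - p0) ≤ a ∧ incr p1 y ∈ GoodR a h β (t - p1)}

lemma measurableSet_GoodE (a h : ℝ) (b1 p0 p1 β t : ℝ≥0) :
    MeasurableSet (GoodE a h b1 p0 p1 β t) := by
  unfold GoodE
  refine (measurableSet_GoodL a h b1 p0).inter (MeasurableSet.inter ?_ ?_)
  · exact measurableSet_le ((measurable_am _).comp (measurable_incr p0)) measurable_const
  · exact (measurable_incr p1) (measurableSet_GoodR a h β (t - p1))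

lemma GoodL_cat {a h : ℝ} {b1 p0 : ℝ≥0} {w z : ℝ≥0 → ℝ} (hz0 : z 0 = 0) (hb : b1 ≤ p0)
    (h1 : w ∈ GoodL a h b1 p0) : cat p0 w z ∈ GoodL a h b1 p0 := by
  rcases h1 with h1 | ⟨h1, h2, h3⟩
  · exact Or.inl h1
  · refine Or.inr ?_
    rw [mx_cat_le hz0 hb le_rfl, mx_cat_le hz0 zero_le hb, cat_left hz0 le_rfl, cat_left hz0 hb]
    exact ⟨h1, h2, h3⟩

lemma prob_GoodE (hX : CBM P X) {τ : ℝ≥0} (hτ : 0 < τ) {a h : ℝ} (ha : 0 < a) (hh : 0 < h)
    (h6 : 6 * (a + 3 * h) ≤ Real.sqrt τ) {b1 p0 p1 β t : ℝ≥0}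
    (hcL : (b1 = 0 ∧ p0 = 0) ∨ b1 + τ = p0) (hp : p0 ≤ p1) (hpt : p1 ≤ t)
    (hcR : (β = 0 ∧ t - p1 = 0) ∨ (β = τ ∧ τ ≤ t - p1)) :
    ENNReal.ofReal ((a / (36 * Real.sqrt τ)) ^ 2 *
      Real.exp (-(32 * (p1 - p0 : ℝ≥0) / a ^ 2 + 2)) * (pih h b1 * pih h (t - p1 - β))) ≤
      P {ω | path X ω ∈ GoodE a h b1 p0 p1 β t} := by
  have hb : b1 ≤ p0 := by
    rcases hcL with ⟨h1, h2⟩ | h1
    · rw [h1, h2]
    · rw [← h1]; exact le_self_add
  have hs : 0 < Real.sqrt τ := Real.sqrt_pos.mpr hτ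
  have hL := prob_GoodL hX hτ ha hh h6 hcL
  have hR := prob_GoodR hX hτ ha hh h6 hcR
  have hM := small_ball_lower hX (p1 - p0) ha
  set PL := P {ω | path X ω ∈ GoodL a h b1 p0} with hPL
  set PM := P {ω | am (path X ω) (p1 - p0) ≤ a} with hPM
  set PR := P {ω | path X ω ∈ GoodR a h β (t - p1)} with hPR
  have hLm : MeasurableSet {ω | path X ω ∈ GoodL a h b1 p0} :=
    hX.mpath (measurableSet_GoodL a h b1 p0)
  have hMm : MeasurableSet {ω | am (path X ω) (p1 - p0) ≤ a} :=
    hX.mpath (measurableSet_am_le _ _)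
  have hEm := measurableSet_GoodE a h b1 p0 p1 β t
  have h1 : PR * PM * PL ≤ P {ω | path X ω ∈ GoodE a h b1 p0 p1 β t} := by
    rw [← prob_cat hX p0 hEm]
    calc PR * PM * PL = ∫⁻ ω in {ω | path X ω ∈ GoodL a h b1 p0}, PR * PM ∂P := by
          rw [setLIntegral_const]
      _ ≤ ∫⁻ ω in {ω | path X ω ∈ GoodL a h b1 p0},
            P {ω' | cat p0 (path X ω) (path X ω') ∈ GoodE a h b1 p0 p1 β t} ∂P := by
          refine setLIntegral_mono' hLm fun ω hω => ?_
          have hEm' : MeasurableSet {z : ℝ≥0 → ℝ | cat p0 (path X ω) z ∈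
              GoodE a h b1 p0 p1 β t} := by
            have : Measurable (fun z : ℝ≥0 → ℝ => cat p0 (path X ω) z) := by
              refine measurable_pi_iff.mpr fun s => ?_
              exact measurable_const.add (measurable_pi_apply (s - p0))
            exact this hEm
          have h2 := prob_cat hX (p1 - p0) hEm'
          have h3 : P {ω' | cat p0 (path X ω) (path X ω') ∈ GoodE a h b1 p0 p1 β t} =
            P {ω' | path X ω' ∈ {z : ℝ≥0 → ℝ | cat p0 (path X ω) z ∈
              GoodE a h b1 p0 p1 β t}} := rfl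
          rw [h3, ← h2]
          calc PR * PM = ∫⁻ ω' in {ω | am (path X ω) (p1 - p0) ≤ a}, PR ∂P := by
                rw [setLIntegral_const]
            _ ≤ ∫⁻ ω' in {ω | am (path X ω) (p1 - p0) ≤ a},
                  P {ω'' | cat (p1 - p0) (path X ω') (path X ω'') ∈
                    {z : ℝ≥0 → ℝ | cat p0 (path X ω) z ∈ GoodE a h b1 p0 p1 β t}} ∂P := by
                refine setLIntegral_mono' hMm fun ω' hω' => measure_mono fun ω'' hω'' => ?_
                have hz0 : cat (p1 - p0) (path X ω') (path X ω'') 0 = 0 := by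
                  rw [cat_left (hX.path_zero ω'') zero_le, hX.path_zero]
                refine ⟨GoodL_cat hz0 hb hω, ?_, ?_⟩
                · rw [incr_cat hz0]
                  have e : am (cat (p1 - p0) (path X ω') (path X ω'')) (p1 - p0) =
                      am (path X ω') (p1 - p0) := by
                    unfold am
                    refine mx_congr zero_le fun s _ hs => ?_
                    rw [cat_left (hX.path_zero ω'') hs]
                  rw [e]
                  exact hω'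
                · have e : incr p1 (cat p0 (path X ω) (cat (p1 - p0) (path X ω')
                      (path X ω''))) = path X ω'' := by
                    ext s
                    unfold incr
                    have e1 : p1 = p0 + (p1 - p0) := (add_tsub_cancel_of_le hp).symm
                    have e2 : p1 + s = p0 + ((p1 - p0) + s) := by
                      rw [← add_assoc, ← e1]
                    rw [e2, cat_add, cat_add]
                    have e3 : cat p0 (path X ω) (cat (p1 - p0) (path X ω') (path X ω'')) p1 =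
                        path X ω p0 + path X ω' (p1 - p0) := by
                      rw [cat_right hp, cat_left (hX.path_zero ω'') le_rfl]
                    rw [e3]
                    ring
                  rw [e]
                  exact hω''
            _ ≤ _ := setLIntegral_le_lintegral _ _
      _ ≤ _ := setLIntegral_le_lintegral _ _
  refine le_trans ?_ h1
  refine le_trans (le_of_eq ?_) (mul_le_mul' (mul_le_mul' hR hM) hL)
  have q1 := pih_pos hh b1
  have q2 := pih_pos hh (t - p1 - β)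
  rw [← ENNReal.ofReal_mul (by positivity), ← ENNReal.ofReal_mul (by positivity)]
  congr 1
  ring

end Pool.Agent.TH970
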