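import Pool.Agent.TH970.Ball2

namespace Pool.Agent.TH970

open MeasureTheory ProbabilityTheory Set Filter Topology
open scoped ENNReal NNReal

set_option linter.unusedSectionVars false
set_option linter.unusedVariables false

/-- The volume of the `a`-neighbourhood of a dense subset of an interval. -/
lemma vol_thick {Z : Type*} [TopologicalSpace Z] [ConnectedSpace Z] {ι : Type*} {e : ι → Z}
    (he : DenseRange e) {G : Z → ℝ} (hG : Continuous G) (hc : IsCompact (range G)) {a : ℝ}
    (ha : 0 < a) :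
    volume {z | ∃ n, |z - G (e n)| < a} =
      ENNReal.ofReal (2 * a + (⨆ n, G (e n)) + ⨆ n, -G (e n)) := by
  obtain ⟨z0⟩ : Nonempty Z := inferInstance
  have hconn : IsConnected (range G) := by
    rw [← image_univ]
    exact isConnected_univ.image G hG.continuousOn
  have hIcc := eq_Icc_of_connected_compact hconn hc
  set m := sInf (range G) with hm
  set M := sSup (range G) with hM
  have hle : ∀ z, m ≤ G z ∧ G z ≤ M := by
    intro z
    have : G z ∈ Icc m M := hIcc ▸ mem_range_self z
    exact this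
  have hmM : m ≤ M := (hle z0).1.trans (hle z0).2
  have hMm : M ∈ range G := by rw [hIcc]; exact ⟨hmM, le_rfl⟩
  have hmm : m ∈ range G := by rw [hIcc]; exact ⟨le_rfl, hmM⟩
  obtain ⟨zM, hzM⟩ := hMm
  obtain ⟨zm, hzm⟩ := hmm
  have hne : Nonempty ι := he.nonempty
  have e1 : (⨆ n, G (e n)) = M := by
    apply le_antisymm
    · exact ciSup_le fun n => (hle _).2
    · rw [← hzM]
      exact le_iSup_dense he hG hc.bddAbove zM
  have hc' : BddAbove (range (fun z => -G z)) := by
    refine ⟨-m, ?_⟩
    rintro _ ⟨z, rfl⟩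
    simp only
    linarith [(hle z).1]
  have e2 : (⨆ n, -G (e n)) = -m := by
    apply le_antisymm
    · exact ciSup_le fun n => by linarith [(hle (e n)).1]
    · rw [← hzm]
      exact le_iSup_dense he (G := fun z => -G z) hG.neg hc' zm
  have e3 : {z | ∃ n, |z - G (e n)| < a} = Ioo (m - a) (M + a) := by
    ext z
    simp only [Set.mem_ofPred_eq, mem_Ioo]
    constructor
    · rintro ⟨n, hn⟩
      rw [abs_lt] at hn
      have := hle (e n)
      constructor <;> linarith
    · rintro ⟨h1, h2⟩
      -- the nearest point of the interval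
      set p : ℝ := max m (min z M) with hp
      have hpI : p ∈ range G := by
        rw [hIcc]
        exact ⟨le_max_left _ _, max_le hmM (min_le_right _ _)⟩
      have hpz : |z - p| < a := by
        rw [abs_lt]
        rcases le_total z M with h3 | h3
        · rw [hp, min_eq_left h3]
          rcases le_total m z with h4 | h4
          · rw [max_eq_right h4]; constructor <;> linarith
          · rw [max_eq_left h4]; constructor <;> linarith
        · rw [hp, min_eq_right h3, max_eq_right hmM]
          constructor <;> linarith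
      obtain ⟨z1, hz1⟩ := hpI
      have hopen : IsOpen {z2 : Z | |z - G z2| < a} :=
        isOpen_lt (continuous_const.sub hG).abs continuous_const
      obtain ⟨n, hn⟩ := he.exists_mem_open hopen ⟨z1, by
        simp only [Set.mem_ofPred_eq]
        rw [hz1]
        exact hpz⟩
      exact ⟨n, hn⟩
  rw [e3, Real.volume_Ioo, e1, e2]
  congr 1
  ring

lemma connected_nnreal : ConnectedSpace ℝ≥0 := { toPreconnectedSpace := inferInstance, toNonempty := inferInstance }

/-- first times of the pairs -/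
noncomputable def UL (t : ℝ≥0) (n : ℕ × ℕ) : ℝ≥0 := min (dq n.1) (min (dq n.2) t)

/-- second times of the pairs -/
noncomputable def VL (t : ℝ≥0) (n : ℕ × ℕ) : ℝ≥0 := min (dq n.2) t

/-- the maximum of `w u + y s` over `u ≤ s ≤ t`. -/
noncomputable def DL (t : ℝ≥0) (w y : ℝ≥0 → ℝ) : ℝ := ⨆ n : ℕ × ℕ, (w (UL t n) + y (VL t n))

lemma measurable_DL (t : ℝ≥0) :
    Measurable (fun q : (ℝ≥0 → ℝ) × (ℝ≥0 → ℝ) => DL t q.1 q.2) := by
  unfold DL
  refine Measurable.iSup fun n => ?_
  fun_prop

lemma dense_pair : DenseRange (Prod.map dq dq) := dense_dq.prodMap dense_dq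

section
variable {w y : ℝ≥0 → ℝ} {t : ℝ≥0}

lemma range_pair (w y : ℝ≥0 → ℝ) (t : ℝ≥0) :
    range (fun z : ℝ≥0 × ℝ≥0 => w (min z.1 (min z.2 t)) + y (min z.2 t)) =
      (fun z : ℝ≥0 × ℝ≥0 => w (min z.1 (min z.2 t)) + y (min z.2 t)) '' (Icc 0 t ×ˢ Icc 0 t) := by
  ext v
  constructor
  · rintro ⟨z, rfl⟩
    refine ⟨(min z.1 (min z.2 t), min z.2 t), ⟨⟨zero_le, ?_⟩, ⟨zero_le, min_le_right _ _⟩⟩, ?_⟩
    · exact (min_le_right _ _).trans (min_le_right _ _)
    · simp only
      have e1 : min (min z.2 t) t = min z.2 t := min_eq_left (min_le_right _ _)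
      rw [e1, min_eq_left (min_le_right z.1 (min z.2 t))]
  · rintro ⟨z, _, rfl⟩
    exact ⟨z, rfl⟩

lemma cont_pair (hw : Continuous w) (hy : Continuous y) (t : ℝ≥0) :
    Continuous (fun z : ℝ≥0 × ℝ≥0 => w (min z.1 (min z.2 t)) + y (min z.2 t)) := by
  fun_prop

lemma compact_pair (hw : Continuous w) (hy : Continuous y) (t : ℝ≥0) :
    IsCompact (range (fun z : ℝ≥0 × ℝ≥0 => w (min z.1 (min z.2 t)) + y (min z.2 t))) := by
  rw [range_pair]
  exact (isCompact_Icc.prod isCompact_Icc).image (cont_pair hw hy t)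

lemma le_DL (hw : Continuous w) (hy : Continuous y) {u s : ℝ≥0} (hus : u ≤ s) (hst : s ≤ t) :
    w u + y s ≤ DL t w y := by
  have h := le_iSup_dense dense_pair (cont_pair hw hy t) (compact_pair hw hy t).bddAbove (u, s)
  simp only [min_eq_left hst, min_eq_left hus] at h
  exact h

lemma DL_le {c : ℝ} (h : ∀ u s, u ≤ s → s ≤ t → w u + y s ≤ c) : DL t w y ≤ c :=
  ciSup_le fun n => h _ _ (min_le_right _ _) (min_le_right _ _)

end

/-- The volume of the set of bad starting points. -/
lemma vol_hit_L {c y : ℝ≥0 → ℝ} (hc : Continuous c) (hy : Continuous y) (t : ℝ≥0) {a : ℝ}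
    (ha : 0 < a) : volume (Hit (UL t) (VL t) a c y) =
      ENNReal.ofReal (2 * a + DL t c (-y) + DL t (-c) y) := by
  have : ConnectedSpace ℝ≥0 := connected_nnreal
  have h := vol_thick dense_pair (cont_pair hc hy.neg t) (compact_pair hc hy.neg t) ha
  have h1 : Hit (UL t) (VL t) a c y = {z | ∃ n : ℕ × ℕ, |z - (c (UL t n) + (-y) (VL t n))| < a} := by
    ext z
    simp only [Hit, Set.mem_ofPred_eq, Pi.neg_apply]
    refine exists_congr fun n => ?_
    have : z + y (VL t n) - c (UL t n) = z - (c (UL t n) + -y (VL t n)) := by ring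
    rw [this]
  rw [h1]
  refine Eq.trans h ?_
  have e1 : (⨆ n : ℕ × ℕ, (c (min (Prod.map dq dq n).1 (min (Prod.map dq dq n).2 t)) +
      (-y) (min (Prod.map dq dq n).2 t))) = DL t c (-y) := rfl
  have e2 : (⨆ n : ℕ × ℕ, -(c (min (Prod.map dq dq n).1 (min (Prod.map dq dq n).2 t)) +
      (-y) (min (Prod.map dq dq n).2 t))) = DL t (-c) y := by
    unfold DL
    congr 1
    ext n
    simp only [Pi.neg_apply, UL, VL, Prod.map_fst, Prod.map_snd]
    ring
  rw [e1, e2]

end Pool.Agent.TH970
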